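import Pool.Agent.H95.LBD.EnvDef
import Pool.Agent.H5.DF.BK
import Pool.Agent.H5.DG.Explore3

/-!
PROJECT DL (MP_0d9ad5_pr), JOB DL-BkA. Disjoint occurrence, finitely witnessed events, connection
events. `SCn_fw`: a connection (use `Cn.ind`) uses finitely many edges; `disj_fw`: the larger of the two
witnesses (`cut (Bx 0 n) (ω && c) = cut (Bx 0 n) ω && c`, monotone in `n`). `perc_conn` is
`prob_cluster_mem` of `H5/DG/Explore3.lean`; `tau_neg` follows from it by symmetry.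
-/

namespace H95LBD

open H5DF MeasureTheory

variable {d : ℕ}

/-- Disjoint occurrence. -/
def disj (A B : Set (Cfg d)) : Set (Cfg d) :=
  {ω | ∃ c : Cfg d, (fun e => ω e && c e) ∈ A ∧ (fun e => ω e && !c e) ∈ B}

/-- Finitely witnessed events. -/
def Fw (A : Set (Cfg d)) : Prop := ∀ ω ∈ A, ∃ n : ℕ, cut (Bx 0 n) ω ∈ A

lemma BkA_ins_mono {n m : ℕ} (h : n ≤ m) : ins (Bx (0 : V d) n) ⊆ ins (Bx (0 : V d) m) := by
  rintro e ⟨h1, h2⟩
  exact ⟨le_trans h1 h, le_trans h2 h⟩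

lemma disj_inc {A B : Set (Cfg d)} (hA : Inc A) (hB : Inc B) : Inc (disj A B) := by
  rintro ω ω' h ⟨c, h1, h2⟩
  refine ⟨c, hA _ _ ?_ h1, hB _ _ ?_ h2⟩
  · intro e he
    simp only [Bool.and_eq_true] at he ⊢
    exact ⟨h e he.1, he.2⟩
  · intro e he
    simp only [Bool.and_eq_true] at he ⊢
    exact ⟨h e he.1, he.2⟩

lemma disj_fw {A B : Set (Cfg d)} (hA : Inc A) (hB : Inc B) (fA : Fw A) (fB : Fw B) :
    Fw (disj A B) := by
  rintro ω ⟨c, h1, h2⟩
  obtain ⟨n1, g1⟩ := fA _ h1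
  obtain ⟨n2, g2⟩ := fB _ h2
  refine ⟨max n1 n2, c, hA _ _ ?_ g1, hB _ _ ?_ g2⟩
  · intro e he
    rw [cut_true, Bool.and_eq_true] at he
    rw [Bool.and_eq_true, cut_true]
    exact ⟨⟨he.1.1, BkA_ins_mono (le_max_left n1 n2) he.2⟩, he.1.2⟩
  · intro e he
    rw [cut_true, Bool.and_eq_true] at he
    rw [Bool.and_eq_true, cut_true]
    exact ⟨⟨he.1.1, BkA_ins_mono (le_max_right n1 n2) he.2⟩, he.1.2⟩

/-- Some point of the finite set `K` is connected to `y` inside `S`. -/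
def SCn (K : Finset (V d)) (S : Set (V d)) (y : V d) : Set (Cfg d) := {ω | ∃ u ∈ K, Cn S ω u y}

lemma SCn_inc (K : Finset (V d)) (S : Set (V d)) (y : V d) : Inc (SCn K S y) := by
  rintro ω ω' h ⟨u, hu, h1⟩
  exact ⟨u, hu, h1.mono (fun _ hx => hx) h⟩

lemma SCn_fw (K : Finset (V d)) (S : Set (V d)) (y : V d) : Fw (SCn K S y) := by
  rintro ω ⟨u, hu, h⟩
  have key : ∃ n : ℕ, Cn S (cut (Bx 0 n) ω) u y := by
    refine Cn.ind (fun y => ∃ n : ℕ, Cn S (cut (Bx 0 n) ω) u y) ⟨0, Cn.refl _ _ _⟩ ?_ h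
    rintro z s - ⟨n, hn⟩ hz hzs ho
    refine ⟨max n (max (nm z) (nm (z + step s))), ?_⟩
    refine (hn.mono (fun _ hx => hx) ?_).trans (Cn.one ?_ hz hzs)
    · intro e he
      rw [cut_true] at he ⊢
      exact ⟨he.1, BkA_ins_mono (le_max_left _ _) he.2⟩
    · rw [cut_edge]
      exact ⟨ho, mem_Bx0.2 ((le_max_left _ _).trans (le_max_right _ _)),
        mem_Bx0.2 ((le_max_right _ _).trans (le_max_right _ _))⟩
  obtain ⟨n, hn⟩ := key
  exact ⟨n, u, hu, hn⟩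

lemma meas_SCn (K : Finset (V d)) (S : Set (V d)) (y : V d) : MeasurableSet (SCn K S y) := by
  have : SCn K S y = ⋃ u ∈ K, {ω : Cfg d | Cn S ω u y} := by
    ext ω
    simp [SCn]
  rw [this]
  exact Finset.measurableSet_biUnion K fun u _ => meas_Cn S u y

/-- Connection probability of a pair. -/
lemma perc_conn (p : ℝ) (h0 : 0 ≤ p) (h1 : p ≤ 1) (x y : V d) :
    perc d p (SCn {x} Set.univ y) = tau d p (y - x) := by
  have : SCn {x} Set.univ y = {ω : Cfg d | y ∈ cluster ω x} := by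
    ext ω
    simp [SCn, Cn_univ]
  rw [this]
  exact prob_cluster_mem p h0 h1 x y

lemma tau_neg (p : ℝ) (h0 : 0 ≤ p) (h1 : p ≤ 1) (x : V d) : tau d p (-x) = tau d p x := by
  have h := prob_cluster_mem (d := d) p h0 h1 x 0
  rw [zero_sub] at h
  rw [← h]
  unfold tau
  congr 1
  ext ω
  exact ⟨fun h => SimpleGraph.Reachable.symm h, fun h => SimpleGraph.Reachable.symm h⟩

end H95LBD
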