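import Pool.Agent.H95.LBD.Kr
import Pool.Agent.H95.LBD.BkA

/-!
PROJECT DL (MP_0d9ad5_pr). Hypotheses, the boundary sum `phi`, holes.
-/

namespace H95LBD

open H5DF MeasureTheory

variable {d : ℕ}

/-- Two-sided bound for the two-point function at `p0`. -/
def TwoPt (d : ℕ) (p0 a A : ℝ) : Prop :=
  ∀ x : V d, x ≠ 0 → ENNReal.ofReal (a / ‖x‖ ^ (d - 2)) ≤ tau d p0 x ∧
    tau d p0 x ≤ ENNReal.ofReal (A / ‖x‖ ^ (d - 2))

/-- The same with the kernel `kr`, for all `x`. -/
def KB (d : ℕ) (p0 b B : ℝ) : Prop :=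
  ∀ x : V d, ENNReal.ofReal (b * kr x) ≤ tau d p0 x ∧ tau d p0 x ≤ ENNReal.ofReal (B * kr x)

/-- Oriented boundary edges of `S`. -/
noncomputable def bd (S : Finset (V d)) : Finset (V d × Dir d) :=
  (S ×ˢ (Finset.univ : Finset (Dir d))).filter fun b => b.1 + step b.2 ∉ S

/-- The expected number of boundary edges of `S` reached from the box of radius `M` inside `S`. -/
noncomputable def phi (p : ℝ) (M : ℕ) (S : Finset (V d)) : ℝ :=
  ∑ b ∈ bd S, (perc d p).real (SCn (Box d M) (S : Set (V d)) b.1)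

/-- No point of the box of radius `M` is connected to a point of norm at least `n`. -/
def Hole (M n : ℕ) : Set (Cfg d) := {ω | ∀ u ∈ Box d M, ∀ y, n ≤ nm y → y ∉ cluster ω u}

/-- The edges inside the box of radius `n`. -/
noncomputable def EF (d n : ℕ) : Finset (Ed d) :=
  ((Box d n) ×ˢ (Finset.univ : Finset (Fin d))).filter fun e => e.1 + Pi.single e.2 1 ∈ Box d n

lemma mem_EF {n : ℕ} {e : Ed d} : e ∈ EF d n ↔ e ∈ ins (Bx (0 : V d) n) := by
  simp only [EF, Finset.mem_filter, Finset.mem_product, Finset.mem_univ, and_true, mem_Box', ins,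
    mem_Bx0, Set.mem_ofPred_eq]

end H95LBD
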