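import Pool.Agent.H95.LBD.Kr

/-!
PROJECT DL (MP_0d9ad5_pr), JOB DL-SumA. Shells and sums over boxes.
PROOF. `#{|v| = n} = (2n+1)^d - (2n-1)^d ≤ 2 d (2n+1)^(d-1)` (`Box d n \ Box d (n-1)`, `card_Box`), so a
sum of `g (nm v)` over a box is `∑_{k ≤ n} #shell_k * g k` (`Finset.sum_fiberwise` / induction on `n`).
`∑_{k ≤ n} (1+k)^(d-1) / (1+k)^(d-2) = ∑ (1+k) ≤ (1+n)^2`. `pair_sum`: for fixed `u` substitute
`v = u - u'`, `nm v ≤ 2M`, `∑_{v ∈ Box 2M} 1/(1+nm v)^(d-4) ≤ C ∑_{k ≤ 2M} (1+k)^3 ≤ C' M^4`.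
-/

namespace H95LBD

open H5DF MeasureTheory

variable {d : ℕ}

lemma SumA_pow_sub (a b : ℝ) (ha : 0 ≤ a) (hab : a ≤ b) (k : ℕ) :
    b ^ (k + 1) - a ^ (k + 1) ≤ (k + 1) * (b - a) * b ^ k := by
  have hb : 0 ≤ b := ha.trans hab
  induction k with
  | zero => simp
  | succ k ih =>
    have h1 : a ^ (k + 1) ≤ b ^ (k + 1) := pow_le_pow_left₀ ha hab _
    have h2 : b ^ (k + 1 + 1) - a ^ (k + 1 + 1) =
        b * (b ^ (k + 1) - a ^ (k + 1)) + a ^ (k + 1) * (b - a) := by ring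
    have h3 : b * (b ^ (k + 1) - a ^ (k + 1)) ≤ b * ((k + 1) * (b - a) * b ^ k) :=
      mul_le_mul_of_nonneg_left ih hb
    have h4 : a ^ (k + 1) * (b - a) ≤ b ^ (k + 1) * (b - a) :=
      mul_le_mul_of_nonneg_right h1 (by linarith)
    rw [h2]
    refine (add_le_add h3 h4).trans (le_of_eq ?_)
    push_cast
    ring

theorem card_shell (hd : 1 ≤ d) : ∃ C : ℝ, 0 < C ∧ ∀ n : ℕ,
    (((Box d n).filter fun v => nm v = n).card : ℝ) ≤ C * (1 + n) ^ (d - 1) := by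
  obtain ⟨k, rfl⟩ : ∃ k, d = k + 1 := ⟨d - 1, by omega⟩
  refine ⟨2 ^ (k + 1) * (k + 1), by positivity, fun n => ?_⟩
  rw [Nat.add_sub_cancel]
  rcases Nat.eq_zero_or_pos n with rfl | hn
  · have h1 : ((Box (k + 1) 0).filter fun v => nm v = 0).card ≤ (Box (k + 1) 0).card :=
      Finset.card_filter_le _ _
    rw [card_Box] at h1
    simp only [mul_zero, zero_add, one_pow] at h1
    have h2 : (((Box (k + 1) 0).filter fun v => nm v = 0).card : ℝ) ≤ 1 := by exact_mod_cast h1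
    refine h2.trans ?_
    have h3 : (1 : ℝ) ≤ 2 ^ (k + 1) := one_le_pow₀ (by norm_num)
    have h4 : (1 : ℝ) ≤ (k : ℝ) + 1 := by
      have := Nat.cast_nonneg (α := ℝ) k
      linarith
    simp only [Nat.cast_zero, add_zero, one_pow, mul_one]
    nlinarith
  · have hsub : ((Box (k + 1) n).filter fun v => nm v = n) ⊆ Box (k + 1) n \ Box (k + 1) (n - 1) := by
      intro v hv
      rw [Finset.mem_filter] at hv
      rw [Finset.mem_sdiff, mem_Box' (M := n - 1)]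
      refine ⟨hv.1, ?_⟩
      rw [hv.2]
      omega
    have hsub2 : Box (k + 1) (n - 1) ⊆ Box (k + 1) n := by
      intro v hv
      rw [mem_Box'] at hv ⊢
      omega
    have h1 := Finset.card_le_card hsub
    have h2 := Finset.card_sdiff_add_card_eq_card hsub2
    rw [card_Box, card_Box] at h2
    have h3 : ((Box (k + 1) n \ Box (k + 1) (n - 1)).card : ℝ) + (2 * ((n - 1 : ℕ) : ℝ) + 1) ^ (k + 1) =
        (2 * (n : ℝ) + 1) ^ (k + 1) := by exact_mod_cast h2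
    have h4 : ((n - 1 : ℕ) : ℝ) = n - 1 := by
      rw [Nat.cast_sub hn]
      simp
    rw [h4] at h3
    have hn1 : (1 : ℝ) ≤ n := by exact_mod_cast hn
    have h5 := SumA_pow_sub (2 * ((n : ℝ) - 1) + 1) (2 * (n : ℝ) + 1) (by linarith) (by linarith) k
    have h6 : (2 * (n : ℝ) + 1) ^ k ≤ 2 ^ k * (1 + (n : ℝ)) ^ k := by
      rw [← mul_pow]
      exact pow_le_pow_left₀ (by linarith) (by linarith) _
    have h7 : (((Box (k + 1) n).filter fun v => nm v = n).card : ℝ) ≤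
        ((Box (k + 1) n \ Box (k + 1) (n - 1)).card : ℝ) := by exact_mod_cast h1
    have h8 : (0 : ℝ) ≤ ((k : ℝ) + 1) * 2 := by positivity
    calc (((Box (k + 1) n).filter fun v => nm v = n).card : ℝ)
        ≤ ((Box (k + 1) n \ Box (k + 1) (n - 1)).card : ℝ) := h7
      _ = (2 * (n : ℝ) + 1) ^ (k + 1) - (2 * ((n : ℝ) - 1) + 1) ^ (k + 1) := by linarith
      _ ≤ ((k : ℝ) + 1) * (2 * (n : ℝ) + 1 - (2 * ((n : ℝ) - 1) + 1)) * (2 * (n : ℝ) + 1) ^ k := h5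
      _ = (((k : ℝ) + 1) * 2) * (2 * (n : ℝ) + 1) ^ k := by ring
      _ ≤ (((k : ℝ) + 1) * 2) * (2 ^ k * (1 + (n : ℝ)) ^ k) := mul_le_mul_of_nonneg_left h6 h8
      _ = 2 ^ (k + 1) * (k + 1) * (1 + (n : ℝ)) ^ k := by ring

lemma SumA_fiber (g : ℕ → ℝ) (n : ℕ) : ∑ v ∈ Box d n, g (nm v) =
    ∑ k ∈ Finset.range (n + 1), (((Box d k).filter fun v => nm v = k).card : ℝ) * g k := by
  rw [← Finset.sum_fiberwise_of_maps_to (s := Box d n) (t := Finset.range (n + 1)) (g := nm)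
    (fun v hv => by
      rw [mem_Box'] at hv
      rw [Finset.mem_range]
      omega)]
  apply Finset.sum_congr rfl
  intro k hk
  rw [Finset.mem_range] at hk
  have h1 : (Box d n).filter (fun v => nm v = k) = (Box d k).filter (fun v => nm v = k) := by
    ext v
    rw [Finset.mem_filter, Finset.mem_filter, mem_Box', mem_Box']
    constructor
    · rintro ⟨-, h⟩
      exact ⟨h.le, h⟩
    · rintro ⟨-, h⟩
      exact ⟨by omega, h⟩
  rw [h1, ← nsmul_eq_mul, ← Finset.sum_const]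
  apply Finset.sum_congr rfl
  intro v hv
  rw [Finset.mem_filter] at hv
  rw [hv.2]

/-- sums of powers of `1 / (1 + |v|)` over a box -/
lemma SumA_box (hd : 1 ≤ d) : ∃ C : ℝ, 0 < C ∧ ∀ n p q : ℕ, p + (q + 1) = d →
    ∑ v ∈ Box d n, 1 / (1 + (nm v : ℝ)) ^ p ≤ C * (1 + (n : ℝ)) ^ (q + 1) := by
  obtain ⟨C, hC, h⟩ := card_shell (d := d) hd
  refine ⟨C, hC, fun n p q hpq => ?_⟩
  rw [SumA_fiber (d := d) (fun k => 1 / (1 + (k : ℝ)) ^ p) n]
  have h1 : ∀ k ∈ Finset.range (n + 1),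
      (((Box d k).filter fun v => nm v = k).card : ℝ) * (1 / (1 + (k : ℝ)) ^ p) ≤
        C * (1 + (n : ℝ)) ^ q := by
    intro k hk
    rw [Finset.mem_range] at hk
    have hk' : (k : ℝ) ≤ n := by exact_mod_cast (by omega : k ≤ n)
    have hk0 : (0 : ℝ) < 1 + k := by positivity
    have h2 := h k
    have e1 : d - 1 = p + q := by omega
    rw [e1] at h2
    calc (((Box d k).filter fun v => nm v = k).card : ℝ) * (1 / (1 + (k : ℝ)) ^ p)
        ≤ (C * (1 + (k : ℝ)) ^ (p + q)) * (1 / (1 + (k : ℝ)) ^ p) :=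
          mul_le_mul_of_nonneg_right h2 (by positivity)
      _ = C * (1 + (k : ℝ)) ^ q := by
          rw [pow_add]
          have h3 : (1 + (k : ℝ)) ^ p ≠ 0 := by positivity
          field_simp
      _ ≤ C * (1 + (n : ℝ)) ^ q :=
          mul_le_mul_of_nonneg_left (pow_le_pow_left₀ hk0.le (by linarith) _) hC.le
  refine (Finset.sum_le_sum h1).trans (le_of_eq ?_)
  rw [Finset.sum_const, Finset.card_range, nsmul_eq_mul]
  push_cast
  ring

theorem sum_ball (hd : 5 ≤ d) : ∃ C : ℝ, 0 < C ∧ ∀ n : ℕ,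
    ∑ v ∈ Box d n, kr v ≤ C * (1 + (n : ℝ)) ^ 2 := by
  obtain ⟨C, hC, h⟩ := SumA_box (d := d) (by omega)
  exact ⟨C, hC, fun n => h n (d - 2) 1 (by omega)⟩

theorem card_Box_le (M : ℕ) (hM : 1 ≤ M) : ((Box d M).card : ℝ) ≤ 3 ^ d * (M : ℝ) ^ d := by
  rw [card_Box, ← mul_pow]
  push_cast
  have h1 : (1 : ℝ) ≤ M := by exact_mod_cast hM
  exact pow_le_pow_left₀ (by positivity) (by linarith) _

theorem pair_sum (hd : 5 ≤ d) : ∃ C : ℝ, 0 < C ∧ ∀ M : ℕ, 1 ≤ M →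
    ∑ u ∈ Box d M, ∑ u' ∈ Box d M, 1 / (1 + (nm (u - u') : ℝ)) ^ (d - 4) ≤
      C * (M : ℝ) ^ (d + 4) := by
  obtain ⟨C, hC, h⟩ := SumA_box (d := d) (by omega)
  refine ⟨3 ^ d * (C * 81), by positivity, fun M hM => ?_⟩
  have hM1 : (1 : ℝ) ≤ M := by exact_mod_cast hM
  have h1 : ∀ u ∈ Box d M, ∑ u' ∈ Box d M, 1 / (1 + (nm (u - u') : ℝ)) ^ (d - 4) ≤
      C * 81 * (M : ℝ) ^ 4 := by
    intro u hu
    rw [mem_Box'] at hu
    have h2 : ∑ u' ∈ Box d M, 1 / (1 + (nm (u - u') : ℝ)) ^ (d - 4) =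
        ∑ v ∈ (Box d M).image (fun u' => u - u'), 1 / (1 + (nm v : ℝ)) ^ (d - 4) := by
      rw [Finset.sum_image]
      intro x _ y _ hxy
      exact sub_right_injective hxy
    have h3 : (Box d M).image (fun u' => u - u') ⊆ Box d (2 * M) := by
      intro v hv
      rw [Finset.mem_image] at hv
      obtain ⟨u', hu', rfl⟩ := hv
      rw [mem_Box'] at hu' ⊢
      have := nm_sub u u'
      omega
    rw [h2]
    refine (Finset.sum_le_sum_of_subset_of_nonneg h3 (fun v _ _ => by positivity)).trans ?_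
    refine (h (2 * M) (d - 4) 3 (by omega)).trans ?_
    have h4 : (1 + ((2 * M : ℕ) : ℝ)) ^ (3 + 1) ≤ 81 * (M : ℝ) ^ 4 := by
      have h5 : (1 + ((2 * M : ℕ) : ℝ)) ≤ 3 * (M : ℝ) := by
        push_cast
        linarith
      refine (pow_le_pow_left₀ (by positivity) h5 _).trans (le_of_eq ?_)
      ring
    calc C * (1 + ((2 * M : ℕ) : ℝ)) ^ (3 + 1) ≤ C * (81 * (M : ℝ) ^ 4) :=
          mul_le_mul_of_nonneg_left h4 hC.le
      _ = C * 81 * (M : ℝ) ^ 4 := by ring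
  refine (Finset.sum_le_sum h1).trans ?_
  rw [Finset.sum_const, nsmul_eq_mul]
  have h6 : (0 : ℝ) ≤ C * 81 * (M : ℝ) ^ 4 := by positivity
  refine (mul_le_mul_of_nonneg_right (card_Box_le M hM) h6).trans (le_of_eq ?_)
  rw [pow_add]
  ring

end H95LBD
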