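import Pool.Agent.H95.LBD.PathDef

/-!
PROJECT DL (MP_0d9ad5_pr), JOB DL-PathB. Existence of simple open paths; measurability.
PROOF. `path_exists`: `Cn_iff_walk` (in the graph `G (cut (Bx 0 n) ω)` or `G ω`), make the walk a path
(`SimpleGraph.Walk.toPath`, `bypass`: its support is a subset), convert to the list of directions by induction
(`pvs x l = support`). `popen_meas`: induction on the list, `meas_open`.
-/

namespace H95LBD

open H5DF MeasureTheory

variable {d : ℕ}

lemma pathB_walk (ω : Cfg d) {x y : V d} (P : (G ω).Walk x y) :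
    ∃ l : List (Dir d), popen ω x l ∧ pend x l = y ∧ pvs x l = P.support := by
  induction P with
  | nil => exact ⟨[], trivial, rfl, rfl⟩
  | @cons a b c h p ih =>
    obtain ⟨s, rfl, hs⟩ := h
    obtain ⟨l, h1, h2, h3⟩ := ih
    refine ⟨s :: l, ⟨hs, h1⟩, h2, ?_⟩
    rw [SimpleGraph.Walk.support_cons, ← h3]
    rfl

lemma path_exists (ω : Cfg d) (n : ℕ) (x y : V d) (hx : nm x ≤ n) (h : Cn (Bx 0 n) ω x y) :
    ∃ l : List (Dir d), popen ω x l ∧ pend x l = y ∧ (∀ v ∈ pvs x l, nm v ≤ n) ∧
      (pvs x l).Nodup := by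
  classical
  obtain ⟨P, hP⟩ := (Cn_iff_walk (mem_Bx0.2 hx)).1 h
  obtain ⟨l, h1, h2, h3⟩ := pathB_walk ω P.bypass
  refine ⟨l, h1, h2, ?_, ?_⟩
  · intro v hv
    rw [h3] at hv
    exact mem_Bx0.1 (hP v (P.support_bypass_subset_support hv))
  · rw [h3]
    exact P.bypass_isPath.support_nodup

lemma popen_meas (x : V d) (l : List (Dir d)) : MeasurableSet {ω : Cfg d | popen ω x l} := by
  induction l generalizing x with
  | nil => exact MeasurableSet.univ
  | cons t l ih => exact (meas_open (edge x t)).inter (ih (x + step t))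

lemma start_mem_pvs (x : V d) (l : List (Dir d)) : x ∈ pvs x l := by
  cases l with
  | nil => simp [pvs]
  | cons t l => simp [pvs]

lemma pend_mem_pvs (x : V d) (l : List (Dir d)) : pend x l ∈ pvs x l := by
  induction l generalizing x with
  | nil => simp [pvs, pend]
  | cons t l ih =>
    simp only [pvs, pend, List.mem_cons]
    exact Or.inr (ih _)

end H95LBD
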