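import Pool.Agent.H95.LBD.EnvDef

/-!
PROJECT DL (MP_0d9ad5_pr), JOB DL-LawC. Independence of events depending on disjoint sets of edges.
PROOF. Copy of `meas_of_dep`, `indep_split`, `indep_fst` of `H5/DG/Indep.lean` with `Bool` replaced by a
general space `κ` (for the default value `false` use some `k0 : κ`; `κ` is nonempty as `ν` is a
probability measure).
-/

namespace H95LBD

open H5DF MeasureTheory

variable {d : ℕ}

section Indep

variable {ι κ : Type*} [MeasurableSpace κ]

/-- A measurable event which depends only on the coordinates in `T` belongs to the sigma-algebra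
generated by them. -/
lemma lawC_meas_of_dep (k0 : κ) (T : Set ι) (S : Set (ι → κ)) (hS : MeasurableSet S)
    (hdep : ∀ ω ω' : ι → κ, (∀ e ∈ T, ω e = ω' e) → (ω ∈ S → ω' ∈ S)) :
    MeasurableSet[⨆ i ∈ T, MeasurableSpace.comap (fun ω : ι → κ => ω i) inferInstance] S := by
  classical
  let ρ : (ι → κ) → (ι → κ) := fun ω e => if e ∈ T then ω e else k0
  have h1 : S = ρ ⁻¹' S := by
    ext ω
    constructor
    · exact hdep ω (ρ ω) fun e he => by simp [ρ, he]
    · exact hdep (ρ ω) ω fun e he => by simp [ρ, he]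
  rw [h1]
  have h2 : @Measurable _ _
      (⨆ i ∈ T, MeasurableSpace.comap (fun ω : ι → κ => ω i) inferInstance) _ ρ := by
    refine @measurable_pi_lambda _ _ _
      (⨆ i ∈ T, MeasurableSpace.comap (fun ω : ι → κ => ω i) inferInstance) _ ρ fun e => ?_
    by_cases he : e ∈ T
    · have h3 : (fun ω => ρ ω e) = fun ω : ι → κ => ω e := by
        funext ω
        simp [ρ, he]
      rw [h3]
      exact (comap_measurable _).mono (le_iSup₂_of_le e he le_rfl) le_rfl
    · have h3 : (fun ω => ρ ω e) = fun _ : ι → κ => k0 := by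
        funext ω
        simp [ρ, he]
      rw [h3]
      exact measurable_const
  exact h2 hS

/-- Events depending on disjoint sets of coordinates are independent. -/
theorem indep_gen (ν : Measure κ) [IsProbabilityMeasure ν] (T : Set ι) (S A : Set (ι → κ))
    (hS : MeasurableSet S) (hA : MeasurableSet A)
    (hdS : ∀ ω ω' : ι → κ, (∀ e ∈ T, ω e = ω' e) → (ω ∈ S → ω' ∈ S))
    (hdA : ∀ ω ω' : ι → κ, (∀ e, e ∉ T → ω e = ω' e) → (ω ∈ A → ω' ∈ A)) :
    (Measure.infinitePi fun _ : ι => ν) (S ∩ A) =
      (Measure.infinitePi fun _ : ι => ν) S * (Measure.infinitePi fun _ : ι => ν) A := by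
  obtain ⟨k0⟩ : Nonempty κ := nonempty_of_isProbabilityMeasure ν
  have hi := ProbabilityTheory.iIndepFun_infinitePi (P := fun _ : ι => ν)
    (X := fun _ b => b) (fun _ => measurable_id)
  have hI := ProbabilityTheory.indep_iSup_of_disjoint (S := T) (T := Tᶜ)
    (m := fun i : ι => MeasurableSpace.comap (fun ω : ι → κ => ω i) inferInstance)
    (fun i => (measurable_pi_apply i).comap_le) hi disjoint_compl_right
  exact (ProbabilityTheory.Indep_iff _ _ _).1 hI S A (lawC_meas_of_dep k0 T S hS hdS)
    (lawC_meas_of_dep k0 Tᶜ A hA hdA)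

/-- `S` depends only on the coordinates of `X` in `T`, `E` only on the coordinates of `X` off `T`
and on `η`. -/
theorem indep_gen_prod (ν : Measure κ) [IsProbabilityMeasure ν] {Y : Type*} [MeasurableSpace Y]
    (ν' : Measure Y) [IsProbabilityMeasure ν'] (T : Set ι) (S : Set (ι → κ))
    (E : Set ((ι → κ) × Y)) (hS : MeasurableSet S) (hE : MeasurableSet E)
    (hdS : ∀ ω ω' : ι → κ, (∀ e ∈ T, ω e = ω' e) → (ω ∈ S → ω' ∈ S))
    (hdE : ∀ (η : Y) (ω ω' : ι → κ), (∀ e, e ∉ T → ω e = ω' e) → ((ω, η) ∈ E → (ω', η) ∈ E)) :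
    ((Measure.infinitePi fun _ : ι => ν).prod ν') {q | q.1 ∈ S ∧ q ∈ E} =
      (Measure.infinitePi fun _ : ι => ν) S * ((Measure.infinitePi fun _ : ι => ν).prod ν') E := by
  have hAE : MeasurableSet {q : (ι → κ) × Y | q.1 ∈ S ∧ q ∈ E} :=
    (measurable_fst hS).inter hE
  rw [Measure.prod_apply_symm hAE, Measure.prod_apply_symm hE, ← lintegral_const_mul _
    (measurable_measure_prodMk_right hE)]
  refine lintegral_congr fun η => ?_
  exact indep_gen ν T S ((fun ω => (ω, η)) ⁻¹' E) hS (measurable_prodMk_right hE) hdS (hdE η)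

end Indep

end H95LBD
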