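import Pool.Agent.H95.LBD.BkA

/-!
PROJECT DL (MP_0d9ad5_pr), JOB DL-BkB. The BK inequality for increasing finitely witnessed events on
the whole lattice, from `bk_bern` (finite product).
PROOF. `A_n := {ω | cut (Bx 0 n) ω ∈ A}` increases to `A` (increasing in `n` as `A` is increasing),
it depends only on the edges in `ins (Bx 0 n)` (a finite set), the same for `B`, and
`disj A B = ⋃ n, disj A_n B_n`. `bk_bern` for `A_n`, `B_n` on the finite set of edges `ins (Bx 0 n)`
(push `perc` by `Measure.infinitePi_map_restrict'` as in `live_le` of `H5/DF/Arms.lean`: extend a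
configuration on the finite set by `false`), then `n → ∞` (`Monotone.measure_iUnion`).
-/

namespace H95LBD

open H5DF MeasureTheory

variable {d : ℕ}

lemma BkB_ins_sub {n : ℕ} {e : Ed d} (h : e ∈ ins (Bx (0 : V d) n)) : e ∈ EBox d n := by
  have h1 : nm e.1 ≤ n := mem_Bx0.1 h.1
  change e.1 ∈ Box d (n + 1)
  rw [mem_Box']
  omega

lemma BkB_cut_restrict (n : ℕ) (ω : Cfg d) :
    cut (Bx (0 : V d) n) (exE n ((EBox d n).domRestrict ω)) = cut (Bx 0 n) ω := by
  funext e
  apply Bool.eq_iff_iff.2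
  rw [cut_true, cut_true]
  constructor
  · rintro ⟨h1, h2⟩
    rw [exE_restrict n ω e (BkB_ins_sub h2)] at h1
    exact ⟨h1, h2⟩
  · rintro ⟨h1, h2⟩
    rw [exE_restrict n ω e (BkB_ins_sub h2)]
    exact ⟨h1, h2⟩

lemma BkB_cut_mono {n m : ℕ} (h : n ≤ m) {ω ω' : Cfg d} (hω : ∀ e, ω e = true → ω' e = true)
    (e : Ed d) (he : cut (Bx (0 : V d) n) ω e = true) : cut (Bx (0 : V d) m) ω' e = true := by
  rw [cut_true] at he ⊢
  refine ⟨hω e he.1, ?_, ?_⟩
  · exact mem_Bx0.2 ((mem_Bx0.1 he.2.1).trans h)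
  · exact mem_Bx0.2 ((mem_Bx0.1 he.2.2).trans h)

/-- The local version of an event. -/
def BkB_loc (n : ℕ) (A : Set (Cfg d)) : Set (Cfg d) := {ω | cut (Bx 0 n) ω ∈ A}

lemma BkB_loc_sub (n : ℕ) {A : Set (Cfg d)} (hA : Inc A) : BkB_loc n A ⊆ A := by
  intro ω hω
  exact hA _ _ (fun e he => (cut_true.1 he).1) hω

lemma BkB_loc_mono {A : Set (Cfg d)} (hA : Inc A) {n m : ℕ} (h : n ≤ m) :
    BkB_loc n A ⊆ BkB_loc m A := by
  intro ω hω
  exact hA _ _ (fun e he => BkB_cut_mono h (fun _ h => h) e he) hω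

lemma BkB_disj_mono {A B A' B' : Set (Cfg d)} (hA : A ⊆ A') (hB : B ⊆ B') :
    disj A B ⊆ disj A' B' := by
  rintro ω ⟨c, h1, h2⟩
  exact ⟨c, hA h1, hB h2⟩

lemma BkB_fin (p : ℝ) (h0 : 0 ≤ p) (h1 : p ≤ 1) (A B : Set (Cfg d)) (hA : Inc A) (hB : Inc B)
    (n : ℕ) : perc d p (disj (BkB_loc n A) (BkB_loc n B)) ≤
      perc d p (BkB_loc n A) * perc d p (BkB_loc n B) := by
  classical
  have hpr := isProb_perc (d := d) p h0 h1
  have hbp := isProb_bern h0 h1
  have hmap := Measure.infinitePi_map_restrict' (μ := fun _ : Ed d => bern p) (I := EBox d n)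
  have hmeas : ∀ S : Set (EBox d n → Bool), MeasurableSet S := fun S => S.toFinite.measurableSet
  have hrm : Measurable ((EBox d n).domRestrict : Cfg d → (EBox d n → Bool)) :=
    Set.measurable_restrict _
  have key : ∀ C : Set (Cfg d), Inc C →
      (∀ a b : EBox d n → Bool, (∀ i, a i = true → b i = true) →
        a ∈ {a : EBox d n → Bool | cut (Bx 0 n) (exE n a) ∈ C} →
        b ∈ {a : EBox d n → Bool | cut (Bx 0 n) (exE n a) ∈ C}) ∧
      perc d p (BkB_loc n C) = (Measure.infinitePi fun _ : EBox d n => bern p)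
        {a : EBox d n → Bool | cut (Bx 0 n) (exE n a) ∈ C} := by
    intro C hC
    constructor
    · intro a b hab ha
      refine hC _ _ (fun e he => BkB_cut_mono le_rfl ?_ e he) ha
      intro e he
      by_cases h : e ∈ EBox d n
      · simp only [exE, h, dif_pos] at he ⊢
        exact hab _ he
      · simp [exE, h] at he
    · have hpre : BkB_loc n C = (EBox d n).domRestrict ⁻¹'
          {a : EBox d n → Bool | cut (Bx 0 n) (exE n a) ∈ C} := by
        ext ω
        simp only [Set.mem_preimage, Set.mem_ofPred_eq, BkB_loc, BkB_cut_restrict]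
      rw [hpre, ← hmap, Measure.map_apply hrm (hmeas _)]
      rfl
  obtain ⟨mA, eA⟩ := key A hA
  obtain ⟨mB, eB⟩ := key B hB
  have hbk := bk_bern p h0 h1 _ _ mA mB
  rw [eA, eB]
  refine le_trans ?_ hbk
  have hsub : disj (BkB_loc n A) (BkB_loc n B) ⊆ (EBox d n).domRestrict ⁻¹'
      {ω : EBox d n → Bool | ∃ c : EBox d n → Bool,
        (fun i => ω i && c i) ∈ {a : EBox d n → Bool | cut (Bx 0 n) (exE n a) ∈ A} ∧
        (fun i => ω i && !c i) ∈ {a : EBox d n → Bool | cut (Bx 0 n) (exE n a) ∈ B}} := by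
    rintro ω ⟨c, hc1, hc2⟩
    refine ⟨(EBox d n).domRestrict c, ?_, ?_⟩
    · have h := BkB_cut_restrict n (fun e => ω e && c e)
      have hc1' : cut (Bx 0 n) (fun e => ω e && c e) ∈ A := hc1
      rw [← h] at hc1'
      exact hc1'
    · have h := BkB_cut_restrict n (fun e => ω e && !c e)
      have hc2' : cut (Bx 0 n) (fun e => ω e && !c e) ∈ B := hc2
      rw [← h] at hc2'
      exact hc2'
  refine (measure_mono hsub).trans (le_of_eq ?_)
  rw [← hmap, Measure.map_apply hrm (hmeas _)]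
  rfl

theorem bk_inf (p : ℝ) (h0 : 0 ≤ p) (h1 : p ≤ 1) (A B : Set (Cfg d)) (hA : Inc A) (hB : Inc B)
    (fA : Fw A) (fB : Fw B) : perc d p (disj A B) ≤ perc d p A * perc d p B := by
  have hU : disj A B ⊆ ⋃ n, disj (BkB_loc n A) (BkB_loc n B) := by
    rintro ω ⟨c, h2, h3⟩
    obtain ⟨n, hn⟩ := fA _ h2
    obtain ⟨m, hm⟩ := fB _ h3
    refine Set.mem_iUnion.2 ⟨max n m, c, ?_, ?_⟩
    · exact BkB_loc_mono hA (le_max_left n m) hn
    · exact BkB_loc_mono hB (le_max_right n m) hm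
  have hmono : Monotone fun n : ℕ => disj (BkB_loc n A) (BkB_loc n B) := fun n m h =>
    BkB_disj_mono (BkB_loc_mono hA h) (BkB_loc_mono hB h)
  refine (measure_mono hU).trans ?_
  rw [hmono.measure_iUnion]
  refine iSup_le fun n => (BkB_fin p h0 h1 A B hA hB n).trans ?_
  exact mul_le_mul' (measure_mono (BkB_loc_sub n hA)) (measure_mono (BkB_loc_sub n hB))

end H95LBD
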