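import Pool.Agent.H95.LBD.BkA

/-!
PROJECT DL (MP_0d9ad5_pr), JOB DL-DecA. Tree decomposition (deterministic).
PROOF. Take a path `P` (no repeated vertex) from `w` to `u` and a path `Q` from `u'` to `w`; `v` = first
vertex of `Q` on `P`; the part of `Q` before `v` and the two parts of `P` at `v` are pairwise
edge-disjoint. `c e := true` iff the edge `s(x, x + e_i)`, `e = (x,i)`, is in the first part (see
`two_arms` in `H5/DF/Arms.lean`, `sym_edge`).
-/

namespace H95LBD

open H5DF MeasureTheory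

variable {d : ℕ}

/-- The unordered pair of ends of an edge. -/
def decA_sym (e : Ed d) : Sym2 (V d) := s(e.1, e.1 + Pi.single e.2 1)

lemma decA_tr {ω ω' : Cfg d} {x y : V d} (R : (G ω).Walk x y)
    (h : ∀ e : Ed d, ω e = true → decA_sym e ∈ R.edges → ω' e = true) :
    (G ω').Reachable x y := by
  refine ⟨R.transfer _ ?_⟩
  intro e he
  have hG := R.edges_subset_edgeSet he
  induction e with
  | h x y =>
    rw [SimpleGraph.mem_edgeSet] at hG ⊢
    obtain ⟨u, hu1, hu2⟩ := hG
    refine ⟨u, hu1, h _ hu2 ?_⟩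
    rw [decA_sym, sym_edge, ← hu1]
    exact he

lemma decA_first {α : Type*} {H : SimpleGraph α} (S : Set α) {x y : α} (Q : H.Walk x y)
    (hy : y ∈ S) : ∃ v ∈ S, ∃ R : H.Walk x v, ∀ e ∈ R.edges, ∃ a ∈ e, a ∉ S := by
  classical
  induction Q with
  | nil => exact ⟨_, hy, SimpleGraph.Walk.nil, by simp⟩
  | @cons x b y h Q ih =>
    by_cases hx : x ∈ S
    · exact ⟨x, hx, SimpleGraph.Walk.nil, by simp⟩
    · obtain ⟨v, hv, R, hR⟩ := ih hy
      refine ⟨v, hv, SimpleGraph.Walk.cons h R, ?_⟩
      intro e he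
      rw [SimpleGraph.Walk.edges_cons, List.mem_cons] at he
      rcases he with rfl | he
      · exact ⟨x, by simp, hx⟩
      · exact hR e he

theorem tree_dec (u u' w : V d) :
    SCn {u} Set.univ w ∩ SCn {u'} Set.univ w ⊆
      ⋃ v : V d, disj (SCn {u} Set.univ v) (disj (SCn {u'} Set.univ v) (SCn {v} Set.univ w)) := by
  classical
  rintro ω ⟨⟨u0, hu0, h1⟩, ⟨u1, hu1, h2⟩⟩
  rw [Finset.mem_singleton] at hu0 hu1
  subst hu0
  subst hu1
  rw [Cn_univ] at h1 h2
  obtain ⟨P, hP⟩ := (SimpleGraph.Reachable.symm h1).exists_isPath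
  obtain ⟨Q⟩ := h2
  obtain ⟨v, hv, R, hR⟩ := decA_first {z | z ∈ P.support} Q P.start_mem_support
  have hv' : v ∈ P.support := hv
  have hRP : ∀ e ∈ R.edges, e ∉ P.edges := by
    intro e he heP
    obtain ⟨a, ha, haS⟩ := hR e he
    exact haS (SimpleGraph.Walk.mem_support_of_mem_edges heP ha)
  have hspec := P.take_spec hv'
  have hnd : ((P.takeUntil v hv').edges ++ (P.dropUntil v hv').edges).Nodup := by
    rw [← SimpleGraph.Walk.edges_append, hspec]
    exact hP.isTrail.edges_nodup
  have hdis : ∀ e ∈ (P.takeUntil v hv').edges, e ∉ (P.dropUntil v hv').edges := by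
    intro e he he'
    exact (List.disjoint_of_nodup_append hnd) he he'
  have hsubT : ∀ e ∈ (P.takeUntil v hv').edges, e ∈ P.edges := by
    intro e he
    rw [← hspec, SimpleGraph.Walk.edges_append]
    exact List.mem_append_left _ he
  have hsubD : ∀ e ∈ (P.dropUntil v hv').edges, e ∈ P.edges := by
    intro e he
    rw [← hspec, SimpleGraph.Walk.edges_append]
    exact List.mem_append_right _ he
  rw [Set.mem_iUnion]
  refine ⟨v, fun e => decide (decA_sym e ∈ (P.dropUntil v hv').edges), ?_, ?_⟩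
  · refine ⟨_, Finset.mem_singleton_self _, ?_⟩
    rw [Cn_univ]
    refine SimpleGraph.Reachable.symm (decA_tr (P.dropUntil v hv') ?_)
    intro e h1 h2
    simp [h1, h2]
  · refine ⟨fun e => decide (decA_sym e ∈ R.edges), ?_, ?_⟩
    · refine ⟨_, Finset.mem_singleton_self _, ?_⟩
      rw [Cn_univ]
      refine decA_tr R ?_
      intro e h1 h2
      have h3 : decA_sym e ∉ (P.dropUntil v hv').edges := fun h => hRP _ h2 (hsubD _ h)
      simp [h1, h2, h3]
    · refine ⟨_, Finset.mem_singleton_self _, ?_⟩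
      rw [Cn_univ]
      refine SimpleGraph.Reachable.symm (decA_tr (P.takeUntil v hv') ?_)
      intro e h1 h2
      have h3 : decA_sym e ∉ (P.dropUntil v hv').edges := hdis _ h2
      have h4 : decA_sym e ∉ R.edges := fun h => hRP _ h (hsubT _ h2)
      simp [h1, h3, h4]

end H95LBD
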