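import Pool.Agent.H95.LBD.Setup

/-!
PROJECT DL (MP_0d9ad5_pr), JOB DL-TauK.
PROOF. `‖x‖ = nm x` (`norm_eq_nm`), `nm x ≥ 1` for `x ≠ 0`: `kr x ≤ 1/nm^(d-2) ≤ 2^(d-2) kr x`;
`tau 0 = 1`, `kr 0 = 1`. `b = min a 1`, `B = max (2^(d-2) * max A 0) 1`.
-/

namespace H95LBD

open H5DF MeasureTheory

variable {d : ℕ}

lemma tau_zero (p : ℝ) (h0 : 0 ≤ p) (h1 : p ≤ 1) : tau d p 0 = 1 := by
  have := isProb_bern h0 h1
  have hP : IsProbabilityMeasure (perc d p) := by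
    unfold perc
    infer_instance
  have h : {ω : Cfg d | (0 : V d) ∈ cluster ω 0} = Set.univ := by
    ext ω
    simp only [Set.mem_ofPred_eq, Set.mem_univ, iff_true]
    exact SimpleGraph.Reachable.refl _
  rw [tau, h, measure_univ]

lemma tauK_kr_zero : kr (0 : V d) = 1 := by
  simp [kr, nm_zero]

lemma tauK_kr_le {x : V d} (hx : x ≠ 0) : kr x ≤ 1 / ‖x‖ ^ (d - 2) := by
  have h1 : 1 ≤ nm x := Nat.one_le_iff_ne_zero.2 fun h => hx (nm_eq_zero.1 h)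
  have h2 : (1 : ℝ) ≤ nm x := by exact_mod_cast h1
  rw [norm_eq_nm, kr]
  apply one_div_le_one_div_of_le (by positivity)
  exact pow_le_pow_left₀ (by linarith) (by linarith) _

lemma tauK_le_kr {x : V d} (hx : x ≠ 0) : 1 / ‖x‖ ^ (d - 2) ≤ 2 ^ (d - 2) * kr x := by
  have h1 : 1 ≤ nm x := Nat.one_le_iff_ne_zero.2 fun h => hx (nm_eq_zero.1 h)
  have h2 : (1 : ℝ) ≤ nm x := by exact_mod_cast h1
  rw [norm_eq_nm, kr, mul_one_div, div_le_div_iff₀ (by positivity) (by positivity), one_mul,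
    ← mul_pow]
  exact pow_le_pow_left₀ (by linarith) (by linarith) _

theorem kb_of_twoPt (p0 a A : ℝ) (h0 : 0 ≤ p0) (h1 : p0 ≤ 1) (ha : 0 < a) (h : TwoPt d p0 a A) :
    ∃ b B : ℝ, 0 < b ∧ 0 < B ∧ KB d p0 b B := by
  refine ⟨min a 1, max (2 ^ (d - 2) * max A 0) 1, lt_min ha one_pos, lt_max_of_lt_right one_pos,
    fun x => ?_⟩
  by_cases hx : x = 0
  · subst hx
    rw [tau_zero p0 h0 h1, tauK_kr_zero, mul_one, mul_one]
    constructor
    · rw [← ENNReal.ofReal_one]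
      exact ENNReal.ofReal_le_ofReal (min_le_right _ _)
    · rw [← ENNReal.ofReal_one]
      exact ENNReal.ofReal_le_ofReal (le_max_right _ _)
  · obtain ⟨h2, h3⟩ := h x hx
    have hk := kr_pos x
    have hn : (0 : ℝ) ≤ 1 / ‖x‖ ^ (d - 2) := by positivity
    constructor
    · refine le_trans (ENNReal.ofReal_le_ofReal ?_) h2
      calc min a 1 * kr x ≤ a * kr x := mul_le_mul_of_nonneg_right (min_le_left _ _) hk.le
        _ ≤ a * (1 / ‖x‖ ^ (d - 2)) := mul_le_mul_of_nonneg_left (tauK_kr_le hx) ha.le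
        _ = a / ‖x‖ ^ (d - 2) := mul_one_div _ _
    · refine h3.trans (ENNReal.ofReal_le_ofReal ?_)
      calc A / ‖x‖ ^ (d - 2) = A * (1 / ‖x‖ ^ (d - 2)) := (mul_one_div _ _).symm
        _ ≤ max A 0 * (1 / ‖x‖ ^ (d - 2)) := mul_le_mul_of_nonneg_right (le_max_left _ _) hn
        _ ≤ max A 0 * (2 ^ (d - 2) * kr x) :=
          mul_le_mul_of_nonneg_left (tauK_le_kr hx) (le_max_right _ _)
        _ = (2 ^ (d - 2) * max A 0) * kr x := by ring
        _ ≤ max (2 ^ (d - 2) * max A 0) 1 * kr x :=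
          mul_le_mul_of_nonneg_right (le_max_left _ _) hk.le

end H95LBD
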