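import Pool.Agent.H95.LBD.Basic

/-!
PROJECT DL (MP_0d9ad5_pr). Lattice paths as lists of directions.
-/

namespace H95LBD

open H5DF MeasureTheory

variable {d : ℕ}

/-- End point. -/
def pend : V d → List (Dir d) → V d
  | x, [] => x
  | x, t :: l => pend (x + step t) l

/-- Visited vertices. -/
def pvs : V d → List (Dir d) → List (V d)
  | x, [] => [x]
  | x, t :: l => x :: pvs (x + step t) l

/-- All edges are open. -/
def popen (ω : Cfg d) : V d → List (Dir d) → Prop
  | _, [] => True
  | x, t :: l => ω (edge x t) = true ∧ popen ω (x + step t) l

/-- Signed number of crossings of the edge from `y` to `y + step s`. -/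
noncomputable def crs (y : V d) (s : Dir d) : V d → List (Dir d) → ℝ
  | _, [] => 0
  | x, t :: l => (if x = y ∧ t = s then 1 else 0) - (if x = y + step s ∧ t = opp s then 1 else 0) +
      crs y s (x + step t) l

end H95LBD
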