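import Pool.Agent.H95.LBD.EnvDef

/-!
PROJECT DL (MP_0d9ad5_pr), JOB DL-LawA. Laws of the environment.
PROOF. `perc_mono`: if `p' = 0` trivial, else `thin_law p' (p / p')`: `perc p` is the law of `ω && η`,
`ω ~ perc p'`, `η ~ perc (p / p')`. The `map_` statements: `Measure.eq_infinitePi` (check boxes
`Set.pi s t`, as in `resample`, `thin_law` of `H5/DF/Thin.lean`), or `Measure.infinitePi_map_...` if
there is a coordinatewise map lemma in Mathlib; `map_shE`: copy of `perc_shift` (H5/DF/Meas.lean).
-/

namespace H95LBD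

open H5DF MeasureTheory

variable {d : ℕ}

/-- Monotonicity in `p`. -/
theorem perc_mono {p p' : ℝ} (h0 : 0 ≤ p) (hpp : p ≤ p') (h1 : p' ≤ 1) {A : Set (Cfg d)}
    (hA : Inc A) (hm : MeasurableSet A) : (perc d p).real A ≤ (perc d p').real A := by
  rcases (h0.trans hpp).eq_or_lt with h | h
  · have : p = p' := le_antisymm hpp (by rw [← h]; exact h0)
    rw [this]
  · have hr0 : 0 ≤ p / p' := div_nonneg h0 h.le
    have hr1 : p / p' ≤ 1 := (div_le_one h).2 hpp
    have hP' := isProb_bern h.le h1
    have hPr := isProb_bern hr0 hr1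
    have key := thin_law (ι := Ed d) p' (p / p') h.le h1 hr0 hr1
    rw [mul_div_cancel₀ p h.ne'] at key
    have hand : Measurable (fun q : Bool × Bool => (q.1 && q.2)) := measurable_of_countable _
    have hmeas : Measurable (fun (x : Cfg d × Cfg d) (i : Ed d) => x.1 i && x.2 i) := by
      refine measurable_pi_iff.2 fun i => ?_
      have h1 : Measurable (fun x : Cfg d × Cfg d => (x.1 i, x.2 i)) :=
        ((measurable_pi_apply i).comp measurable_fst).prodMk
          ((measurable_pi_apply i).comp measurable_snd)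
      exact hand.comp h1
    have hle : (perc d p) A ≤ (perc d p') A := by
      unfold perc
      rw [← key, Measure.map_apply hmeas hm]
      have h2 : (Measure.infinitePi fun _ : Ed d => bern p') A =
          ((Measure.infinitePi fun _ : Ed d => bern p').prod
            (Measure.infinitePi fun _ : Ed d => bern (p / p'))) (A ×ˢ Set.univ) := by
        rw [Measure.prod_prod, measure_univ, mul_one]
      rw [h2]
      apply measure_mono
      rintro ⟨x, y⟩ hxy
      refine ⟨hA _ x ?_ hxy, Set.mem_univ _⟩
      intro e he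
      simp only [Bool.and_eq_true] at he
      exact he.1
    have : IsFiniteMeasure (perc d p') := by
      unfold perc
      infer_instance
    exact ENNReal.toReal_mono (measure_ne_top _ _) hle

theorem map_lo {p1 s : ℝ} (h0 : 0 ≤ p1) (h1 : p1 ≤ 1) (hs0 : 0 ≤ s) (hs1 : s ≤ 1) :
    (envM d p1 s).map lo = perc d p1 := by
  have := isProb_bern h0 h1
  have := isProb_bern hs0 hs1
  have h := Measure.infinitePi_map_pi (ι := Ed d) (X := fun _ => Bool × Bool) (Y := fun _ => Bool)
    (μ := fun _ => (bern p1).prod (bern s)) (f := fun _ => Prod.fst) (fun _ => measurable_fst)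
  have h2 : ((bern p1).prod (bern s)).map Prod.fst = bern p1 := by
    rw [Measure.map_fst_prod, measure_univ, one_smul]
  rw [h2] at h
  exact h

lemma LawA_or {p1 s : ℝ} (h0 : 0 ≤ p1) (h1 : p1 ≤ 1) (hs0 : 0 ≤ s) (hs1 : s ≤ 1) :
    ((bern p1).prod (bern s)).map (fun b : Bool × Bool => (b.1 || b.2)) =
      bern (1 - (1 - p1) * (1 - s)) := by
  have hP1 := isProb_bern h0 h1
  have hPs := isProb_bern hs0 hs1
  have hq0 : 0 ≤ 1 - (1 - p1) * (1 - s) := by nlinarith
  have hq1 : 1 - (1 - p1) * (1 - s) ≤ 1 := by nlinarith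
  have hPq := isProb_bern hq0 hq1
  have hor : Measurable (fun b : Bool × Bool => (b.1 || b.2)) := measurable_of_countable _
  have hPm : IsProbabilityMeasure
      (((bern p1).prod (bern s)).map (fun b : Bool × Bool => (b.1 || b.2))) :=
    Measure.isProbabilityMeasure_map hor.aemeasurable
  have hb : ∀ p : ℝ, bern p {false} = ENNReal.ofReal (1 - p) := by
    intro p
    simp [bern]
  have hfalse : (((bern p1).prod (bern s)).map (fun b : Bool × Bool => (b.1 || b.2))) {false} =
      bern (1 - (1 - p1) * (1 - s)) {false} := by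
    rw [Measure.map_apply hor (measurableSet_singleton _)]
    have hpre : (fun b : Bool × Bool => (b.1 || b.2)) ⁻¹' {false} =
        ({false} : Set Bool) ×ˢ ({false} : Set Bool) := by
      ext ⟨a, b⟩
      simp
    rw [hpre, Measure.prod_prod, hb, hb, hb, ← ENNReal.ofReal_mul (by linarith)]
    congr 1
    ring
  refine Measure.ext_of_singleton fun b => ?_
  cases b
  · exact hfalse
  · have h3 : ({true} : Set Bool) = ({false} : Set Bool)ᶜ := by
      ext b
      cases b <;> simp
    rw [h3, prob_compl_eq_one_sub (measurableSet_singleton _),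
      prob_compl_eq_one_sub (measurableSet_singleton _), hfalse]

theorem map_hi {p1 s : ℝ} (h0 : 0 ≤ p1) (h1 : p1 ≤ 1) (hs0 : 0 ≤ s) (hs1 : s ≤ 1) :
    (envM d p1 s).map hi = perc d (1 - (1 - p1) * (1 - s)) := by
  have := isProb_bern h0 h1
  have := isProb_bern hs0 hs1
  have h := Measure.infinitePi_map_pi (ι := Ed d) (X := fun _ => Bool × Bool) (Y := fun _ => Bool)
    (μ := fun _ => (bern p1).prod (bern s)) (f := fun _ b => (b.1 || b.2))
    (fun _ => measurable_of_countable _)
  rw [LawA_or h0 h1 hs0 hs1] at h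
  exact h

theorem map_shE {p1 s : ℝ} (h0 : 0 ≤ p1) (h1 : p1 ≤ 1) (hs0 : 0 ≤ s) (hs1 : s ≤ 1) (a : V d) :
    (envM d p1 s).map (shE a) = envM d p1 s := by
  have := isProb_bern h0 h1
  have := isProb_bern hs0 hs1
  have h := Measure.infinitePi_map_piCongrLeft
    (fun _ : Ed d => (bern p1).prod (bern s)) (shiftEquiv a)
  have h2 : (MeasurableEquiv.piCongrLeft (fun _ : Ed d => Bool × Bool) (shiftEquiv a) :
      Env d → Env d) = shE a := by
    funext ω e
    have := Equiv.piCongrLeft_apply_apply (fun _ : Ed d => Bool × Bool) (shiftEquiv a) ω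
      ((shiftEquiv a).symm e)
    rw [Equiv.apply_symm_apply] at this
    rw [MeasurableEquiv.coe_piCongrLeft, this]
    rfl
  rw [h2] at h
  exact h

end H95LBD
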