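import Pool.Agent.H95.LBD.BkA

/-!
PROJECT DL (MP_0d9ad5_pr), JOB DL-DecC. Box decomposition (deterministic).
PROOF. A path (no repeated vertex) from `u` to `v` either stays in `Bx 0 n` or visits some `z` with
`nm z = n+1` (the norm changes by at most 1 per step); the parts before and after `z` are edge-disjoint.
`c e := true` iff the edge `s(x, x + e_i)`, `e = (x,i)`, is in the first part (see `two_arms` in
`H5/DF/Arms.lean`, `sym_edge`).
-/

namespace H95LBD

open H5DF MeasureTheory

variable {d : ℕ}

lemma DecC_ivt (ω : Cfg d) (n : ℕ) {a b : V d} (P : (G ω).Walk a b) (ha : nm a ≤ n) (x : V d)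
    (hx : x ∈ P.support) (hxn : n < nm x) : ∃ z ∈ P.support, nm z = n + 1 := by
  induction P with
  | nil =>
    rw [SimpleGraph.Walk.support_nil, List.mem_singleton] at hx
    subst hx
    omega
  | @cons a a' b h p ih =>
    rw [SimpleGraph.Walk.support_cons, List.mem_cons] at hx
    rcases hx with rfl | hx
    · omega
    · obtain ⟨s, hs1, hs2⟩ := h
      have h1 : nm a' ≤ nm a + 1 := by
        rw [hs1]
        exact nm_add_step a s
      by_cases h2 : nm a' ≤ n
      · obtain ⟨z, hz, hz'⟩ := ih h2 hx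
        exact ⟨z, by rw [SimpleGraph.Walk.support_cons]; exact List.mem_cons_of_mem _ hz, hz'⟩
      · refine ⟨a', ?_, by omega⟩
        rw [SimpleGraph.Walk.support_cons]
        exact List.mem_cons_of_mem _ p.start_mem_support

theorem box_dec (n : ℕ) (u v : V d) (hu : nm u ≤ n) (hv : nm v ≤ n) :
    SCn {u} Set.univ v ⊆ SCn {u} (Bx 0 n) v ∪
      ⋃ z ∈ {z : V d | nm z = n + 1}, disj (SCn {u} Set.univ z) (SCn {z} Set.univ v) := by
  classical
  rintro ω ⟨u', hu', h⟩
  rw [Finset.mem_singleton] at hu'
  subst hu'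
  rw [Cn_univ] at h
  have hr : (G ω).Reachable u' v := h
  obtain ⟨P, hP⟩ := hr.exists_isPath
  by_cases hall : ∀ x ∈ P.support, nm x ≤ n
  · left
    refine ⟨u', Finset.mem_singleton_self _, ?_⟩
    refine ⟨P.transfer _ ?_⟩
    intro e he
    have hG := P.edges_subset_edgeSet he
    induction e with
    | h x y =>
      rw [SimpleGraph.mem_edgeSet] at hG ⊢
      obtain ⟨s, hs1, hs2⟩ := hG
      refine ⟨s, hs1, ?_⟩
      have hx := hall x (P.fst_mem_support_of_mem_edges he)
      have hy := hall y (P.snd_mem_support_of_mem_edges he)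
      rw [cut_true]
      refine ⟨hs2, edge_mem_ins.2 ⟨mem_Bx0.2 hx, ?_⟩⟩
      rw [← hs1]
      exact mem_Bx0.2 hy
  · right
    push Not at hall
    obtain ⟨x, hx, hxn⟩ := hall
    obtain ⟨z, hz, hzn⟩ := DecC_ivt ω n P hu x hx hxn
    simp only [Set.mem_iUnion, Set.mem_setOf_eq]
    refine ⟨z, hzn, fun e => decide (s(e.1, e.1 + Pi.single e.2 1) ∈ (P.takeUntil z hz).edges),
      ⟨u', Finset.mem_singleton_self _, ?_⟩, ⟨z, Finset.mem_singleton_self _, ?_⟩⟩
    · rw [Cn_univ]
      refine ⟨(P.takeUntil z hz).transfer _ ?_⟩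
      intro e he
      have hG := (P.takeUntil z hz).edges_subset_edgeSet he
      induction e with
      | h x y =>
        rw [SimpleGraph.mem_edgeSet] at hG ⊢
        obtain ⟨s, hs1, hs2⟩ := hG
        refine ⟨s, hs1, ?_⟩
        simp only [hs2, sym_edge, Bool.true_and, decide_eq_true_eq]
        rwa [← hs1]
    · rw [Cn_univ]
      have hnd : P.edges.Nodup := hP.isTrail.edges_nodup
      rw [← P.take_spec hz, SimpleGraph.Walk.edges_append, List.nodup_append] at hnd
      refine ⟨(P.dropUntil z hz).transfer _ ?_⟩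
      intro e he
      have hG := (P.dropUntil z hz).edges_subset_edgeSet he
      induction e with
      | h x y =>
        rw [SimpleGraph.mem_edgeSet] at hG ⊢
        obtain ⟨s, hs1, hs2⟩ := hG
        refine ⟨s, hs1, ?_⟩
        simp only [hs2, sym_edge, Bool.true_and, Bool.not_eq_true', decide_eq_false_iff_not]
        rw [← hs1]
        intro hmem
        exact hnd.2.2 _ hmem _ he rfl

end H95LBD
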