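import Pool.Agent.H95.LBD.Russo

/-!
PROJECT DL (MP_0d9ad5_pr), JOB DL-RussoP. Russo's formula for an event of `perc` depending on finitely
many edges.
PROOF. Push `perc d q` (`0 ≤ q ≤ 1`) to `F → Bool` by `Measure.infinitePi_map_restrict'` and `bern_pi_eq`
(as in `live_le` of `H5/DF/Arms.lean`): `(perc d q).real A = pr q (fun a => ext a ∈ A)` for all `q` in a
neighbourhood of `p`, `ext` = extension by `false`; the same for the two updated events
(`Function.update (ext a) e b = ext (Function.update a e b)`). Then `russo_fin` and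
`HasDerivAt.congr_of_eventuallyEq`.
-/

namespace H95LBD

open H5DF MeasureTheory

variable {d : ℕ}

/-- Extension of a configuration on `F` by `false`. -/
def RussoP_ext (F : Finset (Ed d)) (a : F → Bool) : Cfg d := fun e =>
  if h : e ∈ F then a ⟨e, h⟩ else false

lemma RussoP_ext_restrict (F : Finset (Ed d)) (ω : Cfg d) (e : Ed d) (he : e ∈ F) :
    RussoP_ext F (F.restrict ω) e = ω e := by
  simp [RussoP_ext, he, Finset.restrict]

lemma RussoP_ext_update (F : Finset (Ed d)) (a : F → Bool) (e : F) (b : Bool) :
    Function.update (RussoP_ext F a) e.1 b = RussoP_ext F (Function.update a e b) := by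
  funext e'
  by_cases h : e' = e.1
  · subst h
    simp [RussoP_ext]
  · rw [Function.update_of_ne h]
    unfold RussoP_ext
    by_cases h' : e' ∈ F
    · rw [dif_pos h', dif_pos h', Function.update_of_ne]
      intro h2
      exact h (congrArg Subtype.val h2)
    · rw [dif_neg h', dif_neg h']

lemma RussoP_pr (F : Finset (Ed d)) (A : Set (Cfg d))
    (hdep : ∀ ω ω' : Cfg d, (∀ e ∈ F, ω e = ω' e) → (ω ∈ A → ω' ∈ A)) (q : ℝ) (h0 : 0 ≤ q)
    (h1 : q ≤ 1) : (perc d q).real A = pr q (fun a : F → Bool => RussoP_ext F a ∈ A) := by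
  classical
  have hbp := isProb_bern h0 h1
  have hmap := Measure.infinitePi_map_restrict (μ := fun _ : Ed d => bern q) (I := F)
  rw [← Measure.infinitePi_eq_pi] at hmap
  have hmeas : ∀ S : Set (F → Bool), MeasurableSet S := fun S => S.toFinite.measurableSet
  have hrm : Measurable (F.restrict : Cfg d → (F → Bool)) := Set.measurable_restrict _
  have hpre : A = F.restrict ⁻¹' {a : F → Bool | RussoP_ext F a ∈ A} := by
    ext ω
    constructor
    · intro h
      exact hdep _ _ (fun e he => (RussoP_ext_restrict F ω e he).symm) h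
    · intro h
      exact hdep _ _ (fun e he => RussoP_ext_restrict F ω e he) h
  have h2 : perc d q A = ENNReal.ofReal (pr q (fun a : F → Bool => RussoP_ext F a ∈ A)) := by
    have h3 : perc d q A = (Measure.infinitePi fun _ : F => bern q)
        {a : F → Bool | RussoP_ext F a ∈ A} := by
      conv_lhs => rw [hpre]
      rw [← hmap, Measure.map_apply hrm (hmeas _)]
      rfl
    rw [h3, bern_pi_eq h0 h1]
    rfl
  have hnn : 0 ≤ pr q (fun a : F → Bool => RussoP_ext F a ∈ A) := by
    unfold pr
    exact Finset.sum_nonneg fun ω _ => mul_nonneg (wt_nonneg h0 h1 ω) (ind_nonneg _)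
  rw [Measure.real, h2, ENNReal.toReal_ofReal hnn]

theorem russo_perc (F : Finset (Ed d)) (A : Set (Cfg d))
    (hdep : ∀ ω ω' : Cfg d, (∀ e ∈ F, ω e = ω' e) → (ω ∈ A → ω' ∈ A)) (p : ℝ) (h0 : 0 < p)
    (h1 : p < 1) :
    HasDerivAt (fun q => (perc d q).real A)
      (∑ e ∈ F, ((perc d p).real {ω | Function.update ω e true ∈ A} -
        (perc d p).real {ω | Function.update ω e false ∈ A})) p := by
  classical
  have hev : (fun q => (perc d q).real A) =ᶠ[nhds p]
      fun q => pr q (fun a : F → Bool => RussoP_ext F a ∈ A) := by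
    filter_upwards [Ioo_mem_nhds h0 h1] with q hq
    exact RussoP_pr F A hdep q hq.1.le hq.2.le
  have hr := russo_fin (fun a : F → Bool => RussoP_ext F a ∈ A) p
  have hsum : (∑ i : F, (pr p (fun ω => RussoP_ext F (Function.update ω i true) ∈ A) -
        pr p (fun ω => RussoP_ext F (Function.update ω i false) ∈ A))) =
      ∑ e ∈ F, ((perc d p).real {ω | Function.update ω e true ∈ A} -
        (perc d p).real {ω | Function.update ω e false ∈ A}) := by
    rw [← Finset.sum_coe_sort F]
    refine Finset.sum_congr rfl fun i _ => ?_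
    have hd : ∀ b : Bool, ∀ ω ω' : Cfg d, (∀ e ∈ F, ω e = ω' e) →
        (ω ∈ {ω : Cfg d | Function.update ω i.1 b ∈ A} →
          ω' ∈ {ω : Cfg d | Function.update ω i.1 b ∈ A}) := by
      intro b ω ω' h hω
      refine hdep _ _ ?_ hω
      intro e he
      by_cases h' : e = i.1
      · subst h'
        simp
      · rw [Function.update_of_ne h', Function.update_of_ne h']
        exact h e he
    have hb : ∀ b : Bool, (perc d p).real {ω : Cfg d | Function.update ω i.1 b ∈ A} =
        pr p (fun ω => RussoP_ext F (Function.update ω i b) ∈ A) := by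
      intro b
      rw [RussoP_pr F _ (hd b) p h0.le h1.le]
      refine congrArg (pr p) ?_
      funext a
      rw [← RussoP_ext_update F a i b]
      rfl
    rw [hb true, hb false]
  rw [← hsum]
  exact hr.congr_of_eventuallyEq hev

end H95LBD
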