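import Pool.Agent.H95.LBD.HoleA
import Pool.Agent.H95.LBD.RussoP

/-!
PROJECT DL (MP_0d9ad5_pr), JOB DL-HoleB. Exponential bound for holes.
PROOF. `f q = (perc d q).real (Hole M n)`, derivative by `russo_perc` with `F = EF d n` (`hole_dep`):
`∑_e (P(update e true ∈ H) - P(update e false ∈ H)) = - ∑_e P(update e false ∈ H, update e true ∉ H)` (`H`
is decreasing) `≤ - ∑_e P(ω ∈ H, update e true ∉ H)` (if `ω ∈ H` then `update ω e false ∈ H`)
`≤ - κ f` (`hole_piv`). So `q ↦ f q * exp (κ (q - p0))` is antitone on `[p0, p]` (`0 < p0`, `p < 1`)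
and `f p ≤ f p0 exp (-κ (p - p0)) ≤ exp (-κ (p - p0))`.
`no_inf`: `{all clusters of points of the box finite} = ⋃ n, Hole M n` (increasing in `n`), continuity from
below.
-/

namespace H95LBD

open H5DF MeasureTheory

variable {d : ℕ}

lemma HoleB_anti (M n : ℕ) (ω ω' : Cfg d) (h : ∀ e, ω e = true → ω' e = true)
    (hω : ω' ∈ (Hole M n : Set (Cfg d))) : ω ∈ (Hole M n : Set (Cfg d)) := by
  intro u hu y hy hc
  exact hω u hu y hy (Cn_univ.1 ((Cn_univ.2 hc).mono (Set.Subset.refl _) h))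

lemma HoleB_mono (M : ℕ) {n n' : ℕ} (h : n ≤ n') :
    (Hole M n : Set (Cfg d)) ⊆ Hole M n' := by
  intro ω hω u hu y hy
  exact hω u hu y (h.trans hy)

lemma HoleB_step (q : ℝ) (h0 : 0 ≤ q) (h1 : q ≤ 1) (M n : ℕ) (e : Ed d) :
    (perc d q).real {ω | Function.update ω e true ∈ (Hole M n : Set (Cfg d))} -
        (perc d q).real {ω | Function.update ω e false ∈ (Hole M n : Set (Cfg d))} ≤
      - (perc d q).real
        {ω | ω ∈ (Hole M n : Set (Cfg d)) ∧ Function.update ω e true ∉ (Hole M n : Set (Cfg d))} := by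
  have hpr := isProb_perc (d := d) q h0 h1
  have hm : Measurable (fun ω : Cfg d => Function.update ω e true) := measurable_update_left
  have hT : MeasurableSet {ω : Cfg d | Function.update ω e true ∈ (Hole M n : Set (Cfg d))} :=
    hm (meas_hole M n)
  have hS : MeasurableSet {ω : Cfg d | ω ∈ (Hole M n : Set (Cfg d)) ∧
      Function.update ω e true ∉ (Hole M n : Set (Cfg d))} :=
    (meas_hole M n).inter hT.compl
  have hdis : Disjoint {ω : Cfg d | Function.update ω e true ∈ (Hole M n : Set (Cfg d))}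
      {ω : Cfg d | ω ∈ (Hole M n : Set (Cfg d)) ∧
        Function.update ω e true ∉ (Hole M n : Set (Cfg d))} := by
    rw [Set.disjoint_left]
    intro ω h1 h2
    exact h2.2 h1
  have hun := measureReal_union (μ := perc d q) hdis hS
  have hsub : {ω : Cfg d | Function.update ω e true ∈ (Hole M n : Set (Cfg d))} ∪
      {ω : Cfg d | ω ∈ (Hole M n : Set (Cfg d)) ∧
        Function.update ω e true ∉ (Hole M n : Set (Cfg d))} ⊆
      {ω | Function.update ω e false ∈ (Hole M n : Set (Cfg d))} := by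
    rintro ω (h | h)
    · refine HoleB_anti M n _ _ ?_ h
      intro e' he'
      by_cases hee : e' = e
      · subst hee
        simp at he'
      · rw [Function.update_of_ne hee] at he' ⊢
        exact he'
    · refine HoleB_anti M n _ _ ?_ h.1
      intro e' he'
      by_cases hee : e' = e
      · subst hee
        simp at he'
      · rw [Function.update_of_ne hee] at he'
        exact he'
  have hle := measureReal_mono (μ := perc d q) hsub
  linarith

lemma HoleB_deriv (p0 : ℝ) (h0 : 0 < p0) (M n : ℕ) (hMn : M < n) (κ : ℝ)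
    (hκ : ∀ q : ℝ, p0 ≤ q → q ≤ 1 → ∀ S : Finset (V d), Box d M ⊆ S → κ ≤ phi q M S)
    (q : ℝ) (hq0 : p0 ≤ q) (hq1 : q < 1) :
    ∃ D : ℝ, HasDerivAt (fun q => (perc d q).real (Hole M n)) D q ∧
      D ≤ -(κ * (perc d q).real (Hole M n)) := by
  have hq : 0 < q := h0.trans_le hq0
  refine ⟨_, russo_perc (EF d n) (Hole M n)
    (fun ω ω' h hω => hole_dep M n hMn ω ω' h hω) q hq hq1, ?_⟩
  have h2 := hole_piv (d := d) q hq.le hq1.le M n hMn κ (hκ q hq0 hq1.le)
  have h3 : (∑ e ∈ EF d n, ((perc d q).real {ω | Function.update ω e true ∈ (Hole M n : Set (Cfg d))} -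
        (perc d q).real {ω | Function.update ω e false ∈ (Hole M n : Set (Cfg d))})) ≤
      ∑ e ∈ EF d n, (- (perc d q).real
        {ω | ω ∈ (Hole M n : Set (Cfg d)) ∧ Function.update ω e true ∉ (Hole M n : Set (Cfg d))}) :=
    Finset.sum_le_sum fun e _ => HoleB_step q hq.le hq1.le M n e
  rw [Finset.sum_neg_distrib] at h3
  linarith

theorem hole_bound (p0 : ℝ) (h0 : 0 < p0) (M n : ℕ) (hMn : M < n) (κ : ℝ)
    (hκ : ∀ q : ℝ, p0 ≤ q → q ≤ 1 → ∀ S : Finset (V d), Box d M ⊆ S → κ ≤ phi q M S)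
    (p : ℝ) (hp : p0 ≤ p) (h1 : p < 1) :
    (perc d p).real (Hole M n) ≤ Real.exp (-(κ * (p - p0))) := by
  have key : ∀ q ∈ Set.Icc p0 p, ∃ D : ℝ,
      HasDerivAt (fun q => (perc d q).real (Hole M n)) D q ∧
      D ≤ -(κ * (perc d q).real (Hole M n)) := fun q hq =>
    HoleB_deriv p0 h0 M n hMn κ hκ q hq.1 (hq.2.trans_lt h1)
  have key2 : ∀ q ∈ Set.Icc p0 p, ∃ D : ℝ,
      HasDerivAt (fun q => (perc d q).real (Hole M n) * Real.exp (κ * (q - p0))) D q ∧ D ≤ 0 := by
    intro q hq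
    obtain ⟨D, hD, hD2⟩ := key q hq
    have he : HasDerivAt (fun q : ℝ => Real.exp (κ * (q - p0)))
        (Real.exp (κ * (q - p0)) * κ) q := by
      have h3 : HasDerivAt (fun q : ℝ => κ * (q - p0)) (κ * 1) q :=
        ((hasDerivAt_id q).sub_const p0).const_mul κ
      rw [mul_one] at h3
      exact h3.exp
    refine ⟨_, hD.mul he, ?_⟩
    have hpos := Real.exp_pos (κ * (q - p0))
    have : D * Real.exp (κ * (q - p0)) +
        (perc d q).real (Hole M n) * (Real.exp (κ * (q - p0)) * κ) =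
        (D + κ * (perc d q).real (Hole M n)) * Real.exp (κ * (q - p0)) := by ring
    rw [this]
    exact mul_nonpos_of_nonpos_of_nonneg (by linarith) hpos.le
  have hanti : AntitoneOn (fun q => (perc d q).real (Hole M n) * Real.exp (κ * (q - p0)))
      (Set.Icc p0 p) := by
    refine antitoneOn_of_deriv_nonpos (convex_Icc p0 p) ?_ ?_ ?_
    · intro q hq
      obtain ⟨D, hD, -⟩ := key2 q hq
      exact hD.continuousAt.continuousWithinAt
    · intro q hq
      rw [interior_Icc] at hq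
      obtain ⟨D, hD, -⟩ := key2 q (Set.Ioo_subset_Icc_self hq)
      exact hD.differentiableAt.differentiableWithinAt
    · intro q hq
      rw [interior_Icc] at hq
      obtain ⟨D, hD, hD2⟩ := key2 q (Set.Ioo_subset_Icc_self hq)
      rw [hD.deriv]
      exact hD2
  have h4 := hanti (Set.left_mem_Icc.2 hp) (Set.right_mem_Icc.2 hp) hp
  simp only [sub_self, mul_zero, Real.exp_zero, mul_one] at h4
  have hp01 : p0 ≤ 1 := hp.trans h1.le
  have hpr := isProb_perc (d := d) p0 h0.le hp01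
  have h5 : (perc d p0).real (Hole M n) ≤ 1 := measureReal_le_one
  have hpos := Real.exp_pos (κ * (p - p0))
  rw [Real.exp_neg, ← one_div, le_div_iff₀ hpos]
  linarith

theorem no_inf (p0 : ℝ) (h0 : 0 < p0) (M : ℕ) (κ : ℝ)
    (hκ : ∀ q : ℝ, p0 ≤ q → q ≤ 1 → ∀ S : Finset (V d), Box d M ⊆ S → κ ≤ phi q M S)
    (p : ℝ) (hp : p0 ≤ p) (h1 : p < 1) :
    (perc d p).real {ω | ∀ u ∈ Box d M, (cluster ω u).Finite} ≤ Real.exp (-(κ * (p - p0))) := by
  have hpr := isProb_perc (d := d) p (h0.le.trans hp) h1.le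
  have hsub : {ω : Cfg d | ∀ u ∈ Box d M, (cluster ω u).Finite} ⊆
      ⋃ n : ℕ, (Hole M (M + 1 + n) : Set (Cfg d)) := by
    intro ω hω
    have hfin : (⋃ u ∈ Box d M, cluster ω u).Finite :=
      Set.Finite.biUnion (Box d M).finite_toSet hω
    obtain ⟨N, hN⟩ := (hfin.image nm).bddAbove
    refine Set.mem_iUnion.2 ⟨N, ?_⟩
    intro u hu y hy hc
    have h2 : nm y ≤ N := hN ⟨y, Set.mem_biUnion hu hc, rfl⟩
    omega
  have hmono : Monotone fun n : ℕ => (Hole M (M + 1 + n) : Set (Cfg d)) := by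
    intro a b hab
    exact HoleB_mono M (by omega)
  have hlim := tendsto_measure_iUnion_atTop (μ := perc d p) hmono
  have hle : (perc d p) (⋃ n : ℕ, (Hole M (M + 1 + n) : Set (Cfg d))) ≤
      ENNReal.ofReal (Real.exp (-(κ * (p - p0)))) := by
    refine le_of_tendsto' hlim fun n => ?_
    have h3 := hole_bound (d := d) p0 h0 M (M + 1 + n) (by omega) κ hκ p hp h1
    simp only [Function.comp_apply]
    rw [← ENNReal.ofReal_toReal (measure_ne_top (perc d p) (Hole M (M + 1 + n) : Set (Cfg d)))]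
    exact ENNReal.ofReal_le_ofReal h3
  have h4 := (measure_mono (μ := perc d p) hsub).trans hle
  exact ENNReal.toReal_le_of_le_ofReal (Real.exp_pos _).le h4

end H95LBD
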