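import Pool.Agent.H95.LBD.BkA

/-!
PROJECT DL (MP_0d9ad5_pr), JOB DL-DecB. Exit decomposition (deterministic).
PROOF. A path (no repeated vertex) from `u ∈ K` to `w ∉ S`; first edge `(x, x + step s)` leaving `S`; the
part before is inside `S` and edge-disjoint from the part after. `c e := true` iff the edge
`s(x, x + e_i)`, `e = (x,i)`, is in the first part (see `two_arms` in `H5/DF/Arms.lean`, `sym_edge`).
-/

namespace H95LBD

open H5DF MeasureTheory

variable {d : ℕ}

lemma DecB_exit {ω : Cfg d} {S : Set (V d)} {u w : V d} (P : (G ω).Walk u w)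
    (hP : P.IsTrail) (hu : u ∈ S) (hw : w ∉ S) :
    ∃ b : V d × Dir d, b.1 ∈ S ∧ b.1 + step b.2 ∉ S ∧
      ∃ (P1 : (G ω).Walk u b.1) (P2 : (G ω).Walk (b.1 + step b.2) w),
        (∀ z ∈ P1.support, z ∈ S) ∧ (∀ e ∈ P1.edges, e ∉ P2.edges) ∧
        (∀ e ∈ P1.edges, e ∈ P.edges) ∧ ∀ e ∈ P2.edges, e ∈ P.edges := by
  induction P with
  | nil => exact absurd hu hw
  | @cons x z y h P' ih =>
    rw [SimpleGraph.Walk.isTrail_cons] at hP
    by_cases hz : z ∈ S
    · obtain ⟨b, hb1, hb2, P1, P2, h1, h2, h3, h4⟩ := ih hP.1 hz hw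
      refine ⟨b, hb1, hb2, SimpleGraph.Walk.cons h P1, P2, ?_, ?_, ?_, ?_⟩
      · intro v hv
        rw [SimpleGraph.Walk.support_cons, List.mem_cons] at hv
        rcases hv with rfl | hv
        · exact hu
        · exact h1 v hv
      · intro e he
        rw [SimpleGraph.Walk.edges_cons, List.mem_cons] at he
        rcases he with rfl | he
        · exact fun h5 => hP.2 (h4 _ h5)
        · exact h2 e he
      · intro e he
        rw [SimpleGraph.Walk.edges_cons, List.mem_cons] at he ⊢
        rcases he with rfl | he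
        · exact Or.inl rfl
        · exact Or.inr (h3 e he)
      · intro e he
        rw [SimpleGraph.Walk.edges_cons, List.mem_cons]
        exact Or.inr (h4 e he)
    · obtain ⟨s, rfl, hs⟩ := h
      refine ⟨(x, s), hu, hz, SimpleGraph.Walk.nil, P', ?_, ?_, ?_, ?_⟩
      · intro v hv
        rw [SimpleGraph.Walk.support_nil, List.mem_singleton] at hv
        rw [hv]
        exact hu
      · intro e he
        simp at he
      · intro e he
        simp at he
      · intro e he
        rw [SimpleGraph.Walk.edges_cons, List.mem_cons]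
        exact Or.inr he

theorem exit_dec (K S : Finset (V d)) (hK : K ⊆ S) (w : V d) (hw : w ∉ S) :
    SCn K Set.univ w ⊆ ⋃ b ∈ {b : V d × Dir d | b.1 ∈ S ∧ b.1 + step b.2 ∉ S},
      disj (SCn K (S : Set (V d)) b.1) (SCn {b.1 + step b.2} Set.univ w) := by
  classical
  rintro ω ⟨u, huK, hu⟩
  have hr : (G ω).Reachable u w := Cn_univ.1 hu
  obtain ⟨P, hP⟩ := hr.exists_isPath
  obtain ⟨b, hb1, hb2, P1, P2, h1, h2, -, -⟩ := DecB_exit (S := (S : Set (V d))) P hP.isTrail
    (Finset.mem_coe.2 (hK huK)) (fun h => hw (Finset.mem_coe.1 h))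
  simp only [Set.mem_iUnion, exists_prop]
  refine ⟨b, ⟨Finset.mem_coe.1 hb1, fun h => hb2 (Finset.mem_coe.2 h)⟩, ?_⟩
  refine ⟨fun e => decide (s(e.1, e.1 + Pi.single e.2 1) ∈ P1.edges), ⟨u, huK, ?_⟩,
    ⟨b.1 + step b.2, Finset.mem_singleton_self _, ?_⟩⟩
  · rw [Cn_iff_walk (Finset.mem_coe.2 (hK huK))]
    refine ⟨P1.transfer _ ?_, ?_⟩
    · intro e he
      have hG := P1.edges_subset_edgeSet he
      induction e with
      | h x y =>
        rw [SimpleGraph.mem_edgeSet] at hG ⊢
        obtain ⟨v, hv1, hv2⟩ := hG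
        refine ⟨v, hv1, ?_⟩
        simp only [hv2, sym_edge, Bool.true_and, decide_eq_true_eq]
        rwa [← hv1]
    · intro z hz
      rw [SimpleGraph.Walk.support_transfer] at hz
      exact h1 z hz
  · rw [Cn_univ]
    refine ⟨P2.transfer _ ?_⟩
    intro e he
    have hG := P2.edges_subset_edgeSet he
    induction e with
    | h x y =>
      rw [SimpleGraph.mem_edgeSet] at hG ⊢
      obtain ⟨v, hv1, hv2⟩ := hG
      refine ⟨v, hv1, ?_⟩
      simp only [hv2, sym_edge, Bool.true_and, Bool.not_eq_true', decide_eq_false_iff_not]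
      rw [← hv1]
      intro hP1
      exact h2 _ hP1 he

end H95LBD
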