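import Pool.Agent.H95.LBD.SecMom
import Pool.Agent.H95.LBD.DecB
import Pool.Agent.H95.LBD.LawA
import Pool.Agent.H95.LBD.BkB
import Pool.Agent.H95.LBD.Setup

/-!
PROJECT DL (MP_0d9ad5_pr), JOB DL-PhiLow. Lower bound for `phi`.
PROOF. Let `w` be far: `nm w ≥ 4 M` and `nm w ≥ 2 nm x + 2` for all `x ∈ S` (so `w ∉ S`), e.g.
`w = Pi.single 0 K`. `exit_dec` with `K = Box d M`, `bk_inf`, `perc_conn`:
`P(SCn (Box M) univ w) ≤ ∑_{b ∈ bd S} P(SCn (Box M) S b.1) * tau (w - b.1 - step b.2)`, and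
`tau (..) ≤ B kr(w - b.1 - step) ≤ B 2^(d-2) kr w` (`nm (w - b.1 - step) ≥ nm w / 2`). So
`c M^(d-4) kr w ≤ phi p0 M S * B 2^(d-2) kr w` (`second_moment`), divide by `kr w > 0`. For `p ≥ p0`:
`perc_mono` (`SCn_inc`, `meas_SCn`) termwise.
-/

namespace H95LBD

open H5DF MeasureTheory

variable {d : ℕ}

lemma PhiLow_far (hd : 5 ≤ d) (K : ℕ) : ∃ w : V d, nm w = K := by
  refine ⟨Pi.single ⟨0, by omega⟩ (K : ℤ), ?_⟩
  apply le_antisymm
  · rw [nm_le]
    intro j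
    by_cases hj : j = ⟨0, by omega⟩
    · subst hj
      simp
    · simp [hj]
  · have h := natAbs_le_nm (Pi.single (⟨0, by omega⟩ : Fin d) (K : ℤ) : V d) ⟨0, by omega⟩
    simpa using h

lemma PhiLow_kr {w y : V d} (h : nm w ≤ 2 * nm y) : kr y ≤ 2 ^ (d - 2) * kr w := by
  have h2 : ((nm w : ℕ) : ℝ) ≤ 2 * (nm y : ℝ) := by exact_mod_cast h
  unfold kr
  rw [mul_one_div, div_le_div_iff₀ (by positivity) (by positivity), one_mul, ← mul_pow]
  exact pow_le_pow_left₀ (by positivity) (by linarith) _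

lemma PhiLow_dec (p0 B : ℝ) (h0 : 0 ≤ p0) (h1 : p0 ≤ 1) (hB : 0 < B)
    (h : ∀ x : V d, tau d p0 x ≤ ENNReal.ofReal (B * kr x)) (M : ℕ) (S : Finset (V d))
    (hMS : Box d M ⊆ S) (w : V d) (hw : ∀ x ∈ S, 2 * nm x + 2 ≤ nm w) :
    (perc d p0).real (SCn (Box d M) Set.univ w) ≤ phi p0 M S * (B * (2 ^ (d - 2) * kr w)) := by
  classical
  have hpr := isProb_perc (d := d) p0 h0 h1
  set K : ℝ := B * (2 ^ (d - 2) * kr w) with hK
  have hk := kr_pos w
  have hK0 : 0 ≤ K := by positivity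
  have hwS : w ∉ S := fun hS => by
    have := hw w hS
    omega
  have hsub : SCn (Box d M) Set.univ w ⊆ ⋃ b ∈ bd S,
      disj (SCn (Box d M) (S : Set (V d)) b.1) (SCn {b.1 + step b.2} Set.univ w) := by
    refine (exit_dec (Box d M) S hMS w hwS).trans ?_
    refine Set.iUnion₂_subset fun b hb => ?_
    have hbS : b ∈ bd S := by
      rw [bd, Finset.mem_filter, Finset.mem_product]
      exact ⟨⟨hb.1, Finset.mem_univ _⟩, hb.2⟩
    exact Set.subset_biUnion_of_mem (u := fun b : V d × Dir d =>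
      disj (SCn (Box d M) (S : Set (V d)) b.1) (SCn {b.1 + step b.2} Set.univ w)) hbS
  have hterm : ∀ b ∈ bd S,
      perc d p0 (disj (SCn (Box d M) (S : Set (V d)) b.1) (SCn {b.1 + step b.2} Set.univ w)) ≤
      ENNReal.ofReal ((perc d p0).real (SCn (Box d M) (S : Set (V d)) b.1) * K) := by
    intro b hb
    rw [bd, Finset.mem_filter, Finset.mem_product] at hb
    refine (bk_inf p0 h0 h1 _ _ (SCn_inc _ _ _) (SCn_inc _ _ _) (SCn_fw _ _ _)
      (SCn_fw _ _ _)).trans ?_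
    rw [perc_conn p0 h0 h1, ENNReal.ofReal_mul measureReal_nonneg]
    refine mul_le_mul' ?_ ?_
    · rw [Measure.real, ENNReal.ofReal_toReal (measure_ne_top _ _)]
    · refine (h _).trans (ENNReal.ofReal_le_ofReal ?_)
      refine mul_le_mul_of_nonneg_left (PhiLow_kr ?_) hB.le
      have e1 := nm_le_add w (b.1 + step b.2)
      have e2 := nm_add_step b.1 b.2
      have e3 := hw b.1 hb.1.1
      omega
  have hmain : perc d p0 (SCn (Box d M) Set.univ w) ≤ ENNReal.ofReal (phi p0 M S * K) := by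
    refine (measure_mono hsub).trans ((measure_biUnion_finset_le _ _).trans ?_)
    refine (Finset.sum_le_sum hterm).trans (le_of_eq ?_)
    rw [← ENNReal.ofReal_sum_of_nonneg, phi, Finset.sum_mul]
    intro b _
    exact mul_nonneg measureReal_nonneg hK0
  have hphi : 0 ≤ phi p0 M S := Finset.sum_nonneg fun _ _ => measureReal_nonneg
  exact ENNReal.toReal_le_of_le_ofReal (mul_nonneg hphi hK0) hmain

theorem phi_lower (hd : 5 ≤ d) (p0 b B : ℝ) (h0 : 0 ≤ p0) (h1 : p0 ≤ 1) (hb : 0 < b)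
    (hB : 0 < B) (h : KB d p0 b B) : ∃ c : ℝ, 0 < c ∧ ∀ (M : ℕ) (S : Finset (V d)), 1 ≤ M →
    Box d M ⊆ S → ∀ p : ℝ, p0 ≤ p → p ≤ 1 → c * (M : ℝ) ^ (d - 4) ≤ phi p M S := by
  obtain ⟨c0, hc0, hsm⟩ := second_moment hd p0 b B h0 h1 hb hB h
  refine ⟨c0 / (B * 2 ^ (d - 2)), by positivity, fun M S hM hMS p hp hp1 => ?_⟩
  obtain ⟨w, hw⟩ := PhiLow_far (d := d) hd (4 * M + 2 * S.sup nm + 2)
  have hk := kr_pos w
  have e1 := hsm M w hM (by omega)
  have e2 := PhiLow_dec p0 B h0 h1 hB (fun x => (h x).2) M S hMS w (fun x hx => by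
    have := Finset.le_sup (f := nm) hx
    omega)
  have e3 : c0 / (B * 2 ^ (d - 2)) * (M : ℝ) ^ (d - 4) ≤ phi p0 M S := by
    have e4 : c0 * (M : ℝ) ^ (d - 4) * kr w ≤ (phi p0 M S * (B * 2 ^ (d - 2))) * kr w := by
      refine (e1.trans e2).trans (le_of_eq ?_)
      ring
    have e5 := le_of_mul_le_mul_right e4 hk
    rw [div_mul_eq_mul_div, div_le_iff₀ (by positivity)]
    exact e5
  refine e3.trans (Finset.sum_le_sum fun b _ => ?_)
  exact perc_mono h0 hp hp1 (SCn_inc _ _ _) (meas_SCn _ _ _)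

end H95LBD
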