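import Pool.Agent.H95.LBD.EnvDef

/-!
PROJECT DL (MP_0d9ad5_pr), JOB DL-LawD. Independence of `n` events depending on the marks inside
disjoint sets of edges.
PROOF. The coordinates of both families of marks, indexed by `ι ⊕ ι`, are independent under the
product of the two infinite products (`lawD_iIndep`). Two events depending on disjoint sets of edges
are independent (`lawD_indep`), then induction on `n` with `T = ⋃ i < n, L i`.
-/

namespace H95LBD

open H5DF MeasureTheory

section LawD

variable {ι α β : Type*} [MeasurableSpace α] [MeasurableSpace β]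

/-- The sigma-algebras of the coordinates of both families. -/
@[reducible] def lawD_m : ι ⊕ ι → MeasurableSpace ((ι → α) × (ι → β))
  | Sum.inl e => MeasurableSpace.comap (fun q : (ι → α) × (ι → β) => q.1 e) inferInstance
  | Sum.inr e => MeasurableSpace.comap (fun q : (ι → α) × (ι → β) => q.2 e) inferInstance

lemma lawD_m_le (i : ι ⊕ ι) :
    (lawD_m i : MeasurableSpace ((ι → α) × (ι → β))) ≤ Prod.instMeasurableSpace := by
  rcases i with e | e
  · exact ((measurable_pi_apply e).comp measurable_fst).comap_le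
  · exact ((measurable_pi_apply e).comp measurable_snd).comap_le

lemma lawD_iIndep (P : ι → Measure α) (Q : ι → Measure β) [∀ e, IsProbabilityMeasure (P e)]
    [∀ e, IsProbabilityMeasure (Q e)] :
    ProbabilityTheory.iIndep (lawD_m : ι ⊕ ι → MeasurableSpace ((ι → α) × (ι → β)))
      ((Measure.infinitePi P).prod (Measure.infinitePi Q)) := by
  classical
  rw [ProbabilityTheory.iIndep_iff]
  intro s f hf
  have hl : ∀ e : ι, ∃ A : Set α, MeasurableSet A ∧ (Sum.inl e ∈ s →
      f (Sum.inl e) = (fun q : (ι → α) × (ι → β) => q.1 e) ⁻¹' A) := by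
    intro e
    by_cases he : (Sum.inl e : ι ⊕ ι) ∈ s
    · obtain ⟨A, hA, h⟩ := hf _ he
      exact ⟨A, hA, fun _ => h.symm⟩
    · exact ⟨∅, MeasurableSet.empty, fun h => absurd h he⟩
  have hr : ∀ e : ι, ∃ B : Set β, MeasurableSet B ∧ (Sum.inr e ∈ s →
      f (Sum.inr e) = (fun q : (ι → α) × (ι → β) => q.2 e) ⁻¹' B) := by
    intro e
    by_cases he : (Sum.inr e : ι ⊕ ι) ∈ s
    · obtain ⟨B, hB, h⟩ := hf _ he
      exact ⟨B, hB, fun _ => h.symm⟩
    · exact ⟨∅, MeasurableSet.empty, fun h => absurd h he⟩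
  choose A hA hfA using hl
  choose B hB hfB using hr
  have hinter : (⋂ i ∈ s, f i) = (Set.pi (s.toLeft : Set ι) A) ×ˢ (Set.pi (s.toRight : Set ι) B) := by
    ext q
    simp only [Set.mem_iInter, Set.mem_prod, Set.mem_pi, Finset.mem_coe, Finset.mem_toLeft,
      Finset.mem_toRight]
    constructor
    · intro h
      refine ⟨fun e he => ?_, fun e he => ?_⟩
      · have h1 := h _ he
        rw [hfA e he] at h1
        exact h1
      · have h1 := h _ he
        rw [hfB e he] at h1
        exact h1
    · rintro ⟨h1, h2⟩ (e | e) he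
      · rw [hfA e he]
        exact h1 e he
      · rw [hfB e he]
        exact h2 e he
  rw [hinter, Measure.prod_prod, Measure.infinitePi_pi _ (fun e _ => hA e),
    Measure.infinitePi_pi _ (fun e _ => hB e), Finset.prod_sum_eq_prod_toLeft_mul_prod_toRight]
  congr 1
  · refine Finset.prod_congr rfl fun e he => ?_
    rw [Finset.mem_toLeft] at he
    have h1 : f (Sum.inl e) = ((fun ω : ι → α => ω e) ⁻¹' A e) ×ˢ Set.univ := by
      rw [hfA e he]
      ext q
      simp
    rw [h1, Measure.prod_prod, measure_univ, mul_one]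
    exact ((measurePreserving_eval_infinitePi P e).measure_preimage
      (hA e).nullMeasurableSet).symm
  · refine Finset.prod_congr rfl fun e he => ?_
    rw [Finset.mem_toRight] at he
    have h1 : f (Sum.inr e) = Set.univ ×ˢ ((fun ω : ι → β => ω e) ⁻¹' B e) := by
      rw [hfB e he]
      ext q
      simp
    rw [h1, Measure.prod_prod, measure_univ, one_mul]
    exact ((measurePreserving_eval_infinitePi Q e).measure_preimage
      (hB e).nullMeasurableSet).symm

/-- The coordinates over `T`. -/
def lawD_T (T : Set ι) : Set (ι ⊕ ι) := {i | Sum.elim (fun e => e ∈ T) (fun e => e ∈ T) i}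

lemma lawD_meas [Inhabited α] [Inhabited β] (T : Set ι) (S : Set ((ι → α) × (ι → β)))
    (hS : MeasurableSet S)
    (hdep : ∀ q q' : (ι → α) × (ι → β), (∀ e ∈ T, q.1 e = q'.1 e ∧ q.2 e = q'.2 e) →
      (q ∈ S → q' ∈ S)) :
    MeasurableSet[⨆ i ∈ lawD_T T, lawD_m i] S := by
  classical
  let ρ : (ι → α) × (ι → β) → (ι → α) × (ι → β) := fun q =>
    (fun e => if e ∈ T then q.1 e else default, fun e => if e ∈ T then q.2 e else default)
  have h1 : S = ρ ⁻¹' S := by
    ext q
    constructor
    · exact hdep q (ρ q) fun e he => by simp [ρ, he]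
    · exact hdep (ρ q) q fun e he => by simp [ρ, he]
  rw [h1]
  have h2 : @Measurable _ _ (⨆ i ∈ lawD_T T, lawD_m i) Prod.instMeasurableSpace ρ := by
    refine @Measurable.prodMk ((ι → α) × (ι → β)) (⨆ i ∈ lawD_T T, lawD_m i) (ι → α) (ι → β)
      _ _ _ _ ?_ ?_
    · refine @measurable_pi_lambda _ _ _ (⨆ i ∈ lawD_T T, lawD_m i) _ _ fun e => ?_
      by_cases he : e ∈ T
      · simp only [he, if_true]
        have h3 : (Sum.inl e : ι ⊕ ι) ∈ lawD_T T := he
        have h4 : @Measurable _ _ (lawD_m (Sum.inl e)) _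
            (fun q : (ι → α) × (ι → β) => q.1 e) := comap_measurable _
        exact h4.mono (le_iSup₂_of_le _ h3 le_rfl) le_rfl
      · simp only [he, if_false]
        exact measurable_const
    · refine @measurable_pi_lambda _ _ _ (⨆ i ∈ lawD_T T, lawD_m i) _ _ fun e => ?_
      by_cases he : e ∈ T
      · simp only [he, if_true]
        have h3 : (Sum.inr e : ι ⊕ ι) ∈ lawD_T T := he
        have h4 : @Measurable _ _ (lawD_m (Sum.inr e)) _
            (fun q : (ι → α) × (ι → β) => q.2 e) := comap_measurable _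
        exact h4.mono (le_iSup₂_of_le _ h3 le_rfl) le_rfl
      · simp only [he, if_false]
        exact measurable_const
  exact h2 hS

/-- Two events depending on disjoint sets of coordinates are independent. -/
lemma lawD_indep [Inhabited α] [Inhabited β] (P : ι → Measure α) (Q : ι → Measure β)
    [∀ e, IsProbabilityMeasure (P e)] [∀ e, IsProbabilityMeasure (Q e)] (T T' : Set ι)
    (hT : Disjoint T T') (S A : Set ((ι → α) × (ι → β))) (hS : MeasurableSet S)
    (hA : MeasurableSet A)
    (hdS : ∀ q q' : (ι → α) × (ι → β), (∀ e ∈ T, q.1 e = q'.1 e ∧ q.2 e = q'.2 e) →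
      (q ∈ S → q' ∈ S))
    (hdA : ∀ q q' : (ι → α) × (ι → β), (∀ e ∈ T', q.1 e = q'.1 e ∧ q.2 e = q'.2 e) →
      (q ∈ A → q' ∈ A)) :
    ((Measure.infinitePi P).prod (Measure.infinitePi Q)) (S ∩ A) =
      ((Measure.infinitePi P).prod (Measure.infinitePi Q)) S *
        ((Measure.infinitePi P).prod (Measure.infinitePi Q)) A := by
  have hdj : Disjoint (lawD_T T) (lawD_T T') := by
    rw [Set.disjoint_left] at hT ⊢
    rintro (e | e) h1 h2
    · exact hT (a := e) h1 h2
    · exact hT (a := e) h1 h2
  have hI := ProbabilityTheory.indep_iSup_of_disjoint (fun i => lawD_m_le i)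
    (lawD_iIndep P Q) hdj
  exact (ProbabilityTheory.Indep_iff _ _ _).1 hI S A (lawD_meas T S hS hdS)
    (lawD_meas T' A hA hdA)

end LawD

variable {d : ℕ}

theorem indep_many {p1 s s' : ℝ} (h0 : 0 ≤ p1) (h1 : p1 ≤ 1) (hs0 : 0 ≤ s) (hs1 : s ≤ 1)
    (hs0' : 0 ≤ s') (hs1' : s' ≤ 1) (n : ℕ) (L : ℕ → Set (Ed d))
    (hL : ∀ i < n, ∀ j < n, i ≠ j → Disjoint (L i) (L j)) (A : ℕ → Set (Env d × Cfg d))
    (hA : ∀ i < n, MeasurableSet (A i))
    (hdA : ∀ i < n, ∀ q q' : Env d × Cfg d, (∀ e ∈ L i, q.1 e = q'.1 e ∧ q.2 e = q'.2 e) →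
      (q ∈ A i → q' ∈ A i)) (δ : ℝ) (hδ : ∀ i < n, ((envM d p1 s).prod (perc d s')).real (A i) ≤ δ) :
    ((envM d p1 s).prod (perc d s')).real {q | ∀ i < n, q ∈ A i} ≤ δ ^ n := by
  have := isProb_bern h0 h1
  have := isProb_bern hs0 hs1
  have := isProb_bern hs0' hs1'
  have hpp : IsProbabilityMeasure (perc d s') := by
    unfold perc
    infer_instance
  induction n with
  | zero =>
    simp
  | succ n ih =>
    have ih' := ih (fun i hi j hj => hL i (by omega) j (by omega)) (fun i hi => hA i (by omega))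
      (fun i hi => hdA i (by omega)) (fun i hi => hδ i (by omega))
    have hset : {q : Env d × Cfg d | ∀ i < n + 1, q ∈ A i} =
        {q | ∀ i < n, q ∈ A i} ∩ A n := by
      ext q
      simp only [Set.mem_ofPred_eq, Set.mem_inter_iff]
      constructor
      · intro h
        exact ⟨fun i hi => h i (by omega), h n (by omega)⟩
      · rintro ⟨h2, h3⟩ i hi
        rcases Nat.lt_succ_iff_lt_or_eq.1 hi with h4 | h4
        · exact h2 i h4
        · exact h4 ▸ h3
    have hm : MeasurableSet {q : Env d × Cfg d | ∀ i < n, q ∈ A i} := by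
      have h2 : {q : Env d × Cfg d | ∀ i < n, q ∈ A i} = ⋂ i, ⋂ (_ : i < n), A i := by
        ext q
        simp
      rw [h2]
      exact MeasurableSet.iInter fun i => MeasurableSet.iInter fun hi => hA i (by omega)
    have hdj : Disjoint (⋃ i, ⋃ (_ : i < n), L i) (L n) := by
      rw [Set.disjoint_iUnion_left]
      intro i
      rw [Set.disjoint_iUnion_left]
      intro hi
      exact hL i (by omega) n (by omega) (by omega)
    have hind := lawD_indep (fun _ : Ed d => (bern p1).prod (bern s)) (fun _ : Ed d => bern s')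
      (⋃ i, ⋃ (_ : i < n), L i) (L n) hdj {q : Env d × Cfg d | ∀ i < n, q ∈ A i} (A n) hm
      (hA n (by omega)) (by
        intro q q' h hq i hi
        refine hdA i (by omega) q q' (fun e he => h e ?_) (hq i hi)
        simp only [Set.mem_iUnion]
        exact ⟨i, hi, he⟩) (hdA n (by omega))
    have hreal : ((envM d p1 s).prod (perc d s')).real {q | ∀ i < n + 1, q ∈ A i} =
        ((envM d p1 s).prod (perc d s')).real {q | ∀ i < n, q ∈ A i} *
          ((envM d p1 s).prod (perc d s')).real (A n) := by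
      rw [hset, Measure.real, Measure.real, Measure.real, ← ENNReal.toReal_mul]
      exact congrArg ENNReal.toReal hind
    rw [hreal, pow_succ]
    have hδn := hδ n (by omega)
    have hnn : 0 ≤ ((envM d p1 s).prod (perc d s')).real (A n) := measureReal_nonneg
    have hnn' : 0 ≤ ((envM d p1 s).prod (perc d s')).real {q | ∀ i < n, q ∈ A i} :=
      measureReal_nonneg
    exact mul_le_mul ih' hδn hnn (hnn'.trans ih')

end H95LBD
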