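import Pool.Agent.H95.LBD.SumC

/-!
PROJECT DL (MP_0d9ad5_pr), JOB DL-SumD. The tree kernel sum.
PROOF. Terms with `2 nm (w-v) ≥ nm w`: `kr(w-v) ≤ 2^(d-2) kr w` and `conv2`. Else `nm v > nm w/2 ≥ 2M`,
so `nm (v-u), nm (v-u') ≥ nm v - M ≥ nm v / 2 ≥ nm w/4`, `kr(v-u) kr(v-u') ≤ C (kr w)^2`, and
`∑_{2 nm(w-v) < nm w} kr(w-v) ≤ C (1+nm w)^2` (`sum_ball`); `(kr w)^2 (1+nm w)^2 = kr w / (1+nm w)^(d-4)
≤ kr w / (1+nm(u-u'))^(d-4)` as `nm (u-u') ≤ 2M ≤ nm w`.
-/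

namespace H95LBD

open H5DF MeasureTheory

variable {d : ℕ}

lemma SumD_kr_le {x w : V d} {c : ℝ} (_hc : 0 < c) (h : 1 + (nm w : ℝ) ≤ c * (1 + (nm x : ℝ))) :
    kr x ≤ c ^ (d - 2) * kr w := by
  unfold kr
  have hx : (0 : ℝ) < 1 + (nm x : ℝ) := by positivity
  have hw : (0 : ℝ) < 1 + (nm w : ℝ) := by positivity
  rw [mul_one_div, div_le_div_iff₀ (by positivity) (by positivity), one_mul, ← mul_pow]
  exact pow_le_pow_left₀ hw.le h _

lemma SumD_ball {C : ℝ} {n : ℕ} (h : ∑ v ∈ Box d n, kr v ≤ C * (1 + (n : ℝ)) ^ 2) (w : V d) :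
    ∑' v : V d, (if nm (w - v) ≤ n then ENNReal.ofReal (kr (w - v)) else 0) ≤
      ENNReal.ofReal (C * (1 + (n : ℝ)) ^ 2) := by
  have e1 : ∑' v : V d, (if nm (w - v) ≤ n then ENNReal.ofReal (kr (w - v)) else 0) =
      ∑' x : V d, (if nm x ≤ n then ENNReal.ofReal (kr x) else 0) :=
    (Equiv.subLeft w).tsum_eq (fun x : V d => if nm x ≤ n then ENNReal.ofReal (kr x) else 0)
  have e2 : ∑' x : V d, (if nm x ≤ n then ENNReal.ofReal (kr x) else 0) =
      ∑ x ∈ Box d n, ENNReal.ofReal (kr x) := by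
    rw [tsum_eq_sum (s := Box d n)]
    · apply Finset.sum_congr rfl
      intro x hx
      rw [if_pos ((mem_Box').1 hx)]
    · intro x hx
      rw [if_neg]
      intro h2
      exact hx ((mem_Box').2 h2)
  rw [e1, e2, ← ENNReal.ofReal_sum_of_nonneg (fun x _ => (kr_pos x).le)]
  exact ENNReal.ofReal_le_ofReal h

theorem conv3 (hd : 5 ≤ d) : ∃ C : ℝ, 0 < C ∧ ∀ (M : ℕ) (u u' w : V d), nm u ≤ M → nm u' ≤ M →
    4 * M ≤ nm w →
    ∑' v : V d, ENNReal.ofReal (kr (v - u) * kr (v - u') * kr (w - v)) ≤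
      ENNReal.ofReal (C / (1 + (nm (u - u') : ℝ)) ^ (d - 4) * kr w) := by
  obtain ⟨C₁, hC₁, h₁⟩ := sum_ball (d := d) hd
  obtain ⟨C₂, hC₂, h₂⟩ := conv2 (d := d) hd
  refine ⟨2 ^ (d - 2) * C₂ + 4 ^ (d - 2) * 4 ^ (d - 2) * C₁, by positivity,
    fun M u u' w hu hu' hw => ?_⟩
  have hk := kr_pos w
  have hpt : ∀ v : V d, ENNReal.ofReal (kr (v - u) * kr (v - u') * kr (w - v)) ≤
      ENNReal.ofReal (2 ^ (d - 2) * kr w) * ENNReal.ofReal (kr (v - u) * kr (v - u')) +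
      ENNReal.ofReal (4 ^ (d - 2) * 4 ^ (d - 2) * kr w ^ 2) *
        (if nm (w - v) ≤ nm w then ENNReal.ofReal (kr (w - v)) else 0) := by
    intro v
    have k1 := kr_pos (v - u)
    have k2 := kr_pos (v - u')
    have k3 := kr_pos (w - v)
    by_cases hc : nm w ≤ 2 * nm (w - v)
    · refine le_trans ?_ le_self_add
      rw [← ENNReal.ofReal_mul (by positivity)]
      apply ENNReal.ofReal_le_ofReal
      have h3 : kr (w - v) ≤ 2 ^ (d - 2) * kr w := by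
        apply SumD_kr_le (by norm_num)
        have : ((nm w : ℕ) : ℝ) ≤ 2 * (nm (w - v) : ℝ) := by exact_mod_cast hc
        linarith
      calc kr (v - u) * kr (v - u') * kr (w - v) ≤ kr (v - u) * kr (v - u') * (2 ^ (d - 2) * kr w) :=
            mul_le_mul_of_nonneg_left h3 (by positivity)
        _ = 2 ^ (d - 2) * kr w * (kr (v - u) * kr (v - u')) := by ring
    · push Not at hc
      refine le_trans ?_ le_add_self
      rw [if_pos (by omega), ← ENNReal.ofReal_mul (by positivity)]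
      apply ENNReal.ofReal_le_ofReal
      have hv := nm_le_add w v
      have hvu := nm_le_add v u
      have hvu' := nm_le_add v u'
      have h3 : kr (v - u) ≤ 4 ^ (d - 2) * kr w := by
        apply SumD_kr_le (by norm_num)
        have : nm w ≤ 4 * nm (v - u) := by omega
        have : ((nm w : ℕ) : ℝ) ≤ 4 * (nm (v - u) : ℝ) := by exact_mod_cast this
        linarith
      have h4 : kr (v - u') ≤ 4 ^ (d - 2) * kr w := by
        apply SumD_kr_le (by norm_num)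
        have : nm w ≤ 4 * nm (v - u') := by omega
        have : ((nm w : ℕ) : ℝ) ≤ 4 * (nm (v - u') : ℝ) := by exact_mod_cast this
        linarith
      calc kr (v - u) * kr (v - u') * kr (w - v) ≤
            (4 ^ (d - 2) * kr w) * (4 ^ (d - 2) * kr w) * kr (w - v) := by
            apply mul_le_mul_of_nonneg_right _ k3.le
            exact mul_le_mul h3 h4 k2.le (by positivity)
        _ = 4 ^ (d - 2) * 4 ^ (d - 2) * kr w ^ 2 * kr (w - v) := by ring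
  refine (ENNReal.tsum_le_tsum hpt).trans ?_
  rw [ENNReal.tsum_add, ENNReal.tsum_mul_left, ENNReal.tsum_mul_left]
  refine (add_le_add (mul_le_mul_right (h₂ u u') _)
    (mul_le_mul_right (SumD_ball (h₁ (nm w)) w) _)).trans ?_
  rw [← ENNReal.ofReal_mul (by positivity), ← ENNReal.ofReal_mul (by positivity),
    ← ENNReal.ofReal_add (by positivity) (by positivity)]
  apply ENNReal.ofReal_le_ofReal
  have hn : (1 : ℝ) + (nm (u - u') : ℝ) ≤ 1 + (nm w : ℝ) := by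
    have h5 := nm_sub u u'
    have h6 : nm (u - u') ≤ nm w := by omega
    have : ((nm (u - u') : ℕ) : ℝ) ≤ (nm w : ℝ) := by exact_mod_cast h6
    linarith
  have h7 : kr w * (1 + (nm w : ℝ)) ^ 2 ≤ 1 / (1 + (nm (u - u') : ℝ)) ^ (d - 4) := by
    have h8 : kr w * (1 + (nm w : ℝ)) ^ 2 = 1 / (1 + (nm w : ℝ)) ^ (d - 4) := by
      unfold kr
      have e5 : d - 2 = (d - 4) + 2 := by omega
      rw [e5, pow_add]
      have : (0 : ℝ) < 1 + (nm w : ℝ) := by positivity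
      field_simp
    rw [h8]
    exact one_div_le_one_div_of_le (by positivity) (pow_le_pow_left₀ (by positivity) hn _)
  calc 2 ^ (d - 2) * kr w * (C₂ / (1 + (nm (u - u') : ℝ)) ^ (d - 4)) +
        4 ^ (d - 2) * 4 ^ (d - 2) * kr w ^ 2 * (C₁ * (1 + (nm w : ℝ)) ^ 2)
      = 2 ^ (d - 2) * C₂ * (1 / (1 + (nm (u - u') : ℝ)) ^ (d - 4)) * kr w +
        4 ^ (d - 2) * 4 ^ (d - 2) * C₁ * (kr w * (1 + (nm w : ℝ)) ^ 2) * kr w := by ring
    _ ≤ 2 ^ (d - 2) * C₂ * (1 / (1 + (nm (u - u') : ℝ)) ^ (d - 4)) * kr w +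
        4 ^ (d - 2) * 4 ^ (d - 2) * C₁ * (1 / (1 + (nm (u - u') : ℝ)) ^ (d - 4)) * kr w := by
          gcongr
    _ = (2 ^ (d - 2) * C₂ + 4 ^ (d - 2) * 4 ^ (d - 2) * C₁) /
        (1 + (nm (u - u') : ℝ)) ^ (d - 4) * kr w := by ring

end H95LBD
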