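import Pool.Agent.H95.LBD.Setup
import Pool.Agent.H95.LBD.BkB
import Pool.Agent.H95.LBD.DecA
import Pool.Agent.H95.LBD.SumD

/-!
PROJECT DL (MP_0d9ad5_pr), JOB DL-TreeB. Tree graph inequality.
PROOF. `tree_dec`, countable subadditivity, `bk_inf` twice (`disj_inc`, `disj_fw`, `SCn_inc`, `SCn_fw`),
`perc_conn`, `tau_neg`: each term is `≤ tau (v-u) tau (v-u') tau (w-v)`; second statement with `KB` and
`conv3` (`kr (v-u)` etc. are nonnegative, `ENNReal.ofReal_mul`).
-/

namespace H95LBD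

open H5DF MeasureTheory

variable {d : ℕ}

theorem tree_bound (p : ℝ) (h0 : 0 ≤ p) (h1 : p ≤ 1) (u u' w : V d) :
    perc d p (SCn {u} Set.univ w ∩ SCn {u'} Set.univ w) ≤
      ∑' v : V d, tau d p (v - u) * (tau d p (v - u') * tau d p (w - v)) := by
  calc perc d p (SCn {u} Set.univ w ∩ SCn {u'} Set.univ w)
      ≤ perc d p (⋃ v : V d, disj (SCn {u} Set.univ v)
          (disj (SCn {u'} Set.univ v) (SCn {v} Set.univ w))) := measure_mono (tree_dec u u' w)
    _ ≤ ∑' v : V d, perc d p (disj (SCn {u} Set.univ v)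
          (disj (SCn {u'} Set.univ v) (SCn {v} Set.univ w))) := measure_iUnion_le _
    _ ≤ ∑' v : V d, tau d p (v - u) * (tau d p (v - u') * tau d p (w - v)) := by
        refine ENNReal.tsum_le_tsum fun v => ?_
        rw [← perc_conn p h0 h1 u v, ← perc_conn p h0 h1 u' v, ← perc_conn p h0 h1 v w]
        refine (bk_inf p h0 h1 _ _ (SCn_inc _ _ _) (disj_inc (SCn_inc _ _ _) (SCn_inc _ _ _))
          (SCn_fw _ _ _) (disj_fw (SCn_inc _ _ _) (SCn_inc _ _ _) (SCn_fw _ _ _)
            (SCn_fw _ _ _))).trans ?_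
        gcongr
        exact bk_inf p h0 h1 _ _ (SCn_inc _ _ _) (SCn_inc _ _ _) (SCn_fw _ _ _) (SCn_fw _ _ _)

theorem tree_kr (hd : 5 ≤ d) (p0 b B : ℝ) (h0 : 0 ≤ p0) (h1 : p0 ≤ 1) (hB : 0 < B)
    (h : KB d p0 b B) : ∃ C : ℝ, 0 < C ∧ ∀ (M : ℕ) (u u' w : V d), nm u ≤ M → nm u' ≤ M →
    4 * M ≤ nm w →
    (perc d p0).real (SCn {u} Set.univ w ∩ SCn {u'} Set.univ w) ≤
      C / (1 + (nm (u - u') : ℝ)) ^ (d - 4) * kr w := by
  obtain ⟨C, hC, hconv⟩ := conv3 (d := d) hd
  refine ⟨B ^ 3 * C, by positivity, fun M u u' w hu hu' hw => ?_⟩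
  have hterm : ∀ v : V d, tau d p0 (v - u) * (tau d p0 (v - u') * tau d p0 (w - v)) ≤
      ENNReal.ofReal (B ^ 3) * ENNReal.ofReal (kr (v - u) * kr (v - u') * kr (w - v)) := by
    intro v
    have e1 := (h (v - u)).2
    have e2 := (h (v - u')).2
    have e3 := (h (w - v)).2
    have k1 := (kr_pos (v - u)).le
    have k2 := (kr_pos (v - u')).le
    have k3 := (kr_pos (w - v)).le
    calc tau d p0 (v - u) * (tau d p0 (v - u') * tau d p0 (w - v))
        ≤ ENNReal.ofReal (B * kr (v - u)) *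
          (ENNReal.ofReal (B * kr (v - u')) * ENNReal.ofReal (B * kr (w - v))) := by
          gcongr
      _ = ENNReal.ofReal (B ^ 3) * ENNReal.ofReal (kr (v - u) * kr (v - u') * kr (w - v)) := by
          rw [← ENNReal.ofReal_mul (by positivity), ← ENNReal.ofReal_mul (by positivity),
            ← ENNReal.ofReal_mul (by positivity)]
          congr 1
          ring
  have hmain : perc d p0 (SCn {u} Set.univ w ∩ SCn {u'} Set.univ w) ≤
      ENNReal.ofReal (B ^ 3 * C / (1 + (nm (u - u') : ℝ)) ^ (d - 4) * kr w) := by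
    calc perc d p0 (SCn {u} Set.univ w ∩ SCn {u'} Set.univ w)
        ≤ ∑' v : V d, tau d p0 (v - u) * (tau d p0 (v - u') * tau d p0 (w - v)) :=
          tree_bound p0 h0 h1 u u' w
      _ ≤ ∑' v : V d, ENNReal.ofReal (B ^ 3) *
            ENNReal.ofReal (kr (v - u) * kr (v - u') * kr (w - v)) :=
          ENNReal.tsum_le_tsum hterm
      _ = ENNReal.ofReal (B ^ 3) *
            ∑' v : V d, ENNReal.ofReal (kr (v - u) * kr (v - u') * kr (w - v)) :=
          ENNReal.tsum_mul_left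
      _ ≤ ENNReal.ofReal (B ^ 3) *
            ENNReal.ofReal (C / (1 + (nm (u - u') : ℝ)) ^ (d - 4) * kr w) := by
          gcongr
          exact hconv M u u' w hu hu' hw
      _ = ENNReal.ofReal (B ^ 3 * C / (1 + (nm (u - u') : ℝ)) ^ (d - 4) * kr w) := by
          rw [← ENNReal.ofReal_mul (by positivity)]
          congr 1
          ring
  have hk := (kr_pos w).le
  have hnn : 0 ≤ B ^ 3 * C / (1 + (nm (u - u') : ℝ)) ^ (d - 4) * kr w := by positivity
  have := ENNReal.toReal_mono ENNReal.ofReal_ne_top hmain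
  rwa [ENNReal.toReal_ofReal hnn] at this

end H95LBD
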