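import Pool.Agent.H95.LBD.PathDef

/-!
PROJECT DL (MP_0d9ad5_pr), JOB DL-PathA. Crossing numbers of lattice paths.
PROOF. All by induction on the list, generalizing the starting point.
`crs_div`: for one step from `x` in direction `t`: `∑ s [x = y, t = s] = [x = y]`,
`∑ s [x = y + step s, t = opp s] = [x + step t = y]` (only `s = opp t`), telescoping.
`crs_le`: `crs = a - b` with `0 ≤ a ≤ #{visits of y} ≤ 1`, `0 ≤ b ≤ #{visits of y + step s} ≤ 1` (prove by induction the
bounds `a ≤ count y (pvs x l)` etc.). `crs_disp`: one step contributes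
`(step t) i0 - (step (opp t)) i0 = 2 (step t) i0` (the two vertices are in the box).
-/

namespace H95LBD

open H5DF MeasureTheory

variable {d : ℕ}

lemma pathA_opp_opp (s : Dir d) : opp (opp s) = s := by
  obtain ⟨i, b⟩ := s
  simp [opp]

lemma pathA_eq_opp {s t : Dir d} : t = opp s ↔ s = opp t := by
  constructor
  · rintro rfl
    rw [pathA_opp_opp]
  · rintro rfl
    rw [pathA_opp_opp]

lemma pathA_back (y : V d) (s : Dir d) : y + step s + step (opp s) = y := by
  rw [step_opp]
  abel

/-- The backward term of one step: only `s = opp t` counts. -/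
lemma pathA_iff (x y : V d) (s t : Dir d) :
    (x = y + step s ∧ t = opp s) ↔ (x + step t = y ∧ s = opp t) := by
  constructor
  · rintro ⟨rfl, rfl⟩
    exact ⟨pathA_back y s, (pathA_opp_opp s).symm⟩
  · rintro ⟨rfl, rfl⟩
    exact ⟨(pathA_back x t).symm, (pathA_opp_opp t).symm⟩

lemma crs_anti (y : V d) (s : Dir d) (x : V d) (l : List (Dir d)) :
    crs (y + step s) (opp s) x l = - crs y s x l := by
  induction l generalizing x with
  | nil => simp [crs]
  | cons t l ih =>
    rw [crs, crs, ih, pathA_back, pathA_opp_opp]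
    ring

/-- Sum of the forward term. -/
lemma pathA_sum1 (g : Dir d → ℝ) (x y : V d) (t : Dir d) :
    ∑ s : Dir d, g s * (if x = y ∧ t = s then (1 : ℝ) else 0) = if x = y then g t else 0 := by
  by_cases h : x = y
  · simp [h]
  · simp [h]

/-- Sum of the backward term. -/
lemma pathA_sum2 (g : Dir d → ℝ) (x y : V d) (t : Dir d) :
    ∑ s : Dir d, g s * (if x = y + step s ∧ t = opp s then (1 : ℝ) else 0) =
      if x + step t = y then g (opp t) else 0 := by
  simp_rw [pathA_iff x y]
  by_cases h : x + step t = y
  · simp [h]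
  · simp [h]

lemma crs_div (y x : V d) (l : List (Dir d)) :
    ∑ s : Dir d, crs y s x l = (if x = y then 1 else 0) - (if pend x l = y then 1 else 0) := by
  induction l generalizing x with
  | nil =>
    simp only [crs, Finset.sum_const_zero]
    exact (sub_self _).symm
  | cons t l ih =>
    have h1 := pathA_sum1 (fun _ => 1) x y t
    have h2 := pathA_sum2 (fun _ => 1) x y t
    have hp : (if pend x (t :: l) = y then (1 : ℝ) else 0) =
      if pend (x + step t) l = y then 1 else 0 := rfl
    simp only [one_mul] at h1 h2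
    simp only [crs, Finset.sum_add_distrib, Finset.sum_sub_distrib]
    rw [h1, h2, ih, hp]
    ring

lemma pathA_count (y : V d) (s : Dir d) (x : V d) (l : List (Dir d)) :
    crs y s x l ≤ ((pvs x l).count y : ℝ) := by
  induction l generalizing x with
  | nil => simp [crs]
  | cons t l ih =>
    rw [crs, pvs, List.count_cons]
    have h1 := ih (x + step t)
    have h2 : (if x = y ∧ t = s then (1 : ℝ) else 0) ≤ if x = y then 1 else 0 := by
      by_cases h : x = y
      · simp only [h, true_and, if_true]
        split_ifs <;> norm_num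
      · simp [h]
    have h3 : (0 : ℝ) ≤ if x = y + step s ∧ t = opp s then (1 : ℝ) else 0 := by
      split_ifs <;> norm_num
    have h4 : (((if (x == y) = true then 1 else 0 : ℕ)) : ℝ) = if x = y then 1 else 0 := by
      by_cases h : x = y
      · simp [h]
      · simp [h]
    push_cast at h4 ⊢
    rw [h4]
    linarith

lemma crs_le (y : V d) (s : Dir d) (x : V d) (l : List (Dir d)) (h : (pvs x l).Nodup) :
    |crs y s x l| ≤ 1 := by
  have h1 : ∀ z : V d, ((pvs x l).count z : ℝ) ≤ 1 := by
    intro z
    exact_mod_cast List.nodup_iff_count_le_one.1 h z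
  rw [abs_le]
  constructor
  · have h2 := pathA_count (y + step s) (opp s) x l
    rw [crs_anti] at h2
    linarith [h1 (y + step s)]
  · exact (pathA_count y s x l).trans (h1 y)

lemma pathA_head (x : V d) (l : List (Dir d)) : x ∈ pvs x l := by
  cases l <;> simp [pvs]

lemma crs_supp (ω : Cfg d) (y : V d) (s : Dir d) (x : V d) (l : List (Dir d)) (h : popen ω x l)
    (hc : crs y s x l ≠ 0) :
    y ∈ pvs x l ∧ y + step s ∈ pvs x l ∧ ω (edge y s) = true ∧ y ∈ cluster ω x := by
  induction l generalizing x with
  | nil => simp [crs] at hc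
  | cons t l ih =>
    obtain ⟨h1, h2⟩ := h
    have hadj : (G ω).Adj x (x + step t) := ⟨t, rfl, h1⟩
    rw [pvs]
    by_cases c1 : x = y ∧ t = s
    · obtain ⟨rfl, rfl⟩ := c1
      exact ⟨List.mem_cons_self, List.mem_cons_of_mem _ (pathA_head _ _), h1,
        SimpleGraph.Reachable.refl _⟩
    · by_cases c2 : x = y + step s ∧ t = opp s
      · obtain ⟨c3, c4⟩ := (pathA_iff x y s t).1 c2
        obtain ⟨c5, c6⟩ := c2
        refine ⟨List.mem_cons_of_mem _ ?_, ?_, ?_, ?_⟩
        · rw [← c3]
          exact pathA_head _ _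
        · rw [← c5]
          exact List.mem_cons_self
        · rw [← edge_opp, ← c5, ← c6]
          exact h1
        · have h3 : (G ω).Reachable x y := by
            rw [← c3]
            exact hadj.reachable
          exact h3
      · have hc' : crs y s (x + step t) l ≠ 0 := by
          rw [crs, if_neg c1, if_neg c2] at hc
          simpa using hc
        obtain ⟨h3, h4, h5, h6⟩ := ih (x + step t) h2 hc'
        refine ⟨List.mem_cons_of_mem _ h3, List.mem_cons_of_mem _ h4, h5, ?_⟩
        have h7 : (G ω).Reachable (x + step t) y := h6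
        exact hadj.reachable.trans h7

lemma crs_disp (i0 : Fin d) (N : ℕ) (x : V d) (l : List (Dir d)) (h : ∀ v ∈ pvs x l, nm v ≤ N) :
    ∑ y ∈ Box d N, ∑ s : Dir d, (((step s : V d) i0 : ℤ) : ℝ) * crs y s x l =
      2 * (((pend x l) i0 : ℝ) - (x i0 : ℝ)) := by
  induction l generalizing x with
  | nil => simp [crs, pend]
  | cons t l ih =>
    have hx : x ∈ Box d N := mem_Box'.2 (h x (pathA_head x _))
    have hx' : x + step t ∈ Box d N := by
      refine mem_Box'.2 (h _ ?_)
      rw [pvs]
      exact List.mem_cons_of_mem _ (pathA_head _ _)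
    have ih' := ih (x + step t) (fun v hv => h v (by
      rw [pvs]
      exact List.mem_cons_of_mem _ hv))
    have e1 : ∀ y : V d, ∑ s : Dir d, (((step s : V d) i0 : ℤ) : ℝ) * crs y s x (t :: l) =
        ((if x = y then (((step t : V d) i0 : ℤ) : ℝ) else 0) -
          (if x + step t = y then (((step (opp t) : V d) i0 : ℤ) : ℝ) else 0)) +
        ∑ s : Dir d, (((step s : V d) i0 : ℤ) : ℝ) * crs y s (x + step t) l := by
      intro y
      rw [← pathA_sum1 (fun s => (((step s : V d) i0 : ℤ) : ℝ)) x y t,
        ← pathA_sum2 (fun s => (((step s : V d) i0 : ℤ) : ℝ)) x y t,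
        ← Finset.sum_sub_distrib, ← Finset.sum_add_distrib]
      refine Finset.sum_congr rfl fun s _ => ?_
      rw [crs]
      ring
    simp_rw [e1]
    rw [Finset.sum_add_distrib, Finset.sum_sub_distrib, ih', Finset.sum_ite_eq,
      Finset.sum_ite_eq, if_pos hx, if_pos hx', step_opp, pend]
    simp only [Pi.neg_apply, Pi.add_apply, Int.cast_neg, Int.cast_add]
    ring

end H95LBD
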