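import Pool.Agent.H5.DF.Arms

/-!
PROJECT DL (MP_0d9ad5_pr). Definitions and basic lemmas: natural sup norm, connections inside a set.
-/

namespace H95LBD

open H5DF MeasureTheory

variable {d : ℕ}

/-- The sup norm as a natural number. -/
def nm (x : V d) : ℕ := Finset.univ.sup fun i => (x i).natAbs

lemma nm_le {x : V d} {n : ℕ} : nm x ≤ n ↔ ∀ i, (x i).natAbs ≤ n := by
  simp [nm]

lemma natAbs_le_nm (x : V d) (i : Fin d) : (x i).natAbs ≤ nm x := nm_le.1 le_rfl i

lemma norm_eq_nm (x : V d) : ‖x‖ = nm x := by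
  apply le_antisymm
  · rw [pi_norm_le_iff_of_nonneg (Nat.cast_nonneg _)]
    intro i
    rw [Int.norm_eq_abs, ← Int.cast_abs, Int.abs_eq_natAbs]
    exact_mod_cast natAbs_le_nm x i
  · have h : ∀ i, ((x i).natAbs : ℝ) ≤ ‖x‖ := by
      intro i
      have h1 := norm_le_pi_norm x i
      rw [Int.norm_eq_abs, ← Int.cast_abs, Int.abs_eq_natAbs] at h1
      rwa [Int.cast_natCast] at h1
    by_cases hd : (Finset.univ : Finset (Fin d)).Nonempty
    · obtain ⟨i, -, hi⟩ := Finset.exists_mem_eq_sup Finset.univ hd fun i => (x i).natAbs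
      have : nm x = (x i).natAbs := hi
      rw [this]
      exact h i
    · rw [Finset.not_nonempty_iff_eq_empty] at hd
      have : nm x = 0 := by simp [nm, hd]
      rw [this]
      simp

lemma nm_zero : nm (0 : V d) = 0 := by simp [nm]

lemma nm_neg (x : V d) : nm (-x) = nm x := by simp [nm]

lemma nm_sub_comm (x y : V d) : nm (x - y) = nm (y - x) := by
  rw [← nm_neg, neg_sub]

lemma nm_add (x y : V d) : nm (x + y) ≤ nm x + nm y := by
  rw [nm_le]
  intro i
  have h1 := natAbs_le_nm x i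
  have h2 := natAbs_le_nm y i
  have h3 := Int.natAbs_add_le (x i) (y i)
  rw [Pi.add_apply]
  omega

lemma nm_sub (x y : V d) : nm (x - y) ≤ nm x + nm y := by
  rw [sub_eq_add_neg, ← nm_neg y]
  exact nm_add x (-y)

lemma nm_le_add (x y : V d) : nm x ≤ nm (x - y) + nm y := by
  have h := nm_add (x - y) y
  rwa [sub_add_cancel] at h

lemma nm_tri (x y z : V d) : nm (x - z) ≤ nm (x - y) + nm (y - z) := by
  have h := nm_add (x - y) (y - z)
  rwa [sub_add_sub_cancel] at h

lemma nm_eq_zero {x : V d} : nm x = 0 ↔ x = 0 := by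
  constructor
  · intro h
    funext i
    have := natAbs_le_nm x i
    simp only [Pi.zero_apply]
    omega
  · rintro rfl
    exact nm_zero

lemma nm_step (s : Dir d) : nm (step s) = 1 := by
  obtain ⟨i, b⟩ := s
  apply le_antisymm
  · rw [nm_le]
    intro j
    by_cases hj : j = i
    · subst hj
      cases b <;> simp [step]
    · cases b <;> simp [step, hj]
  · have := natAbs_le_nm (step (i, b) : V d) i
    cases b <;> simpa [step] using this

lemma nm_add_step (x : V d) (s : Dir d) : nm (x + step s) ≤ nm x + 1 := by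
  have := nm_add x (step s)
  rwa [nm_step] at this

lemma le_nm_add_step (x : V d) (s : Dir d) : nm x ≤ nm (x + step s) + 1 := by
  have := nm_le_add x (-step s)
  rwa [sub_neg_eq_add, nm_neg, nm_step] at this

lemma mem_Box' {M : ℕ} {x : V d} : x ∈ Box d M ↔ nm x ≤ M := by
  rw [mem_Box, norm_eq_nm]
  exact_mod_cast Iff.rfl

/-- The box of radius `n` around `z`. -/
def Bx (z : V d) (n : ℕ) : Set (V d) := {x | nm (x - z) ≤ n}

lemma mem_Bx {z x : V d} {n : ℕ} : x ∈ Bx z n ↔ nm (x - z) ≤ n := Iff.rfl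

lemma mem_Bx0 {x : V d} {n : ℕ} : x ∈ Bx 0 n ↔ nm x ≤ n := by rw [mem_Bx, sub_zero]

open Classical in
/-- The configuration with only the edges with both ends in `S` kept. -/
noncomputable def cut (S : Set (V d)) (ω : Cfg d) : Cfg d :=
  fun e => ω e && decide (e.1 ∈ S ∧ e.1 + Pi.single e.2 1 ∈ S)

/-- `x` and `y` are connected inside `S`. -/
def Cn (S : Set (V d)) (ω : Cfg d) (x y : V d) : Prop := y ∈ cluster (cut S ω) x

/-- The edges with both ends in `S`. -/
def ins (S : Set (V d)) : Set (Ed d) := {e | e.1 ∈ S ∧ e.1 + Pi.single e.2 1 ∈ S}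

lemma cut_true {S : Set (V d)} {ω : Cfg d} {e : Ed d} :
    cut S ω e = true ↔ ω e = true ∧ e ∈ ins S := by
  simp [cut, ins]

lemma edge_mem_ins {S : Set (V d)} {x : V d} {s : Dir d} :
    edge x s ∈ ins S ↔ x ∈ S ∧ x + step s ∈ S := by
  obtain ⟨i, b⟩ := s
  cases b
  · have h : x + step (i, false) + Pi.single i 1 = x := by
      have h1 : (step (i, false) : V d) = - Pi.single i 1 := by
        simp [step, Pi.single_neg]
      rw [h1]
      abel
    simp only [ins, edge, Bool.false_eq_true, if_false, Set.mem_setOf_eq, h]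
    exact and_comm
  · simp [ins, edge, step]

lemma cut_edge {S : Set (V d)} {ω : Cfg d} {x : V d} {s : Dir d} :
    cut S ω (edge x s) = true ↔ ω (edge x s) = true ∧ x ∈ S ∧ x + step s ∈ S := by
  rw [cut_true, edge_mem_ins]

lemma G_cut_adj {S : Set (V d)} {ω : Cfg d} {x y : V d} :
    (G (cut S ω)).Adj x y ↔ (G ω).Adj x y ∧ x ∈ S ∧ y ∈ S := by
  constructor
  · rintro ⟨s, rfl, h⟩
    rw [cut_edge] at h
    exact ⟨⟨s, rfl, h.1⟩, h.2⟩
  · rintro ⟨⟨s, rfl, h⟩, h2⟩
    exact ⟨s, rfl, cut_edge.2 ⟨h, h2⟩⟩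

lemma Cn.refl (S : Set (V d)) (ω : Cfg d) (x : V d) : Cn S ω x x := SimpleGraph.Reachable.refl _

lemma Cn.symm {S : Set (V d)} {ω : Cfg d} {x y : V d} (h : Cn S ω x y) : Cn S ω y x :=
  SimpleGraph.Reachable.symm h

lemma Cn.trans {S : Set (V d)} {ω : Cfg d} {x y z : V d} (h : Cn S ω x y) (h' : Cn S ω y z) :
    Cn S ω x z := SimpleGraph.Reachable.trans h h'

lemma Cn.one {S : Set (V d)} {ω : Cfg d} {x : V d} {s : Dir d} (h : ω (edge x s) = true)
    (hx : x ∈ S) (hy : x + step s ∈ S) : Cn S ω x (x + step s) :=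
  SimpleGraph.Adj.reachable ⟨s, rfl, cut_edge.2 ⟨h, hx, hy⟩⟩

/-- Induction along a connection inside `S`. -/
lemma Cn.ind {S : Set (V d)} {ω : Cfg d} {x : V d} (P : V d → Prop) (h0 : P x)
    (h1 : ∀ y s, Cn S ω x y → P y → y ∈ S → y + step s ∈ S → ω (edge y s) = true →
      P (y + step s)) {y : V d} (h : Cn S ω x y) : P y := by
  have h' := (SimpleGraph.reachable_iff_reflTransGen x y).1 h
  induction h' with
  | refl => exact h0
  | tail h1' h2 ih =>
    have hz := (SimpleGraph.reachable_iff_reflTransGen _ _).2 h1'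
    obtain ⟨s, rfl, hs⟩ := h2
    rw [cut_edge] at hs
    exact h1 _ s hz (ih hz) hs.2.1 hs.2.2 hs.1

lemma Cn.mem {S : Set (V d)} {ω : Cfg d} {x y : V d} (h : Cn S ω x y) (hx : x ∈ S) : y ∈ S :=
  Cn.ind (fun y => y ∈ S) hx (fun _ _ _ _ _ h _ => h) h

lemma Cn.mono {S S' : Set (V d)} {ω ω' : Cfg d} {x y : V d} (h : Cn S ω x y) (hS : S ⊆ S')
    (hω : ∀ e, ω e = true → ω' e = true) : Cn S' ω' x y :=
  Cn.ind (fun y => Cn S' ω' x y) (Cn.refl _ _ _)
    (fun _ _ _ h hy hs ho => h.trans (Cn.one (hω _ ho) (hS hy) (hS hs))) h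

lemma Cn.congr {S : Set (V d)} {ω ω' : Cfg d} {x y : V d} (h : Cn S ω x y)
    (hω : ∀ e ∈ ins S, ω e = ω' e) : Cn S ω' x y :=
  Cn.ind (fun y => Cn S ω' x y) (Cn.refl _ _ _)
    (fun _ _ _ h hy hs ho => h.trans (Cn.one (by
      rw [← hω _ (edge_mem_ins.2 ⟨hy, hs⟩)]
      exact ho) hy hs)) h

lemma Cn_univ {ω : Cfg d} {x y : V d} : Cn Set.univ ω x y ↔ y ∈ cluster ω x := by
  have : cut Set.univ ω = ω := by
    funext e
    simp [cut]
  rw [Cn, this]

lemma Cn.cluster {S : Set (V d)} {ω : Cfg d} {x y : V d} (h : Cn S ω x y) : y ∈ cluster ω x :=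
  Cn_univ.1 (h.mono (Set.subset_univ _) fun _ h => h)

lemma measurable_cut (S : Set (V d)) : Measurable (cut S : Cfg d → Cfg d) := by
  classical
  refine measurable_pi_lambda _ fun e => ?_
  have h1 : Measurable (fun b : Bool => (b && decide (e.1 ∈ S ∧ e.1 + Pi.single e.2 1 ∈ S))) :=
    measurable_of_countable _
  have h2 : Measurable (fun ω : Cfg d => ω e) := measurable_pi_apply e
  exact h1.comp h2

lemma meas_Cn (S : Set (V d)) (x y : V d) : MeasurableSet {ω : Cfg d | Cn S ω x y} :=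
  (measurable_cut S) (meas_reach x y)

lemma cut_shift (S : Set (V d)) (a : V d) (ω : Cfg d) :
    cut S (shift a ω) = shift a (cut {x | x - a ∈ S} ω) := by
  classical
  funext e
  have h1 : e.1 + a - a = e.1 := add_sub_cancel_right _ _
  have h2 : e.1 + a + Pi.single e.2 1 - a = e.1 + Pi.single e.2 1 := by abel
  have h3 : (e.1 ∈ S ∧ e.1 + Pi.single e.2 1 ∈ S) ↔
      (e.1 + a - a ∈ S ∧ e.1 + a + Pi.single e.2 1 - a ∈ S) := by rw [h1, h2]
  exact congrArg (fun b => (ω (e.1 + a, e.2) && b)) (decide_eq_decide.2 h3)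

lemma Cn_shift (S : Set (V d)) (a : V d) (ω : Cfg d) (x y : V d) :
    Cn S (shift a ω) x y ↔ Cn {x | x - a ∈ S} ω (x + a) (y + a) := by
  rw [Cn, cut_shift, cluster_shift]
  rfl

lemma Cn_shift_Bx (z : V d) (n : ℕ) (a : V d) (ω : Cfg d) (x y : V d) :
    Cn (Bx z n) (shift a ω) x y ↔ Cn (Bx (z + a) n) ω (x + a) (y + a) := by
  rw [Cn_shift]
  have : {x : V d | x - a ∈ Bx z n} = Bx (z + a) n := by
    ext x
    simp only [Set.mem_setOf_eq, mem_Bx]
    rw [sub_sub, add_comm a z]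
  rw [this]

/-- A connection inside `S` is a walk in the open graph with support in `S`. -/
lemma Cn_iff_walk {S : Set (V d)} {ω : Cfg d} {x y : V d} (hx : x ∈ S) :
    Cn S ω x y ↔ ∃ P : (G ω).Walk x y, ∀ z ∈ P.support, z ∈ S := by
  constructor
  · intro h
    refine Cn.ind (fun y => ∃ P : (G ω).Walk x y, ∀ z ∈ P.support, z ∈ S)
      ⟨SimpleGraph.Walk.nil, by simpa using hx⟩ ?_ h
    rintro y s - ⟨P, hP⟩ hy hs ho
    refine ⟨P.append (SimpleGraph.Walk.cons (⟨s, rfl, ho⟩ : (G ω).Adj y (y + step s))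
      SimpleGraph.Walk.nil), ?_⟩
    intro z hz
    rw [SimpleGraph.Walk.mem_support_append_iff] at hz
    rcases hz with hz | hz
    · exact hP z hz
    · simp only [SimpleGraph.Walk.support_cons, SimpleGraph.Walk.support_nil, List.mem_cons,
        List.not_mem_nil, or_false] at hz
      rcases hz with rfl | rfl
      · exact hy
      · exact hs
  · rintro ⟨P, hP⟩
    induction P with
    | nil => exact Cn.refl _ _ _
    | @cons a b c h p ih =>
      obtain ⟨s, rfl, hs⟩ := h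
      have hb : a + step s ∈ S := hP _ (by simp)
      exact (Cn.one hs hx hb).trans (ih hb fun z hz => hP z (by simp [hz]))

/-- A walk inside `S` between norms `≤ ρ` and `≥ ρ` has a vertex of norm `ρ`, the first one, and
the part before it stays inside norm `≤ ρ`. -/
lemma Cn.cross {S : Set (V d)} {ω : Cfg d} {x y : V d} (h : Cn S ω x y) (ρ : ℕ) (hx : nm x ≤ ρ)
    (hy : ρ ≤ nm y) : ∃ z, nm z = ρ ∧ Cn (S ∩ Bx 0 ρ) ω x z := by
  have key : Cn (S ∩ Bx 0 ρ) ω x y ∨ ∃ z, nm z = ρ ∧ Cn (S ∩ Bx 0 ρ) ω x z := by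
    refine Cn.ind (fun y => Cn (S ∩ Bx 0 ρ) ω x y ∨ ∃ z, nm z = ρ ∧ Cn (S ∩ Bx 0 ρ) ω x z)
      (Or.inl (Cn.refl _ _ _)) ?_ h
    rintro y s - (hc | hc) hyS hsS ho
    · have hyB : nm y ≤ ρ := by
        by_cases hxS : x ∈ S
        · exact mem_Bx0.1 (Cn.mem hc ⟨hxS, mem_Bx0.2 hx⟩).2
        · have : y = x := by
            refine Cn.ind (fun y => y = x) rfl ?_ hc
            rintro y s - rfl hy _ _
            exact absurd hy.1 hxS
          rw [this]
          exact hx
      by_cases h1 : nm y = ρ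
      · exact Or.inr ⟨y, h1, hc⟩
      · have h2 := nm_add_step y s
        left
        refine hc.trans (Cn.one ho ⟨hyS, mem_Bx0.2 hyB⟩ ⟨hsS, mem_Bx0.2 (by omega)⟩)
    · exact Or.inr hc
  rcases key with hc | hc
  · have hyB : nm y ≤ ρ := by
      by_cases hxS : x ∈ S
      · exact mem_Bx0.1 (Cn.mem hc ⟨hxS, mem_Bx0.2 hx⟩).2
      · have : y = x := by
          refine Cn.ind (fun y => y = x) rfl ?_ hc
          rintro y s - rfl hy _ _
          exact absurd hy.1 hxS
        rw [this]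
        exact hx
    exact ⟨y, le_antisymm hyB hy, hc⟩
  · exact hc

end H95LBD
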