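import Pool.Agent.H95.LBD.Setup
import Pool.Agent.H95.LBD.BkB
import Pool.Agent.H95.LBD.DecC
import Pool.Agent.H95.LBD.SumA
import Pool.Agent.H95.LBD.LawA
import Pool.Agent.H5.DF.Energy2

/-!
PROJECT DL (MP_0d9ad5_pr), JOB DL-BoxConn. Connection of two points inside a box.
PROOF. By translation (`Cn_shift_Bx`, `perc_shift`) `z = 0`. By `perc_mono` `p = p0`. `box_dec` with
`n = M^2` (`M + 1 ≤ M^2` for `M ≥ 2`), `bk_inf`, `perc_conn`: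
`tau (v-u) ≤ P(Cn (Bx 0 n) u v) + ∑_{nm z = n+1} tau (z-u) tau (v-z)`;
`nm (z-u), nm (z-v) ≥ n - M ≥ n/2` (`M` large), so each term `≤ B^2 (2/(n+2))^(2(d-2))`, number of terms
`≤ C (n+2)^(d-1)` (`card_shell`): total `≤ C' n^(3-d) = C' M^(2(3-d)) ≤ (C'/M^(d-4)) M^(2-d)`; and
`tau (v-u) ≥ b kr (v-u) ≥ b / (2M+3)^(d-2) ≥ c M^(2-d)`.
-/

namespace H95LBD

open H5DF MeasureTheory

variable {d : ℕ}

/-- The connection event inside a box, started from the singleton. -/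
lemma BoxConn_SCn (S : Set (V d)) (u v : V d) : SCn {u} S v = {ω : Cfg d | Cn S ω u v} := by
  ext ω
  simp [SCn]

/-- The kernel is small away from `0`. -/
lemma BoxConn_kr_le (x : V d) (m : ℕ) (h : m ≤ nm x) : kr x ≤ 1 / (1 + (m : ℝ)) ^ (d - 2) := by
  unfold kr
  have h1 : (m : ℝ) ≤ nm x := by exact_mod_cast h
  exact one_div_le_one_div_of_le (by positivity)
    (pow_le_pow_left₀ (by positivity) (by linarith) _)

/-- The kernel is not small near `0`. -/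
lemma BoxConn_kr_ge (x : V d) (m : ℕ) (h : nm x ≤ m) : 1 / (1 + (m : ℝ)) ^ (d - 2) ≤ kr x := by
  unfold kr
  have h1 : (nm x : ℝ) ≤ m := by exact_mod_cast h
  exact one_div_le_one_div_of_le (by positivity)
    (pow_le_pow_left₀ (by positivity) (by linarith) _)

/-- The basic decomposition at `p0`. -/
lemma BoxConn_dec (p0 b B : ℝ) (h0 : 0 ≤ p0) (h1 : p0 ≤ 1)
    (hB : 0 < B) (h : KB d p0 b B) (n m : ℕ) (hmn : m ≤ n) (u v : V d) (hu : nm u ≤ m)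
    (hv : nm v ≤ m) :
    b * kr (v - u) ≤ (perc d p0).real {ω | Cn (Bx 0 n) ω u v} +
      (((Box d (n + 1)).filter fun v => nm v = n + 1).card : ℝ) *
        (B * (1 / (1 + ((n + 1 - m : ℕ) : ℝ)) ^ (d - 2))) ^ 2 := by
  classical
  have hpr := isProb_perc (d := d) p0 h0 h1
  set K : ℝ := B * (1 / (1 + ((n + 1 - m : ℕ) : ℝ)) ^ (d - 2)) with hK
  have hK0 : 0 ≤ K := by positivity
  set F : Finset (V d) := (Box d (n + 1)).filter fun v => nm v = n + 1 with hF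
  have hsub : SCn {u} Set.univ v ⊆ SCn {u} (Bx 0 n) v ∪
      ⋃ z ∈ F, disj (SCn {u} Set.univ z) (SCn {z} Set.univ v) := by
    refine (box_dec n u v (hu.trans hmn) (hv.trans hmn)).trans ?_
    apply Set.union_subset_union_right
    refine Set.iUnion₂_subset fun z hz => ?_
    have hzF : z ∈ F := by
      rw [hF, Finset.mem_filter, mem_Box']
      exact ⟨le_of_eq hz, hz⟩
    exact Set.subset_biUnion_of_mem (u := fun z => disj (SCn {u} Set.univ z) (SCn {z} Set.univ v)) hzF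
  have hterm : ∀ z ∈ F, perc d p0 (disj (SCn {u} Set.univ z) (SCn {z} Set.univ v)) ≤
      ENNReal.ofReal (K ^ 2) := by
    intro z hz
    rw [hF, Finset.mem_filter] at hz
    refine (bk_inf p0 h0 h1 _ _ (SCn_inc _ _ _) (SCn_inc _ _ _) (SCn_fw _ _ _)
      (SCn_fw _ _ _)).trans ?_
    rw [perc_conn p0 h0 h1, perc_conn p0 h0 h1, sq, ENNReal.ofReal_mul hK0]
    have e1 : n + 1 - m ≤ nm (z - u) := by
      have := nm_le_add z u
      omega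
    have e2 : n + 1 - m ≤ nm (v - z) := by
      have := nm_le_add z v
      rw [nm_sub_comm] at this
      omega
    refine mul_le_mul' ((h (z - u)).2.trans (ENNReal.ofReal_le_ofReal ?_))
      ((h (v - z)).2.trans (ENNReal.ofReal_le_ofReal ?_))
    · exact mul_le_mul_of_nonneg_left (BoxConn_kr_le _ _ e1) hB.le
    · exact mul_le_mul_of_nonneg_left (BoxConn_kr_le _ _ e2) hB.le
  have hmain : ENNReal.ofReal (b * kr (v - u)) ≤ perc d p0 {ω | Cn (Bx 0 n) ω u v} +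
      (F.card : ENNReal) * ENNReal.ofReal (K ^ 2) := by
    refine (h (v - u)).1.trans ?_
    rw [← perc_conn p0 h0 h1 u v]
    refine (measure_mono hsub).trans ((measure_union_le _ _).trans ?_)
    rw [BoxConn_SCn]
    refine add_le_add le_rfl ?_
    refine (measure_biUnion_finset_le _ _).trans ?_
    refine (Finset.sum_le_sum hterm).trans ?_
    rw [Finset.sum_const, nsmul_eq_mul]
  have hne : perc d p0 {ω | Cn (Bx 0 n) ω u v} ≠ ⊤ := measure_ne_top _ _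
  have hK2 : (0 : ℝ) ≤ (F.card : ℝ) * K ^ 2 := by positivity
  have e3 : (F.card : ENNReal) * ENNReal.ofReal (K ^ 2) = ENNReal.ofReal ((F.card : ℝ) * K ^ 2) := by
    rw [ENNReal.ofReal_mul (Nat.cast_nonneg _), ENNReal.ofReal_natCast]
  rw [e3, ← ENNReal.ofReal_toReal hne, ← ENNReal.ofReal_add ENNReal.toReal_nonneg hK2] at hmain
  exact (ENNReal.ofReal_le_ofReal_iff (add_nonneg ENNReal.toReal_nonneg hK2)).1 hmain

/-- The real inequality. -/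
lemma BoxConn_num (q : ℕ) (b B C : ℝ) (hb : 0 < b) (hC : 0 < C) (M : ℕ) (hM2 : 2 ≤ M)
    (hM : 2 * 4 ^ (q + 3) * (C * 2 ^ (q + 4) * B ^ 2 * 2 ^ (2 * (q + 3))) / b ≤ M) (N : ℝ)
    (hN : N ≤ C * (1 + ((M ^ 2 + 1 : ℕ) : ℝ)) ^ (q + 4)) :
    N * (B * (1 / (1 + ((M ^ 2 + 1 - (M + 1) : ℕ) : ℝ)) ^ (q + 3))) ^ 2 ≤
      (b / (2 * 4 ^ (q + 3))) / (M : ℝ) ^ (q + 3) := by
  have hMr : (2 : ℝ) ≤ M := by exact_mod_cast hM2
  have hM0 : (0 : ℝ) < M := by linarith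
  have e1 : (M : ℝ) ^ 2 / 2 ≤ 1 + ((M ^ 2 + 1 - (M + 1) : ℕ) : ℝ) := by
    have h1 : M + 1 ≤ M ^ 2 + 1 := by nlinarith
    rw [Nat.cast_sub h1]
    push_cast
    nlinarith
  have e2 : (1 + ((M ^ 2 + 1 : ℕ) : ℝ)) ≤ 2 * (M : ℝ) ^ 2 := by
    push_cast
    nlinarith
  have e3 : N ≤ C * (2 * (M : ℝ) ^ 2) ^ (q + 4) :=
    hN.trans (mul_le_mul_of_nonneg_left (pow_le_pow_left₀ (by positivity) e2 _) hC.le)
  have e4 : 1 / (1 + ((M ^ 2 + 1 - (M + 1) : ℕ) : ℝ)) ^ (q + 3) ≤ 1 / ((M : ℝ) ^ 2 / 2) ^ (q + 3) :=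
    one_div_le_one_div_of_le (by positivity) (pow_le_pow_left₀ (by positivity) e1 _)
  have e5 : (B * (1 / (1 + ((M ^ 2 + 1 - (M + 1) : ℕ) : ℝ)) ^ (q + 3))) ^ 2 ≤
      B ^ 2 * (1 / ((M : ℝ) ^ 2 / 2) ^ (q + 3)) ^ 2 := by
    rw [mul_pow]
    exact mul_le_mul_of_nonneg_left (pow_le_pow_left₀ (by positivity) e4 _) (sq_nonneg B)
  have e6 : N * (B * (1 / (1 + ((M ^ 2 + 1 - (M + 1) : ℕ) : ℝ)) ^ (q + 3))) ^ 2 ≤
      (C * (2 * (M : ℝ) ^ 2) ^ (q + 4)) * (B ^ 2 * (1 / ((M : ℝ) ^ 2 / 2) ^ (q + 3)) ^ 2) :=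
    mul_le_mul e3 e5 (sq_nonneg _) (by positivity)
  refine e6.trans ?_
  have e7 : (C * (2 * (M : ℝ) ^ 2) ^ (q + 4)) * (B ^ 2 * (1 / ((M : ℝ) ^ 2 / 2) ^ (q + 3)) ^ 2) =
      (C * 2 ^ (q + 4) * B ^ 2 * 2 ^ (2 * (q + 3))) / ((M : ℝ) ^ (q + 1) * (M : ℝ) ^ (q + 3)) := by
    have f1 : (M : ℝ) ^ (q + 1) ≠ 0 := by positivity
    have f2 : (M : ℝ) ^ (q + 3) ≠ 0 := by positivity
    have f3 : ((M : ℝ) ^ 2) ^ (q + 3) ≠ 0 := by positivity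
    have f4 : (2 : ℝ) ^ (q + 3) ≠ 0 := by positivity
    have g1 : 1 / ((M : ℝ) ^ 2 / 2) ^ (q + 3) = 2 ^ (q + 3) / ((M : ℝ) ^ 2) ^ (q + 3) := by
      rw [div_pow, one_div_div]
    rw [g1, div_pow, mul_pow, eq_div_iff (mul_ne_zero f1 f2)]
    have f5 : ((M : ℝ) ^ 2) ^ (q + 4) * ((M : ℝ) ^ (q + 1) * (M : ℝ) ^ (q + 3)) =
        (((M : ℝ) ^ 2) ^ (q + 3)) ^ 2 := by
      rw [← pow_mul, ← pow_mul, ← pow_mul, ← pow_add, ← pow_add]
      congr 1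
      ring
    have f6 : (2 : ℝ) ^ (2 * (q + 3)) = (2 ^ (q + 3)) ^ 2 := by
      rw [← pow_mul]
      congr 1
      ring
    rw [f6]
    have f7 : (((M : ℝ) ^ 2) ^ (q + 3)) ^ 2 ≠ 0 := by positivity
    field_simp
    linear_combination (C * 2 ^ (q + 4) * B ^ 2 * (2 ^ (q + 3)) ^ 2) * f5
  rw [e7, div_le_div_iff₀ (by positivity) (by positivity)]
  have e8 : (C * 2 ^ (q + 4) * B ^ 2 * 2 ^ (2 * (q + 3))) * (2 * 4 ^ (q + 3)) ≤ b * M := by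
    rw [div_le_iff₀ hb] at hM
    linarith
  have e9 : (M : ℝ) ≤ (M : ℝ) ^ (q + 1) := le_self_pow₀ (by linarith) (by omega)
  have e10 : (C * 2 ^ (q + 4) * B ^ 2 * 2 ^ (2 * (q + 3))) * (2 * 4 ^ (q + 3)) ≤
      b * (M : ℝ) ^ (q + 1) := e8.trans (mul_le_mul_of_nonneg_left e9 hb.le)
  have e11 : (C * 2 ^ (q + 4) * B ^ 2 * 2 ^ (2 * (q + 3))) ≤
      b / (2 * 4 ^ (q + 3)) * (M : ℝ) ^ (q + 1) := by
    rw [div_mul_eq_mul_div, le_div_iff₀ (by positivity)]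
    exact e10
  calc (C * 2 ^ (q + 4) * B ^ 2 * 2 ^ (2 * (q + 3))) * (M : ℝ) ^ (q + 3)
      ≤ (b / (2 * 4 ^ (q + 3)) * (M : ℝ) ^ (q + 1)) * (M : ℝ) ^ (q + 3) :=
        mul_le_mul_of_nonneg_right e11 (by positivity)
    _ = b / (2 * 4 ^ (q + 3)) * ((M : ℝ) ^ (q + 1) * (M : ℝ) ^ (q + 3)) := by ring

/-- Translation of the connection event. -/
lemma BoxConn_shift (p : ℝ) (h0 : 0 ≤ p) (h1 : p ≤ 1) (n : ℕ) (z u v : V d) :
    (perc d p).real {ω | Cn (Bx z n) ω u v} =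
      (perc d p).real {ω | Cn (Bx 0 n) ω (u - z) (v - z)} := by
  have e : {ω : Cfg d | Cn (Bx z n) ω u v} =
      shift z ⁻¹' {ω : Cfg d | Cn (Bx 0 n) ω (u - z) (v - z)} := by
    ext ω
    simp only [Set.mem_preimage, Set.mem_ofPred_eq]
    rw [Cn_shift_Bx, zero_add, sub_add_cancel, sub_add_cancel]
  unfold Measure.real
  conv_rhs => rw [← perc_shift (d := d) p h0 h1 z]
  rw [Measure.map_apply (measurable_shift z) (meas_Cn _ _ _), e]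

theorem box_conn (hd : 5 ≤ d) (p0 b B : ℝ) (h0 : 0 ≤ p0) (h1 : p0 ≤ 1) (hb : 0 < b)
    (hB : 0 < B) (h : KB d p0 b B) : ∃ (c : ℝ) (M1 : ℕ), 0 < c ∧ 2 ≤ M1 ∧ ∀ M : ℕ, M1 ≤ M →
    ∀ z u v : V d, nm (u - z) ≤ M + 1 → nm (v - z) ≤ M + 1 → ∀ p : ℝ, p0 ≤ p → p ≤ 1 →
    c / (M : ℝ) ^ (d - 2) ≤ (perc d p).real {ω | Cn (Bx z (M ^ 2)) ω u v} := by
  obtain ⟨q, hq⟩ : ∃ q, d = q + 5 := ⟨d - 5, by omega⟩
  have hd2 : d - 2 = q + 3 := by omega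
  have hd1 : d - 1 = q + 4 := by omega
  obtain ⟨C, hC, hsh⟩ := card_shell (d := d) (by omega)
  refine ⟨b / (2 * 4 ^ (q + 3)),
    max 2 ⌈2 * 4 ^ (q + 3) * (C * 2 ^ (q + 4) * B ^ 2 * 2 ^ (2 * (q + 3))) / b⌉₊,
    by positivity, le_max_left _ _, ?_⟩
  intro M hM z u v hu hv p hp hp1
  have hM2 : 2 ≤ M := (le_max_left _ _).trans hM
  have hM3 : 2 * 4 ^ (q + 3) * (C * 2 ^ (q + 4) * B ^ 2 * 2 ^ (2 * (q + 3))) / b ≤ M :=
    (Nat.le_ceil _).trans (by exact_mod_cast (le_max_right _ _).trans hM)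
  have hMr : (2 : ℝ) ≤ M := by exact_mod_cast hM2
  rw [BoxConn_shift p (h0.trans hp) hp1, hd2]
  have hinc : Inc {ω : Cfg d | Cn (Bx 0 (M ^ 2)) ω (u - z) (v - z)} := by
    rw [← BoxConn_SCn]
    exact SCn_inc _ _ _
  refine le_trans ?_ (perc_mono h0 hp hp1 hinc (meas_Cn _ _ _))
  have hmn : M + 1 ≤ M ^ 2 := by nlinarith
  have key := BoxConn_dec p0 b B h0 h1 hB h (M ^ 2) (M + 1) hmn (u - z) (v - z) hu hv
  rw [hd2] at key
  have hshell := hsh (M ^ 2 + 1)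
  rw [hd1] at hshell
  have num := BoxConn_num q b B C hb hC M hM2 hM3 _ hshell
  have hkr : 1 / (1 + ((2 * (M + 1) : ℕ) : ℝ)) ^ (d - 2) ≤ kr ((v - z) - (u - z)) := by
    apply BoxConn_kr_ge
    have := nm_sub (v - z) (u - z)
    omega
  rw [hd2] at hkr
  have e1 : 1 / (4 * (M : ℝ)) ^ (q + 3) ≤ 1 / (1 + ((2 * (M + 1) : ℕ) : ℝ)) ^ (q + 3) := by
    apply one_div_le_one_div_of_le (by positivity)
    apply pow_le_pow_left₀ (by positivity)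
    push_cast
    linarith
  have e2 : b * (1 / (4 * (M : ℝ)) ^ (q + 3)) ≤ b * kr ((v - z) - (u - z)) :=
    mul_le_mul_of_nonneg_left (e1.trans hkr) hb.le
  have e3 : b * (1 / (4 * (M : ℝ)) ^ (q + 3)) =
      b / (2 * 4 ^ (q + 3)) / (M : ℝ) ^ (q + 3) + b / (2 * 4 ^ (q + 3)) / (M : ℝ) ^ (q + 3) := by
    rw [mul_pow]
    field_simp
    ring
  linarith

end H95LBD
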