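import Pool.Agent.H95.LBD.Basic

/-!
PROJECT DL (MP_0d9ad5_pr). The two-level environment: definitions.
-/

namespace H95LBD

open H5DF MeasureTheory

variable {d : ℕ}

/-- The two-level environment: the marks `(ζ e, σ e)`. -/
abbrev Env (d : ℕ) := Ed d → Bool × Bool

/-- Independent marks: `ζ` has density `p1`, `σ` density `s`. -/
noncomputable def envM (d : ℕ) (p1 s : ℝ) : Measure (Env d) :=
  Measure.infinitePi fun _ : Ed d => (bern p1).prod (bern s)

/-- The lower level. -/
def lo (X : Env d) : Cfg d := fun e => (X e).1

/-- The upper level. -/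
def hi (X : Env d) : Cfg d := fun e => (X e).1 || (X e).2

/-- Translations. -/
def shE (a : V d) (X : Env d) : Env d := fun e => X (e.1 + a, e.2)

/-- Adding edges to the second mark. -/
def uni (X : Env d) (η : Cfg d) : Env d := fun e => ((X e).1, (X e).2 || η e)

lemma lo_le_hi (X : Env d) : ∀ e, lo X e = true → hi X e = true := by
  intro e h
  simp only [lo] at h
  simp [hi, h]

lemma hi_le_uni (X : Env d) (η : Cfg d) : ∀ e, hi X e = true → hi (uni X η) e = true := by
  intro e h
  simp only [hi, uni, Bool.or_eq_true] at h ⊢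
  tauto

lemma lo_uni (X : Env d) (η : Cfg d) : lo (uni X η) = lo X := rfl

lemma lo_shE (a : V d) (X : Env d) : lo (shE a X) = shift a (lo X) := rfl

lemma hi_shE (a : V d) (X : Env d) : hi (shE a X) = shift a (hi X) := rfl

lemma shE_zero (X : Env d) : shE 0 X = X := by
  funext e
  simp [shE]

lemma shE_shE (a b : V d) (X : Env d) : shE a (shE b X) = shE (a + b) X := by
  funext e
  simp [shE, add_assoc]

lemma measurable_lo : Measurable (lo : Env d → Cfg d) :=
  measurable_pi_lambda _ fun e => measurable_fst.comp (measurable_pi_apply e)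

lemma measurable_hi : Measurable (hi : Env d → Cfg d) := by
  refine measurable_pi_lambda _ fun e => ?_
  have h1 : Measurable (fun b : Bool × Bool => (b.1 || b.2)) := measurable_of_countable _
  have h2 : Measurable (fun X : Env d => X e) := measurable_pi_apply e
  exact h1.comp h2

lemma measurable_shE (a : V d) : Measurable (shE a : Env d → Env d) :=
  measurable_pi_lambda _ fun _ => measurable_pi_apply _

lemma measurable_uni : Measurable (fun q : Env d × Cfg d => uni q.1 q.2) := by
  refine measurable_pi_lambda _ fun e => ?_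
  have h1 : Measurable (fun b : (Bool × Bool) × Bool => (b.1.1, b.1.2 || b.2)) :=
    measurable_of_countable _
  have h2 : Measurable (fun q : Env d × Cfg d => (q.1 e, q.2 e)) :=
    ((measurable_pi_apply e).comp measurable_fst).prodMk
      ((measurable_pi_apply e).comp measurable_snd)
  exact h1.comp h2

instance isProb_env' {p1 s : ℝ} [IsProbabilityMeasure (bern p1)] [IsProbabilityMeasure (bern s)] :
    IsProbabilityMeasure (envM d p1 s) := by
  unfold envM
  infer_instance

lemma isProb_env {p1 s : ℝ} (h0 : 0 ≤ p1) (h1 : p1 ≤ 1) (hs0 : 0 ≤ s) (hs1 : s ≤ 1) :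
    IsProbabilityMeasure (envM d p1 s) := by
  have := isProb_bern h0 h1
  have := isProb_bern hs0 hs1
  infer_instance

/-- Increasing events. -/
def Inc (A : Set (Cfg d)) : Prop :=
  ∀ ω ω' : Cfg d, (∀ e, ω e = true → ω' e = true) → ω ∈ A → ω' ∈ A

end H95LBD
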