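import Pool.Agent.H95.LBD.RndDef

/-!
PROJECT DL (MP_0d9ad5_pr), JOB DL-ExpA. The exploration depends only on the edges touching the explored
set.
PROOF. Let `F = FF N ρ X`. (1) `E0 N (lo X') = E0 N (lo X)`: `⊇`: for `y ∈ E0 N (lo X)` the whole connection to
the boundary consists of points of `E0 N (lo X) ⊆ F`, so its edges touch `F` (`Cn.ind`). `⊆`: follow a
connection in `lo X'` backwards from the boundary point (which is in `E0 N (lo X)`): the next vertex is joined by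
an edge touching `F`, open in `lo X` too. (2) For `y ∈ E0 N (lo X)`, `nm y ≤ ρ`: `cl N (hi X) y ⊆ F`, so
`cl N (hi X') y = cl N (hi X) y` (both directions by `Cn.ind`, all edges used touch `cl N (hi X) y`).
(3) `FF` follows.
-/

namespace H95LBD

open H5DF MeasureTheory

variable {d : ℕ}

theorem exp_dep (N ρ : ℕ) (X X' : Env d) (h : ∀ e ∈ touch (FF N ρ X), X e = X' e) :
    E0 N (lo X') = E0 N (lo X) ∧
      (∀ y ∈ E0 N (lo X), nm y ≤ ρ → cl N (hi X') y = cl N (hi X) y) ∧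
      FF N ρ X' = FF N ρ X := by
  have hlo : ∀ z ∈ FF N ρ X, ∀ s : Dir d, lo X (edge z s) = lo X' (edge z s) := by
    intro z hz s
    simp only [lo]
    rw [h _ (edge_mem_touch hz s)]
  have hhi : ∀ z ∈ FF N ρ X, ∀ s : Dir d, hi X (edge z s) = hi X' (edge z s) := by
    intro z hz s
    simp only [hi]
    rw [h _ (edge_mem_touch hz s)]
  have h1 : E0 N (lo X') = E0 N (lo X) := by
    ext x
    constructor
    · rintro ⟨hx, y, hy, hc⟩
      have hy0 : y ∈ E0 N (lo X) := ⟨hy.le, y, hy, Cn.refl _ _ _⟩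
      refine Cn.ind (fun z => z ∈ E0 N (lo X)) hy0 ?_ (Cn.symm hc)
      rintro z s - hz hzB hsB ho
      obtain ⟨hz1, y', hy', hc'⟩ := hz
      have hzF : z ∈ FF N ρ X := Or.inl ⟨hz1, y', hy', hc'⟩
      have ho' : lo X (edge z s) = true := by rw [hlo z hzF s]; exact ho
      exact ⟨mem_Bx0.1 hsB, y', hy', (Cn.symm (Cn.one ho' hzB hsB)).trans hc'⟩
    · rintro ⟨hx, y, hy, hc⟩
      refine ⟨hx, y, hy, ?_⟩
      refine Cn.ind (fun z => Cn (Bx 0 N) (lo X') x z) (Cn.refl _ _ _) ?_ hc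
      intro z s hxz hz hzB hsB ho
      have hzF : z ∈ FF N ρ X := Or.inl ⟨mem_Bx0.1 hzB, y, hy, (Cn.symm hxz).trans hc⟩
      have ho' : lo X' (edge z s) = true := by rw [← hlo z hzF s]; exact ho
      exact hz.trans (Cn.one ho' hzB hsB)
  have h2 : ∀ y ∈ E0 N (lo X), nm y ≤ ρ → cl N (hi X') y = cl N (hi X) y := by
    intro y hy hyρ
    have hF : ∀ z, Cn (Bx 0 N) (hi X) y z → z ∈ FF N ρ X := fun z hz => Or.inr ⟨y, hy, hyρ, hz⟩
    ext v
    constructor
    · intro hv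
      refine Cn.ind (fun z => Cn (Bx 0 N) (hi X) y z) (Cn.refl _ _ _) ?_ hv
      intro z s _ hz hzB hsB ho
      have ho' : hi X (edge z s) = true := by rw [hhi z (hF z hz) s]; exact ho
      exact hz.trans (Cn.one ho' hzB hsB)
    · intro hv
      refine Cn.ind (fun z => Cn (Bx 0 N) (hi X') y z) (Cn.refl _ _ _) ?_ hv
      intro z s hyz hz hzB hsB ho
      have ho' : hi X' (edge z s) = true := by rw [← hhi z (hF z hyz) s]; exact ho
      exact hz.trans (Cn.one ho' hzB hsB)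
  refine ⟨h1, h2, ?_⟩
  ext v
  simp only [FF, h1]
  constructor
  · rintro (hv | ⟨y, hy, hyρ, hv⟩)
    · exact Or.inl hv
    · refine Or.inr ⟨y, hy, hyρ, ?_⟩
      rw [← h2 y hy hyρ]
      exact hv
  · rintro (hv | ⟨y, hy, hyρ, hv⟩)
    · exact Or.inl hv
    · refine Or.inr ⟨y, hy, hyρ, ?_⟩
      rw [h2 y hy hyρ]
      exact hv

lemma ExpA_set_eq {α : Type*} [MeasurableSpace α] (S : α → Set (V d))
    (hS : ∀ v, MeasurableSet {a | v ∈ S a}) (F : Set (V d)) : MeasurableSet {a | S a = F} := by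
  have h : {a | S a = F} = ⋂ v, {a | v ∈ S a ↔ v ∈ F} := by
    ext a
    simp only [Set.mem_ofPred_eq, Set.mem_iInter, Set.ext_iff]
  rw [h]
  refine MeasurableSet.iInter fun v => ?_
  by_cases hv : v ∈ F
  · have h' : {a | v ∈ S a ↔ v ∈ F} = {a | v ∈ S a} := by
      ext a
      simp [hv]
    rw [h']
    exact hS v
  · have h' : {a | v ∈ S a ↔ v ∈ F} = {a | v ∈ S a}ᶜ := by
      ext a
      simp [hv]
    rw [h']
    exact (hS v).compl

lemma ExpA_meas_cl (N : ℕ) (x v : V d) : MeasurableSet {X : Env d | v ∈ cl N (hi X) x} :=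
  measurable_hi (meas_Cn (Bx 0 N) x v)

lemma ExpA_meas_E0 (N : ℕ) (v : V d) : MeasurableSet {X : Env d | v ∈ E0 N (lo X)} := by
  have h : {X : Env d | v ∈ E0 N (lo X)} =
      {_X : Env d | nm v ≤ N} ∩ ⋃ y : V d, {_X : Env d | nm y = N} ∩
        (lo ⁻¹' {ω : Cfg d | Cn (Bx 0 N) ω v y}) := by
    ext X
    simp only [E0, Set.mem_ofPred_eq, Set.mem_inter_iff, Set.mem_iUnion, Set.mem_preimage]
  rw [h]
  exact (MeasurableSet.const _).inter (MeasurableSet.iUnion fun y =>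
    (MeasurableSet.const _).inter (measurable_lo (meas_Cn (Bx 0 N) v y)))

lemma ExpA_meas_FF (N ρ : ℕ) (v : V d) : MeasurableSet {X : Env d | v ∈ FF N ρ X} := by
  have h : {X : Env d | v ∈ FF N ρ X} = {X : Env d | v ∈ E0 N (lo X)} ∪
      ⋃ y : V d, {X : Env d | y ∈ E0 N (lo X)} ∩ ({_X : Env d | nm y ≤ ρ} ∩
        {X : Env d | v ∈ cl N (hi X) y}) := by
    ext X
    simp only [FF, Set.mem_ofPred_eq, Set.mem_inter_iff, Set.mem_iUnion, Set.mem_union]
  rw [h]
  exact (ExpA_meas_E0 N v).union (MeasurableSet.iUnion fun y => (ExpA_meas_E0 N y).inter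
    ((MeasurableSet.const _).inter (ExpA_meas_cl N y v)))

/-- Measurability of the exploration event. -/
theorem exp_meas (N ρ : ℕ) (x : V d) (E U F : Set (V d)) :
    MeasurableSet {X : Env d | E0 N (lo X) = E ∧ cl N (hi X) x = U ∧ FF N ρ X = F} :=
  (ExpA_set_eq _ (ExpA_meas_E0 N) E).inter ((ExpA_set_eq _ (ExpA_meas_cl N x) U).inter
    (ExpA_set_eq _ (ExpA_meas_FF N ρ) F))

end H95LBD
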