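import Pool.Agent.H95.LBD.Basic
import Pool.Agent.H5.DG.Indep

/-!
PROJECT DL (MP_0d9ad5_pr), JOB DL-SphA. The sphere `{nm = ρ}` is connected (`d ≥ 2`).
PROOF of `sphere_chain`: every point of the sphere is joined on the sphere to the corner `(ρ,...,ρ)`: let
`|x i| = ρ`. Change the coordinates `j ≠ i` one after the other by unit steps to `ρ` (the norm stays `ρ`,
as `|x i| = ρ` and `|x j| ≤ ρ` all the time), then (there is some `j ≠ i` with `x j = ρ` now) change
coordinate `i` to `ρ`. (General lemma: `Function.update x j a` to `Function.update x j b` is a chain on the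
sphere if another coordinate has absolute value `ρ` and `|a|, |b| ≤ ρ`.) The relation is symmetric.
`two_color`: on a chain from a point of `A` to a point of `B` take the last point before the first one which is
within `M` of `B`...: either one point is within `M` of both, or two neighbours `w, w'` with `w` within `M` of
`A`, `w'` within `M` of `B` (so within `M+1` of `w`).
-/

namespace H95LBD

open H5DF MeasureTheory

variable {d : ℕ}

/-- One unit step on the sphere. -/
def SphA_rel (ρ : ℕ) (a b : V d) : Prop := nm a = ρ ∧ nm b = ρ ∧ ∃ s : Dir d, b = a + step s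

lemma SphA_nm_update (ρ : ℕ) (x : V d) (i j : Fin d) (hij : i ≠ j) (hi : (x i).natAbs = ρ)
    (hx : ∀ l, (x l).natAbs ≤ ρ) (a : ℤ) (ha : a.natAbs ≤ ρ) : nm (Function.update x j a) = ρ := by
  apply le_antisymm
  · rw [nm_le]
    intro l
    by_cases hl : l = j
    · subst hl
      simpa using ha
    · rw [Function.update_of_ne hl]
      exact hx l
  · have h := natAbs_le_nm (Function.update x j a) i
    rw [Function.update_of_ne hij, hi] at h
    exact h

lemma SphA_up (x : V d) (j : Fin d) (a : ℤ) :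
    Function.update x j (a + 1) = Function.update x j a + step (j, true) := by
  funext l
  by_cases hl : l = j
  · subst hl
    simp [step]
  · simp [step, hl]

lemma SphA_down (x : V d) (j : Fin d) (a : ℤ) :
    Function.update x j a = Function.update x j (a + 1) + step (j, false) := by
  funext l
  by_cases hl : l = j
  · subst hl
    simp [step]
  · simp [step, hl]

lemma SphA_move_up (ρ : ℕ) (x : V d) (i j : Fin d) (hij : i ≠ j) (hi : (x i).natAbs = ρ)
    (hx : ∀ l, (x l).natAbs ≤ ρ) (a : ℤ) (ha : a.natAbs ≤ ρ) (n : ℕ) (hn : a + n ≤ ρ) :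
    Relation.ReflTransGen (SphA_rel ρ) (Function.update x j a) (Function.update x j (a + n)) ∧
    Relation.ReflTransGen (SphA_rel ρ) (Function.update x j (a + n)) (Function.update x j a) := by
  induction n with
  | zero =>
    simp only [Nat.cast_zero, add_zero]
    exact ⟨Relation.ReflTransGen.refl, Relation.ReflTransGen.refl⟩
  | succ n ih =>
    have h1 : a + n ≤ ρ := by push_cast at hn; omega
    obtain ⟨h2, h3⟩ := ih h1
    have h4 : nm (Function.update x j (a + n)) = ρ :=
      SphA_nm_update ρ x i j hij hi hx _ (by omega)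
    have h5 : nm (Function.update x j (a + n + 1)) = ρ :=
      SphA_nm_update ρ x i j hij hi hx _ (by push_cast at hn; omega)
    have h6 : a + ((n + 1 : ℕ) : ℤ) = a + n + 1 := by push_cast; ring
    rw [h6]
    refine ⟨h2.tail ⟨h4, h5, (j, true), SphA_up x j _⟩, Relation.ReflTransGen.head ?_ h3⟩
    exact ⟨h5, h4, (j, false), SphA_down x j _⟩

lemma SphA_move (ρ : ℕ) (x : V d) (i j : Fin d) (hij : i ≠ j) (hi : (x i).natAbs = ρ)
    (hx : ∀ l, (x l).natAbs ≤ ρ) (a b : ℤ) (ha : a.natAbs ≤ ρ) (hb : b.natAbs ≤ ρ) :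
    Relation.ReflTransGen (SphA_rel ρ) (Function.update x j a) (Function.update x j b) := by
  rcases le_total a b with h | h
  · obtain ⟨n, hn⟩ := Int.eq_ofNat_of_zero_le (sub_nonneg.2 h)
    have hb' : b = a + n := by omega
    rw [hb']
    exact (SphA_move_up ρ x i j hij hi hx a ha n (by omega)).1
  · obtain ⟨n, hn⟩ := Int.eq_ofNat_of_zero_le (sub_nonneg.2 h)
    have hb' : a = b + n := by omega
    rw [hb']
    exact (SphA_move_up ρ x i j hij hi hx b hb n (by omega)).2

lemma SphA_symm (ρ : ℕ) (a b : V d) (h : SphA_rel ρ a b) : SphA_rel ρ b a := by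
  obtain ⟨h1, h2, ⟨i, c⟩, h3⟩ := h
  refine ⟨h2, h1, (i, !c), ?_⟩
  rw [h3]
  funext l
  by_cases hl : l = i
  · subst hl
    cases c <;> simp [step]
  · simp [step, hl]

lemma SphA_rev (ρ : ℕ) (a b : V d) (h : Relation.ReflTransGen (SphA_rel ρ) a b) :
    Relation.ReflTransGen (SphA_rel ρ) b a := by
  induction h with
  | refl => exact Relation.ReflTransGen.refl
  | tail _ hstep ih => exact Relation.ReflTransGen.head (SphA_symm ρ _ _ hstep) ih

lemma SphA_corner (hd : 2 ≤ d) (ρ : ℕ) (x : V d) (hx : nm x = ρ) :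
    Relation.ReflTransGen (SphA_rel ρ) x (fun _ => (ρ : ℤ)) := by
  have hne : (Finset.univ : Finset (Fin d)).Nonempty := ⟨⟨0, by omega⟩, Finset.mem_univ _⟩
  obtain ⟨i, -, hi⟩ := Finset.exists_mem_eq_sup Finset.univ hne fun i => (x i).natAbs
  have hi' : (x i).natAbs = ρ := by
    rw [← hx]
    exact hi.symm
  have hxl : ∀ l, (x l).natAbs ≤ ρ := fun l => by
    rw [← hx]
    exact natAbs_le_nm x l
  have key : ∀ s : Finset (Fin d), i ∉ s →
      Relation.ReflTransGen (SphA_rel ρ) x (fun l => if l ∈ s then (ρ : ℤ) else x l) := by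
    intro s
    induction s using Finset.induction_on with
    | empty =>
      intro _
      simp only [Finset.notMem_empty, if_false]
      exact Relation.ReflTransGen.refl
    | insert j s hj ih =>
      intro hs
      rw [Finset.mem_insert, not_or] at hs
      refine (ih hs.2).trans ?_
      have h1 : (fun l => if l ∈ s then (ρ : ℤ) else x l) =
          Function.update (fun l => if l ∈ s then (ρ : ℤ) else x l) j (x j) := by
        funext l
        by_cases hl : l = j
        · subst hl
          simp [hj]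
        · simp [hl]
      have h2 : (fun l => if l ∈ insert j s then (ρ : ℤ) else x l) =
          Function.update (fun l => if l ∈ s then (ρ : ℤ) else x l) j ρ := by
        funext l
        by_cases hl : l = j
        · subst hl
          simp
        · simp [hl]
      rw [h2]
      nth_rewrite 1 [h1]
      refine SphA_move ρ _ i j hs.1 ?_ ?_ _ _ (hxl j) (by simp)
      · simp only [hs.2, if_false]
        exact hi'
      · intro l
        by_cases hl : l ∈ s
        · simp [hl]
        · simp only [hl, if_false]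
          exact hxl l
  have h1 := key (Finset.univ.erase i) (Finset.notMem_erase _ _)
  refine h1.trans ?_
  obtain ⟨j, hji⟩ : ∃ j : Fin d, j ≠ i := by
    by_cases h0 : i = ⟨0, by omega⟩
    · exact ⟨⟨1, by omega⟩, by rw [h0]; intro h; simp [Fin.ext_iff] at h⟩
    · exact ⟨⟨0, by omega⟩, fun h => h0 h.symm⟩
  have h2 : (fun l => if l ∈ Finset.univ.erase i then (ρ : ℤ) else x l) =
      Function.update (fun _ => (ρ : ℤ)) i (x i) := by
    funext l
    by_cases hl : l = i
    · subst hl
      simp
    · simp [hl]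
  have h3 : (fun _ => (ρ : ℤ)) = Function.update (fun _ : Fin d => (ρ : ℤ)) i ρ := by
    simp
  rw [h2]
  nth_rewrite 2 [h3]
  exact SphA_move ρ _ j i hji (by simp) (by simp) _ _ (hxl i) (by simp)

theorem sphere_chain (hd : 2 ≤ d) (ρ : ℕ) (x y : V d) (hx : nm x = ρ) (hy : nm y = ρ) :
    Relation.ReflTransGen (fun a b : V d => nm a = ρ ∧ nm b = ρ ∧ ∃ s : Dir d, b = a + step s) x y := by
  have h1 := SphA_corner hd ρ x hx
  have h2 := SphA_corner hd ρ y hy
  have h3 : Relation.ReflTransGen (SphA_rel ρ) (fun _ => (ρ : ℤ)) y :=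
    SphA_rev ρ _ _ h2
  exact h1.trans h3

theorem two_color (hd : 2 ≤ d) (ρ M : ℕ) (A B : Set (V d))
    (hcov : ∀ w : V d, nm w = ρ → (∃ a ∈ A, nm (a - w) ≤ M) ∨ ∃ b ∈ B, nm (b - w) ≤ M)
    (hA : ∃ a ∈ A, nm a = ρ) (hB : ∃ b ∈ B, nm b = ρ) :
    ∃ w : V d, nm w = ρ ∧ (∃ a ∈ A, nm (a - w) ≤ M + 1) ∧ ∃ b ∈ B, nm (b - w) ≤ M + 1 := by
  by_contra hcon
  obtain ⟨a₀, ha₀, hna⟩ := hA
  obtain ⟨b₀, hb₀, hnb⟩ := hB
  have hch := sphere_chain hd ρ a₀ b₀ hna hnb
  have key : ∀ w : V d, Relation.ReflTransGen
      (fun a b : V d => nm a = ρ ∧ nm b = ρ ∧ ∃ s : Dir d, b = a + step s) a₀ w →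
      ∃ a ∈ A, nm (a - w) ≤ M := by
    intro w hw
    induction hw with
    | refl => exact ⟨a₀, ha₀, by rw [sub_self, nm_zero]; exact Nat.zero_le _⟩
    | tail _ hstep ih =>
      rename_i u v _
      obtain ⟨hu, hv, s, hs⟩ := hstep
      rcases hcov v hv with h | ⟨b, hb, hbv⟩
      · exact h
      · exfalso
        obtain ⟨a, ha, hau⟩ := ih
        refine hcon ⟨u, hu, ⟨a, ha, hau.trans (Nat.le_succ _)⟩, b, hb, ?_⟩
        have h1 := nm_tri b v u
        have h2 : nm (v - u) = 1 := by
          rw [hs, add_sub_cancel_left, nm_step]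
        omega
  obtain ⟨a, ha, haw⟩ := key b₀ hch
  exact hcon ⟨b₀, hnb, ⟨a, ha, haw.trans (Nat.le_succ _)⟩, b₀, hb₀, by
    rw [sub_self, nm_zero]; exact Nat.zero_le _⟩

end H95LBD
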