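import Pool.Agent.H95.LBD.RndDef
import Pool.Agent.H95.LBD.SphA

/-!
PROJECT DL (MP_0d9ad5_pr), JOB DL-ExpB. Places where two clusters come close.
PROOF. Let `E = E0 N (lo q.1)`, `U = cl N (hi q.1) x`, `z` the point of the third clause of `Bad`.
`U ∩ E` meets the sphere of radius `R1`: `x ∈ E`, follow its `lo`-connection to the boundary inside the box
(`Cn.cross`), all its points are in `E` and in `U` (`lo_le_hi`). `E \ U` meets the sphere: the same from `z`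
(points of the `lo`-cluster of `z` are not in `U`, else `z ∈ U`). Apply `two_color` with `A = U ∩ E`,
`B = E \ U`: covering by `NHo` (`nm w + M = R1 + M ≤ N`).
-/

namespace H95LBD

open H5DF MeasureTheory

variable {d : ℕ}

/-- the connection of a point of `E0` to the boundary crosses the sphere of radius `R1` -/
lemma ExpB_cross {N R1 : ℕ} {ζ : Cfg d} {z : V d} (hz : z ∈ E0 N ζ) (h1 : nm z ≤ R1)
    (h2 : R1 ≤ N) : ∃ u ∈ E0 N ζ, nm u = R1 ∧ u ∈ cl N ζ z := by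
  obtain ⟨hzN, y, hy, hc⟩ := hz
  obtain ⟨u, hu, huc⟩ := Cn.cross hc R1 h1 (by omega)
  have huz : Cn (Bx 0 N) ζ z u := huc.mono Set.inter_subset_left fun _ h => h
  refine ⟨u, ⟨by omega, y, hy, huz.symm.trans hc⟩, hu, huz⟩

theorem link_places (hd : 2 ≤ d) (N M r ρ : ℕ) (x : V d) (q : Env d × Cfg d)
    (hq : q ∈ Bad N M r ρ x) (hx : nm x ≤ r) (R1 : ℕ) (h1 : r ≤ R1) (h2 : R1 + M ≤ N) :
    ∃ w u v : V d, nm w = R1 ∧ u ∈ cl N (hi q.1) x ∧ u ∈ E0 N (lo q.1) ∧ v ∈ E0 N (lo q.1) ∧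
      v ∉ cl N (hi q.1) x ∧ nm (u - w) ≤ M + 1 ∧ nm (v - w) ≤ M + 1 := by
  obtain ⟨hNH, hxE, ⟨z, hzE, hzr, hzU⟩, -⟩ := hq
  have hlh : ∀ e, lo q.1 e = true → hi q.1 e = true := lo_le_hi q.1
  obtain ⟨w, hw, ⟨u, ⟨huU, huE⟩, huw⟩, v, ⟨hvE, hvU⟩, hvw⟩ := two_color hd R1 M
    {u | u ∈ cl N (hi q.1) x ∧ u ∈ E0 N (lo q.1)} {v | v ∈ E0 N (lo q.1) ∧ v ∉ cl N (hi q.1) x}
    (by
      intro w hw
      obtain ⟨y, hyE, hy⟩ := hNH w (by omega)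
      by_cases hyU : y ∈ cl N (hi q.1) x
      · exact Or.inl ⟨y, ⟨hyU, hyE⟩, hy⟩
      · exact Or.inr ⟨y, ⟨hyE, hyU⟩, hy⟩)
    (by
      obtain ⟨u, huE, hu, huc⟩ := ExpB_cross hxE (by omega) (by omega : R1 ≤ N)
      exact ⟨u, ⟨cl_mono huc hlh, huE⟩, hu⟩)
    (by
      obtain ⟨u, huE, hu, huc⟩ := ExpB_cross hzE (by omega) (by omega : R1 ≤ N)
      refine ⟨u, ⟨huE, fun hU => hzU ?_⟩, hu⟩
      have h3 : u ∈ cl N (hi q.1) z := cl_mono huc hlh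
      exact Cn.trans hU (Cn.symm h3))
  exact ⟨w, u, v, hw, huU, huE, hvE, hvU, huw, hvw⟩

end H95LBD
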