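import Pool.Agent.H95.LBD.FlDef

/-!
PROJECT DL (MP_0d9ad5_pr), JOB DL-FlA. Elementary properties of the truncated flow `chi`.
PROOF. `chi_anti`: `chi N (opp s) (T (step s) X) = ∑_{z ∈ Box N} g N (-z) (opp s) (T (z + step s) X)`; with
`z' = z + step s` the term is `g N (-z' + step s) (opp s) Y = - g N (-z') s Y`, `Y = T z' X`; nonzero terms have
`Y ∈ G N` (`g_off`), so `nm z' ≤ N` and (`g_anti`) `nm (-z' + step s) ≤ N`: both index sets (`Box N` and
`Box N + step s`) contain all nonzero terms (`Finset.sum_bij_ne_zero` or sums over `Box (N+1)`).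
`chi_supp`: a nonzero term gives, with `Y = T z X`, `om Y = shift z (om X)`: the cluster of `-z` in `shift z (om X)` is
infinite iff the cluster of `0` in `om X` is (`inf_shift`), edge: `edge_shift`.
-/

namespace H95LBD

open H5DF MeasureTheory

variable {d : ℕ}

lemma chi_meas {i0 : Fin d} {Ω : Type*} [MeasurableSpace Ω] {T : V d → Ω → Ω} {om : Ω → Cfg d}
    (μ : Measure Ω) [IsProbabilityMeasure μ] (R : FlowK i0 T om)
    (hTm : ∀ a, Measurable (T a)) (hTμ : ∀ a, μ.map (T a) = μ)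
    (hT0 : ∀ X, T 0 X = X) (hTT : ∀ a b X, T a (T b X) = T (a + b) X)
    (hom : Measurable om) (hsh : ∀ a X, om (T a X) = shift a (om X)) (N : ℕ) (s : Dir d) : Measurable (chi R N s) := by
  exact Finset.measurable_sum _ fun z _ => (R.g_meas N (-z) s).comp (hTm z)

lemma chi_bdd {i0 : Fin d} {Ω : Type*} [MeasurableSpace Ω] {T : V d → Ω → Ω} {om : Ω → Cfg d}
    (μ : Measure Ω) [IsProbabilityMeasure μ] (R : FlowK i0 T om)
    (hTm : ∀ a, Measurable (T a)) (hTμ : ∀ a, μ.map (T a) = μ)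
    (hT0 : ∀ X, T 0 X = X) (hTT : ∀ a b X, T a (T b X) = T (a + b) X)
    (hom : Measurable om) (hsh : ∀ a X, om (T a X) = shift a (om X)) (N : ℕ) : ∃ B : ℝ, ∀ s X, |chi R N s X| ≤ B := by
  refine ⟨((Box d N).card : ℝ), fun s X => ?_⟩
  unfold chi
  refine (Finset.abs_sum_le_sum_abs _ _).trans ?_
  calc ∑ z ∈ Box d N, |R.g N (-z) s (T z X)| ≤ ∑ _z ∈ Box d N, (1 : ℝ) :=
        Finset.sum_le_sum fun z _ => R.g_le N (-z) s (T z X)
    _ = ((Box d N).card : ℝ) := by simp

lemma chi_anti {i0 : Fin d} {Ω : Type*} [MeasurableSpace Ω] {T : V d → Ω → Ω} {om : Ω → Cfg d}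
    (μ : Measure Ω) [IsProbabilityMeasure μ] (R : FlowK i0 T om)
    (hTm : ∀ a, Measurable (T a)) (hTμ : ∀ a, μ.map (T a) = μ)
    (hT0 : ∀ X, T 0 X = X) (hTT : ∀ a b X, T a (T b X) = T (a + b) X)
    (hom : Measurable om) (hsh : ∀ a X, om (T a X) = shift a (om X)) (N : ℕ) (s : Dir d) (X : Ω) :
    chi R N (opp s) (T (step s) X) = - chi R N s X := by
  unfold chi
  rw [← Finset.sum_neg_distrib]
  have key : ∀ z : V d, R.g N (-z) (opp s) (T z (T (step s) X)) =
      - R.g N (-(z + step s)) s (T (z + step s) X) := by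
    intro z
    have h1 : -z = -(z + step s) + step s := by abel
    rw [hTT, ← R.g_anti, ← h1]
  have box : ∀ (w : V d) (s' : Dir d) (Y : Ω), R.g N w s' Y ≠ 0 → nm w ≤ N := by
    intro w s' Y h
    have hG : Y ∈ R.G N := by
      by_contra hn
      exact h (R.g_off N w s' Y hn)
    exact (R.g_supp N w s' Y h).1 N hG
  refine Finset.sum_bij_ne_zero (fun z _ _ => z + step s) ?_ ?_ ?_ ?_
  · intro z _ h
    rw [key] at h
    have h2 := box _ _ _ (neg_ne_zero.1 h)
    rw [nm_neg] at h2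
    exact mem_Box'.2 h2
  · intro z1 _ _ z2 _ _ h
    exact add_right_cancel h
  · intro w _ h
    have h2 : R.g N (-w + step s) (opp s) (T w X) ≠ 0 := by
      rw [R.g_anti]
      exact h
    have h3 := box _ _ _ h2
    have h4 : -w + step s = -(w - step s) := by abel
    rw [h4, nm_neg] at h3
    refine ⟨w - step s, mem_Box'.2 h3, ?_, by abel⟩
    rw [key, sub_add_cancel]
    exact h
  · intro z _ _
    exact key z

lemma chi_supp {i0 : Fin d} {Ω : Type*} [MeasurableSpace Ω] {T : V d → Ω → Ω} {om : Ω → Cfg d}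
    (μ : Measure Ω) [IsProbabilityMeasure μ] (R : FlowK i0 T om)
    (hTm : ∀ a, Measurable (T a)) (hTμ : ∀ a, μ.map (T a) = μ)
    (hT0 : ∀ X, T 0 X = X) (hTT : ∀ a b X, T a (T b X) = T (a + b) X)
    (hom : Measurable om) (hsh : ∀ a X, om (T a X) = shift a (om X)) (N : ℕ) (s : Dir d) (X : Ω) (h : chi R N s X ≠ 0) : om X ∈ CO s := by
  obtain ⟨z, -, hz⟩ := Finset.exists_ne_zero_of_sum_ne_zero h
  obtain ⟨-, h2, h3⟩ := R.g_supp N (-z) s (T z X) hz
  rw [hsh] at h2 h3
  rw [inf_shift, neg_add_cancel] at h2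
  rw [edge_shift, neg_add_cancel] at h3
  exact ⟨h2, h3⟩

end H95LBD
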