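import Pool.Agent.H95.LBD.FlA

/-!
PROJECT DL (MP_0d9ad5_pr), JOB DL-FlB. Second moment of the flow.
PROOF. `chi^2 = ∑_{z,w} f_z f_w`, `f_z = g N (-z) s (T z X)`, `|f_z f_w| ≤ 1_{f_z ≠ 0} 1_{f_w ≠ 0}`, so
`∫ |f_z f_w| ≤ min(P(f_z ≠ 0), P(f_w ≠ 0)) ≤ sqrt(P_z P_w)`. By stationarity `P(f_z ≠ 0) = P(g N (-z) s ≠ 0)`, and
`g N (-z) s X ≠ 0`, `z ≠ 0` implies `X ∉ G (nm z - 1)` (`g_supp`: `X ∈ G n → nm z ≤ n`). So
`P(f_z ≠ 0) ≤ (uu z)^2`, `∫ chi^2 ≤ (∑ uu)^2 ≤ K1^2`. The integral over `{om X ∈ CO s}` is at most the full one.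
-/

namespace H95LBD

open H5DF MeasureTheory

variable {d : ℕ}

lemma FlB_le_mul {m a b : ℝ} (hm : 0 ≤ m) (ha : 0 ≤ a) (hb : 0 ≤ b) (h1 : m ≤ a ^ 2)
    (h2 : m ≤ b ^ 2) : m ≤ a * b := by
  by_contra h
  push Not at h
  have h3 : (a * b) ^ 2 < m ^ 2 := pow_lt_pow_left₀ h (mul_nonneg ha hb) two_ne_zero
  have h4 : m * m ≤ a ^ 2 * b ^ 2 := mul_le_mul h1 h2 hm (by positivity)
  nlinarith

open Classical in
/-- The event that the path of `T z X` can use the edge at `-z`. -/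
noncomputable def FlB_B {i0 : Fin d} {Ω : Type*} [MeasurableSpace Ω] {T : V d → Ω → Ω}
    {om : Ω → Cfg d} (R : FlowK i0 T om) (z : V d) : Set Ω :=
  if z = 0 then Set.univ else (R.G (nm z - 1))ᶜ

lemma FlB_B_meas {i0 : Fin d} {Ω : Type*} [MeasurableSpace Ω] {T : V d → Ω → Ω}
    {om : Ω → Cfg d} (R : FlowK i0 T om) (z : V d) : MeasurableSet (FlB_B R z) := by
  classical
  unfold FlB_B
  split_ifs
  · exact MeasurableSet.univ
  · exact (R.G_meas _).compl

lemma FlB_uu_nonneg {i0 : Fin d} {Ω : Type*} [MeasurableSpace Ω] {T : V d → Ω → Ω}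
    {om : Ω → Cfg d} (μ : Measure Ω) (R : FlowK i0 T om) (z : V d) : 0 ≤ uu μ R z := by
  unfold uu
  split_ifs
  · exact zero_le_one
  · exact Real.sqrt_nonneg _

lemma FlB_B_prob {i0 : Fin d} {Ω : Type*} [MeasurableSpace Ω] {T : V d → Ω → Ω}
    {om : Ω → Cfg d} (μ : Measure Ω) [IsProbabilityMeasure μ] (R : FlowK i0 T om)
    (hTm : ∀ a, Measurable (T a)) (hTμ : ∀ a, μ.map (T a) = μ) (z : V d) :
    μ.real (T z ⁻¹' FlB_B R z) ≤ uu μ R z ^ 2 := by
  classical
  have h1 : μ (T z ⁻¹' FlB_B R z) = μ (FlB_B R z) := by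
    rw [← Measure.map_apply (hTm z) (FlB_B_meas R z), hTμ]
  have h2 : μ.real (T z ⁻¹' FlB_B R z) = μ.real (FlB_B R z) := by
    simp only [Measure.real, h1]
  rw [h2]
  unfold uu FlB_B
  split_ifs
  · rw [one_pow]
    exact measureReal_le_one
  · rw [Real.sq_sqrt measureReal_nonneg]

lemma FlB_g_le {i0 : Fin d} {Ω : Type*} [MeasurableSpace Ω] {T : V d → Ω → Ω}
    {om : Ω → Cfg d} (R : FlowK i0 T om) (N : ℕ) (s : Dir d) (z : V d) (X : Ω) :
    |R.g N (-z) s (T z X)| ≤ (T z ⁻¹' FlB_B R z).indicator (fun _ => (1 : ℝ)) X := by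
  classical
  by_cases hX : X ∈ T z ⁻¹' FlB_B R z
  · rw [Set.indicator_of_mem hX]
    exact R.g_le _ _ _ _
  · rw [Set.indicator_of_notMem hX]
    have h0 : R.g N (-z) s (T z X) = 0 := by
      by_contra hne
      apply hX
      rw [Set.mem_preimage]
      unfold FlB_B
      split_ifs with hz
      · exact Set.mem_univ _
      · intro hG
        have h1 := (R.g_supp _ _ _ _ hne).1 _ hG
        rw [nm_neg] at h1
        have h2 : nm z ≠ 0 := fun h => hz (nm_eq_zero.1 h)
        omega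
    rw [h0, abs_zero]

theorem chi_sq {i0 : Fin d} {Ω : Type*} [MeasurableSpace Ω] {T : V d → Ω → Ω} {om : Ω → Cfg d}
    (μ : Measure Ω) [IsProbabilityMeasure μ] (R : FlowK i0 T om)
    (hTm : ∀ a, Measurable (T a)) (hTμ : ∀ a, μ.map (T a) = μ)
    (hT0 : ∀ X, T 0 X = X) (hTT : ∀ a b X, T a (T b X) = T (a + b) X)
    (hom : Measurable om) (hsh : ∀ a X, om (T a X) = shift a (om X)) (K1 : ℝ) (hK1 : ∀ N, ∑ z ∈ Box d N, uu μ R z ≤ K1) (N : ℕ) :
    ∑ s : Dir d, ∫ X in {X | om X ∈ CO s}, chi R N s X ^ 2 ∂μ ≤ 2 * d * K1 ^ 2 := by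
  classical
  set B : V d → Set Ω := fun z => T z ⁻¹' FlB_B R z with hB
  have hBm : ∀ z, MeasurableSet (B z) := fun z => (hTm z) (FlB_B_meas R z)
  set F : Ω → ℝ := fun X => ∑ z ∈ Box d N, ∑ w ∈ Box d N,
    (B z ∩ B w).indicator (fun _ => (1 : ℝ)) X with hF
  have hFi : Integrable F μ := by
    refine integrable_finset_sum _ fun z _ => integrable_finset_sum _ fun w _ => ?_
    exact (integrable_const (1 : ℝ)).indicator ((hBm z).inter (hBm w))
  have hF0 : ∀ X, 0 ≤ F X := fun X => Finset.sum_nonneg fun z _ => Finset.sum_nonneg fun w _ =>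
    Set.indicator_nonneg (fun _ _ => zero_le_one) _
  have hle : ∀ s X, chi R N s X ^ 2 ≤ F X := by
    intro s X
    have h1 : |chi R N s X| ≤ ∑ z ∈ Box d N, (B z).indicator (fun _ => (1 : ℝ)) X := by
      unfold chi
      refine (Finset.abs_sum_le_sum_abs _ _).trans (Finset.sum_le_sum fun z _ => ?_)
      exact FlB_g_le R N s z X
    have h2 : chi R N s X ^ 2 ≤ (∑ z ∈ Box d N, (B z).indicator (fun _ => (1 : ℝ)) X) ^ 2 := by
      rw [← sq_abs]
      exact pow_le_pow_left₀ (abs_nonneg _) h1 2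
    refine h2.trans (le_of_eq ?_)
    rw [sq, Finset.sum_mul_sum]
    refine Finset.sum_congr rfl fun z _ => Finset.sum_congr rfl fun w _ => ?_
    by_cases hz : X ∈ B z
    · by_cases hw : X ∈ B w
      · rw [Set.indicator_of_mem hz, Set.indicator_of_mem hw,
          Set.indicator_of_mem (Set.mem_inter hz hw), one_mul]
      · rw [Set.indicator_of_notMem hw, mul_zero,
          Set.indicator_of_notMem (fun h => hw h.2)]
    · rw [Set.indicator_of_notMem hz, zero_mul,
        Set.indicator_of_notMem (fun h => hz h.1)]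
  have hint : ∫ X, F X ∂μ ≤ K1 ^ 2 := by
    have h1 : ∫ X, F X ∂μ = ∑ z ∈ Box d N, ∑ w ∈ Box d N, μ.real (B z ∩ B w) := by
      rw [hF, integral_finset_sum]
      · refine Finset.sum_congr rfl fun z _ => ?_
        rw [integral_finset_sum]
        · refine Finset.sum_congr rfl fun w _ => ?_
          rw [integral_indicator ((hBm z).inter (hBm w))]
          simp
        · intro w _
          exact (integrable_const (1 : ℝ)).indicator ((hBm z).inter (hBm w))
      · intro z _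
        refine integrable_finset_sum _ fun w _ => ?_
        exact (integrable_const (1 : ℝ)).indicator ((hBm z).inter (hBm w))
    rw [h1]
    have h2 : ∀ z w, μ.real (B z ∩ B w) ≤ uu μ R z * uu μ R w := by
      intro z w
      refine FlB_le_mul measureReal_nonneg (FlB_uu_nonneg μ R z) (FlB_uu_nonneg μ R w) ?_ ?_
      · exact (measureReal_mono Set.inter_subset_left).trans (FlB_B_prob μ R hTm hTμ z)
      · exact (measureReal_mono Set.inter_subset_right).trans (FlB_B_prob μ R hTm hTμ w)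
    refine (Finset.sum_le_sum fun z _ => Finset.sum_le_sum fun w _ => h2 z w).trans ?_
    rw [← Finset.sum_mul_sum, ← sq]
    exact pow_le_pow_left₀ (Finset.sum_nonneg fun z _ => FlB_uu_nonneg μ R z) (hK1 N) 2
  have hs : ∀ s : Dir d, ∫ X in {X | om X ∈ CO s}, chi R N s X ^ 2 ∂μ ≤ K1 ^ 2 := by
    intro s
    refine le_trans ?_ hint
    refine le_trans ?_ (setIntegral_le_integral (s := {X | om X ∈ CO s}) hFi
      (Filter.Eventually.of_forall hF0))
    refine integral_mono_of_nonneg (Filter.Eventually.of_forall fun X => sq_nonneg _)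
      hFi.integrableOn (Filter.Eventually.of_forall fun X => hle s X)
  refine (Finset.sum_le_sum fun s _ => hs s).trans (le_of_eq ?_)
  rw [Finset.sum_const, nsmul_eq_mul]
  have hc : (Finset.univ : Finset (Dir d)).card = 2 * d := by
    simp [Dir, Fintype.card_prod, mul_comm]
  rw [hc]
  push_cast
  ring

end H95LBD
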