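import Pool.Agent.H95.LBD.FlA

/-!
PROJECT DL (MP_0d9ad5_pr), JOB DL-FlC. Flux of the flow.
PROOF. By `chi_supp` the set integrals are full integrals. `∑_s ∫ (step s i0) chi N s = ∑_s ∑_{z ∈ Box N}
∫ (step s i0) g N (-z) s (T z X) = ∑_{y ∈ Box N} ∑_s ∫ (step s i0) g N y s X` (stationarity, `y = -z`)
`= ∫_{G N} 2 ((en X) i0 - (st X) i0)` (`g_disp`, `g_off`), `en X = e + st (T e X)`. `|(en X) i0 - (st X) i0|` is
integrable: `P(nm (st X) > n) ≤ P((G n)ᶜ)`, the same for `en`, and `∑_n P((G n)ᶜ) ≤ ∑_n sqrt(P((G n)ᶜ)) ≤ K1` (take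
`z = (n+1) e` in `hK1`; probabilities are `≤ 1`). `P(G N) → 1`, monotone: dominated convergence gives the limit
`∫ 2 ((en) i0 - (st) i0) = 2 (1 + ∫ (st (T e X)) i0 - ∫ (st X) i0) = 2`.
-/

namespace H95LBD

open H5DF MeasureTheory

variable {d : ℕ}

lemma FlC_nm_single (i0 : Fin d) (k : ℕ) : nm (Pi.single i0 (k : ℤ) : V d) = k := by
  apply le_antisymm
  · rw [nm_le]
    intro j
    by_cases hj : j = i0
    · subst hj
      simp
    · simp [hj]
  · have := natAbs_le_nm (Pi.single i0 (k : ℤ) : V d) i0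
    simpa using this

lemma FlC_uu_nonneg {i0 : Fin d} {Ω : Type*} [MeasurableSpace Ω] {T : V d → Ω → Ω} {om : Ω → Cfg d}
    (μ : Measure Ω) (R : FlowK i0 T om) (z : V d) : 0 ≤ uu μ R z := by
  unfold uu
  split_ifs
  · exact zero_le_one
  · exact Real.sqrt_nonneg _

lemma FlC_partial {i0 : Fin d} {Ω : Type*} [MeasurableSpace Ω] {T : V d → Ω → Ω} {om : Ω → Cfg d}
    (μ : Measure Ω) [IsProbabilityMeasure μ] (R : FlowK i0 T om) (K1 : ℝ)
    (hK1 : ∀ N, ∑ z ∈ Box d N, uu μ R z ≤ K1) (N : ℕ) :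
    ∑ n ∈ Finset.range N, μ.real (R.G n)ᶜ ≤ K1 := by
  classical
  have hinj : Set.InjOn (fun n : ℕ => (Pi.single i0 ((n + 1 : ℕ) : ℤ) : V d))
      (Finset.range N : Set ℕ) := by
    intro a _ b _ hab
    have h1 : nm (Pi.single i0 ((a + 1 : ℕ) : ℤ) : V d) =
        nm (Pi.single i0 ((b + 1 : ℕ) : ℤ) : V d) := congrArg nm hab
    rw [FlC_nm_single, FlC_nm_single] at h1
    omega
  have h1 : ∀ n : ℕ, μ.real (R.G n)ᶜ ≤ uu μ R (Pi.single i0 ((n + 1 : ℕ) : ℤ) : V d) := by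
    intro n
    have hne : (Pi.single i0 ((n + 1 : ℕ) : ℤ) : V d) ≠ 0 := by
      intro h
      have h2 := FlC_nm_single i0 (n + 1)
      rw [h, nm_zero] at h2
      omega
    unfold uu
    rw [if_neg hne, FlC_nm_single, Nat.add_sub_cancel]
    apply Real.le_sqrt_of_sq_le
    have h3 : μ.real (R.G n)ᶜ ≤ 1 := measureReal_le_one
    have h4 : 0 ≤ μ.real (R.G n)ᶜ := measureReal_nonneg
    nlinarith
  calc ∑ n ∈ Finset.range N, μ.real (R.G n)ᶜ
      ≤ ∑ n ∈ Finset.range N, uu μ R (Pi.single i0 ((n + 1 : ℕ) : ℤ) : V d) :=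
        Finset.sum_le_sum fun n _ => h1 n
    _ = ∑ z ∈ (Finset.range N).image (fun n : ℕ => (Pi.single i0 ((n + 1 : ℕ) : ℤ) : V d)),
          uu μ R z := (Finset.sum_image hinj).symm
    _ ≤ ∑ z ∈ Box d N, uu μ R z := by
        apply Finset.sum_le_sum_of_subset_of_nonneg
        · intro z hz
          obtain ⟨n, hn, rfl⟩ := Finset.mem_image.1 hz
          rw [mem_Box', FlC_nm_single]
          have := Finset.mem_range.1 hn
          omega
        · intro z _ _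
          exact FlC_uu_nonneg μ R z
    _ ≤ K1 := hK1 N

lemma FlC_tail {i0 : Fin d} {Ω : Type*} [MeasurableSpace Ω] {T : V d → Ω → Ω} {om : Ω → Cfg d}
    (μ : Measure Ω) [IsProbabilityMeasure μ] (R : FlowK i0 T om) (K1 : ℝ)
    (hK1 : ∀ N, ∑ z ∈ Box d N, uu μ R z ≤ K1) :
    ∑' n, μ (R.G n)ᶜ ≤ ENNReal.ofReal K1 := by
  refine ENNReal.tsum_le_of_sum_range_le ?_
  intro N
  have h1 : ∑ n ∈ Finset.range N, μ (R.G n)ᶜ =
      ENNReal.ofReal (∑ n ∈ Finset.range N, μ.real (R.G n)ᶜ) := by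
    rw [ENNReal.ofReal_sum_of_nonneg fun _ _ => measureReal_nonneg]
    refine Finset.sum_congr rfl fun n _ => ?_
    exact (ofReal_measureReal (measure_ne_top _ _)).symm
  rw [h1]
  exact ENNReal.ofReal_le_ofReal (FlC_partial μ R K1 hK1 N)

/-- the number of levels that fail -/
noncomputable def FlC_tau {i0 : Fin d} {Ω : Type*} [MeasurableSpace Ω] {T : V d → Ω → Ω}
    {om : Ω → Cfg d} (R : FlowK i0 T om) (X : Ω) : ENNReal :=
  ∑' n, Set.indicator (R.G n)ᶜ (fun _ => (1 : ENNReal)) X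

lemma FlC_tau_meas {i0 : Fin d} {Ω : Type*} [MeasurableSpace Ω] {T : V d → Ω → Ω}
    {om : Ω → Cfg d} (R : FlowK i0 T om) : Measurable (FlC_tau R) :=
  Measurable.tsum fun n => measurable_const.indicator (R.G_meas n).compl

lemma FlC_tau_int {i0 : Fin d} {Ω : Type*} [MeasurableSpace Ω] {T : V d → Ω → Ω} {om : Ω → Cfg d}
    (μ : Measure Ω) [IsProbabilityMeasure μ] (R : FlowK i0 T om) (K1 : ℝ)
    (hK1 : ∀ N, ∑ z ∈ Box d N, uu μ R z ≤ K1) :
    ∫⁻ X, FlC_tau R X ∂μ < ⊤ := by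
  have h1 : ∫⁻ X, FlC_tau R X ∂μ = ∑' n, μ (R.G n)ᶜ := by
    unfold FlC_tau
    rw [lintegral_tsum fun n => (measurable_const.indicator (R.G_meas n).compl).aemeasurable]
    refine tsum_congr fun n => ?_
    rw [lintegral_indicator (R.G_meas n).compl]
    simp
  rw [h1]
  exact (FlC_tail μ R K1 hK1).trans_lt ENNReal.ofReal_lt_top

lemma FlC_G_mono {i0 : Fin d} {Ω : Type*} [MeasurableSpace Ω] {T : V d → Ω → Ω} {om : Ω → Cfg d}
    (R : FlowK i0 T om) : Monotone R.G := monotone_nat_of_le_succ R.G_mono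

lemma FlC_le_tau {i0 : Fin d} {Ω : Type*} [MeasurableSpace Ω] {T : V d → Ω → Ω} {om : Ω → Cfg d}
    (R : FlowK i0 T om) (X : Ω) (a : ℕ) (ha : ∀ n, X ∈ R.G n → a ≤ n) :
    (a : ENNReal) ≤ FlC_tau R X := by
  unfold FlC_tau
  calc (a : ENNReal) = ∑ n ∈ Finset.range a, (1 : ENNReal) := by simp
    _ = ∑ n ∈ Finset.range a, Set.indicator (R.G n)ᶜ (fun _ => (1 : ENNReal)) X := by
        refine Finset.sum_congr rfl fun n hn => ?_
        have hn' := Finset.mem_range.1 hn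
        rw [Set.indicator_of_mem]
        intro h
        have := ha n h
        omega
    _ ≤ ∑' n, Set.indicator (R.G n)ᶜ (fun _ => (1 : ENNReal)) X := ENNReal.sum_le_tsum _

lemma FlC_integrable {i0 : Fin d} {Ω : Type*} [MeasurableSpace Ω] {T : V d → Ω → Ω}
    {om : Ω → Cfg d} (μ : Measure Ω) [IsProbabilityMeasure μ] (R : FlowK i0 T om) (K1 : ℝ)
    (hK1 : ∀ N, ∑ z ∈ Box d N, uu μ R z ≤ K1) (f : Ω → V d) (hf : Measurable f)
    (hfn : ∀ n X, X ∈ R.G n → nm (f X) ≤ n) :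
    Integrable (fun X => (((f X) i0 : ℤ) : ℝ)) μ := by
  have hm : Measurable (fun X => (((f X) i0 : ℤ) : ℝ)) :=
    (measurable_of_countable (fun v : V d => ((v i0 : ℤ) : ℝ))).comp hf
  refine ⟨hm.aestronglyMeasurable, ?_⟩
  refine lt_of_le_of_lt (lintegral_mono fun X => ?_) (FlC_tau_int μ R K1 hK1)
  have h1 : ‖(((f X) i0 : ℤ) : ℝ)‖ₑ = (((f X i0).natAbs : ℕ) : ENNReal) := by
    rw [← ofReal_norm, Real.norm_eq_abs, ← Int.cast_abs, Int.abs_eq_natAbs,
      Int.cast_natCast, ENNReal.ofReal_natCast]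
  rw [h1]
  exact FlC_le_tau R X _ fun n hn => (natAbs_le_nm (f X) i0).trans (hfn n X hn)

lemma FlC_st_meas {i0 : Fin d} {Ω : Type*} [MeasurableSpace Ω] {T : V d → Ω → Ω}
    {om : Ω → Cfg d} (R : FlowK i0 T om) : Measurable R.st :=
  measurable_to_countable' fun v => R.st_meas v

lemma FlC_en_meas {i0 : Fin d} {Ω : Type*} [MeasurableSpace Ω] {T : V d → Ω → Ω}
    {om : Ω → Cfg d} (R : FlowK i0 T om) (hTm : ∀ a, Measurable (T a)) :
    Measurable fun X => (Pi.single i0 1 + R.st (T (Pi.single i0 1) X) : V d) := by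
  have h := (measurable_of_countable (fun v : V d => (Pi.single i0 1 + v : V d))).comp
    ((FlC_st_meas R).comp (hTm (Pi.single i0 1 : V d)))
  exact h

lemma FlC_finite {i0 : Fin d} {Ω : Type*} [MeasurableSpace Ω] {T : V d → Ω → Ω} {om : Ω → Cfg d}
    (μ : Measure Ω) [IsProbabilityMeasure μ] (R : FlowK i0 T om) (K1 : ℝ)
    (hK1 : ∀ N, ∑ z ∈ Box d N, uu μ R z ≤ K1) :
    ∀ᵐ X ∂μ, ∃ n, X ∈ R.G n := by
  have h1 := ae_lt_top (FlC_tau_meas R) (FlC_tau_int μ R K1 hK1).ne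
  filter_upwards [h1] with X hX
  by_contra hcon
  push Not at hcon
  have h2 : ∀ a : ℕ, (a : ENNReal) ≤ FlC_tau R X := fun a =>
    FlC_le_tau R X a fun n hn => absurd hn (hcon n)
  have h3 : FlC_tau R X = ⊤ := by
    refine ENNReal.eq_top_of_forall_nnreal_le fun r => ?_
    obtain ⟨a, ha⟩ := exists_nat_gt r
    have h4 : ((r : NNReal) : ENNReal) < (a : ENNReal) := by exact_mod_cast ha
    exact h4.le.trans (h2 a)
  rw [h3] at hX
  exact lt_irrefl _ hX

lemma FlC_term {i0 : Fin d} {Ω : Type*} [MeasurableSpace Ω] {T : V d → Ω → Ω} {om : Ω → Cfg d}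
    (μ : Measure Ω) [IsProbabilityMeasure μ] (R : FlowK i0 T om)
    (hTm : ∀ a, Measurable (T a)) (hTμ : ∀ a, μ.map (T a) = μ) (N : ℕ) (y z : V d) (s : Dir d) :
    ∫ X, (((step s : V d) i0 : ℤ) : ℝ) * R.g N y s (T z X) ∂μ =
      ∫ X, (((step s : V d) i0 : ℤ) : ℝ) * R.g N y s X ∂μ := by
  have hg : Measurable fun X => (((step s : V d) i0 : ℤ) : ℝ) * R.g N y s X :=
    (R.g_meas N y s).const_mul _
  have h := integral_map (μ := μ) (hTm z).aemeasurable (f := fun X =>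
    (((step s : V d) i0 : ℤ) : ℝ) * R.g N y s X) hg.aestronglyMeasurable
  rw [hTμ] at h
  exact h.symm

lemma FlC_gint {i0 : Fin d} {Ω : Type*} [MeasurableSpace Ω] {T : V d → Ω → Ω} {om : Ω → Cfg d}
    (μ : Measure Ω) [IsProbabilityMeasure μ] (R : FlowK i0 T om) (N : ℕ) (y : V d) (s : Dir d)
    (F : Ω → Ω) (hF : Measurable F) :
    Integrable (fun X => (((step s : V d) i0 : ℤ) : ℝ) * R.g N y s (F X)) μ := by
  refine Integrable.const_mul ?_ _
  refine Integrable.of_bound (C := 1) ((R.g_meas N y s).comp hF).aestronglyMeasurable ?_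
  exact Filter.Eventually.of_forall fun X => by
    rw [Real.norm_eq_abs]
    exact R.g_le N y s (F X)

lemma FlC_gint0 {i0 : Fin d} {Ω : Type*} [MeasurableSpace Ω] {T : V d → Ω → Ω} {om : Ω → Cfg d}
    (μ : Measure Ω) [IsProbabilityMeasure μ] (R : FlowK i0 T om) (N : ℕ) (y : V d) (s : Dir d) :
    Integrable (fun X => (((step s : V d) i0 : ℤ) : ℝ) * R.g N y s X) μ :=
  FlC_gint μ R N y s (fun X => X) measurable_id

lemma FlC_eq {i0 : Fin d} {Ω : Type*} [MeasurableSpace Ω] {T : V d → Ω → Ω} {om : Ω → Cfg d}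
    (μ : Measure Ω) [IsProbabilityMeasure μ] (R : FlowK i0 T om)
    (hTm : ∀ a, Measurable (T a)) (hTμ : ∀ a, μ.map (T a) = μ)
    (hT0 : ∀ X, T 0 X = X) (hTT : ∀ a b X, T a (T b X) = T (a + b) X)
    (hom : Measurable om) (hsh : ∀ a X, om (T a X) = shift a (om X)) (N : ℕ) :
    ∑ s : Dir d, ∫ X in {X | om X ∈ CO s}, (((step s : V d) i0 : ℤ) : ℝ) * chi R N s X ∂μ =
      ∫ X, Set.indicator (R.G N) (fun X =>
        2 * ((((Pi.single i0 1 + R.st (T (Pi.single i0 1) X) : V d) i0 : ℤ) : ℝ) -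
          ((R.st X) i0 : ℝ))) X ∂μ := by
  have h1 : ∀ s : Dir d, ∫ X in {X | om X ∈ CO s},
      (((step s : V d) i0 : ℤ) : ℝ) * chi R N s X ∂μ =
      ∑ y ∈ Box d N, ∫ X, (((step s : V d) i0 : ℤ) : ℝ) * R.g N y s X ∂μ := by
    intro s
    rw [setIntegral_eq_integral_of_forall_compl_eq_zero]
    · unfold chi
      simp only [Finset.mul_sum]
      rw [integral_finsetSum _ fun z _ => FlC_gint μ R N (-z) s (T z) (hTm z)]
      rw [Finset.sum_congr rfl fun z _ => FlC_term μ R hTm hTμ N (-z) z s]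
      refine Finset.sum_bij' (fun z _ => -z) (fun z _ => -z) ?_ ?_ ?_ ?_ ?_
      · intro z hz
        rw [mem_Box', nm_neg]
        exact mem_Box'.1 hz
      · intro z hz
        rw [mem_Box', nm_neg]
        exact mem_Box'.1 hz
      · intro z _
        exact neg_neg z
      · intro z _
        exact neg_neg z
      · intro z _
        rfl
    · intro X hX
      by_contra hne
      exact hX (chi_supp μ R hTm hTμ hT0 hTT hom hsh N s X (right_ne_zero_of_mul hne))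
  rw [Finset.sum_congr rfl fun s _ => h1 s, Finset.sum_comm]
  have h2 : ∀ y ∈ Box d N, ∑ s : Dir d, ∫ X, (((step s : V d) i0 : ℤ) : ℝ) * R.g N y s X ∂μ =
      ∫ X, ∑ s : Dir d, (((step s : V d) i0 : ℤ) : ℝ) * R.g N y s X ∂μ := by
    intro y _
    exact (integral_finsetSum _ fun s _ => FlC_gint0 μ R N y s).symm
  rw [Finset.sum_congr rfl h2,
    ← integral_finsetSum _ fun y _ => integrable_finsetSum _ fun s _ =>
      FlC_gint0 μ R N y s]
  refine integral_congr_ae (Filter.Eventually.of_forall fun X => ?_)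
  by_cases hX : X ∈ R.G N
  · simp only [Set.indicator_of_mem hX]
    exact R.g_disp N X hX
  · simp only [Set.indicator_of_notMem hX]
    refine Finset.sum_eq_zero fun y _ => Finset.sum_eq_zero fun s _ => ?_
    rw [R.g_off N y s X hX, mul_zero]

theorem chi_flux {i0 : Fin d} {Ω : Type*} [MeasurableSpace Ω] {T : V d → Ω → Ω} {om : Ω → Cfg d}
    (μ : Measure Ω) [IsProbabilityMeasure μ] (R : FlowK i0 T om)
    (hTm : ∀ a, Measurable (T a)) (hTμ : ∀ a, μ.map (T a) = μ)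
    (hT0 : ∀ X, T 0 X = X) (hTT : ∀ a b X, T a (T b X) = T (a + b) X)
    (hom : Measurable om) (hsh : ∀ a X, om (T a X) = shift a (om X)) (K1 : ℝ) (hK1 : ∀ N, ∑ z ∈ Box d N, uu μ R z ≤ K1) :
    Filter.Tendsto (fun N => ∑ s : Dir d, ∫ X in {X | om X ∈ CO s},
      (((step s : V d) i0 : ℤ) : ℝ) * chi R N s X ∂μ) Filter.atTop (nhds 2) := by
  have hst := FlC_st_meas R
  have hen := FlC_en_meas R hTm
  have hi1 : Integrable (fun X => (((R.st X) i0 : ℤ) : ℝ)) μ :=
    FlC_integrable μ R K1 hK1 R.st hst fun n X hX => (R.st_le n X hX).1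
  have hi2 : Integrable (fun X =>
      (((Pi.single i0 1 + R.st (T (Pi.single i0 1) X) : V d) i0 : ℤ) : ℝ)) μ :=
    FlC_integrable μ R K1 hK1 (fun X => Pi.single i0 1 + R.st (T (Pi.single i0 1) X)) hen
      fun n X hX => (R.st_le n X hX).2
  have hh : Integrable (fun X =>
        2 * ((((Pi.single i0 1 + R.st (T (Pi.single i0 1) X) : V d) i0 : ℤ) : ℝ) -
          ((R.st X) i0 : ℝ))) μ := (hi2.sub hi1).const_mul 2
  have hlim : Filter.Tendsto (fun N => ∫ X, Set.indicator (R.G N) (fun X =>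
        2 * ((((Pi.single i0 1 + R.st (T (Pi.single i0 1) X) : V d) i0 : ℤ) : ℝ) -
          ((R.st X) i0 : ℝ))) X ∂μ) Filter.atTop (nhds (∫ X, (
        2 * ((((Pi.single i0 1 + R.st (T (Pi.single i0 1) X) : V d) i0 : ℤ) : ℝ) -
          ((R.st X) i0 : ℝ))) ∂μ)) := by
    refine tendsto_integral_of_dominated_convergence (fun X =>
      ‖2 * ((((Pi.single i0 1 + R.st (T (Pi.single i0 1) X) : V d) i0 : ℤ) : ℝ) -
          ((R.st X) i0 : ℝ))‖) ?_ hh.norm ?_ ?_
    · intro N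
      exact hh.aestronglyMeasurable.indicator (R.G_meas N)
    · intro N
      exact Filter.Eventually.of_forall fun X => norm_indicator_le_norm_self _ _
    · filter_upwards [FlC_finite μ R K1 hK1] with X hX
      obtain ⟨n, hn⟩ := hX
      refine tendsto_const_nhds.congr' ?_
      filter_upwards [Filter.eventually_ge_atTop n] with N hN
      rw [Set.indicator_of_mem (FlC_G_mono R hN hn)]
  have hval : ∫ X, (2 * ((((Pi.single i0 1 + R.st (T (Pi.single i0 1) X) : V d) i0 : ℤ) : ℝ) -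
          ((R.st X) i0 : ℝ))) ∂μ = 2 := by
    have h3 : ∫ X, (((R.st (T (Pi.single i0 1) X)) i0 : ℤ) : ℝ) ∂μ =
        ∫ X, (((R.st X) i0 : ℤ) : ℝ) ∂μ := by
      have h := integral_map (μ := μ) (hTm (Pi.single i0 1 : V d)).aemeasurable
        (f := fun X => (((R.st X) i0 : ℤ) : ℝ)) (by
          rw [hTμ]
          exact hi1.aestronglyMeasurable)
      rw [hTμ] at h
      exact h.symm
    have h4 : (fun X => (((Pi.single i0 1 + R.st (T (Pi.single i0 1) X) : V d) i0 : ℤ) : ℝ)) =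
        fun X => 1 + (((R.st (T (Pi.single i0 1) X)) i0 : ℤ) : ℝ) := by
      funext X
      simp
    have hi3 : Integrable (fun X => (((R.st (T (Pi.single i0 1) X)) i0 : ℤ) : ℝ)) μ := by
      have := hi2.sub (integrable_const (1 : ℝ))
      refine this.congr (Filter.Eventually.of_forall fun X => ?_)
      simp
    rw [integral_const_mul, integral_sub hi2 hi1, h4,
      integral_add (integrable_const (1 : ℝ)) hi3, h3]
    simp
  rw [← hval]
  refine hlim.congr fun N => ?_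
  exact (FlC_eq μ R hTm hTμ hT0 hTT hom hsh N).symm

end H95LBD
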