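import Pool.Agent.H95.LBD.FlA

/-!
PROJECT DL (MP_0d9ad5_pr), JOB DL-FlD. The flow is asymptotically divergence free in L^1.
PROOF. By `chi_supp` `∑_s indicator = ∑_s chi N s X = ∑_{z ∈ Box N} 1_{G N}(T z X) (a_z(X) - b_z(X))` (`g_div`),
`a_z(X) = [st (T z X) = -z]`, `b_z(X) = [en (T z X) = -z]`, `en X = e + st (T e X)`; `b_z = a_{z+e}` (`hTT`). On
`T z X ∈ G N` the numbers `a_z, b_z` vanish for `nm z > N` (`st_le`), so the sum is over all `z`. `∑_z a_z(X) < ∞`
a.s. as `∑_z P(st = -z) = 1`; so a.s. `∑_z (a_z - b_z) = 0` (finitely many nonzero terms, reindex) and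
`|∑_s chi| = |∑_z 1_{(G N)ᶜ}(T z X) (a_z - b_z)| ≤ ∑_z 1_{(G N)ᶜ}(T z X) (a_z + b_z)`, whose expectation is
`∑_z P(X ∉ G N, st X = -z) + P(X ∉ G N, en X = -z) = 2 P((G N)ᶜ) → 0` (`hlim`).
-/

namespace H95LBD

open H5DF MeasureTheory

variable {d : ℕ}

lemma flD_part {Ω : Type*} [MeasurableSpace Ω] (μ : Measure Ω) (h : Ω → V d)
    (hm : ∀ v, MeasurableSet {X | h X = v}) (D : Set Ω) (hD : MeasurableSet D) :
    ∑' z : V d, μ ({X | h X = -z} ∩ D) = μ D := by
  have h1 : ∑' z : V d, μ ({X | h X = -z} ∩ D) = ∑' v : V d, μ ({X | h X = v} ∩ D) :=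
    (Equiv.neg (V d)).tsum_eq (fun v => μ ({X | h X = v} ∩ D))
  rw [h1, ← measure_iUnion]
  · congr 1
    ext X
    simp
  · intro u v huv
    rw [Function.onFun, Set.disjoint_left]
    rintro X ⟨h2, -⟩ ⟨h3, -⟩
    exact huv (h2.symm.trans h3)
  · intro v
    exact (hm v).inter hD

open Classical in
lemma flD_abs (A : Set (V d)) (hA : A.Finite) (P : V d → Prop) (e : V d) (N : ℕ)
    (ha : ∀ z, P z → z ∈ A → nm z ≤ N) (hb : ∀ z, P z → e + z ∈ A → nm z ≤ N) :
    ‖∑ z ∈ Box d N, (if P z then ((if z ∈ A then (1 : ℝ) else 0) - (if e + z ∈ A then 1 else 0))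
      else 0)‖ₑ ≤ ∑' z : V d, ((if z ∈ A ∧ ¬ P z then (1 : ENNReal) else 0) +
        (if e + z ∈ A ∧ ¬ P z then 1 else 0)) := by
  set F : Finset (V d) := Box d N ∪ (hA.toFinset ∪ hA.toFinset.image (fun z => z - e)) with hF
  have h1 : ∑ z ∈ Box d N, (if P z then ((if z ∈ A then (1 : ℝ) else 0) -
      (if e + z ∈ A then 1 else 0)) else 0) =
      ∑ z ∈ F, (if P z then ((if z ∈ A then (1 : ℝ) else 0) - (if e + z ∈ A then 1 else 0))
        else 0) := by
    refine Finset.sum_subset Finset.subset_union_left fun z _ hz => ?_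
    rw [mem_Box'] at hz
    by_cases hP : P z
    · have h2 : z ∉ A := fun h => hz (ha z hP h)
      have h3 : e + z ∉ A := fun h => hz (hb z hP h)
      simp [h2, h3]
    · simp [hP]
  have hAF : ∀ z ∈ A, z ∈ F := fun z hz =>
    Finset.mem_union_right _ (Finset.mem_union_left _ (hA.mem_toFinset.2 hz))
  have hBF : ∀ z, e + z ∈ A → z ∈ F := fun z hz =>
    Finset.mem_union_right _ (Finset.mem_union_right _ (Finset.mem_image.2
      ⟨e + z, hA.mem_toFinset.2 hz, by abel⟩))
  have h4 : ∑ z ∈ F, (if z ∈ A then (1 : ℝ) else 0) = hA.toFinset.card := by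
    rw [Finset.sum_boole]
    congr 2
    ext z
    simp only [Finset.mem_filter, Set.Finite.mem_toFinset]
    exact ⟨fun h => h.2, fun h => ⟨hAF z h, h⟩⟩
  have h5 : ∑ z ∈ F, (if e + z ∈ A then (1 : ℝ) else 0) = hA.toFinset.card := by
    rw [Finset.sum_boole]
    have h6 : F.filter (fun z => e + z ∈ A) = hA.toFinset.image (fun z => z - e) := by
      ext z
      simp only [Finset.mem_filter, Finset.mem_image, Set.Finite.mem_toFinset]
      constructor
      · rintro ⟨-, h⟩
        exact ⟨e + z, h, by abel⟩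
      · rintro ⟨w, hw, rfl⟩
        have h7 : e + (w - e) = w := by abel
        rw [h7]
        refine ⟨?_, hw⟩
        exact hBF _ (by rw [h7]; exact hw)
    rw [h6, Finset.card_image_of_injective _ (sub_left_injective)]
  have h8 : ∑ z ∈ F, (if P z then ((if z ∈ A then (1 : ℝ) else 0) -
      (if e + z ∈ A then 1 else 0)) else 0) =
      - ∑ z ∈ F, (if P z then 0 else ((if z ∈ A then (1 : ℝ) else 0) -
      (if e + z ∈ A then 1 else 0))) := by
    rw [eq_neg_iff_add_eq_zero, ← Finset.sum_add_distrib]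
    have h9 : ∀ z ∈ F, ((if P z then ((if z ∈ A then (1 : ℝ) else 0) -
        (if e + z ∈ A then 1 else 0)) else 0) + (if P z then 0 else ((if z ∈ A then (1 : ℝ)
          else 0) - (if e + z ∈ A then 1 else 0)))) =
        (if z ∈ A then (1 : ℝ) else 0) - (if e + z ∈ A then 1 else 0) := by
      intro z _
      by_cases hP : P z <;> simp [hP]
    rw [Finset.sum_congr rfl h9, Finset.sum_sub_distrib, h4, h5, sub_self]
  rw [h1, h8, enorm_neg]
  refine (enorm_sum_le _ _).trans ((Finset.sum_le_sum fun z _ => ?_).trans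
    (ENNReal.sum_le_tsum F))
  by_cases hP : P z
  · simp [hP]
  · by_cases h2 : z ∈ A <;> by_cases h3 : e + z ∈ A <;> simp [hP, h2, h3]

theorem chi_div {i0 : Fin d} {Ω : Type*} [MeasurableSpace Ω] {T : V d → Ω → Ω} {om : Ω → Cfg d}
    (μ : Measure Ω) [IsProbabilityMeasure μ] (R : FlowK i0 T om)
    (hTm : ∀ a, Measurable (T a)) (hTμ : ∀ a, μ.map (T a) = μ)
    (hT0 : ∀ X, T 0 X = X) (hTT : ∀ a b X, T a (T b X) = T (a + b) X)
    (hom : Measurable om) (hsh : ∀ a X, om (T a X) = shift a (om X))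
    (hlim : Filter.Tendsto (fun N => μ.real (R.G N)ᶜ) Filter.atTop (nhds 0)) :
    Filter.Tendsto (fun N => ∫ X, |∑ s : Dir d, {X | om X ∈ CO s}.indicator (chi R N s) X| ∂μ)
      Filter.atTop (nhds 0) := by
  classical
  set e : V d := Pi.single i0 1 with he
  let en : Ω → V d := fun X => e + R.st (T e X)
  have hen : ∀ v, MeasurableSet {X | en X = v} := by
    intro v
    have h1 : {X | en X = v} = T e ⁻¹' {X | R.st X = -e + v} := by
      ext X
      simp only [Set.mem_preimage, Set.mem_ofPred_eq, en]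
      constructor
      · rintro rfl
        abel
      · intro h
        rw [h]
        abel
    rw [h1]
    exact hTm e (R.st_meas _)
  have hpre : ∀ z (S : Set Ω), MeasurableSet S → μ (T z ⁻¹' S) = μ S := by
    intro z S hS
    rw [← Measure.map_apply (hTm z) hS, hTμ]
  have hfin : ∀ᵐ X ∂μ, {z : V d | R.st (T z X) = -z}.Finite := by
    have h1 : ∑' z : V d, μ {X | R.st (T z X) = -z} ≠ ⊤ := by
      have h2 : ∀ z : V d, μ {X | R.st (T z X) = -z} = μ ({X | R.st X = -z} ∩ Set.univ) := by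
        intro z
        rw [Set.inter_univ]
        exact hpre z {X | R.st X = -z} (R.st_meas _)
      simp only [h2]
      rw [flD_part μ R.st R.st_meas Set.univ MeasurableSet.univ]
      exact measure_ne_top _ _
    exact ae_finite_setOfPred_mem h1
  -- the sum over the directions
  have hsum : ∀ N X, ∑ s : Dir d, {X | om X ∈ CO s}.indicator (chi R N s) X =
      ∑ z ∈ Box d N, (if T z X ∈ R.G N then ((if R.st (T z X) = -z then (1 : ℝ) else 0) -
        (if en (T z X) = -z then 1 else 0)) else 0) := by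
    intro N X
    have h1 : ∀ s : Dir d, {X | om X ∈ CO s}.indicator (chi R N s) X =
        ∑ z ∈ Box d N, R.g N (-z) s (T z X) := by
      intro s
      by_cases h : om X ∈ CO s
      · have h2 : X ∈ {X | om X ∈ CO s} := h
        rw [Set.indicator_of_mem h2]
        rfl
      · have h2 : X ∉ {X | om X ∈ CO s} := h
        rw [Set.indicator_of_notMem h2]
        by_contra h3
        exact h (chi_supp μ R hTm hTμ hT0 hTT hom hsh N s X fun h4 => h3 h4.symm)
    rw [Finset.sum_congr rfl fun s _ => h1 s, Finset.sum_comm]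
    refine Finset.sum_congr rfl fun z _ => ?_
    by_cases h : T z X ∈ R.G N
    · rw [if_pos h, R.g_div N (-z) (T z X) h]
    · rw [if_neg h]
      exact Finset.sum_eq_zero fun s _ => R.g_off N (-z) s (T z X) h
  -- pointwise bound
  have hpt : ∀ N, ∀ᵐ X ∂μ, ‖|∑ s : Dir d, {X | om X ∈ CO s}.indicator (chi R N s) X|‖ₑ ≤
      ∑' z : V d, ((T z ⁻¹' ({Y | R.st Y = -z} ∩ (R.G N)ᶜ)).indicator
        (fun _ => (1 : ENNReal)) X + (T z ⁻¹' ({Y | en Y = -z} ∩ (R.G N)ᶜ)).indicator
        (fun _ => (1 : ENNReal)) X) := by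
    intro N
    filter_upwards [hfin] with X hX
    have hmemB : ∀ z : V d, e + z ∈ {z : V d | R.st (T z X) = -z} ↔ en (T z X) = -z := by
      intro z
      simp only [Set.mem_ofPred_eq, en, hTT]
      constructor
      · intro h
        rw [h]
        abel
      · intro h
        have h2 : R.st (T (e + z) X) = -e + (e + R.st (T (e + z) X)) := by abel
        rw [h2, h]
        abel
    have h1 := flD_abs {z : V d | R.st (T z X) = -z} hX (fun z => T z X ∈ R.G N) e N
      (by
        intro z hz hzA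
        have h2 := (R.st_le N (T z X) hz).1
        rw [show R.st (T z X) = -z from hzA, nm_neg] at h2
        exact h2)
      (by
        intro z hz hzA
        have h2 := (R.st_le N (T z X) hz).2
        have h3 : en (T z X) = -z := (hmemB z).1 hzA
        have h4 : Pi.single i0 1 + R.st (T (Pi.single i0 1) (T z X)) = -z := h3
        rw [h4, nm_neg] at h2
        exact h2)
    rw [hsum N X]
    refine (le_of_eq ?_).trans (h1.trans (le_of_eq (tsum_congr fun z => ?_)))
    · rw [Real.enorm_abs]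
      congr 1
      refine Finset.sum_congr rfl fun z _ => ?_
      by_cases hz : T z X ∈ R.G N
      · rw [if_pos hz, if_pos hz]
        refine congrArg₂ (fun a b : ℝ => a - b) ?_ ?_
        · by_cases h2 : R.st (T z X) = -z
          · rw [if_pos h2, if_pos (show z ∈ {z : V d | R.st (T z X) = -z} from h2)]
          · rw [if_neg h2, if_neg (show z ∉ {z : V d | R.st (T z X) = -z} from h2)]
        · by_cases h2 : en (T z X) = -z
          · rw [if_pos h2, if_pos ((hmemB z).2 h2)]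
          · rw [if_neg h2, if_neg fun h => h2 ((hmemB z).1 h)]
      · rw [if_neg hz, if_neg hz]
    have h6 : X ∈ T z ⁻¹' ({Y | R.st Y = -z} ∩ (R.G N)ᶜ) ↔
        (z ∈ {z : V d | R.st (T z X) = -z} ∧ ¬ T z X ∈ R.G N) := Iff.rfl
    have h7 : X ∈ T z ⁻¹' ({Y | en Y = -z} ∩ (R.G N)ᶜ) ↔
        (e + z ∈ {z : V d | R.st (T z X) = -z} ∧ ¬ T z X ∈ R.G N) := by
      rw [hmemB z]
      exact Iff.rfl
    refine congrArg₂ (fun a b : ENNReal => a + b) ?_ ?_
    · by_cases h8 : z ∈ {z : V d | R.st (T z X) = -z} ∧ ¬ T z X ∈ R.G N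
      · rw [if_pos h8, Set.indicator_of_mem (h6.2 h8)]
      · rw [if_neg h8, Set.indicator_of_notMem fun h => h8 (h6.1 h)]
    · by_cases h8 : e + z ∈ {z : V d | R.st (T z X) = -z} ∧ ¬ T z X ∈ R.G N
      · rw [if_pos h8, Set.indicator_of_mem (h7.2 h8)]
      · rw [if_neg h8, Set.indicator_of_notMem fun h => h8 (h7.1 h)]
  have hmeasA : ∀ N (z : V d), MeasurableSet (T z ⁻¹' ({Y | R.st Y = -z} ∩ (R.G N)ᶜ)) :=
    fun N z => hTm z ((R.st_meas _).inter (R.G_meas N).compl)
  have hmeasB : ∀ N (z : V d), MeasurableSet (T z ⁻¹' ({Y | en Y = -z} ∩ (R.G N)ᶜ)) :=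
    fun N z => hTm z ((hen _).inter (R.G_meas N).compl)
  have hint : ∀ N, ∫⁻ X, ∑' z : V d, ((T z ⁻¹' ({Y | R.st Y = -z} ∩ (R.G N)ᶜ)).indicator
        (fun _ => (1 : ENNReal)) X + (T z ⁻¹' ({Y | en Y = -z} ∩ (R.G N)ᶜ)).indicator
        (fun _ => (1 : ENNReal)) X) ∂μ = μ (R.G N)ᶜ + μ (R.G N)ᶜ := by
    intro N
    rw [lintegral_tsum (f := fun (z : V d) (X : Ω) =>
      ((T z ⁻¹' ({Y | R.st Y = -z} ∩ (R.G N)ᶜ)).indicator (fun _ => (1 : ENNReal)) X +
        (T z ⁻¹' ({Y | en Y = -z} ∩ (R.G N)ᶜ)).indicator (fun _ => (1 : ENNReal)) X))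
      fun z => ((measurable_const.indicator (hmeasA N z)).add
      (measurable_const.indicator (hmeasB N z))).aemeasurable]
    have h1 : ∀ z : V d, ∫⁻ X, ((T z ⁻¹' ({Y | R.st Y = -z} ∩ (R.G N)ᶜ)).indicator
        (fun _ => (1 : ENNReal)) X + (T z ⁻¹' ({Y | en Y = -z} ∩ (R.G N)ᶜ)).indicator
        (fun _ => (1 : ENNReal)) X) ∂μ = μ ({Y | R.st Y = -z} ∩ (R.G N)ᶜ) +
          μ ({Y | en Y = -z} ∩ (R.G N)ᶜ) := by
      intro z
      rw [lintegral_add_left (measurable_const.indicator (hmeasA N z)),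
        lintegral_indicator_const (hmeasA N z), lintegral_indicator_const (hmeasB N z), one_mul,
        one_mul, hpre z _ ((R.st_meas _).inter (R.G_meas N).compl),
        hpre z _ ((hen _).inter (R.G_meas N).compl)]
    rw [tsum_congr h1, ENNReal.tsum_add, flD_part μ R.st R.st_meas _ (R.G_meas N).compl,
      flD_part μ en hen _ (R.G_meas N).compl]
  have hbound : ∀ N, ∫ X, |∑ s : Dir d, {X | om X ∈ CO s}.indicator (chi R N s) X| ∂μ ≤
      2 * μ.real (R.G N)ᶜ := by
    intro N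
    have h1 : ‖∫ X, |∑ s : Dir d, {X | om X ∈ CO s}.indicator (chi R N s) X| ∂μ‖ₑ ≤
        μ (R.G N)ᶜ + μ (R.G N)ᶜ := by
      refine (enorm_integral_le_lintegral_enorm _).trans ?_
      rw [← hint N]
      exact lintegral_mono_ae (hpt N)
    have h2 : 0 ≤ ∫ X, |∑ s : Dir d, {X | om X ∈ CO s}.indicator (chi R N s) X| ∂μ :=
      integral_nonneg fun X => abs_nonneg _
    have h3 : (∫ X, |∑ s : Dir d, {X | om X ∈ CO s}.indicator (chi R N s) X| ∂μ) =
        (‖∫ X, |∑ s : Dir d, {X | om X ∈ CO s}.indicator (chi R N s) X| ∂μ‖ₑ).toReal := by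
      rw [toReal_enorm, Real.norm_of_nonneg h2]
    rw [h3]
    refine (ENNReal.toReal_mono (by finiteness) h1).trans (le_of_eq ?_)
    rw [ENNReal.toReal_add (measure_ne_top _ _) (measure_ne_top _ _), two_mul]
    rfl
  refine squeeze_zero (fun N => integral_nonneg fun X => abs_nonneg _) hbound ?_
  have h4 := hlim.const_mul 2
  rwa [mul_zero] at h4

end H95LBD
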