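import Pool.Agent.H95.LBD.Walk
import Pool.Agent.H95.LBD.Basic
import Pool.Agent.H5.DG.Indep

/-!
PROJECT DL (MP_0d9ad5_pr). Stationary flows built from local path kernels: definitions.
-/

namespace H95LBD

open H5DF MeasureTheory Filter Topology

variable {d : ℕ}

/-- A local path kernel on an extended environment. `g N y s X` is the signed crossing number of the edge
`(y, y + step s)` by the path of `X` from `st X` to `e + st (T e X)`, if this path is inside the box of radius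
`N` (event `G N`), else `0`. -/
structure FlowK (i0 : Fin d) {Ω : Type*} [MeasurableSpace Ω] (T : V d → Ω → Ω)
    (om : Ω → Cfg d) where
  st : Ω → V d
  st_meas : ∀ v, MeasurableSet {X | st X = v}
  G : ℕ → Set Ω
  G_meas : ∀ N, MeasurableSet (G N)
  G_mono : ∀ N, G N ⊆ G (N + 1)
  g : ℕ → V d → Dir d → Ω → ℝ
  g_meas : ∀ N y s, Measurable (g N y s)
  g_le : ∀ N y s X, |g N y s X| ≤ 1
  g_anti : ∀ N y s X, g N (y + step s) (opp s) X = - g N y s X
  g_off : ∀ N y s X, X ∉ G N → g N y s X = 0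
  g_supp : ∀ N y s X, g N y s X ≠ 0 →
    (∀ n, X ∈ G n → nm y ≤ n) ∧ (cluster (om X) y).Infinite ∧ om X (edge y s) = true
  st_le : ∀ n X, X ∈ G n → nm (st X) ≤ n ∧
    nm (Pi.single i0 1 + st (T (Pi.single i0 1) X)) ≤ n
  g_div : ∀ N y X, X ∈ G N → ∑ s : Dir d, g N y s X =
    (if st X = y then 1 else 0) - (if Pi.single i0 1 + st (T (Pi.single i0 1) X) = y then 1 else 0)
  g_disp : ∀ N X, X ∈ G N → ∑ y ∈ Box d N, ∑ s : Dir d, (((step s : V d) i0 : ℤ) : ℝ) * g N y s X =
    2 * ((((Pi.single i0 1 + st (T (Pi.single i0 1) X) : V d) i0 : ℤ) : ℝ) - ((st X) i0 : ℝ))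

/-- The truncated stationary flow. -/
noncomputable def chi {i0 : Fin d} {Ω : Type*} [MeasurableSpace Ω] {T : V d → Ω → Ω}
    {om : Ω → Cfg d} (R : FlowK i0 T om) (N : ℕ) (s : Dir d) (X : Ω) : ℝ :=
  ∑ z ∈ Box d N, R.g N (-z) s (T z X)

/-- The square root of the probability that the path reaches distance `nm z`. -/
noncomputable def uu {i0 : Fin d} {Ω : Type*} [MeasurableSpace Ω] {T : V d → Ω → Ω}
    {om : Ω → Cfg d} (μ : Measure Ω) (R : FlowK i0 T om) (z : V d) : ℝ :=
  if z = 0 then 1 else Real.sqrt (μ.real (R.G (nm z - 1))ᶜ)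

end H95LBD
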