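import Pool.Agent.H95.LBD.FlB
import Pool.Agent.H95.LBD.FlC
import Pool.Agent.H95.LBD.FlD

/-!
PROJECT DL (MP_0d9ad5_pr), JOB DL-FlE. Lower bound for the diffusivity from a path kernel.
PROOF. `walk_lower` with `χ = chi R`, `K = 2 d K1^2`, `α = 2`. `K1 ≥ 1` (`N = 0`: `uu 0 = 1`), `d ≥ 1` (there is
`i0 : Fin d`). `hlim`: `∑_n sqrt (μ.real (G n)ᶜ) ≤ K1` as in FlC, so `μ.real (G n)ᶜ → 0`. The conclusion is
`4 / (2 d K1^2) ≤ 2 d D`.
-/

namespace H95LBD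

open H5DF MeasureTheory

variable {d : ℕ}

lemma flE_uu_nonneg {i0 : Fin d} {Ω : Type*} [MeasurableSpace Ω] {T : V d → Ω → Ω}
    {om : Ω → Cfg d} (μ : Measure Ω) (R : FlowK i0 T om) (z : V d) : 0 ≤ uu μ R z := by
  unfold uu
  split_ifs
  · exact zero_le_one
  · exact Real.sqrt_nonneg _

lemma flE_one_le {i0 : Fin d} {Ω : Type*} [MeasurableSpace Ω] {T : V d → Ω → Ω}
    {om : Ω → Cfg d} (μ : Measure Ω) (R : FlowK i0 T om) (K1 : ℝ)
    (hK1 : ∀ N, ∑ z ∈ Box d N, uu μ R z ≤ K1) : 1 ≤ K1 := by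
  refine le_trans ?_ (hK1 0)
  have h0 : (0 : V d) ∈ Box d 0 := mem_Box'.2 (by rw [nm_zero])
  have h := Finset.single_le_sum (f := fun z => uu μ R z) (fun z _ => flE_uu_nonneg μ R z) h0
  refine le_trans (le_of_eq ?_) h
  simp [uu]

lemma flE_nm (i0 : Fin d) (n : ℕ) : nm (Pi.single i0 ((n : ℤ) + 1) : V d) = n + 1 := by
  refine le_antisymm (nm_le.2 fun i => ?_) ?_
  · by_cases h : i = i0
    · subst h
      rw [Pi.single_eq_same]
      omega
    · rw [Pi.single_eq_of_ne h]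
      simp
  · refine le_trans (le_of_eq ?_) (natAbs_le_nm _ i0)
    rw [Pi.single_eq_same]
    omega

lemma flE_sum {i0 : Fin d} {Ω : Type*} [MeasurableSpace Ω] {T : V d → Ω → Ω}
    {om : Ω → Cfg d} (μ : Measure Ω) (R : FlowK i0 T om) (K1 : ℝ)
    (hK1 : ∀ N, ∑ z ∈ Box d N, uu μ R z ≤ K1) (M : ℕ) :
    ∑ n ∈ Finset.range M, Real.sqrt (μ.real (R.G n)ᶜ) ≤ K1 := by
  classical
  refine le_trans ?_ (hK1 M)
  set f : ℕ → V d := fun n => Pi.single i0 ((n : ℤ) + 1) with hf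
  have hinj : Function.Injective f := by
    intro a b hab
    have h := congrFun hab i0
    simp only [hf, Pi.single_eq_same] at h
    omega
  have hval : ∀ n, uu μ R (f n) = Real.sqrt (μ.real (R.G n)ᶜ) := by
    intro n
    have hne : f n ≠ 0 := by
      intro h
      have h2 := flE_nm i0 n
      change nm (f n) = n + 1 at h2
      rw [h, nm_zero] at h2
      omega
    unfold uu
    rw [if_neg hne]
    have h2 : nm (f n) = n + 1 := flE_nm i0 n
    rw [h2, Nat.add_sub_cancel]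
  have h1 : ∑ n ∈ Finset.range M, Real.sqrt (μ.real (R.G n)ᶜ) =
      ∑ z ∈ (Finset.range M).image f, uu μ R z := by
    rw [Finset.sum_image fun a _ b _ h => hinj h]
    exact Finset.sum_congr rfl fun n _ => (hval n).symm
  rw [h1]
  refine Finset.sum_le_sum_of_subset_of_nonneg ?_ fun z _ _ => flE_uu_nonneg μ R z
  intro z hz
  obtain ⟨n, hn, rfl⟩ := Finset.mem_image.1 hz
  rw [mem_Box']
  have h2 : nm (f n) = n + 1 := flE_nm i0 n
  rw [h2]
  exact Finset.mem_range.1 hn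

lemma flE_lim {i0 : Fin d} {Ω : Type*} [MeasurableSpace Ω] {T : V d → Ω → Ω}
    {om : Ω → Cfg d} (μ : Measure Ω) (R : FlowK i0 T om) (K1 : ℝ)
    (hK1 : ∀ N, ∑ z ∈ Box d N, uu μ R z ≤ K1) :
    Filter.Tendsto (fun N => μ.real (R.G N)ᶜ) Filter.atTop (nhds 0) := by
  have hs : Summable fun n => Real.sqrt (μ.real (R.G n)ᶜ) :=
    summable_of_sum_range_le (fun n => Real.sqrt_nonneg _) (flE_sum μ R K1 hK1)
  have h := hs.tendsto_atTop_zero
  have h2 := h.mul h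
  rw [mul_zero] at h2
  refine h2.congr fun n => ?_
  exact Real.mul_self_sqrt measureReal_nonneg

theorem flow_lower (p : ℝ) (h0 : 0 ≤ p) (h1 : p ≤ 1) (D : NNReal) (hD : HasDiffusivity d p D)
    {i0 : Fin d} {Ω : Type*} [MeasurableSpace Ω] {T : V d → Ω → Ω} {om : Ω → Cfg d}
    (μ : Measure Ω) [IsProbabilityMeasure μ] (R : FlowK i0 T om)
    (hTm : ∀ a, Measurable (T a)) (hTμ : ∀ a, μ.map (T a) = μ)
    (hT0 : ∀ X, T 0 X = X) (hTT : ∀ a b X, T a (T b X) = T (a + b) X)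
    (hom : Measurable om) (hsh : ∀ a X, om (T a X) = shift a (om X)) (hlaw : μ.map om = perc d p)
    (K1 : ℝ) (hK1 : ∀ N, ∑ z ∈ Box d N, uu μ R z ≤ K1) :
    1 / ((d : ℝ) ^ 2 * K1 ^ 2) ≤ D := by
  have hd : (0 : ℝ) < d := by
    have := i0.pos
    exact_mod_cast this
  have hK : 1 ≤ K1 := flE_one_le μ R K1 hK1
  have hKp : 0 < K1 := lt_of_lt_of_le one_pos hK
  have hlim := flE_lim μ R K1 hK1
  have h := walk_lower d i0 p h0 h1 D hD μ T hTm hTμ hT0 hTT om hom hlaw hsh (chi R)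
    (chi_meas μ R hTm hTμ hT0 hTT hom hsh) (chi_bdd μ R hTm hTμ hT0 hTT hom hsh)
    (chi_anti μ R hTm hTμ hT0 hTT hom hsh) (2 * d * K1 ^ 2) 2 (by positivity)
    (chi_sq μ R hTm hTμ hT0 hTT hom hsh K1 hK1)
    (chi_flux μ R hTm hTμ hT0 hTT hom hsh K1 hK1)
    (chi_div μ R hTm hTμ hT0 hTT hom hsh hlim)
  have e : (2 : ℝ) ^ 2 / (2 * d * K1 ^ 2) = 2 * d * (1 / ((d : ℝ) ^ 2 * K1 ^ 2)) := by
    field_simp
  rw [e] at h
  exact le_of_mul_le_mul_left h (by positivity)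

end H95LBD
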