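import Pool.Agent.H95.LBD.Setup
import Pool.Agent.H5.DF.Energy2

/-!
PROJECT DL (MP_0d9ad5_pr). Definitions for the sprinkling part.
-/

namespace H95LBD

open H5DF MeasureTheory

variable {d : ℕ}

/-- The points of the box of radius `N` connected to its boundary inside the box. -/
def E0 (N : ℕ) (ζ : Cfg d) : Set (V d) :=
  {x | nm x ≤ N ∧ ∃ y, nm y = N ∧ Cn (Bx 0 N) ζ x y}

/-- Every ball of radius `M` in the box meets `E0`. -/
def NHo (N M : ℕ) (ζ : Cfg d) : Prop := ∀ w : V d, nm w + M ≤ N → ∃ x ∈ E0 N ζ, nm (x - w) ≤ M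

/-- The cluster of `x` inside the box of radius `N`. -/
def cl (N : ℕ) (ω : Cfg d) (x : V d) : Set (V d) := {y | Cn (Bx 0 N) ω x y}

/-- The explored set. -/
def FF (N ρ : ℕ) (X : Env d) : Set (V d) :=
  E0 N (lo X) ∪ {v | ∃ y ∈ E0 N (lo X), nm y ≤ ρ ∧ v ∈ cl N (hi X) y}

/-- The cluster of `x` is not alone, but it is not joined to another one by the sprinkling. -/
def Bad (N M r ρ : ℕ) (x : V d) : Set (Env d × Cfg d) :=
  {q | NHo N M (lo q.1) ∧ x ∈ E0 N (lo q.1) ∧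
    (∃ z ∈ E0 N (lo q.1), nm z ≤ r ∧ z ∉ cl N (hi q.1) x) ∧
    ¬ ∃ y ∈ E0 N (lo q.1), nm y ≤ ρ ∧ y ∉ cl N (hi q.1) x ∧ y ∈ cl N (hi (uni q.1 q.2)) x}

/-- A link inside `Q` between `U` and `F \ U`, by sprinkled edges and a connection off `F`. -/
def Link (Q F U : Set (V d)) : Set (Env d × Cfg d) :=
  {q | ∃ a ∈ U ∩ Q, ∃ b ∈ (F \ U) ∩ Q,
    (∃ s : Dir d, b = a + step s ∧ q.2 (edge a s) = true) ∨
    ∃ s t : Dir d, a + step s ∈ Q \ F ∧ b + step t ∈ Q \ F ∧ q.2 (edge a s) = true ∧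
      q.2 (edge b t) = true ∧ Cn (Q \ F) (hi q.1) (a + step s) (b + step t)}

open Classical in
/-- The number of clusters (of `ω` inside the box of radius `N`) of points of `E0` of norm `≤ ρ`. -/
noncomputable def Ncl (N ρ : ℕ) (ζ ω : Cfg d) : ℕ :=
  (((Box d ρ).filter fun x => x ∈ E0 N ζ).image fun x => cl N ω x).card

/-- Failure of the halving up to factor `k`. -/
def FS (N M ρ k : ℕ) : Set (Env d) :=
  {X | NHo N M (lo X) ∧ ¬ (Ncl N ρ (lo X) (hi X) ≤ 1 ∨ k * Ncl N ρ (lo X) (hi X) ≤ (2 * N + 1) ^ d)}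

/-- Failure of local uniqueness at scale `R`. -/
def LUF (R : ℕ) : Set (Env d) :=
  {X | ∃ x ∈ E0 (2 * R) (lo X), ∃ y ∈ E0 (2 * R) (lo X), nm x ≤ R ∧ nm y ≤ R ∧
    y ∉ cl (2 * R) (hi X) x}

lemma mem_cl_self (N : ℕ) (ω : Cfg d) (x : V d) : x ∈ cl N ω x := Cn.refl _ _ _

lemma cl_eq {N : ℕ} {ω : Cfg d} {x y : V d} (h : y ∈ cl N ω x) : cl N ω y = cl N ω x := by
  ext z
  exact ⟨fun h' => Cn.trans h h', fun h' => Cn.trans (Cn.symm h) h'⟩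

lemma cl_mono {N : ℕ} {ω ω' : Cfg d} {x y : V d} (h : y ∈ cl N ω x)
    (hω : ∀ e, ω e = true → ω' e = true) : y ∈ cl N ω' x := Cn.mono h (le_refl _) hω

lemma E0_sub {N : ℕ} {ζ : Cfg d} {x : V d} (h : x ∈ E0 N ζ) : nm x ≤ N := h.1

lemma FF_sub {N ρ : ℕ} {X : Env d} {x : V d} (h : x ∈ FF N ρ X) : nm x ≤ N := by
  rcases h with h | ⟨y, hy, -, hc⟩
  · exact h.1
  · exact mem_Bx0.1 (Cn.mem hc (mem_Bx0.2 hy.1))

end H95LBD
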