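import Pool.Agent.H95.LBD.Basic
import Pool.Agent.H5.DG.Indep

/-!
PROJECT DL (MP_0d9ad5_pr), JOB DL-Sel. Measurable selection of a minimal element in a countable type.
PROOF. Take an injection `enc : α → ℕ` and let `b < a` iff `(size b, enc b) <_lex (size a, enc a)` (use
`key a = Nat` pairs, a well-order). `c X` = the smallest `a` with `X ∈ P a`, a fixed `a0` if there is none.
`{c X = a}` is `P a \ ⋃_{b < a} P b` (together with `(⋃ P b)ᶜ` if `a = a0`): measurable.
-/

namespace H95LBD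

open H5DF MeasureTheory

theorem select {Ω α : Type*} [MeasurableSpace Ω] [Countable α] [Nonempty α] (size : α → ℕ)
    (P : α → Set Ω) (hP : ∀ a, MeasurableSet (P a)) :
    ∃ c : Ω → α, (∀ a, MeasurableSet {X | c X = a}) ∧
      ∀ X, (∃ a, X ∈ P a) → X ∈ P (c X) ∧ ∀ a, X ∈ P a → size (c X) ≤ size a := by
  classical
  obtain ⟨enc, henc⟩ := Countable.exists_injective_nat α
  obtain ⟨a0⟩ := (inferInstance : Nonempty α)
  set lt : α → α → Prop := fun b a => size b < size a ∨ (size b = size a ∧ enc b < enc a) with hlt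
  have hwf : ∀ X, (∃ a, X ∈ P a) → ∃ a, X ∈ P a ∧ ∀ b, X ∈ P b → ¬ lt b a := by
    rintro X ⟨a, ha⟩
    have h1 : ∃ n, ∃ a, X ∈ P a ∧ size a = n := ⟨size a, a, ha, rfl⟩
    have h2 : ∃ m, ∃ a, X ∈ P a ∧ size a = Nat.find h1 ∧ enc a = m := by
      obtain ⟨b, hb, hb'⟩ := Nat.find_spec h1
      exact ⟨enc b, b, hb, hb', rfl⟩
    obtain ⟨b, hb, hb1, hb2⟩ := Nat.find_spec h2
    refine ⟨b, hb, fun d hd hlt' => ?_⟩
    rcases hlt' with h | ⟨h, h'⟩
    · exact Nat.find_min h1 (m := size d) (by omega) ⟨d, hd, rfl⟩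
    · exact Nat.find_min h2 (m := enc d) (by omega) ⟨d, hd, by omega, rfl⟩
  have huniq : ∀ a b, ¬ lt a b → ¬ lt b a → a = b := by
    intro a b h1 h2
    simp only [hlt, not_or, not_and, not_lt] at h1 h2
    have hs : size a = size b := le_antisymm h2.1 h1.1
    exact henc (le_antisymm (h2.2 hs.symm) (h1.2 hs))
  let c : Ω → α := fun X => if h : ∃ a, X ∈ P a then Classical.choose (hwf X h) else a0
  have hc : ∀ X, (∃ a, X ∈ P a) → X ∈ P (c X) ∧ ∀ b, X ∈ P b → ¬ lt b (c X) := by
    intro X h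
    have : c X = Classical.choose (hwf X h) := dif_pos h
    rw [this]
    exact Classical.choose_spec (hwf X h)
  have hc0 : ∀ X, (¬ ∃ a, X ∈ P a) → c X = a0 := fun X h => dif_neg h
  refine ⟨c, fun a => ?_, fun X h => ⟨(hc X h).1, fun a ha => ?_⟩⟩
  · have hset : {X | c X = a} = (P a \ ⋃ b ∈ {b | lt b a}, P b) ∪
        ({X | a = a0} ∩ (⋃ b, P b)ᶜ) := by
      ext X
      simp only [Set.mem_setOf_eq, Set.mem_union, Set.mem_diff, Set.mem_iUnion, Set.mem_inter_iff,
        Set.mem_compl_iff, not_exists, exists_prop, not_and]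
      constructor
      · intro h
        by_cases hX : ∃ b, X ∈ P b
        · left
          obtain ⟨h1, h2⟩ := hc X hX
          rw [h] at h1 h2
          exact ⟨h1, fun b hb hb' => h2 b hb' hb⟩
        · right
          exact ⟨by rw [← h]; exact hc0 X hX, fun b hb => hX ⟨b, hb⟩⟩
      · rintro (⟨h1, h2⟩ | ⟨h1, h2⟩)
        · obtain ⟨h3, h4⟩ := hc X ⟨a, h1⟩
          exact huniq _ _ (fun h5 => h2 _ h5 h3) (h4 a h1)
        · rw [h1]
          exact hc0 X (fun ⟨b, hb⟩ => h2 b hb)
    rw [hset]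
    refine MeasurableSet.union ((hP a).diff ?_) (MeasurableSet.inter (MeasurableSet.const _) ?_)
    · exact MeasurableSet.biUnion (Set.to_countable _) (fun b _ => hP b)
    · exact (MeasurableSet.iUnion hP).compl
  · have := (hc X h).2 a ha
    simp only [hlt, not_or, not_lt] at this
    exact this.1

end H95LBD
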