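import Pool.Agent.H95.LBD.FlDef
import Pool.Agent.H95.LBD.PathA
import Pool.Agent.H95.LBD.PathB
import Pool.Agent.H95.LBD.Sel
import Pool.Agent.H95.LBD.RndDef

/-!
PROJECT DL (MP_0d9ad5_pr), JOB DL-FlP. The path kernel of the two-level percolation environment.
CONSTRUCTION. `e = Pi.single i0 1`. `rp : Env d → V d` from `select` with `size = nm`,
`P x = {X | (cluster (lo X) x).Infinite}` (`meas_inf`): a nearest point of the infinite clusters of `lo X`.
`c : Env d → ℕ × V d × List (Dir d)` from `select` with `size = Prod.fst` and `P (n, x, l)` = the set of `X` with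
`x = rp X`, `(cluster (lo X) x).Infinite`, `popen (hi X) x l`, `pend x l = e + rp (shE e X)`, `(pvs x l).Nodup`,
`∀ v ∈ pvs x l, nm v ≤ n`. `G N = {X | ∃ a, X ∈ P a ∧ a.1 ≤ N}` (equivalently `X ∈ P (c X) ∧ (c X).1 ≤ N`).
`g N y s X = if X ∈ G N then crs y s (c X).2.1 (c X).2.2 else 0`. `st = rp`. The fields: `crs_anti`, `crs_div`,
`crs_le`, `crs_supp`, `crs_disp` (box of radius `(c X).1 ≤ N`), `start_mem_pvs`, `pend_mem_pvs`; measurability of `g`:
countable sum / `measurable_from_countable`-type argument over the values of `c` (write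
`{X | g N y s X ∈ B} = ⋃_a {c X = a} ∩ ...`). `g_supp` first part: `X ∈ G n` implies `(c X).1 ≤ n` (minimality).
SECOND CLAUSE. `M + 1 ≤ R'`, some `u ∈ Box M` has infinite `lo X`-cluster: `nm (rp X) ≤ M`, infinite; the same for
`shE e X`: `e + rp (shE e X)` has infinite `lo X`-cluster (`lo_shE`, `inf_shift`), norm `≤ M + 1`. Both are in
`E0 (2 R') (lo X)` (an infinite cluster leaves the box: `Cn.cross` with `S = univ`, `Cn_univ`, the box is finite). `X ∉ LUF R'`:
they are connected in `hi X` inside `Bx 0 (2 R')`; `path_exists`.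
-/

namespace H95LBD

open H5DF MeasureTheory

variable {d : ℕ}

lemma flP_inf_mem {ω : Cfg d} {x y : V d} (h : y ∈ cluster ω x) :
    (cluster ω y).Infinite ↔ (cluster ω x).Infinite := by
  have h' : (G ω).Reachable x y := h
  have : cluster ω y = cluster ω x := by
    ext z
    exact ⟨fun hz => h'.trans hz, fun hz => h'.symm.trans hz⟩
  rw [this]

lemma flP_inf_mono {ω ω' : Cfg d} {x : V d} (hω : ∀ e, ω e = true → ω' e = true)
    (h : (cluster ω x).Infinite) : (cluster ω' x).Infinite := by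
  refine h.mono ?_
  intro y hy
  exact Cn_univ.1 ((Cn_univ.2 hy).mono (Set.Subset.refl _) hω)

/-- A vertex of the box with infinite cluster is joined to the boundary of the box inside the box. -/
lemma flP_E0 {ω : Cfg d} {x : V d} {N : ℕ} (hx : nm x ≤ N) (h : (cluster ω x).Infinite) :
    x ∈ E0 N ω := by
  have hne : ∃ y ∈ cluster ω x, y ∉ (Box d N : Set (V d)) := by
    by_contra hc
    push Not at hc
    exact h ((Box d N).finite_toSet.subset hc)
  obtain ⟨y, hy, hyN⟩ := hne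
  have hyN' : N ≤ nm y := by
    by_contra hc
    exact hyN (by exact_mod_cast mem_Box'.2 (not_le.1 hc).le)
  obtain ⟨z, hz, hc⟩ := (Cn_univ.2 hy).cross N hx hyN'
  exact ⟨hx, z, hz, hc.mono Set.inter_subset_right fun _ h => h⟩

/-- The possible codes of the path of an environment. -/
def flP_P (i0 : Fin d) (rp : Env d → V d) (a : ℕ × V d × List (Dir d)) : Set (Env d) :=
  {X | rp X = a.2.1 ∧ (cluster (lo X) a.2.1).Infinite ∧ popen (hi X) a.2.1 a.2.2 ∧
    rp (shE (Pi.single i0 1) X) = pend a.2.1 a.2.2 - Pi.single i0 1 ∧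
    ((pvs a.2.1 a.2.2).Nodup ∧ ∀ v ∈ pvs a.2.1 a.2.2, nm v ≤ a.1)}

lemma flP_meas (i0 : Fin d) (rp : Env d → V d) (hrp : ∀ v, MeasurableSet {X | rp X = v})
    (a : ℕ × V d × List (Dir d)) : MeasurableSet (flP_P i0 rp a) := by
  refine (hrp _).inter (MeasurableSet.inter ?_ (MeasurableSet.inter ?_ (MeasurableSet.inter ?_
    (MeasurableSet.const _))))
  · exact measurable_lo (meas_inf a.2.1)
  · exact measurable_hi (popen_meas a.2.1 a.2.2)
  · exact (measurable_shE (Pi.single i0 1)) (hrp _)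

theorem perc_kernel (i0 : Fin d) : ∃ R : FlowK i0 (shE : V d → Env d → Env d) hi,
    ∀ (M R' : ℕ) (X : Env d), M + 1 ≤ R' → (∃ u ∈ Box d M, (cluster (lo X) u).Infinite) →
      (∃ u ∈ Box d M, (cluster (lo (shE (Pi.single i0 1) X)) u).Infinite) → X ∉ LUF R' →
      X ∈ R.G (2 * R') := by
  classical
  obtain ⟨rp, hrpm, hrp⟩ := select (Ω := Env d) (α := V d) nm
    (fun x => {X | (cluster (lo X) x).Infinite}) (fun x => measurable_lo (meas_inf x))
  obtain ⟨c, hcm, hc⟩ := select (Ω := Env d) (α := ℕ × V d × List (Dir d)) Prod.fst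
    (flP_P i0 rp) (flP_meas i0 rp hrpm)
  let Gs : ℕ → Set (Env d) := fun N => {X | X ∈ flP_P i0 rp (c X) ∧ (c X).1 ≤ N}
  have hGm : ∀ N, MeasurableSet (Gs N) := by
    intro N
    have : Gs N = ⋃ a : ℕ × V d × List (Dir d), ({X | c X = a} ∩ (flP_P i0 rp a ∩
        {_X : Env d | a.1 ≤ N})) := by
      ext X
      simp only [Gs, Set.mem_iUnion, Set.mem_inter_iff, Set.mem_ofPred_eq]
      constructor
      · rintro ⟨h1, h2⟩
        exact ⟨c X, rfl, h1, h2⟩
      · rintro ⟨a, h1, h2, h3⟩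
        rw [h1]
        exact ⟨h2, h3⟩
    rw [this]
    exact MeasurableSet.iUnion fun a => (hcm a).inter ((flP_meas i0 rp hrpm a).inter
      (MeasurableSet.const _))
  let gs : ℕ → V d → Dir d → Env d → ℝ := fun N y s X =>
    if X ∈ Gs N then crs y s (c X).2.1 (c X).2.2 else 0
  have hgs1 : ∀ N y s X, X ∈ Gs N → gs N y s X = crs y s (c X).2.1 (c X).2.2 :=
    fun N y s X h => if_pos h
  have hgs0 : ∀ N y s X, X ∉ Gs N → gs N y s X = 0 := fun N y s X h => if_neg h
  have hgm : ∀ N y s, Measurable (gs N y s) := by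
    intro N y s
    letI : MeasurableSpace (ℕ × V d × List (Dir d)) := ⊤
    have hcmeas : Measurable c := measurable_to_countable' hcm
    have h1 : Measurable fun X => crs y s (c X).2.1 (c X).2.2 :=
      (measurable_from_top (f := fun a : ℕ × V d × List (Dir d) => crs y s a.2.1 a.2.2)).comp
        hcmeas
    exact Measurable.ite (hGm N) h1 measurable_const
  have hst : ∀ N X, X ∈ Gs N → rp X = (c X).2.1 := fun N X h => h.1.1
  have hen : ∀ N X, X ∈ Gs N →
      Pi.single i0 1 + rp (shE (Pi.single i0 1) X) = pend (c X).2.1 (c X).2.2 := by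
    intro N X h
    rw [h.1.2.2.2.1]
    abel
  refine ⟨{
    st := rp
    st_meas := hrpm
    G := Gs
    G_meas := hGm
    G_mono := fun N X hX => ⟨hX.1, hX.2.trans (Nat.le_succ N)⟩
    g := gs
    g_meas := hgm
    g_le := ?_
    g_anti := ?_
    g_off := hgs0
    g_supp := ?_
    st_le := ?_
    g_div := ?_
    g_disp := ?_ }, ?_⟩
  · intro N y s X
    by_cases h : X ∈ Gs N
    · rw [hgs1 N y s X h]
      exact crs_le y s _ _ h.1.2.2.2.2.1
    · rw [hgs0 N y s X h, abs_zero]
      exact zero_le_one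
  · intro N y s X
    by_cases h : X ∈ Gs N
    · rw [hgs1 _ _ _ _ h, hgs1 _ _ _ _ h]
      exact crs_anti y s _ _
    · rw [hgs0 _ _ _ _ h, hgs0 _ _ _ _ h, neg_zero]
  · intro N y s X hne
    by_cases h : X ∈ Gs N
    · rw [hgs1 _ _ _ _ h] at hne
      obtain ⟨h1, -, h3, h4⟩ := crs_supp (hi X) y s _ _ h.1.2.2.1 hne
      refine ⟨fun n hn => (hn.1.2.2.2.2.2 y h1).trans hn.2, ?_, h3⟩
      rw [flP_inf_mem h4]
      exact flP_inf_mono (lo_le_hi X) h.1.2.1
    · exact absurd (hgs0 _ _ _ _ h) hne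
  · intro n X hX
    constructor
    · rw [hst n X hX]
      exact (hX.1.2.2.2.2.2 _ (start_mem_pvs _ _)).trans hX.2
    · rw [hen n X hX]
      exact (hX.1.2.2.2.2.2 _ (pend_mem_pvs _ _)).trans hX.2
  · intro N y X hX
    rw [hst N X hX, hen N X hX, ← crs_div]
    exact Finset.sum_congr rfl fun s _ => hgs1 N y s X hX
  · intro N X hX
    rw [hst N X hX, hen N X hX, ← crs_disp i0 N _ _
      (fun v hv => (hX.1.2.2.2.2.2 v hv).trans hX.2)]
    refine Finset.sum_congr rfl fun y _ => Finset.sum_congr rfl fun s _ => ?_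
    rw [hgs1 N y s X hX]
  · rintro M R' X hM ⟨u, hu, hui⟩ ⟨u', hu', hui'⟩ hX
    obtain ⟨h1, h2⟩ := hrp X ⟨u, hui⟩
    obtain ⟨h3, h4⟩ := hrp (shE (Pi.single i0 1) X) ⟨u', hui'⟩
    have h5 : nm (rp X) ≤ M := (h2 u hui).trans (mem_Box'.1 hu)
    have h6 : nm (rp (shE (Pi.single i0 1) X)) ≤ M := (h4 u' hui').trans (mem_Box'.1 hu')
    have h7 : (cluster (lo X) (rp (shE (Pi.single i0 1) X) + Pi.single i0 1)).Infinite := by
      rw [← inf_shift, ← lo_shE]
      exact h3
    have h8 : nm (rp (shE (Pi.single i0 1) X) + Pi.single i0 1) ≤ M + 1 := by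
      have h9 := nm_add_step (rp (shE (Pi.single i0 1) X)) (i0, true)
      have h10 : (step (i0, true) : V d) = Pi.single i0 1 := by simp [step]
      rw [h10] at h9
      omega
    have e1 : rp X ∈ E0 (2 * R') (lo X) := flP_E0 (by omega) h1
    have e2 : rp (shE (Pi.single i0 1) X) + Pi.single i0 1 ∈ E0 (2 * R') (lo X) :=
      flP_E0 (by omega) h7
    have e3 : rp (shE (Pi.single i0 1) X) + Pi.single i0 1 ∈ cl (2 * R') (hi X) (rp X) := by
      by_contra hcon
      exact hX ⟨_, e1, _, e2, by omega, by omega, hcon⟩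
    obtain ⟨l, l1, l2, l3, l4⟩ := path_exists (hi X) (2 * R') _ _ (by omega) e3
    have hmem : X ∈ flP_P i0 rp (2 * R', rp X, l) := by
      refine ⟨rfl, h1, l1, ?_, l4, l3⟩
      show rp (shE (Pi.single i0 1) X) = pend (rp X) l - Pi.single i0 1
      rw [l2]
      abel
    obtain ⟨q1, q2⟩ := hc X ⟨_, hmem⟩
    exact ⟨q1, q2 _ hmem⟩

end H95LBD
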