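import Pool.Agent.H95.LBD.Basic
import Pool.Agent.H5.DG.Indep

/-!
PROJECT DL (MP_0d9ad5_pr), JOB DL-Halve. Counting classes (pure combinatorics).
PROOF. For each class `c' ∈ A'.image f'` choose `x ∈ A'` with `f' x = c'` and `y ∈ A` with `f y ≠ f x`,
`f' y = f' x`. The two classes `f x ≠ f y` belong to `A.image f` and both determine `c'`
(`f z = f z' → f' z = f' z'`), so the `2 * card` classes obtained are all different.
-/

namespace H95LBD

open H5DF MeasureTheory

theorem halve {α β γ : Type*} [DecidableEq β] [DecidableEq γ] (A A' : Finset α) (hAA : A' ⊆ A)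
    (f : α → β) (f' : α → γ) (hf : ∀ x ∈ A, ∀ y ∈ A, f x = f y → f' x = f' y)
    (h : ∀ x ∈ A', ∃ y ∈ A, f y ≠ f x ∧ f' y = f' x) :
    2 * (A'.image f').card ≤ (A.image f).card := by
  classical
  -- the map from classes of `f` to classes of `f'`
  have hfib : ∀ c' ∈ A'.image f', 2 ≤ ((A.filter (fun z => f' z = c')).image f).card := by
    intro c' hc'
    obtain ⟨x, hx, rfl⟩ := Finset.mem_image.1 hc'
    obtain ⟨y, hy, hne, heq⟩ := h x hx
    have h1 : f y ∈ (A.filter (fun z => f' z = f' x)).image f :=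
      Finset.mem_image.2 ⟨y, Finset.mem_filter.2 ⟨hy, heq⟩, rfl⟩
    have h2 : f x ∈ (A.filter (fun z => f' z = f' x)).image f :=
      Finset.mem_image.2 ⟨x, Finset.mem_filter.2 ⟨hAA hx, rfl⟩, rfl⟩
    exact Finset.one_lt_card.2 ⟨f y, h1, f x, h2, hne⟩
  have hdis : ((A'.image f' : Finset γ) : Set γ).PairwiseDisjoint
      (fun c' => (A.filter (fun z => f' z = c')).image f) := by
    intro c1 _ c2 _ hne
    rw [Function.onFun, Finset.disjoint_left]
    intro b hb1 hb2
    obtain ⟨x, hx, rfl⟩ := Finset.mem_image.1 hb1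
    obtain ⟨y, hy, hxy⟩ := Finset.mem_image.1 hb2
    rw [Finset.mem_filter] at hx hy
    apply hne
    rw [← hx.2, ← hy.2]
    exact hf x hx.1 y hy.1 hxy.symm
  have hsub : (A'.image f').biUnion (fun c' => (A.filter (fun z => f' z = c')).image f) ⊆
      A.image f := by
    intro b hb
    obtain ⟨c', _, hb⟩ := Finset.mem_biUnion.1 hb
    obtain ⟨x, hx, rfl⟩ := Finset.mem_image.1 hb
    exact Finset.mem_image_of_mem f (Finset.mem_filter.1 hx).1
  calc 2 * (A'.image f').card = ∑ c' ∈ A'.image f', 2 := by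
        rw [Finset.sum_const, smul_eq_mul, mul_comm]
    _ ≤ ∑ c' ∈ A'.image f', ((A.filter (fun z => f' z = c')).image f).card :=
        Finset.sum_le_sum hfib
    _ = ((A'.image f').biUnion (fun c' => (A.filter (fun z => f' z = c')).image f)).card :=
        (Finset.card_biUnion hdis).symm
    _ ≤ (A.image f).card := Finset.card_le_card hsub

end H95LBD
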