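import Pool.Agent.H95.LBD.Setup
import Pool.Agent.H95.LBD.LawC

/-!
PROJECT DL (MP_0d9ad5_pr), JOB DL-HoleA. The hole event and its pivotal edges.
PROOF. `hole_dep`: a connection from the box to norm `≥ n` reaches norm exactly `n` for the first time
inside `Bx 0 n` (`Cn.cross` with `S = univ`, `Cn_univ`).
`hole_piv`: for a configuration `ω` let `S*(ω) = {x | nm x < n, no y with n ≤ nm y, y ∈ cluster ω x}` (a
`Finset`, subset of `Box d n`). `Hole M n = {Box d M ⊆ S*}` (as `M < n`), so
`P(Hole) = ∑_{S ⊇ Box M} P(S* = S)` (finite sum). Claim for `b ∈ bd S`: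
`P(S* = S, SCn (Box M) S b.1) = P(S* = S) P(SCn (Box M) S b.1)`: `{S* = S}` depends only on the edges
not in `ins S` (exploring from the far points; edges with both ends in `S` do not matter: if two
configurations agree off `ins S` and `S* = S` for the first, then no vertex of `S` is joined to a vertex off
`S` in either, and every vertex off `S` of norm `< n` is connected to norm `≥ n` off `S`), the other event only on `ins S`
(`Cn.congr`); `indep_gen`. On the intersection, opening the edge `edge b.1 b.2` connects the box to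
`b.1 + step b.2 ∉ S`, which is connected to norm `≥ n` (or has norm `≥ n`): so
`update ω (edge b) true ∉ Hole`. Different `b ∈ bd S` give different edges (exactly one end in `S`), all in
`EF d n`. Hence
`κ P(Hole) ≤ ∑_S P(S* = S) phi p M S = ∑_S ∑_{b ∈ bd S} P(S* = S, SCn) ≤
∑_{e ∈ EF d n} P(ω ∈ Hole, update ω e true ∉ Hole)`.
-/

namespace H95LBD

open H5DF MeasureTheory

variable {d : ℕ}

lemma holeA_one {ω : Cfg d} {x y : V d} {s : Dir d} (h : y ∈ cluster ω x)
    (ho : ω (edge y s) = true) : y + step s ∈ cluster ω x :=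
  SimpleGraph.Reachable.trans h (SimpleGraph.Adj.reachable ⟨s, rfl, ho⟩)

lemma holeA_ind {ω : Cfg d} {x : V d} (P : V d → Prop) (h0 : P x)
    (h1 : ∀ y s, y ∈ cluster ω x → P y → ω (edge y s) = true → P (y + step s)) {y : V d}
    (h : y ∈ cluster ω x) : P y :=
  Cn.ind P h0 (fun y s hy hP _ _ ho => h1 y s (Cn_univ.1 hy) hP ho) (Cn_univ.2 h)

lemma holeA_trans {ω : Cfg d} {x y z : V d} (h : y ∈ cluster ω x) (h' : z ∈ cluster ω y) :
    z ∈ cluster ω x := SimpleGraph.Reachable.trans h h'

lemma holeA_symm {ω : Cfg d} {x y : V d} (h : y ∈ cluster ω x) : x ∈ cluster ω y :=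
  SimpleGraph.Reachable.symm h

lemma holeA_mono {ω ω' : Cfg d} {x y : V d} (h : y ∈ cluster ω x)
    (hω : ∀ e, ω e = true → ω' e = true) : y ∈ cluster ω' x :=
  Cn_univ.1 ((Cn_univ.2 h).mono (Set.Subset.refl _) hω)

lemma hole_dep (M n : ℕ) (hMn : M < n) (ω ω' : Cfg d) (h : ∀ e ∈ EF d n, ω e = ω' e)
    (hω : ω ∈ Hole M n) : ω' ∈ Hole M n := by
  intro u hu y hy hyu
  have hu' : nm u ≤ n := (mem_Box'.1 hu).trans hMn.le
  obtain ⟨z, hz, hc⟩ := (Cn_univ.2 hyu).cross n hu' hy
  refine hω u hu z hz.ge ?_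
  refine Cn.cluster (hc.congr (ω' := ω) ?_)
  intro e he
  refine (h e (mem_EF.2 ?_)).symm
  exact ⟨he.1.2, he.2.2⟩

lemma meas_hole (M n : ℕ) : MeasurableSet (Hole M n : Set (Cfg d)) := by
  have h : (Hole M n : Set (Cfg d)) = ⋂ u : V d, ⋂ _ : u ∈ Box d M, ⋂ y : V d, ⋂ _ : n ≤ nm y,
      {ω : Cfg d | (G ω).Reachable u y}ᶜ := by
    ext ω
    simp only [Hole, Set.mem_iInter, Set.mem_compl_iff, Set.mem_ofPred_eq, cluster]
  rw [h]
  exact MeasurableSet.iInter fun u => MeasurableSet.iInter fun _ => MeasurableSet.iInter fun y =>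
    MeasurableSet.iInter fun _ => (meas_reach u y).compl

/-- The vertices of norm `< n` which are not connected to norm `≥ n`. -/
def holeA_near (n : ℕ) (ω : Cfg d) : Set (V d) :=
  {x | nm x < n ∧ ∀ y, n ≤ nm y → y ∉ cluster ω x}

lemma holeA_meas_near (n : ℕ) (S : Set (V d)) : MeasurableSet {ω : Cfg d | holeA_near n ω = S} := by
  have h1 : ∀ x : V d, MeasurableSet {ω : Cfg d | x ∈ holeA_near n ω} := by
    intro x
    have h : {ω : Cfg d | x ∈ holeA_near n ω} = {_ω : Cfg d | nm x < n} ∩ ⋂ y : V d,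
        ⋂ _ : n ≤ nm y, {ω : Cfg d | (G ω).Reachable x y}ᶜ := by
      ext ω
      simp only [holeA_near, Set.mem_iInter, Set.mem_compl_iff, Set.mem_ofPred_eq, cluster,
        Set.mem_inter_iff]
    rw [h]
    exact (MeasurableSet.const _).inter (MeasurableSet.iInter fun y =>
      MeasurableSet.iInter fun _ => (meas_reach x y).compl)
  have h2 : {ω : Cfg d | holeA_near n ω = S} = ⋂ x : V d,
      ({ω : Cfg d | x ∈ holeA_near n ω} ∩ {_ω : Cfg d | x ∈ S}) ∪
        ({ω : Cfg d | x ∈ holeA_near n ω}ᶜ ∩ {_ω : Cfg d | x ∉ S}) := by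
    ext ω
    simp only [Set.mem_iInter, Set.mem_union, Set.mem_inter_iff, Set.mem_compl_iff,
      Set.mem_ofPred_eq]
    constructor
    · intro h x
      rw [h]
      tauto
    · intro h
      ext x
      have := h x
      tauto
  rw [h2]
  exact MeasurableSet.iInter fun x => ((h1 x).inter (MeasurableSet.const _)).union
    ((h1 x).compl.inter (MeasurableSet.const _))

/-- `{near = S}` does not depend on the edges inside `S`. -/
lemma holeA_near_dep (n : ℕ) (S : Set (V d)) (ω ω' : Cfg d)
    (h : ∀ e, e ∉ ins S → ω e = ω' e) (hω : holeA_near n ω = S) : holeA_near n ω' = S := by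
  -- no open edge leaves `S`
  have hcl : ∀ x ∈ S, ∀ s, x + step s ∉ S → ω (edge x s) ≠ true := by
    intro x hx s hs ho
    rw [← hω] at hx hs
    apply hs
    have h1 : x + step s ∈ cluster ω x := holeA_one (SimpleGraph.Reachable.refl _) ho
    refine ⟨?_, ?_⟩
    · by_contra hc
      exact hx.2 _ (not_lt.1 hc) h1
    · intro y hy hc
      exact hx.2 y hy (holeA_trans h1 hc)
  have hcl' : ∀ x ∈ S, ∀ y ∈ cluster ω' x, y ∈ S := by
    intro x hx y hy
    refine holeA_ind (fun y => y ∈ S) hx ?_ hy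
    intro y s _ hyS ho
    by_contra hc
    refine hcl y hyS s hc ?_
    rw [h _ (fun he => hc (edge_mem_ins.1 he).2)]
    exact ho
  ext x
  constructor
  · intro hx
    by_contra hxS
    have hx1 : x ∉ holeA_near n ω := by
      rw [hω]
      exact hxS
    have hx2 : ∃ y, n ≤ nm y ∧ y ∈ cluster ω x := by
      by_contra hc
      push Not at hc
      exact hx1 ⟨hx.1, hc⟩
    obtain ⟨y, hy, hyx⟩ := hx2
    refine hx.2 y hy ?_
    -- the cluster of `x` does not meet `S`
    have hoff : ∀ z ∈ cluster ω x, z ∉ S := by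
      intro z hz hzS
      rw [← hω] at hzS
      exact hzS.2 y hy (holeA_trans (holeA_symm hz) hyx)
    refine holeA_ind (fun y => y ∈ cluster ω' x) (SimpleGraph.Reachable.refl _) ?_ hyx
    intro z s hz hz' ho
    refine holeA_one hz' ?_
    rw [← h _ (fun he => hoff z hz (edge_mem_ins.1 he).1)]
    exact ho
  · intro hx
    have hx' : x ∈ holeA_near n ω := by
      rw [hω]
      exact hx
    refine ⟨hx'.1, ?_⟩
    intro y hy hyx
    have h2 := hcl' x hx y hyx
    rw [← hω] at h2
    exact absurd h2.1 (not_lt.2 hy)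

/-- On `{near = S}`, a boundary edge of `S` reached from the box inside `S` is pivotal. -/
lemma holeA_piv (M n : ℕ) (S : Finset (V d)) (hS : Box d M ⊆ S) (ω : Cfg d)
    (hω : holeA_near n ω = (S : Set (V d))) (b : V d × Dir d) (hb : b ∈ bd S)
    (hc : ω ∈ SCn (Box d M) (S : Set (V d)) b.1) :
    ω ∈ (Hole M n : Set (Cfg d)) ∧
      Function.update ω (edge b.1 b.2) true ∉ (Hole M n : Set (Cfg d)) := by
  constructor
  · intro u hu
    have hu' : u ∈ holeA_near n ω := by
      rw [hω]
      exact_mod_cast hS hu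
    exact hu'.2
  · intro hH
    obtain ⟨u, hu, hc⟩ := hc
    have hmono : ∀ e, ω e = true → Function.update ω (edge b.1 b.2) true e = true := by
      intro e he
      by_cases h : e = edge b.1 b.2
      · rw [h, Function.update_self]
      · rw [Function.update_of_ne h]
        exact he
    have h1 : b.1 ∈ cluster (Function.update ω (edge b.1 b.2) true) u :=
      holeA_mono hc.cluster hmono
    have h2 : b.1 + step b.2 ∈ cluster (Function.update ω (edge b.1 b.2) true) u :=
      holeA_one h1 (Function.update_self _ _ _)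
    have hb2 : b.1 + step b.2 ∉ holeA_near n ω := by
      rw [hω]
      have := (Finset.mem_filter.1 hb).2
      exact_mod_cast this
    by_cases hn : nm (b.1 + step b.2) < n
    · have h3 : ∃ y, n ≤ nm y ∧ y ∈ cluster ω (b.1 + step b.2) := by
        by_contra hc
        push Not at hc
        exact hb2 ⟨hn, hc⟩
      obtain ⟨y, hy, hyx⟩ := h3
      exact hH u hu y hy (holeA_trans h2 (holeA_mono hyx hmono))
    · exact hH u hu _ (not_lt.1 hn) h2

lemma holeA_inj (S : Finset (V d)) (b : V d × Dir d) (hb : b ∈ bd S) (b' : V d × Dir d)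
    (hb' : b' ∈ bd S) (h : edge b.1 b.2 = edge b'.1 b'.2) : b = b' := by
  obtain ⟨x, i, v⟩ := b
  obtain ⟨x', i', v'⟩ := b'
  simp only [bd, Finset.mem_filter, Finset.mem_product, Finset.mem_univ, and_true] at hb hb'
  cases v <;> cases v' <;>
    simp only [edge, Bool.false_eq_true, if_false, if_true, Prod.mk.injEq] at h
  · obtain ⟨h1, h2⟩ := h
    subst h2
    rw [add_right_cancel h1]
  · obtain ⟨h1, h2⟩ := h
    subst h2
    exact absurd (h1 ▸ hb'.1) hb.2
  · obtain ⟨h1, h2⟩ := h
    subst h2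
    exact absurd (h1 ▸ hb.1) hb'.2
  · obtain ⟨h1, h2⟩ := h
    subst h1
    subst h2
    rfl

lemma holeA_indep (p : ℝ) (h0 : 0 ≤ p) (h1 : p ≤ 1) (M n : ℕ) (S : Finset (V d)) (x : V d) :
    (perc d p).real {ω | holeA_near n ω = (S : Set (V d))} *
        (perc d p).real (SCn (Box d M) (S : Set (V d)) x) =
      (perc d p).real ({ω | holeA_near n ω = (S : Set (V d))} ∩
        SCn (Box d M) (S : Set (V d)) x) := by
  have h := indep_split (ι := Ed d) h0 h1 (ins (S : Set (V d)))
    (SCn (Box d M) (S : Set (V d)) x) {ω | holeA_near n ω = (S : Set (V d))}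
    (meas_SCn _ _ _) (holeA_meas_near n _)
    (by
      rintro ω ω' hω ⟨u, hu, hc⟩
      exact ⟨u, hu, hc.congr hω⟩)
    (fun ω ω' hω hA => holeA_near_dep n _ ω ω' hω hA)
  have h' : (perc d p) ({ω | holeA_near n ω = (S : Set (V d))} ∩
      SCn (Box d M) (S : Set (V d)) x) = (perc d p) {ω | holeA_near n ω = (S : Set (V d))} *
      (perc d p) (SCn (Box d M) (S : Set (V d)) x) := h
  simp only [Measure.real, h', ENNReal.toReal_mul]

theorem hole_piv (p : ℝ) (h0 : 0 ≤ p) (h1 : p ≤ 1) (M n : ℕ) (hMn : M < n) (κ : ℝ)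
    (hκ : ∀ S : Finset (V d), Box d M ⊆ S → κ ≤ phi p M S) :
    κ * (perc d p).real (Hole M n) ≤
      ∑ e ∈ EF d n, (perc d p).real
        {ω | ω ∈ (Hole M n : Set (Cfg d)) ∧ Function.update ω e true ∉ (Hole M n : Set (Cfg d))} := by
  classical
  have hP : IsProbabilityMeasure (perc d p) := isProb_perc p h0 h1
  set μ := perc d p with hμ
  let A : Finset (V d) → Set (Cfg d) := fun S => {ω | holeA_near n ω = (S : Set (V d))}
  let Pv : Ed d → Set (Cfg d) := fun e =>
    {ω | ω ∈ (Hole M n : Set (Cfg d)) ∧ Function.update ω e true ∉ (Hole M n : Set (Cfg d))}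
  let F : Finset (Finset (V d)) := (Box d (n - 1)).powerset.filter fun S => Box d M ⊆ S
  have hAm : ∀ S, MeasurableSet (A S) := fun S => holeA_meas_near n _
  have hPm : ∀ e, MeasurableSet (Pv e) := fun e =>
    (meas_hole M n).inter ((measurable_upd e true) (meas_hole M n)).compl
  have hmemF : ∀ S ∈ F, Box d M ⊆ S ∧ ∀ x ∈ S, nm x < n := by
    intro S hS
    have h := Finset.mem_filter.1 hS
    refine ⟨h.2, fun x hx => ?_⟩
    have := mem_Box'.1 (Finset.mem_powerset.1 h.1 hx)
    omega
  -- every configuration in the hole event is in some `A S`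
  have hcov : ∀ ω ∈ (Hole M n : Set (Cfg d)), ∃ S ∈ F, ω ∈ A S := by
    intro ω hω
    have hsub : holeA_near n ω ⊆ (Box d (n - 1) : Set (V d)) := by
      intro x hx
      have := hx.1
      have h2 : nm x ≤ n - 1 := by omega
      exact_mod_cast mem_Box'.2 h2
    have hfin : (holeA_near n ω).Finite := (Box d (n - 1)).finite_toSet.subset hsub
    refine ⟨hfin.toFinset, ?_, ?_⟩
    · refine Finset.mem_filter.2 ⟨Finset.mem_powerset.2 ?_, ?_⟩
      · intro x hx
        exact_mod_cast hsub (hfin.mem_toFinset.1 hx)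
      · intro x hx
        refine hfin.mem_toFinset.2 ⟨lt_of_le_of_lt (mem_Box'.1 hx) hMn, hω x hx⟩
    · show holeA_near n ω = _
      rw [Set.Finite.coe_toFinset]
  have hdisj : ∀ S ∈ F, ∀ S' ∈ F, S ≠ S' → Disjoint (A S) (A S') := by
    intro S _ S' _ hne
    rw [Set.disjoint_left]
    intro ω h h'
    apply hne
    have : (S : Set (V d)) = (S' : Set (V d)) := h.symm.trans h'
    exact_mod_cast this
  -- decomposition of an event inside the hole event
  have hdec : ∀ B : Set (Cfg d), MeasurableSet B → B ⊆ (Hole M n : Set (Cfg d)) →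
      μ.real B = ∑ S ∈ F, μ.real (A S ∩ B) := by
    intro B hB hBH
    have hB' : B = ⋃ S ∈ F, (A S ∩ B) := by
      ext ω
      simp only [Set.mem_iUnion, Set.mem_inter_iff, exists_prop]
      constructor
      · intro h
        obtain ⟨S, hS, hA⟩ := hcov ω (hBH h)
        exact ⟨S, hS, hA, h⟩
      · rintro ⟨S, _, _, h⟩
        exact h
    conv_lhs => rw [hB']
    exact measureReal_biUnion_finset (fun S hS S' hS' hne =>
      (hdisj S hS S' hS' hne).mono Set.inter_subset_left Set.inter_subset_left)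
      (fun S _ => (hAm S).inter hB)
  have hAH : ∀ S ∈ F, A S ⊆ (Hole M n : Set (Cfg d)) := by
    intro S hS ω hω u hu
    have hu' : u ∈ holeA_near n ω := by
      rw [show holeA_near n ω = (S : Set (V d)) from hω]
      exact_mod_cast (hmemF S hS).1 hu
    exact hu'.2
  have hH : μ.real (Hole M n) = ∑ S ∈ F, μ.real (A S) := by
    rw [hdec _ (meas_hole M n) (Set.Subset.refl _)]
    refine Finset.sum_congr rfl fun S hS => ?_
    rw [Set.inter_eq_left.2 (hAH S hS)]
  -- the bound for one `S`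
  have hone : ∀ S ∈ F, κ * μ.real (A S) ≤ ∑ e ∈ EF d n, μ.real (A S ∩ Pv e) := by
    intro S hS
    have h2 : κ * μ.real (A S) ≤ phi p M S * μ.real (A S) :=
      mul_le_mul_of_nonneg_right (hκ S (hmemF S hS).1) measureReal_nonneg
    have h3 : phi p M S * μ.real (A S) =
        ∑ b ∈ bd S, μ.real (A S ∩ SCn (Box d M) (S : Set (V d)) b.1) := by
      rw [phi, Finset.sum_mul]
      refine Finset.sum_congr rfl fun b _ => ?_
      rw [mul_comm]
      exact holeA_indep p h0 h1 M n S b.1
    have h4 : ∑ b ∈ bd S, μ.real (A S ∩ SCn (Box d M) (S : Set (V d)) b.1) ≤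
        ∑ b ∈ bd S, μ.real (A S ∩ Pv (edge b.1 b.2)) := by
      refine Finset.sum_le_sum fun b hb => ?_
      refine measureReal_mono ?_ (measure_ne_top _ _)
      rintro ω ⟨hA, hc⟩
      exact ⟨hA, holeA_piv M n S (hmemF S hS).1 ω hA b hb hc⟩
    have h5 : ∑ b ∈ bd S, μ.real (A S ∩ Pv (edge b.1 b.2)) =
        ∑ e ∈ (bd S).image (fun b => edge b.1 b.2), μ.real (A S ∩ Pv e) := by
      rw [Finset.sum_image]
      intro b hb b' hb' h
      exact holeA_inj S b hb b' hb' h
    have h6 : (bd S).image (fun b => edge b.1 b.2) ⊆ EF d n := by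
      intro e he
      obtain ⟨b, hb, rfl⟩ := Finset.mem_image.1 he
      have hb1 : b.1 ∈ S := by
        have := (Finset.mem_filter.1 hb).1
        exact (Finset.mem_product.1 this).1
      have hn := (hmemF S hS).2 _ hb1
      refine mem_EF.2 (edge_mem_ins.2 ⟨mem_Bx0.2 hn.le, mem_Bx0.2 ?_⟩)
      have := nm_add_step b.1 b.2
      omega
    calc κ * μ.real (A S) ≤ phi p M S * μ.real (A S) := h2
      _ = _ := h3
      _ ≤ _ := h4
      _ = _ := h5
      _ ≤ _ := Finset.sum_le_sum_of_subset_of_nonneg h6 fun _ _ _ => measureReal_nonneg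
  rw [hH, Finset.mul_sum]
  calc ∑ S ∈ F, κ * μ.real (A S) ≤ ∑ S ∈ F, ∑ e ∈ EF d n, μ.real (A S ∩ Pv e) :=
        Finset.sum_le_sum hone
    _ = ∑ e ∈ EF d n, ∑ S ∈ F, μ.real (A S ∩ Pv e) := Finset.sum_comm
    _ = ∑ e ∈ EF d n, μ.real (Pv e) := by
        refine Finset.sum_congr rfl fun e _ => ?_
        exact (hdec (Pv e) (hPm e) (fun ω h => h.1)).symm

end H95LBD
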