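import Pool.Agent.H95.LBD.Basic

/-!
PROJECT DL (MP_0d9ad5_pr). The kernel `(1 + |x|)^(2-d)`.
-/

namespace H95LBD

open H5DF MeasureTheory

variable {d : ℕ}

/-- The kernel `(1 + |x|)^(2-d)`. -/
noncomputable def kr (x : V d) : ℝ := 1 / (1 + (nm x : ℝ)) ^ (d - 2)

lemma kr_pos (x : V d) : 0 < kr x := by
  unfold kr
  positivity

lemma kr_le_one (x : V d) : kr x ≤ 1 := by
  unfold kr
  rw [div_le_one (by positivity)]
  exact one_le_pow₀ (by linarith [Nat.cast_nonneg (α := ℝ) (nm x)])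

lemma kr_sub_comm (x y : V d) : kr (x - y) = kr (y - x) := by
  unfold kr
  rw [nm_sub_comm]

end H95LBD
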