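import Pool.Agent.H95.LBD.EnvDef
import Pool.Agent.H5.DG.Indep

/-!
PROJECT DL (MP_0d9ad5_pr), JOB DL-LawB. Sprinkling changes the density of the second mark.
PROOF. `Measure.eq_infinitePi`, check boxes; Fubini as in `thin_law` (H5/DF/Thin.lean): the measure of
the preimage of the box is the integral over `X` of the product over `i ∈ box` of
`bern s' {b | ((X i).1, (X i).2 || b) ∈ t i}`; product over independent coordinates.
-/

namespace H95LBD

open H5DF MeasureTheory

variable {d : ℕ}

open scoped Classical in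
private lemma lawB_bern_apply (p : ℝ) (t : Set Bool) :
    bern p t = ENNReal.ofReal p * (if true ∈ t then 1 else 0) +
      ENNReal.ofReal (1 - p) * (if false ∈ t then 1 else 0) := by
  have h : ∀ a : Bool, Measure.dirac a t = if a ∈ t then (1 : ENNReal) else 0 := by
    intro a
    rw [Measure.dirac_apply' _ (MeasurableSet.of_discrete (s := t))]
    by_cases ha : a ∈ t <;> simp [ha]
  simp only [bern, smul_eq_mul, Measure.coe_add, Measure.coe_smul, Pi.add_apply, Pi.smul_apply, h]

/-- The law of the maximum of two Bernoulli variables. -/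
lemma lawB_or {s s' : ℝ} (hs0 : 0 ≤ s) (hs1 : s ≤ 1) (hs0' : 0 ≤ s') (hs1' : s' ≤ 1) :
    ((bern s).prod (bern s')).map (fun q : Bool × Bool => (q.1 || q.2)) =
      bern (1 - (1 - s) * (1 - s')) := by
  have := isProb_bern hs0 hs1
  have := isProb_bern hs0' hs1'
  have hor : Measurable (fun q : Bool × Bool => (q.1 || q.2)) := measurable_of_countable _
  refine Measure.ext fun t ht => ?_
  rw [Measure.map_apply hor ht, Measure.prod_apply (hor ht)]
  have hint : ∫⁻ a, bern s' (Prod.mk a ⁻¹' ((fun q : Bool × Bool => (q.1 || q.2)) ⁻¹' t)) ∂(bern s) =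
      ENNReal.ofReal s * bern s' {b | (true || b) ∈ t} +
        ENNReal.ofReal (1 - s) * bern s' {b | (false || b) ∈ t} := by
    conv_lhs => rw [bern]
    simp only [lintegral_add_measure, lintegral_smul_measure, lintegral_dirac, smul_eq_mul]
    rfl
  have e1 : {b : Bool | (false || b) ∈ t} = t := by
    ext b
    simp
  have k1 : ENNReal.ofReal s' + ENNReal.ofReal (1 - s') = 1 := by
    rw [← ENNReal.ofReal_add hs0' (by linarith)]
    simp
  have k2 : ENNReal.ofReal s + ENNReal.ofReal (1 - s) * ENNReal.ofReal s' =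
      ENNReal.ofReal (1 - (1 - s) * (1 - s')) := by
    rw [← ENNReal.ofReal_mul (by linarith), ← ENNReal.ofReal_add hs0
      (mul_nonneg (by linarith) hs0')]
    congr 1
    ring
  have k3 : ENNReal.ofReal (1 - s) * ENNReal.ofReal (1 - s') =
      ENNReal.ofReal (1 - (1 - (1 - s) * (1 - s'))) := by
    rw [← ENNReal.ofReal_mul (by linarith)]
    congr 1
    ring
  rw [hint, e1]
  by_cases h1 : true ∈ t
  · have e2 : {b : Bool | (true || b) ∈ t} = Set.univ := by
      ext b
      simpa using h1
    rw [e2, measure_univ, mul_one, lawB_bern_apply s' t, lawB_bern_apply (1 - (1 - s) * (1 - s')) t,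
      ← k3, ← k2]
    by_cases h2 : false ∈ t
    · simp only [h1, h2, if_true, mul_one]
      rw [mul_add, add_assoc]
    · simp only [h1, h2, if_true, if_false, mul_one, mul_zero, add_zero]
  · have e2 : {b : Bool | (true || b) ∈ t} = ∅ := by
      ext b
      simpa using h1
    rw [e2, measure_empty, mul_zero, zero_add, lawB_bern_apply s' t,
      lawB_bern_apply (1 - (1 - s) * (1 - s')) t, ← k3]
    by_cases h2 : false ∈ t
    · simp only [h1, h2, if_true, if_false, mul_one, mul_zero, zero_add]
    · simp only [h1, h2, if_false, mul_zero, add_zero]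

lemma lawB_factor {p1 s s' : ℝ} (h0 : 0 ≤ p1) (h1 : p1 ≤ 1) (hs0 : 0 ≤ s) (hs1 : s ≤ 1)
    (hs0' : 0 ≤ s') (hs1' : s' ≤ 1) (t : Set (Bool × Bool)) :
    ∫⁻ a, bern s' {b | (a.1, a.2 || b) ∈ t} ∂((bern p1).prod (bern s)) =
      ((bern p1).prod (bern (1 - (1 - s) * (1 - s')))) t := by
  have := isProb_bern h0 h1
  have := isProb_bern hs0 hs1
  have := isProb_bern hs0' hs1'
  have hmt : MeasurableSet t := MeasurableSet.of_discrete
  have hor : Measurable (fun q : Bool × Bool => (q.1 || q.2)) := measurable_of_countable _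
  have hS : SFinite (((bern s).prod (bern s')).map (fun q : Bool × Bool => (q.1 || q.2))) := by
    infer_instance
  rw [← lawB_or hs0 hs1 hs0' hs1', Measure.prod_apply hmt,
    lintegral_prod _ (measurable_of_countable _).aemeasurable]
  refine lintegral_congr fun x => ?_
  rw [Measure.map_apply hor MeasurableSet.of_discrete,
    Measure.prod_apply (hor MeasurableSet.of_discrete)]
  rfl

theorem map_uni {p1 s s' : ℝ} (h0 : 0 ≤ p1) (h1 : p1 ≤ 1) (hs0 : 0 ≤ s) (hs1 : s ≤ 1)
    (hs0' : 0 ≤ s') (hs1' : s' ≤ 1) :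
    ((envM d p1 s).prod (perc d s')).map (fun q => uni q.1 q.2) =
      envM d p1 (1 - (1 - s) * (1 - s')) := by
  have := isProb_bern h0 h1
  have := isProb_bern hs0 hs1
  have := isProb_bern hs0' hs1'
  have := isProb_bern (p := 1 - (1 - s) * (1 - s'))
    (by nlinarith [mul_nonneg hs0 (sub_nonneg.2 hs1')])
    (by nlinarith [mul_nonneg (sub_nonneg.2 hs1) (sub_nonneg.2 hs1')])
  unfold envM perc
  refine Measure.eq_infinitePi _ fun s0 t ht => ?_
  have hm := measurable_uni (d := d)
  have hbox : MeasurableSet ((s0 : Set (Ed d)).pi t) := .pi s0.countable_toSet fun _ _ => ht _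
  rw [Measure.map_apply hm hbox, Measure.prod_apply (hm hbox)]
  have hslice : ∀ X : Env d,
      (Measure.infinitePi fun _ : Ed d => bern s') (Prod.mk X ⁻¹'
        ((fun q : Env d × Cfg d => uni q.1 q.2) ⁻¹' ((s0 : Set (Ed d)).pi t))) =
      ∏ i ∈ s0, bern s' {b | ((X i).1, (X i).2 || b) ∈ t i} := by
    intro X
    have : (Prod.mk X ⁻¹'
        ((fun q : Env d × Cfg d => uni q.1 q.2) ⁻¹' ((s0 : Set (Ed d)).pi t))) =
        (s0 : Set (Ed d)).pi (fun i => {b | ((X i).1, (X i).2 || b) ∈ t i}) := by
      ext η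
      simp [uni]
    rw [this, Measure.infinitePi_pi _ (fun i _ => MeasurableSet.of_discrete)]
  simp_rw [hslice]
  have hind : ProbabilityTheory.iIndepFun
      (fun (i : Ed d) (X : Env d) =>
        (fun a : Bool × Bool => bern s' {b | (a.1, a.2 || b) ∈ t i}) (X i))
      (Measure.infinitePi fun _ : Ed d => (bern p1).prod (bern s)) :=
    ProbabilityTheory.iIndepFun_infinitePi
      (X := fun (i : Ed d) (a : Bool × Bool) => bern s' {b | (a.1, a.2 || b) ∈ t i})
      (P := fun _ : Ed d => (bern p1).prod (bern s)) (fun i => measurable_of_countable _)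
  rw [ProbabilityTheory.lintegral_prod_eq_prod_lintegral_of_indepFun s0 _ hind
    (fun i => (measurable_of_countable
      (fun a : Bool × Bool => bern s' {b | (a.1, a.2 || b) ∈ t i})).comp (measurable_pi_apply i))]
  refine Finset.prod_congr rfl fun i _ => ?_
  have hmap := lintegral_map (μ := Measure.infinitePi fun _ : Ed d => (bern p1).prod (bern s))
    (f := fun a : Bool × Bool => bern s' {b | (a.1, a.2 || b) ∈ t i})
    (g := fun X : Env d => X i)
    (measurable_of_countable _) (measurable_pi_apply i)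
  rw [Measure.infinitePi_map_eval (fun _ : Ed d => (bern p1).prod (bern s)) i,
    lawB_factor h0 h1 hs0 hs1 hs0' hs1' (t i)] at hmap
  exact hmap.symm

end H95LBD
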