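import Pool.Agent.H95.LBD.RndDef

/-!
PROJECT DL (MP_0d9ad5_pr), JOB DL-LinkA. A connection between `U` and `F \ U` inside `Q` contains a link.
PROOF. A walk (`Cn_iff_walk`, `u ∈ Q`) from `u ∈ U` to `v ∈ F \ U` inside `Q`. `b` = its first vertex in
`F \ U`, `a` = the last vertex in `F` before `b`; as no vertex before `b` is in `F \ U`, `a ∈ U` (`u` is a
candidate). The vertices between `a` and `b` are in `Q \ F`. If there is none, `b = a + step s`; else the first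
one is `a + step s`, the last one is `b + step t`, and they are connected inside `Q \ F`. By induction on the
walk: state `(a, current vertex)`.
`link_dep1`, `link_dep2`: `Cn.congr`, `edge_mem_ins`, `edge_notMem_touch`; `link_meas`: countable union of
`meas_Cn`, `meas_open`.
-/

namespace H95LBD

open H5DF MeasureTheory

variable {d : ℕ}

theorem link_geom (Q F U : Set (V d)) (hUF : U ⊆ F) (ω : Cfg d) (u v : V d) (hu : u ∈ U)
    (huQ : u ∈ Q) (hv : v ∈ F) (hvU : v ∉ U) (h : Cn Q ω u v) :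
    ∃ a ∈ U ∩ Q, ∃ b ∈ (F \ U) ∩ Q, (∃ s : Dir d, b = a + step s) ∨
      ∃ s t : Dir d, a + step s ∈ Q \ F ∧ b + step t ∈ Q \ F ∧
        Cn (Q \ F) ω (a + step s) (b + step t) := by
  by_contra hcon
  have key : v ∈ U ∩ Q ∨ (v ∈ Q \ F ∧ ∃ a ∈ U ∩ Q, ∃ s : Dir d, a + step s ∈ Q \ F ∧
      Cn (Q \ F) ω (a + step s) v) := by
    refine Cn.ind (fun y => y ∈ U ∩ Q ∨ (y ∈ Q \ F ∧ ∃ a ∈ U ∩ Q, ∃ s : Dir d,
      a + step s ∈ Q \ F ∧ Cn (Q \ F) ω (a + step s) y)) (Or.inl ⟨hu, huQ⟩) ?_ h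
    rintro y t - hy hyQ hzQ ho
    by_cases hzF : y + step t ∈ F
    · by_cases hzU : y + step t ∈ U
      · exact Or.inl ⟨hzU, hzQ⟩
      · exfalso
        apply hcon
        rcases hy with hy | ⟨hy, a, ha, s, has, hc⟩
        · exact ⟨y, hy, y + step t, ⟨⟨hzF, hzU⟩, hzQ⟩, Or.inl ⟨t, rfl⟩⟩
        · refine ⟨a, ha, y + step t, ⟨⟨hzF, hzU⟩, hzQ⟩, Or.inr ⟨s, opp t, has, ?_, ?_⟩⟩
          · rw [step_opp, add_neg_cancel_right]
            exact hy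
          · rw [step_opp, add_neg_cancel_right]
            exact hc
    · refine Or.inr ⟨⟨hzQ, hzF⟩, ?_⟩
      rcases hy with hy | ⟨hy, a, ha, s, has, hc⟩
      · exact ⟨y, hy, t, ⟨hzQ, hzF⟩, Cn.refl _ _ _⟩
      · exact ⟨a, ha, s, has, hc.trans (Cn.one ho hy ⟨hzQ, hzF⟩)⟩
  rcases key with hk | ⟨hk, -⟩
  · exact hvU hk.1
  · exact hk.2 hv

lemma link_dep1 (Q F U : Set (V d)) (q q' : Env d × Cfg d)
    (h : ∀ e ∈ ins Q, q.1 e = q'.1 e ∧ q.2 e = q'.2 e) (hq : q ∈ Link Q F U) :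
    q' ∈ Link Q F U := by
  obtain ⟨a, ha, b, hb, hl⟩ := hq
  refine ⟨a, ha, b, hb, ?_⟩
  rcases hl with ⟨s, hs, ho⟩ | ⟨s, t, hs, ht, hos, hot, hc⟩
  · refine Or.inl ⟨s, hs, ?_⟩
    rw [← (h _ (edge_mem_ins.2 ⟨ha.2, hs ▸ hb.2⟩)).2]
    exact ho
  · refine Or.inr ⟨s, t, hs, ht, ?_, ?_, ?_⟩
    · rw [← (h _ (edge_mem_ins.2 ⟨ha.2, hs.1⟩)).2]
      exact hos
    · rw [← (h _ (edge_mem_ins.2 ⟨hb.2, ht.1⟩)).2]
      exact hot
    · refine hc.congr fun e he => ?_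
      have h1 := (h e ⟨he.1.1, he.2.1⟩).1
      simp only [hi, h1]

lemma link_dep2 (Q F U : Set (V d)) (η : Cfg d) (X X' : Env d)
    (h : ∀ e, e ∉ touch F → X e = X' e) (hq : (X, η) ∈ Link Q F U) : (X', η) ∈ Link Q F U := by
  obtain ⟨a, ha, b, hb, hl⟩ := hq
  refine ⟨a, ha, b, hb, ?_⟩
  rcases hl with ⟨s, hs, ho⟩ | ⟨s, t, hs, ht, hos, hot, hc⟩
  · exact Or.inl ⟨s, hs, ho⟩
  · refine Or.inr ⟨s, t, hs, ht, hos, hot, ?_⟩
    refine hc.congr fun e he => ?_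
    have h1 := h e (by
      rintro (h2 | h2)
      · exact he.1.2 h2
      · exact he.2.2 h2)
    simp only [hi, h1]

lemma link_meas (Q F U : Set (V d)) : MeasurableSet (Link Q F U) := by
  have hset : Link Q F U = ⋃ a : V d, ⋃ b : V d,
      ((⋃ s : Dir d, ({_q : Env d × Cfg d | a ∈ U ∩ Q ∧ b ∈ (F \ U) ∩ Q ∧ b = a + step s} ∩
          {q : Env d × Cfg d | q.2 (edge a s) = true})) ∪
        (⋃ s : Dir d, ⋃ t : Dir d, ({_q : Env d × Cfg d | a ∈ U ∩ Q ∧ b ∈ (F \ U) ∩ Q ∧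
            a + step s ∈ Q \ F ∧ b + step t ∈ Q \ F} ∩
          ({q : Env d × Cfg d | q.2 (edge a s) = true} ∩
            ({q : Env d × Cfg d | q.2 (edge b t) = true} ∩
              {q : Env d × Cfg d | Cn (Q \ F) (hi q.1) (a + step s) (b + step t)}))))) := by
    ext q
    simp only [Link, Set.mem_ofPred_eq, Set.mem_iUnion, Set.mem_union, Set.mem_inter_iff]
    constructor
    · rintro ⟨a, ha, b, hb, ⟨s, hs, ho⟩ | ⟨s, t, hs, ht, hos, hot, hc⟩⟩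
      · exact ⟨a, b, Or.inl ⟨s, ⟨ha, hb, hs⟩, ho⟩⟩
      · exact ⟨a, b, Or.inr ⟨s, t, ⟨ha, hb, hs, ht⟩, hos, hot, hc⟩⟩
    · rintro ⟨a, b, ⟨s, ⟨ha, hb, hs⟩, ho⟩ | ⟨s, t, ⟨ha, hb, hs, ht⟩, hos, hot, hc⟩⟩
      · exact ⟨a, ha, b, hb, Or.inl ⟨s, hs, ho⟩⟩
      · exact ⟨a, ha, b, hb, Or.inr ⟨s, t, hs, ht, hos, hot, hc⟩⟩
  rw [hset]
  have ho : ∀ e : Ed d, MeasurableSet {q : Env d × Cfg d | q.2 e = true} :=
    fun e => measurable_snd (meas_open e)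
  have hc : ∀ x y : V d, MeasurableSet {q : Env d × Cfg d | Cn (Q \ F) (hi q.1) x y} :=
    fun x y => (measurable_hi.comp measurable_fst) (meas_Cn (Q \ F) x y)
  refine MeasurableSet.iUnion fun a => MeasurableSet.iUnion fun b => ?_
  refine MeasurableSet.union ?_ ?_
  · exact MeasurableSet.iUnion fun s => (MeasurableSet.const _).inter (ho _)
  · exact MeasurableSet.iUnion fun s => MeasurableSet.iUnion fun t =>
      (MeasurableSet.const _).inter ((ho _).inter ((ho _).inter (hc _ _)))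

end H95LBD
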