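import Pool.Agent.H95.LBD.LinkA
import Pool.Agent.H95.LBD.LawA

/-!
PROJECT DL (MP_0d9ad5_pr), JOB DL-LinkB. Probability of a link.
PROOF. Fubini: for fixed `X` with `Cn Q (hi X) u v` (probability at least `q0` by `map_hi`) `link_geom` with
`ω = hi X` gives fixed `a, b, s, t` such that `(X, η) ∈ Link` as soon as the edge(s) are open in `η`: probability
`s'` (one edge) or at least `s'^2` (edges `edge a s`, `edge b t`; if they are the same edge the probability is
`s' ≥ s'^2`; two different edges: `Measure.infinitePi_pi` or independence). So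
`P(Link) ≥ ∫ 1_{Cn Q (hi X) u v} s'^2`.
-/

namespace H95LBD

open H5DF MeasureTheory

variable {d : ℕ}

/-- Two given edges are open with probability at least `s'^2`. -/
lemma linkB_two {s' : ℝ} (hs0' : 0 ≤ s') (hs1' : s' ≤ 1) (e e' : Ed d) :
    ENNReal.ofReal (s' ^ 2) ≤ perc d s' {η : Cfg d | η e = true ∧ η e' = true} := by
  classical
  have hP := isProb_bern hs0' hs1'
  have hb : bern s' {true} = ENNReal.ofReal s' := by simp [bern]
  have hset : {η : Cfg d | η e = true ∧ η e' = true} =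
      ((({e, e'} : Finset (Ed d)) : Set (Ed d)).pi fun _ => ({true} : Set Bool)) := by
    ext η
    simp
  have hle : ENNReal.ofReal (s' ^ 2) ≤ ENNReal.ofReal s' :=
    ENNReal.ofReal_le_ofReal (by nlinarith)
  unfold perc
  rw [hset, Measure.infinitePi_pi _ (fun i _ => MeasurableSet.of_discrete)]
  simp only [hb]
  by_cases h : e = e'
  · subst h
    simpa using hle
  · rw [Finset.prod_pair h, ← ENNReal.ofReal_mul hs0', ← pow_two]

theorem link_prob {p1 s s' q0 : ℝ} (h0 : 0 ≤ p1) (h1 : p1 ≤ 1) (hs0 : 0 ≤ s) (hs1 : s ≤ 1)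
    (hs0' : 0 ≤ s') (hs1' : s' ≤ 1) (Q F U : Set (V d)) (hUF : U ⊆ F) (u v : V d)
    (hu : u ∈ U) (huQ : u ∈ Q) (hv : v ∈ F) (hvU : v ∉ U)
    (hq : q0 ≤ (perc d (1 - (1 - p1) * (1 - s))).real {ω | Cn Q ω u v}) :
    q0 * s' ^ 2 ≤ ((envM d p1 s).prod (perc d s')).real (Link Q F U) := by
  have hPb := isProb_bern hs0' hs1'
  have hPe : IsProbabilityMeasure (envM d p1 s) := isProb_env h0 h1 hs0 hs1
  have hPp : IsProbabilityMeasure (perc d s') := by
    unfold perc
    infer_instance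
  have hmA : MeasurableSet {X : Env d | Cn Q (hi X) u v} := measurable_hi (meas_Cn Q u v)
  have hA : (envM d p1 s).real {X : Env d | Cn Q (hi X) u v} =
      (perc d (1 - (1 - p1) * (1 - s))).real {ω | Cn Q ω u v} := by
    rw [← map_hi h0 h1 hs0 hs1, Measure.real, Measure.real,
      Measure.map_apply measurable_hi (meas_Cn Q u v)]
    rfl
  rw [← hA] at hq
  have hm := link_meas Q F U
  have hkey : ∀ X ∈ {X : Env d | Cn Q (hi X) u v},
      ENNReal.ofReal (s' ^ 2) ≤ perc d s' (Prod.mk X ⁻¹' Link Q F U) := by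
    intro X hX
    obtain ⟨a, ha, b, hb, hl⟩ := link_geom Q F U hUF (hi X) u v hu huQ hv hvU hX
    rcases hl with ⟨t, ht⟩ | ⟨t, t', ht, ht', hc⟩
    · refine (linkB_two hs0' hs1' (edge a t) (edge a t)).trans (measure_mono ?_)
      intro η hη
      exact ⟨a, ha, b, hb, Or.inl ⟨t, ht, hη.1⟩⟩
    · refine (linkB_two hs0' hs1' (edge a t) (edge b t')).trans (measure_mono ?_)
      intro η hη
      exact ⟨a, ha, b, hb, Or.inr ⟨t, t', ht, ht', hη.1, hη.2, hc⟩⟩
  have hbig : (envM d p1 s) {X : Env d | Cn Q (hi X) u v} * ENNReal.ofReal (s' ^ 2) ≤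
      ((envM d p1 s).prod (perc d s')) (Link Q F U) := by
    rw [Measure.prod_apply hm]
    calc (envM d p1 s) {X : Env d | Cn Q (hi X) u v} * ENNReal.ofReal (s' ^ 2)
        = ∫⁻ _ in {X : Env d | Cn Q (hi X) u v}, ENNReal.ofReal (s' ^ 2) ∂(envM d p1 s) := by
          rw [setLIntegral_const, mul_comm]
      _ ≤ ∫⁻ X in {X : Env d | Cn Q (hi X) u v},
            perc d s' (Prod.mk X ⁻¹' Link Q F U) ∂(envM d p1 s) :=
          setLIntegral_mono' hmA hkey
      _ ≤ ∫⁻ X, perc d s' (Prod.mk X ⁻¹' Link Q F U) ∂(envM d p1 s) :=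
          setLIntegral_le_lintegral _ _
  have hreal : (envM d p1 s).real {X : Env d | Cn Q (hi X) u v} * s' ^ 2 ≤
      ((envM d p1 s).prod (perc d s')).real (Link Q F U) := by
    have h2 := ENNReal.toReal_mono (measure_ne_top _ _) hbig
    rwa [ENNReal.toReal_mul, ENNReal.toReal_ofReal (sq_nonneg _)] at h2
  exact (mul_le_mul_of_nonneg_right hq (sq_nonneg _)).trans hreal

end H95LBD
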