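import Pool.Agent.H95.LBD.RndDef

/-!
PROJECT DL (MP_0d9ad5_pr), JOB DL-LinkC. A link joins two clusters.
PROOF. `a ∈ U = cl N (hi X) x`, `b ∈ F \ U`, `a, b ∈ Q ⊆ Bx 0 ρ ⊆ Bx 0 N`. `b ∈ F`: either `b ∈ E0` (then
`nm b ≤ ρ`, take `y = b`) or `b ∈ cl N (hi X) y` with `y ∈ E0`, `nm y ≤ ρ`; `y ∉ U` (else `b ∈ U`). In the union
configuration `hi (uni X η)` (contains `hi X` and `η`): `x` to `a`, `a` to `b` (the sprinkled edge, or sprinkled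
edge, connection inside `Q \ F`, sprinkled edge), `b` to `y`. `Cn.mono`, `Cn.one`.
-/

namespace H95LBD

open H5DF MeasureTheory

variable {d : ℕ}

theorem link_joins (N ρ : ℕ) (hρ : ρ ≤ N) (x : V d) (q : Env d × Cfg d) (Q : Set (V d))
    (hQ : Q ⊆ Bx 0 ρ) (hl : q ∈ Link Q (FF N ρ q.1) (cl N (hi q.1) x)) :
    ∃ y ∈ E0 N (lo q.1), nm y ≤ ρ ∧ y ∉ cl N (hi q.1) x ∧ y ∈ cl N (hi (uni q.1 q.2)) x := by
  obtain ⟨X, η⟩ := q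
  obtain ⟨a, ⟨haU, haQ⟩, b, ⟨⟨hbF, hbU⟩, hbQ⟩, hab⟩ := hl
  have hB : ∀ v ∈ Q, v ∈ Bx (0 : V d) N := fun v hv => mem_Bx0.2 ((mem_Bx0.1 (hQ hv)).trans hρ)
  have hup : ∀ e, η e = true → hi (uni X η) e = true := by
    intro e he
    simp [hi, uni, he]
  have h1 : Cn (Bx 0 N) (hi (uni X η)) x a := Cn.mono haU (le_refl _) (hi_le_uni X η)
  have h2 : Cn (Bx 0 N) (hi (uni X η)) a b := by
    rcases hab with ⟨s, rfl, hs⟩ | ⟨s, t, ha', hb', hs, ht, hc⟩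
    · exact Cn.one (hup _ hs) (hB _ haQ) (hB _ hbQ)
    · have e1 := Cn.one (hup _ hs) (hB _ haQ) (hB _ ha'.1)
      have e2 := Cn.one (hup _ ht) (hB _ hbQ) (hB _ hb'.1)
      have e3 := Cn.mono hc (fun v hv => hB v hv.1) (hi_le_uni X η)
      exact (e1.trans e3).trans e2.symm
  rcases hbF with hb0 | ⟨y, hy, hyρ, hyb⟩
  · exact ⟨b, hb0, mem_Bx0.1 (hQ hbQ), hbU, h1.trans h2⟩
  · refine ⟨y, hy, hyρ, fun h => hbU (Cn.trans h hyb), ?_⟩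
    exact (h1.trans h2).trans (Cn.mono hyb (le_refl _) (hi_le_uni X η)).symm

end H95LBD
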