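import Pool.Agent.H95.LBD.Basic
import Pool.Agent.H5.DG.Indep

/-!
PROJECT DL (MP_0d9ad5_pr), JOB DL-NumD. The sum over the lattice.
PROOF. Points with `nm z ≤ 2 m1^k`: at most `(4 m1^k + 1)^d ≤ 5^d m1^(dk)` points, each term `≤ 1`. For
`nm z ≥ 2 m1^k + 1` let `m ≥ m1` be maximal with `2 m^k ≤ nm z - 1`; then `nm z ≤ 2 (m+1)^k + 1`... and the term is
`≤ sqrt (a (2 m^k)) ≤ sqrt 3 exp(-(c/2) sqrt m)` (`Antitone`). The number of `z` with this `m` is at most
`(2 (2 (m+1)^k + 1) + 1)^d ≤ (C' m^k)^d`. Sum over `m`: `∑_m (C' m^k)^d sqrt 3 exp(-(c/2) sqrt m) < ∞`, a constant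
depending on `d, k, c` only, and `m1^(dk) ≥ 1`. (Or: term `≤ C exp(-c' (nm z)^(1/(2k)))`.)
-/

namespace H95LBD

open H5DF MeasureTheory

lemma numD_card (d n : ℕ) : ((Box d (2 * n)).card : ℝ) ≤ (4 * n + 1 : ℝ) ^ d := by
  unfold Box
  rw [Fintype.card_piFinset]
  simp only [Int.card_Icc, Finset.prod_const, Finset.card_univ, Fintype.card_fin]
  have h : (((2 * n : ℕ) : ℤ) + 1 - -((2 * n : ℕ) : ℤ)).toNat = 4 * n + 1 := by
    push_cast
    omega
  rw [h]
  push_cast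
  exact le_rfl

lemma numD_ex (k : ℕ) (hk : 1 ≤ k) (n : ℕ) : ∃ m : ℕ, m ≤ n ∧ 2 * m ^ k ≤ n ∧ n < 2 * (m + 1) ^ k := by
  classical
  have hex : ∃ j : ℕ, n < 2 * (j + 1) ^ k := by
    refine ⟨n, ?_⟩
    have h1 : n + 1 ≤ (n + 1) ^ k := Nat.le_self_pow (by omega) _
    omega
  refine ⟨Nat.find hex, ?_, ?_, Nat.find_spec hex⟩
  · apply Nat.find_min'
    have h1 : n + 1 ≤ (n + 1) ^ k := Nat.le_self_pow (by omega) _
    omega
  · rcases Nat.eq_zero_or_pos (Nat.find hex) with h | h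
    · rw [h, zero_pow (by omega)]
      omega
    · have h1 := Nat.find_min hex (m := Nat.find hex - 1) (by omega)
      rw [Nat.sub_add_cancel h] at h1
      omega

lemma numD_exp {c : ℝ} (hc : 0 < c) (D : ℕ) : ∃ K : ℝ, 0 < K ∧ ∀ m : ℕ,
    ((m : ℝ) + 1) ^ D * Real.exp (-(c * Real.sqrt m)) ≤ K * (1 / ((m : ℝ) + 1) ^ 2) := by
  refine ⟨Real.exp c * ((2 * (D + 2)).factorial : ℝ) / c ^ (2 * (D + 2)), by positivity, fun m => ?_⟩
  set s : ℝ := Real.sqrt m with hs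
  have hs0 : 0 ≤ s := Real.sqrt_nonneg _
  have hss : s * s = m := Real.mul_self_sqrt (Nat.cast_nonneg m)
  have h1 := Real.pow_div_factorial_le_exp (c * (1 + s)) (by positivity) (2 * (D + 2))
  have h2 : ((m : ℝ) + 1) ^ (D + 2) ≤ (1 + s) ^ (2 * (D + 2)) := by
    rw [pow_mul]
    apply pow_le_pow_left₀ (by positivity)
    nlinarith
  have h3 : Real.exp (-(c * s)) = Real.exp c * (Real.exp (c * (1 + s)))⁻¹ := by
    rw [← Real.exp_neg, ← Real.exp_add]
    congr 1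
    ring
  have hm1 : (0 : ℝ) < (m : ℝ) + 1 := by positivity
  have h4 : ((m : ℝ) + 1) ^ (D + 2) * Real.exp (-(c * s)) ≤
      Real.exp c * ((2 * (D + 2)).factorial : ℝ) / c ^ (2 * (D + 2)) := by
    rw [h3]
    have h5 : (Real.exp (c * (1 + s)))⁻¹ ≤ ((2 * (D + 2)).factorial : ℝ) / (c * (1 + s)) ^ (2 * (D + 2)) := by
      rw [inv_le_comm₀ (Real.exp_pos _) (by positivity), inv_div]
      exact h1
    have h6 : ((m : ℝ) + 1) ^ (D + 2) * (Real.exp c * (Real.exp (c * (1 + s)))⁻¹) ≤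
        (1 + s) ^ (2 * (D + 2)) * (Real.exp c *
          (((2 * (D + 2)).factorial : ℝ) / (c * (1 + s)) ^ (2 * (D + 2)))) := by
      refine mul_le_mul h2 (mul_le_mul_of_nonneg_left h5 (Real.exp_pos _).le) (by positivity) (by positivity)
    refine h6.trans (le_of_eq ?_)
    rw [mul_pow]
    have h7 : (0 : ℝ) < (1 + s) ^ (2 * (D + 2)) := by positivity
    field_simp
  rw [pow_add] at h4
  rw [mul_one_div, le_div_iff₀ (by positivity)]
  calc ((m : ℝ) + 1) ^ D * Real.exp (-(c * s)) * ((m : ℝ) + 1) ^ 2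
      = ((m : ℝ) + 1) ^ D * ((m : ℝ) + 1) ^ 2 * Real.exp (-(c * s)) := by ring
    _ ≤ _ := h4

lemma numD_summable : Summable fun m : ℕ => 1 / ((m : ℝ) + 1) ^ 2 := by
  have h := (summable_nat_add_iff (f := fun m : ℕ => 1 / (m : ℝ) ^ 2) 1).2
    (Real.summable_one_div_nat_pow.2 (by norm_num))
  refine h.congr (fun m => ?_)
  push_cast
  rfl

theorem num_K (d k : ℕ) (hk : 1 ≤ k) (c : ℝ) (hc : 0 < c) : ∃ C : ℝ, 0 < C ∧
    ∀ (a : ℕ → ℝ) (m1 : ℕ), 1 ≤ m1 → Antitone a → (∀ n, 0 ≤ a n ∧ a n ≤ 1) →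
      (∀ m : ℕ, m1 ≤ m → a (2 * m ^ k) ≤ 3 * Real.exp (-(c * Real.sqrt m))) → ∀ N : ℕ,
      ∑ z ∈ Box d N, (if z = 0 then 1 else Real.sqrt (a (nm z - 1))) ≤ C * (m1 : ℝ) ^ (d * k) := by
  classical
  obtain ⟨K, hK, hKm⟩ := numD_exp (show (0 : ℝ) < c / 2 by positivity) (d * k)
  set T : ℝ := ∑' m : ℕ, 1 / ((m : ℝ) + 1) ^ 2 with hT
  have hT0 : 0 ≤ T := tsum_nonneg (fun m => by positivity)
  refine ⟨5 ^ d + 5 ^ d * Real.sqrt 3 * (K * T), by positivity, ?_⟩
  intro a m1 hm1 ha h01 hexp N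
  set f : V d → ℝ := fun z => if z = 0 then 1 else Real.sqrt (a (nm z - 1)) with hf
  have hf0 : ∀ z, 0 ≤ f z := by
    intro z
    simp only [hf]
    split_ifs
    · norm_num
    · exact Real.sqrt_nonneg _
  have hf1 : ∀ z, f z ≤ 1 := by
    intro z
    simp only [hf]
    split_ifs
    · exact le_rfl
    · exact Real.sqrt_le_one.2 (h01 _).2
  choose g hg using numD_ex k hk
  have hcardpow : ∀ m : ℕ, 1 ≤ m → ((Box d (2 * m ^ k)).card : ℝ) ≤ 5 ^ d * (m : ℝ) ^ (d * k) := by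
    intro m hm
    refine (numD_card d (m ^ k)).trans ?_
    have h1 : (1 : ℝ) ≤ (m : ℝ) ^ k := one_le_pow₀ (by exact_mod_cast hm)
    have h2 : (4 * ((m ^ k : ℕ) : ℝ) + 1) ^ d ≤ (5 * (m : ℝ) ^ k) ^ d := by
      apply pow_le_pow_left₀ (by positivity)
      push_cast
      linarith
    refine h2.trans (le_of_eq ?_)
    rw [mul_pow, ← pow_mul, mul_comm k d]
  -- split
  have hsplit : ∑ z ∈ Box d N, f z = ∑ z ∈ (Box d N).filter (fun z => nm z ≤ 2 * m1 ^ k), f z +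
      ∑ z ∈ (Box d N).filter (fun z => ¬ nm z ≤ 2 * m1 ^ k), f z :=
    (Finset.sum_filter_add_sum_filter_not _ _ _).symm
  have hA : ∑ z ∈ (Box d N).filter (fun z => nm z ≤ 2 * m1 ^ k), f z ≤ 5 ^ d * (m1 : ℝ) ^ (d * k) := by
    have h1 : ∑ z ∈ (Box d N).filter (fun z => nm z ≤ 2 * m1 ^ k), f z ≤
        ∑ _z ∈ (Box d N).filter (fun z => nm z ≤ 2 * m1 ^ k), (1 : ℝ) :=
      Finset.sum_le_sum fun z _ => hf1 z
    rw [Finset.sum_const, nsmul_eq_mul, mul_one] at h1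
    refine h1.trans (le_trans ?_ (hcardpow m1 hm1))
    have h2 : (Box d N).filter (fun z => nm z ≤ 2 * m1 ^ k) ⊆ Box d (2 * m1 ^ k) := by
      intro z hz
      exact mem_Box'.2 (Finset.mem_filter.1 hz).2
    exact_mod_cast Finset.card_le_card h2
  have hB : ∑ z ∈ (Box d N).filter (fun z => ¬ nm z ≤ 2 * m1 ^ k), f z ≤
      5 ^ d * Real.sqrt 3 * (K * T) := by
    have hmaps : ∀ z ∈ (Box d N).filter (fun z => ¬ nm z ≤ 2 * m1 ^ k),
        g (nm z - 1) ∈ Finset.range (N + 1) := by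
      intro z hz
      obtain ⟨h1, h2⟩ := Finset.mem_filter.1 hz
      rw [mem_Box'] at h1
      have h3 := (hg (nm z - 1)).1
      rw [Finset.mem_range]
      omega
    rw [← Finset.sum_fiberwise_of_maps_to hmaps]
    have hfib : ∀ m ∈ Finset.range (N + 1),
        ∑ z ∈ ((Box d N).filter (fun z => ¬ nm z ≤ 2 * m1 ^ k)).filter (fun z => g (nm z - 1) = m), f z ≤
          5 ^ d * Real.sqrt 3 * (K * (1 / ((m : ℝ) + 1) ^ 2)) := by
      intro m _
      have hterm : ∀ z ∈ ((Box d N).filter (fun z => ¬ nm z ≤ 2 * m1 ^ k)).filter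
          (fun z => g (nm z - 1) = m), f z ≤ Real.sqrt 3 * Real.exp (-(c / 2 * Real.sqrt m)) := by
        intro z hz
        obtain ⟨h1, h2⟩ := Finset.mem_filter.1 hz
        obtain ⟨-, h3⟩ := Finset.mem_filter.1 h1
        obtain ⟨-, h5, h6⟩ := hg (nm z - 1)
        rw [h2] at h5 h6
        have hz0 : z ≠ 0 := by
          rintro rfl
          rw [nm_zero] at h3
          exact h3 (Nat.zero_le _)
        have hm : m1 ≤ m := by
          by_contra hlt
          have h7 : m + 1 ≤ m1 := by omega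
          have h8 : (m + 1) ^ k ≤ m1 ^ k := Nat.pow_le_pow_left h7 k
          omega
        have h9 : a (nm z - 1) ≤ 3 * Real.exp (-(c * Real.sqrt m)) := (ha h5).trans (hexp m hm)
        simp only [hf, if_neg hz0]
        refine (Real.sqrt_le_sqrt h9).trans (le_of_eq ?_)
        rw [Real.sqrt_mul (by norm_num), ← Real.exp_half]
        congr 2
        ring
      have h1 := Finset.sum_le_sum hterm
      rw [Finset.sum_const, nsmul_eq_mul] at h1
      refine h1.trans ?_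
      have hsub : ((Box d N).filter (fun z => ¬ nm z ≤ 2 * m1 ^ k)).filter (fun z => g (nm z - 1) = m) ⊆
          Box d (2 * (m + 1) ^ k) := by
        intro z hz
        obtain ⟨h1, h2⟩ := Finset.mem_filter.1 hz
        obtain ⟨-, h3⟩ := Finset.mem_filter.1 h1
        obtain ⟨-, h5, h6⟩ := hg (nm z - 1)
        rw [h2] at h5 h6
        rw [mem_Box']
        omega
      have hcard : ((((Box d N).filter (fun z => ¬ nm z ≤ 2 * m1 ^ k)).filter
          (fun z => g (nm z - 1) = m)).card : ℝ) ≤ 5 ^ d * ((m : ℝ) + 1) ^ (d * k) := by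
        have h2 := hcardpow (m + 1) (by omega)
        push_cast at h2
        refine le_trans ?_ h2
        exact_mod_cast Finset.card_le_card hsub
      have h2 : 0 ≤ Real.sqrt 3 * Real.exp (-(c / 2 * Real.sqrt m)) := by positivity
      refine (mul_le_mul_of_nonneg_right hcard h2).trans ?_
      have h3 := hKm m
      have h4 : 0 ≤ (5 : ℝ) ^ d * Real.sqrt 3 := by positivity
      have h5 := mul_le_mul_of_nonneg_left h3 h4
      refine le_trans (le_of_eq ?_) h5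
      ring
    refine (Finset.sum_le_sum hfib).trans ?_
    rw [← Finset.mul_sum, ← Finset.mul_sum]
    refine mul_le_mul_of_nonneg_left ?_ (by positivity)
    refine mul_le_mul_of_nonneg_left ?_ hK.le
    exact numD_summable.sum_le_tsum _ (fun m _ => by positivity)
  have hm1R : (1 : ℝ) ≤ (m1 : ℝ) ^ (d * k) := one_le_pow₀ (by exact_mod_cast hm1)
  have hQ : 0 ≤ 5 ^ d * Real.sqrt 3 * (K * T) := by positivity
  show ∑ z ∈ Box d N, f z ≤ _
  rw [hsplit]
  nlinarith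

end H95LBD
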