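import Mathlib

/-!
PROJECT DL (MP_0d9ad5_pr), JOB DL-NumE. Choice of the scale.
PROOF. `m1 = max m0 ⌈ε^(-2/(d-4))⌉₊`; for `m ≥ m1`: `m^(d-4) ≥ ε^(-2)`. `m1 ≤ (m0 + 2) ε^(-2/(d-4))` as
`ε^(-2/(d-4)) ≥ 1`. So `m1^(2 d k) ≤ C ε^(-4 d k/(d-4))`.
-/

namespace H95LBD

open Filter

theorem num_scale (d k m0 : ℕ) (hd : 5 ≤ d) : ∃ C : ℝ, 0 < C ∧ ∀ ε : ℝ, 0 < ε → ε ≤ 1 →
    ∃ m1 : ℕ, 1 ≤ m1 ∧ m0 ≤ m1 ∧ (∀ m : ℕ, m1 ≤ m → 1 ≤ ε ^ 2 * (m : ℝ) ^ (d - 4)) ∧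
      (m1 : ℝ) ^ (2 * (d * k)) ≤ C * ε ^ (-((4 * d * k : ℝ) / ((d : ℝ) - 4))) := by
  refine ⟨((m0 : ℝ) + 2) ^ (2 * (d * k)), by positivity, ?_⟩
  intro ε hε hε1
  have hd4 : (0 : ℝ) < (d : ℝ) - 4 := by
    have : (5 : ℝ) ≤ (d : ℝ) := by exact_mod_cast hd
    linarith
  have hd4n : ((d - 4 : ℕ) : ℝ) = (d : ℝ) - 4 := by
    rw [Nat.cast_sub (by omega)]
    norm_num
  obtain ⟨t, ht⟩ : ∃ t : ℝ, t = ε ^ (-(2 / ((d : ℝ) - 4))) := ⟨_, rfl⟩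
  have ht1 : 1 ≤ t := by
    rw [ht]
    exact Real.one_le_rpow_of_pos_of_le_one_of_nonpos hε hε1 (by
      have : 0 < 2 / ((d : ℝ) - 4) := by positivity
      linarith)
  have ht0 : 0 < t := lt_of_lt_of_le one_pos ht1
  have htd : t ^ (d - 4) = (ε ^ 2)⁻¹ := by
    rw [ht, ← Real.rpow_natCast, ← Real.rpow_mul hε.le, hd4n]
    have : -(2 / ((d : ℝ) - 4)) * ((d : ℝ) - 4) = -((2 : ℕ) : ℝ) := by
      field_simp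
      norm_num
    rw [this, Real.rpow_neg hε.le, Real.rpow_natCast]
  have htk : t ^ (2 * (d * k)) = ε ^ (-((4 * d * k : ℝ) / ((d : ℝ) - 4))) := by
    rw [ht, ← Real.rpow_natCast, ← Real.rpow_mul hε.le]
    congr 1
    push_cast
    field_simp
    ring
  refine ⟨max m0 ⌈t⌉₊, ?_, le_max_left _ _, ?_, ?_⟩
  · refine le_trans ?_ (le_max_right _ _)
    exact Nat.one_le_iff_ne_zero.2 (Nat.ceil_pos.2 ht0).ne'
  · intro m hm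
    have hmt : t ≤ (m : ℝ) :=
      (Nat.le_ceil t).trans (by exact_mod_cast (le_max_right m0 ⌈t⌉₊).trans hm)
    have hpow : (ε ^ 2)⁻¹ ≤ (m : ℝ) ^ (d - 4) := by
      rw [← htd]
      exact pow_le_pow_left₀ ht0.le hmt _
    have hε2 : 0 < ε ^ 2 := by positivity
    calc (1 : ℝ) = ε ^ 2 * (ε ^ 2)⁻¹ := (mul_inv_cancel₀ hε2.ne').symm
      _ ≤ ε ^ 2 * (m : ℝ) ^ (d - 4) := mul_le_mul_of_nonneg_left hpow hε2.le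
  · rw [← htk, ← mul_pow]
    refine pow_le_pow_left₀ (by positivity) ?_ _
    rw [Nat.cast_max]
    have hm0 : (0 : ℝ) ≤ (m0 : ℝ) := Nat.cast_nonneg _
    refine max_le ?_ ?_
    · nlinarith
    · have := (Nat.ceil_lt_add_one ht0.le).le
      nlinarith

end H95LBD
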