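import Pool.Agent.H95.LBD.TailA
import Pool.Agent.H95.LBD.FlE
import Pool.Agent.H95.LBD.FlP
import Pool.Agent.H95.LBD.NumD
import Pool.Agent.H95.LBD.NumE
import Pool.Agent.H95.LBD.TauK

/-!
PROJECT DL (MP_0d9ad5_pr), JOB DL-Lower. The polynomial lower bound.
PROOF. `kb_of_twoPt`, `tail_lu`, `perc_kernel` (`e1`: take `i0 = ⟨0, _⟩`). `μ = envM d p1 s`, `T = shE`, `om = hi`
(`map_hi`, `map_shE`, `hi_shE`, ...). For `m ≥ m1`: `G (2 m^(2d-3))ᶜ ⊆ LUF (m^(2d-3)) ∪ {no infinite cluster of lo X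
meets Box m} ∪ {the same for shE e X}` (`m + 1 ≤ m^(2d-3)`), probability `≤ 3 exp(-c sqrt m)` (`map_lo`, `map_shE`).
`num_K` with `k = 2d-3`, `a n = μ.real (G n)ᶜ` (antitone by `G_mono`), gives `K1 = C m1^(dk)`; `flow_lower`:
`D ≥ 1/(d^2 K1^2) = c / m1^(2dk) ≥ c' ε^(4dk/(d-4))` (`num_scale`).
-/

namespace H95LBD

open H5DF MeasureTheory

variable {d : ℕ}

lemma lower_meas (m : ℕ) :
    MeasurableSet {ζ : Cfg d | ∀ u ∈ Box d m, (cluster ζ u).Finite} := by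
  have h : {ζ : Cfg d | ∀ u ∈ Box d m, (cluster ζ u).Finite} =
      ⋂ u ∈ Box d m, {ζ : Cfg d | (cluster ζ u).Infinite}ᶜ := by
    ext ζ
    simp [Set.not_infinite]
  rw [h]
  exact Finset.measurableSet_biInter _ fun u _ => (meas_inf u).compl

lemma lower_pow (hd : 5 ≤ d) {m : ℕ} (hm : 2 ≤ m) : m + 1 ≤ m ^ (2 * d - 3) := by
  have h1 : m ^ 2 ≤ m ^ (2 * d - 3) := Nat.pow_le_pow_right (by omega) (by omega)
  nlinarith

lemma lower_event (hd : 5 ≤ d) {p1 s : ℝ} (h0 : 0 ≤ p1) (h1 : p1 ≤ 1) (hs0 : 0 ≤ s) (hs1 : s ≤ 1)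
    {i0 : Fin d} (R : FlowK i0 (shE : V d → Env d → Env d) hi)
    (hR : ∀ (M R' : ℕ) (X : Env d), M + 1 ≤ R' → (∃ u ∈ Box d M, (cluster (lo X) u).Infinite) →
      (∃ u ∈ Box d M, (cluster (lo (shE (Pi.single i0 1) X)) u).Infinite) → X ∉ LUF R' →
      X ∈ R.G (2 * R')) {m : ℕ} (hm : 2 ≤ m) (E : ℝ)
    (hE1 : (envM d p1 s).real (LUF (m ^ (2 * d - 3))) ≤ E)
    (hE2 : (perc d p1).real {ζ | ∀ u ∈ Box d m, (cluster ζ u).Finite} ≤ E) :
    (envM d p1 s).real (R.G (2 * m ^ (2 * d - 3)))ᶜ ≤ 3 * E := by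
  have hP : IsProbabilityMeasure (envM d p1 s) := isProb_env h0 h1 hs0 hs1
  set A : Set (Env d) := {X | ∀ u ∈ Box d m, (cluster (lo X) u).Finite} with hA
  have hAm : MeasurableSet A := measurable_lo (lower_meas m)
  have hAE : (envM d p1 s).real A ≤ E := by
    refine le_trans (le_of_eq ?_) hE2
    rw [← map_lo h0 h1 hs0 hs1, map_measureReal_apply measurable_lo (lower_meas m)]
    rfl
  have hBE : (envM d p1 s).real (shE (Pi.single i0 1) ⁻¹' A) ≤ E := by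
    refine le_trans (le_of_eq ?_) hAE
    conv_rhs => rw [← map_shE h0 h1 hs0 hs1 (Pi.single i0 1)]
    rw [map_measureReal_apply (measurable_shE _) hAm]
  have hsub : (R.G (2 * m ^ (2 * d - 3)))ᶜ ⊆
      LUF (m ^ (2 * d - 3)) ∪ (A ∪ shE (Pi.single i0 1) ⁻¹' A) := by
    intro X hX
    by_contra hcon
    rw [Set.mem_union, Set.mem_union, not_or, not_or] at hcon
    obtain ⟨hc1, hc2, hc3⟩ := hcon
    refine hX (hR m _ X (lower_pow hd hm) ?_ ?_ hc1)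
    · by_contra hn
      refine hc2 fun u hu => ?_
      by_contra hi
      exact hn ⟨u, hu, hi⟩
    · by_contra hn
      refine hc3 fun u hu => ?_
      by_contra hi
      exact hn ⟨u, hu, hi⟩
  calc (envM d p1 s).real (R.G (2 * m ^ (2 * d - 3)))ᶜ
      ≤ (envM d p1 s).real (LUF (m ^ (2 * d - 3)) ∪ (A ∪ shE (Pi.single i0 1) ⁻¹' A)) :=
        measureReal_mono hsub
    _ ≤ (envM d p1 s).real (LUF (m ^ (2 * d - 3))) +
        (envM d p1 s).real (A ∪ shE (Pi.single i0 1) ⁻¹' A) := measureReal_union_le _ _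
    _ ≤ (envM d p1 s).real (LUF (m ^ (2 * d - 3))) +
        ((envM d p1 s).real A + (envM d p1 s).real (shE (Pi.single i0 1) ⁻¹' A)) := by
        gcongr
        exact measureReal_union_le _ _
    _ ≤ 3 * E := by linarith

theorem lower_final (hd : 5 ≤ d) (p0 a A : ℝ) (h0 : 0 < p0) (h1 : p0 < 1) (ha : 0 < a)
    (h : TwoPt d p0 a A) : ∃ c δ : ℝ, 0 < c ∧ 0 < δ ∧ ∀ ε : ℝ, 0 < ε → ε < δ → ∀ D : NNReal,
      HasDiffusivity d (p0 + ε) D →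
      c * ε ^ ((4 * d * (2 * d - 3) : ℝ) / ((d : ℝ) - 4)) ≤ D := by
  have hd0 : 0 < d := by omega
  have hdr : (0 : ℝ) < d := by exact_mod_cast hd0
  obtain ⟨b, B, hb, hB, hKB⟩ := kb_of_twoPt p0 a A h0.le h1.le ha h
  obtain ⟨c, m0, δ0, hc, hm0, hδ, hδ1, hpδ, htail⟩ := tail_lu hd p0 b B h0 h1 hb hB hKB
  obtain ⟨R, hR⟩ := perc_kernel (⟨0, hd0⟩ : Fin d)
  obtain ⟨C, hC, hK⟩ := num_K d (2 * d - 3) (by omega) c hc
  obtain ⟨C2, hC2, hsc⟩ := num_scale d (2 * d - 3) m0 hd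
  refine ⟨1 / ((d : ℝ) ^ 2 * C ^ 2 * C2), δ0, by positivity, hδ, ?_⟩
  intro ε hε hεδ D hD
  obtain ⟨m1, hm1, hm01, hm1ε, hm1C⟩ := hsc ε hε (by linarith)
  obtain ⟨p1, hp1⟩ : ∃ p1 : ℝ, p1 = p0 + ε / 2 := ⟨_, rfl⟩
  obtain ⟨s, hs⟩ : ∃ s : ℝ, s = (ε / 2) / (1 - p1) := ⟨_, rfl⟩
  have hp10 : 0 ≤ p1 := by rw [hp1]; linarith
  have hp11 : p1 < 1 := by rw [hp1]; linarith
  have hden : 0 < 1 - p1 := by linarith
  have hs0 : 0 ≤ s := by rw [hs]; positivity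
  have hs1 : s ≤ 1 := by
    rw [hs, div_le_one hden, hp1]
    linarith
  have hp : 1 - (1 - p1) * (1 - s) = p0 + ε := by
    have h2 : (1 - p1) * s = ε / 2 := by
      rw [hs]
      field_simp
    have h3 : 1 - (1 - p1) * (1 - s) = p1 + (1 - p1) * s := by ring
    rw [h3, h2, hp1]
    ring
  have hlaw : (envM d p1 s).map hi = perc d (p0 + ε) := by
    rw [map_hi hp10 hp11.le hs0 hs1, hp]
  have hP : IsProbabilityMeasure (envM d p1 s) := isProb_env hp10 hp11.le hs0 hs1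
  have hbound : ∀ m : ℕ, m1 ≤ m → (envM d p1 s).real (R.G (2 * m ^ (2 * d - 3)))ᶜ ≤
      3 * Real.exp (-(c * Real.sqrt m)) := by
    intro m hm
    have ht := htail ε hε hεδ m (hm01.trans hm) (hm1ε m hm)
    rw [← hp1, ← hs] at ht
    exact lower_event hd hp10 hp11.le hs0 hs1 R hR (hm0.trans (hm01.trans hm)) _ ht.1 ht.2
  have hanti : Antitone fun n => (envM d p1 s).real (R.G n)ᶜ := by
    refine antitone_nat_of_succ_le fun n => ?_
    exact measureReal_mono (Set.compl_subset_compl.2 (R.G_mono n))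
  have hK1 : ∀ N, ∑ z ∈ Box d N, uu (envM d p1 s) R z ≤ C * (m1 : ℝ) ^ (d * (2 * d - 3)) := by
    intro N
    exact hK (fun n => (envM d p1 s).real (R.G n)ᶜ) m1 hm1 hanti
      (fun n => ⟨measureReal_nonneg, measureReal_le_one⟩) hbound N
  have hfl := flow_lower (p0 + ε) (by linarith) (by linarith) D hD (envM d p1 s) R measurable_shE
    (map_shE hp10 hp11.le hs0 hs1) shE_zero shE_shE measurable_hi hi_shE hlaw _ hK1
  refine le_trans ?_ hfl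
  have hk : ((2 * d - 3 : ℕ) : ℝ) = 2 * (d : ℝ) - 3 := by
    rw [Nat.cast_sub (by omega)]
    push_cast
    ring
  have hm1p : (0 : ℝ) < m1 := by exact_mod_cast hm1
  have hexp : (4 * (d : ℝ) * ((2 * d - 3 : ℕ) : ℝ)) / ((d : ℝ) - 4) =
      (4 * d * (2 * d - 3) : ℝ) / ((d : ℝ) - 4) := by
    rw [hk]
  have he0 : 0 < ε ^ ((4 * d * (2 * d - 3) : ℝ) / ((d : ℝ) - 4)) := Real.rpow_pos_of_pos hε _
  have hm1C' : (m1 : ℝ) ^ (2 * (d * (2 * d - 3))) ≤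
      C2 * (ε ^ ((4 * d * (2 * d - 3) : ℝ) / ((d : ℝ) - 4)))⁻¹ := by
    rw [← Real.rpow_neg hε.le, ← hexp]
    exact hm1C
  have e1 : (d : ℝ) ^ 2 * (C * (m1 : ℝ) ^ (d * (2 * d - 3))) ^ 2 =
      (d : ℝ) ^ 2 * C ^ 2 * (m1 : ℝ) ^ (2 * (d * (2 * d - 3))) := by
    rw [mul_pow, ← pow_mul, mul_comm (d * (2 * d - 3)) 2]
    ring
  rw [e1]
  have h3 : (d : ℝ) ^ 2 * C ^ 2 * (m1 : ℝ) ^ (2 * (d * (2 * d - 3))) ≤
      (d : ℝ) ^ 2 * C ^ 2 * (C2 * (ε ^ ((4 * d * (2 * d - 3) : ℝ) / ((d : ℝ) - 4)))⁻¹) :=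
    mul_le_mul_of_nonneg_left hm1C' (by positivity)
  refine le_trans (le_of_eq ?_) (one_div_le_one_div_of_le (by positivity) h3)
  field_simp

end H95LBD
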