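import Mathlib

/-!
PROJECT DL (MP_0d9ad5_pr), JOB DL-NumA. Number of rounds `II m ~ m^(1/8)`.
PROOF. `II m ≥ m^(1/8) - 3`-type bounds from `Nat.sqrt_le'`, `Nat.lt_succ_sqrt'`: `(II m)^8 ≤ m` and
`m < (II m + 1)^8`. With `I = II m → ∞`: `(4 m^(2d-3)+1)^d ≤ (5 (I+1)^(8(2d-3)))^d < 2^I` for large `I` (a polynomial
in `I` is eventually smaller than `2^I`).
-/

namespace H95LBD

open Filter

/-- The number of rounds. -/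
def II (m : ℕ) : ℕ := Nat.sqrt (Nat.sqrt (Nat.sqrt m))

theorem NumA_le (m : ℕ) : (II m) ^ 8 ≤ m := by
  unfold II
  have h1 := Nat.sqrt_le' m
  have h2 := Nat.sqrt_le' (Nat.sqrt m)
  have h3 := Nat.sqrt_le' (Nat.sqrt (Nat.sqrt m))
  calc Nat.sqrt (Nat.sqrt (Nat.sqrt m)) ^ 8 = ((Nat.sqrt (Nat.sqrt (Nat.sqrt m)) ^ 2) ^ 2) ^ 2 := by ring
    _ ≤ ((Nat.sqrt (Nat.sqrt m)) ^ 2) ^ 2 := Nat.pow_le_pow_left (Nat.pow_le_pow_left h3 2) 2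
    _ ≤ (Nat.sqrt m) ^ 2 := Nat.pow_le_pow_left h2 2
    _ ≤ m := h1

theorem NumA_lt (m : ℕ) : m < (II m + 1) ^ 8 := by
  unfold II
  have h1 : m < (Nat.sqrt m + 1) ^ 2 := Nat.lt_succ_sqrt' m
  have h2 : Nat.sqrt m < (Nat.sqrt (Nat.sqrt m) + 1) ^ 2 := Nat.lt_succ_sqrt' (Nat.sqrt m)
  have h3 : Nat.sqrt (Nat.sqrt m) < (Nat.sqrt (Nat.sqrt (Nat.sqrt m)) + 1) ^ 2 :=
    Nat.lt_succ_sqrt' (Nat.sqrt (Nat.sqrt m))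
  calc m < (Nat.sqrt m + 1) ^ 2 := h1
    _ ≤ ((Nat.sqrt (Nat.sqrt m) + 1) ^ 2) ^ 2 := Nat.pow_le_pow_left h2 2
    _ ≤ (((Nat.sqrt (Nat.sqrt (Nat.sqrt m)) + 1) ^ 2) ^ 2) ^ 2 :=
        Nat.pow_le_pow_left (Nat.pow_le_pow_left h3 2) 2
    _ = (Nat.sqrt (Nat.sqrt (Nat.sqrt m)) + 1) ^ 8 := by ring

theorem NumA_poly (K D : ℕ) : ∃ I0 : ℕ, ∀ I : ℕ, I0 ≤ I → K * (I + 1) ^ D < 2 ^ I := by
  have h1 := tendsto_pow_const_div_const_pow_of_one_lt D (one_lt_two : (1 : ℝ) < 2)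
  have h2 : ∀ᶠ n : ℕ in atTop, (n : ℝ) ^ D / 2 ^ n < 1 / (2 * (K + 1)) :=
    h1.eventually (gt_mem_nhds (by positivity))
  obtain ⟨n0, hn0⟩ := eventually_atTop.1 h2
  refine ⟨n0, fun I hI => ?_⟩
  have h3 := hn0 (I + 1) (by omega)
  rw [div_lt_div_iff₀ (by positivity) (by positivity)] at h3
  have h4 : ((K * (I + 1) ^ D : ℕ) : ℝ) < ((2 ^ I : ℕ) : ℝ) := by
    push_cast at h3 ⊢
    rw [pow_succ] at h3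
    have h5 : (0 : ℝ) ≤ ((I : ℝ) + 1) ^ D := by positivity
    nlinarith
  exact_mod_cast h4

theorem num_I (d : ℕ) : ∃ m0 : ℕ, 2 ≤ m0 ∧ ∀ m : ℕ, m0 ≤ m →
    (4 * m ^ (2 * d - 3) + 1) ^ d < 2 ^ (II m) ∧ 1 ≤ II m ∧ (II m) ^ 8 ≤ m := by
  obtain ⟨I0, hI0⟩ := NumA_poly (5 ^ d) (8 * (2 * d - 3) * d)
  refine ⟨max 2 ((I0 + 1) ^ 8), le_max_left _ _, fun m hm => ?_⟩
  have h1 : (I0 + 1) ^ 8 ≤ m := (le_max_right _ _).trans hm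
  have h2 := NumA_lt m
  have h3 : I0 + 1 < II m + 1 := lt_of_pow_lt_pow_left₀ 8 (Nat.zero_le _) (h1.trans_lt h2)
  have h4 := hI0 (II m) (by omega)
  refine ⟨lt_of_le_of_lt ?_ h4, by omega, NumA_le m⟩
  have h5 : m ^ (2 * d - 3) ≤ (II m + 1) ^ (8 * (2 * d - 3)) := by
    rw [pow_mul]
    exact Nat.pow_le_pow_left h2.le _
  have h6 : 1 ≤ (II m + 1) ^ (8 * (2 * d - 3)) := Nat.one_le_pow _ _ (Nat.succ_pos _)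
  calc (4 * m ^ (2 * d - 3) + 1) ^ d ≤ (5 * (II m + 1) ^ (8 * (2 * d - 3))) ^ d :=
        Nat.pow_le_pow_left (by omega) d
    _ = 5 ^ d * (II m + 1) ^ (8 * (2 * d - 3) * d) := by rw [mul_pow, ← pow_mul]

end H95LBD
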