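import Pool.Agent.H95.LBD.NumA

/-!
PROJECT DL (MP_0d9ad5_pr), JOB DL-NumB. The exponent of one round.
PROOF. Let `R = m^(2d-3)`, `I = II m ≤ m^(1/8)`, `n = (R / I) / (2 m^2 + 1)` (natural divisions). For large `m`:
`n ≥ R / (I * 8 m^2)` in `ℝ` (`R / I ≥ R/(2 I)`, `2 m^2 + 1 ≤ 3 m^2`, ...; `R / (I m^2)` is large as `d ≥ 5`).
`s' ≥ ε/(2 I)`, so `s'^2 ≥ ε^2/(4 I^2) ≥ 1/(4 I^2 m^(d-4))`. So
`n c1/m^(d-2) s'^2 ≥ c1 m^(2d-3) / (8 I m^2 m^(d-2) 4 I^2 m^(d-4)) = c1 m / (32 I^3) ≥ (c1/32) m^(5/8) ≥ (c1/32) sqrt m`.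
-/

namespace H95LBD

open Filter

theorem num_n (d : ℕ) (hd : 5 ≤ d) (c1 : ℝ) (hc1 : 0 < c1) : ∃ (c : ℝ) (m0 : ℕ), 0 < c ∧ 2 ≤ m0 ∧
    ∀ m : ℕ, m0 ≤ m → ∀ ε s' : ℝ, 0 < ε → ε ≤ 1 → 1 ≤ ε ^ 2 * (m : ℝ) ^ (d - 4) →
    ε / (2 * II m) ≤ s' →
    c * Real.sqrt m ≤
      ((m ^ (2 * d - 3) / II m / (2 * m ^ 2 + 1) : ℕ) : ℝ) * (c1 / (m : ℝ) ^ (d - 2) * s' ^ 2) := by
  obtain ⟨m0, hm0, hI⟩ := num_I d
  refine ⟨c1 / 24, m0, by positivity, hm0, ?_⟩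
  intro m hm ε s' hε hε1 hεm hs
  obtain ⟨-, hI1, hI8⟩ := hI m hm
  obtain ⟨e, rfl⟩ : ∃ e, d = e + 5 := ⟨d - 5, by omega⟩
  rw [show 2 * (e + 5) - 3 = 2 * e + 7 by omega, show e + 5 - 2 = e + 3 by omega]
  rw [show e + 5 - 4 = e + 1 by omega] at hεm
  generalize hIdef : II m = I at *
  rw [Nat.div_div_eq_div_mul]
  have hm2 : 2 ≤ m := hm0.trans hm
  have hIm : I ≤ m := (Nat.le_self_pow (by norm_num) I).trans hI8
  have hK0 : 0 < I * (2 * m ^ 2 + 1) := by positivity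
  have hK3 : I * (2 * m ^ 2 + 1) ≤ 3 * I * m ^ 2 := by
    have : 1 ≤ m ^ 2 := Nat.one_le_pow _ _ (by omega)
    nlinarith
  have h1 : 2 * (I * (2 * m ^ 2 + 1)) ≤ m ^ (2 * e + 7) := by
    calc 2 * (I * (2 * m ^ 2 + 1)) ≤ 2 * (3 * I * m ^ 2) := Nat.mul_le_mul_left _ hK3
      _ ≤ 2 * (3 * m * m ^ 2) := by gcongr
      _ = 6 * m ^ 3 := by ring
      _ ≤ m ^ 4 * m ^ 3 := by
          refine Nat.mul_le_mul_right _ ?_
          calc 6 ≤ 2 ^ 4 := by norm_num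
            _ ≤ m ^ 4 := Nat.pow_le_pow_left hm2 4
      _ = m ^ 7 := by ring
      _ ≤ m ^ (2 * e + 7) := Nat.pow_le_pow_right (by omega) (by omega)
  generalize hq : m ^ (2 * e + 7) / (I * (2 * m ^ 2 + 1)) = q
  have hq1 : 1 ≤ q := by
    rw [← hq]
    exact (Nat.one_le_div_iff hK0).2 (by omega)
  have h2 : m ^ (2 * e + 7) ≤ 6 * I * m ^ 2 * q := by
    have h3 : m ^ (2 * e + 7) < I * (2 * m ^ 2 + 1) * (q + 1) := by
      rw [← hq]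
      exact Nat.lt_mul_div_succ _ hK0
    calc m ^ (2 * e + 7) ≤ I * (2 * m ^ 2 + 1) * (q + 1) := h3.le
      _ ≤ (3 * I * m ^ 2) * (2 * q) := Nat.mul_le_mul hK3 (by omega)
      _ = 6 * I * m ^ 2 * q := by ring
  have h2' : (m : ℝ) ^ (2 * e + 7) ≤ 6 * I * (m : ℝ) ^ 2 * q := by exact_mod_cast h2
  have hI8' : (I : ℝ) ^ 8 ≤ m := by exact_mod_cast hI8
  have hJ : (1 : ℝ) ≤ I := by exact_mod_cast hI1
  have hM : (2 : ℝ) ≤ m := by exact_mod_cast hm2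
  generalize (m : ℝ) = M at *
  generalize (I : ℝ) = J at *
  generalize (q : ℝ) = Q at *
  have hM0 : 0 < M := by linarith
  have hJ0 : 0 < J := by linarith
  have hsq : J ^ 3 ≤ Real.sqrt M := by
    refine Real.le_sqrt_of_sq_le ?_
    calc (J ^ 3) ^ 2 = J ^ 6 := by ring
      _ ≤ J ^ 8 := pow_le_pow_right₀ hJ (by norm_num)
      _ ≤ M := hI8'
  have hQ : M ^ (2 * e + 5) / (6 * J) ≤ Q := by
    rw [div_le_iff₀ (by positivity)]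
    have h4 : M ^ (2 * e + 5) * M ^ 2 ≤ (Q * (6 * J)) * M ^ 2 := by
      calc M ^ (2 * e + 5) * M ^ 2 = M ^ (2 * e + 7) := by ring
        _ ≤ _ := h2'
        _ = _ := by ring
    exact le_of_mul_le_mul_right h4 (by positivity)
  have hs2 : 1 / (4 * J ^ 2 * M ^ (e + 1)) ≤ s' ^ 2 := by
    calc 1 / (4 * J ^ 2 * M ^ (e + 1)) ≤ (ε ^ 2 * M ^ (e + 1)) / (4 * J ^ 2 * M ^ (e + 1)) :=
          div_le_div_of_nonneg_right hεm (by positivity)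
      _ = (ε / (2 * J)) ^ 2 := by
          field_simp
          ring
      _ ≤ s' ^ 2 := pow_le_pow_left₀ (by positivity) hs 2
  have hQ0 : 0 ≤ M ^ (2 * e + 5) / (6 * J) := by positivity
  calc c1 / 24 * Real.sqrt M ≤ c1 / 24 * (M / J ^ 3) := by
        refine mul_le_mul_of_nonneg_left ?_ (by positivity)
        rw [le_div_iff₀ (by positivity)]
        calc Real.sqrt M * J ^ 3 ≤ Real.sqrt M * Real.sqrt M :=
              mul_le_mul_of_nonneg_left hsq (Real.sqrt_nonneg _)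
          _ = M := Real.mul_self_sqrt hM0.le
    _ = (M ^ (2 * e + 5) / (6 * J)) * (c1 / M ^ (e + 3) * (1 / (4 * J ^ 2 * M ^ (e + 1)))) := by
        have h5 : M ^ (2 * e + 5) = M * (M ^ (e + 3) * M ^ (e + 1)) := by ring
        rw [h5]
        field_simp
        ring
    _ ≤ Q * (c1 / M ^ (e + 3) * s' ^ 2) := by
        refine mul_le_mul hQ ?_ (by positivity) (hQ0.trans hQ)
        exact mul_le_mul_of_nonneg_left hs2 (by positivity)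

end H95LBD
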