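import Mathlib

/-!
PROJECT DL (MP_0d9ad5_pr), JOB DL-NumC. Two small numeric lemmas.
PROOF. `s' = 1 - (1-s)^(1/I)` (`Real.rpow`): `(1-s')^I = 1 - s` (`Real.rpow_natCast`, `Real.rpow_mul`); Bernoulli
`(1 - s/I)^I ≥ 1 - s` (`one_add_mul_le_pow`) gives `1 - s/I ≥ (1-s)^(1/I)`.
`num_exp`: `C m^K exp(-c sqrt m) ≤ exp(-(c/2) sqrt m)` for large `m`: `m^K exp(-(c/2) sqrt m) → 0`.
-/

namespace H95LBD

open Filter

theorem num_s (s : ℝ) (I : ℕ) (hs0 : 0 ≤ s) (hs1 : s ≤ 1) (hI : 1 ≤ I) :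
    ∃ s' : ℝ, 0 ≤ s' ∧ s' ≤ 1 ∧ 1 - (1 - s') ^ I = s ∧ s / I ≤ s' := by
  have hIR : (1 : ℝ) ≤ I := by exact_mod_cast hI
  have hI0 : (0 : ℝ) < I := by linarith
  set y : ℝ := (1 - s) ^ ((I : ℝ)⁻¹) with hy
  have hy0 : 0 ≤ y := Real.rpow_nonneg (by linarith) _
  have hyI : y ^ I = 1 - s := Real.rpow_inv_natCast_pow (by linarith) (by omega)
  have hsI : s / I ≤ 1 := by
    rw [div_le_one hI0]
    linarith
  have hy1 : y ≤ 1 - s / I := by
    have hb : 1 + (I : ℝ) * (-(s / I)) ≤ (1 + -(s / I)) ^ I :=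
      one_add_mul_le_pow (by linarith) I
    have e1 : 1 + (I : ℝ) * (-(s / I)) = 1 - s := by
      field_simp
      ring
    have e2 : 1 + -(s / (I : ℝ)) = 1 - s / I := by ring
    rw [e1, e2, ← hyI] at hb
    exact (pow_le_pow_iff_left₀ hy0 (by linarith) (by omega)).1 hb
  refine ⟨1 - y, ?_, by linarith, ?_, by linarith⟩
  · have : 0 ≤ s / I := by positivity
    linarith
  · rw [sub_sub_cancel, hyI]
    ring

theorem num_exp (C c : ℝ) (K : ℕ) (hC : 0 < C) (hc : 0 < c) : ∃ m0 : ℕ, ∀ m : ℕ, m0 ≤ m →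
    C * (m : ℝ) ^ K * Real.exp (-(c * Real.sqrt m)) ≤ Real.exp (-(c / 2 * Real.sqrt m)) := by
  have hf : Tendsto (fun m : ℕ => c / 2 * Real.sqrt (m : ℝ)) atTop atTop :=
    (Real.tendsto_sqrt_atTop.comp tendsto_natCast_atTop_atTop).const_mul_atTop (by positivity)
  have ht := (Real.tendsto_pow_mul_exp_neg_atTop_nhds_zero (2 * K)).comp hf
  have hε : (0 : ℝ) < 1 / (C * (2 / c) ^ (2 * K)) := by positivity
  obtain ⟨m0, hm0⟩ := eventually_atTop.1 (ht.eventually_lt_const hε)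
  refine ⟨m0, fun m hm => ?_⟩
  have h1 := hm0 m hm
  simp only [Function.comp_apply] at h1
  set x : ℝ := Real.sqrt m with hx
  have hx2 : (m : ℝ) = x ^ 2 := (Real.sq_sqrt (Nat.cast_nonneg m)).symm
  have e1 : (m : ℝ) ^ K = (2 / c) ^ (2 * K) * (c / 2 * x) ^ (2 * K) := by
    rw [hx2, ← pow_mul, ← mul_pow]
    congr 1
    field_simp
  have e2 : Real.exp (-(c * x)) = Real.exp (-(c / 2 * x)) * Real.exp (-(c / 2 * x)) := by
    rw [← Real.exp_add]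
    congr 1
    ring
  rw [lt_div_iff₀ (by positivity)] at h1
  have h2 : C * (m : ℝ) ^ K * Real.exp (-(c / 2 * x)) ≤ 1 := by
    rw [e1]
    calc C * ((2 / c) ^ (2 * K) * (c / 2 * x) ^ (2 * K)) * Real.exp (-(c / 2 * x))
        = (c / 2 * x) ^ (2 * K) * Real.exp (-(c / 2 * x)) * (C * (2 / c) ^ (2 * K)) := by ring
      _ ≤ 1 := h1.le
  rw [e2, ← mul_assoc]
  calc C * (m : ℝ) ^ K * Real.exp (-(c / 2 * x)) * Real.exp (-(c / 2 * x))
      ≤ 1 * Real.exp (-(c / 2 * x)) := mul_le_mul_of_nonneg_right h2 (Real.exp_pos _).le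
    _ = Real.exp (-(c / 2 * x)) := one_mul _

end H95LBD
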