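import Pool.Agent.H95.LBD.ExpA
import Pool.Agent.H95.LBD.ExpB
import Pool.Agent.H95.LBD.LinkB
import Pool.Agent.H95.LBD.LinkC
import Pool.Agent.H95.LBD.LawC
import Pool.Agent.H95.LBD.LawD

/-!
PROJECT DL (MP_0d9ad5_pr), JOB DL-RndA. Probability of the bad event of one point (the core).
PROOF. For finsets `E, U, F ⊆ Box d N` let `D = {X | E0 N (lo X) = E ∧ cl N (hi X) x = U ∧ FF N ρ X = F}`
(`exp_meas`). `Bad` is covered by the finitely many disjoint events `{q.1 ∈ D(E,U,F)}`. Claim: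
`P(Bad, q.1 ∈ D) ≤ P(D) (1 - q0 s'^2)^n`; sum over `(E,U,F)`: `∑ P(D) ≤ 1`.
Claim: if there is no `q* ∈ Bad` with `q*.1 ∈ D` trivial. Else fix one; `x ∈ E`. For `j < n` let
`ρ_j = r + Mb + j (2 Mb + 1)`, `ρ_j + Mb ≤ ρ ≤ N`; `link_places` for `q*` gives `w_j, u_j, v_j`,
`u_j ∈ U ∩ E`, `v_j ∈ E \ U`, `E ⊆ F`, `U ⊆ F` (as `x ∈ E`, `nm x ≤ ρ`). `Q_j = Bx w_j Mb`: `u_j, v_j ∈ Q_j` as
`M + 1 ≤ Mb`, `Q_j ⊆ {ρ_j - Mb ≤ nm ≤ ρ_j + Mb} ⊆ Bx 0 ρ`, disjoint, so the `ins Q_j` are disjoint.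
For `q ∈ Bad` with `q.1 ∈ D`: `q ∉ Link Q_j F U` (`link_joins`). So `P(Bad, D) ≤ P(q.1 ∈ D, ∀ j < n, q ∉ Link_j)
= P(D) P(∀ j < n, q ∉ Link_j)` by `indep_gen_prod` with `T = touch F` (`exp_dep`, `link_dep2`), and
`P(∀ j < n, q ∉ Link_j) ≤ (1 - q0 s'^2)^n` by `indep_many` (`L j = ins Q_j`, `link_dep1`) and `link_prob`.
-/

namespace H95LBD

open H5DF MeasureTheory

variable {d : ℕ}

/-- The bad event inside one exploration event. -/
lemma RndA_one (hd : 2 ≤ d) {p1 s s' q0 : ℝ} (h0 : 0 ≤ p1) (h1 : p1 ≤ 1) (hs0 : 0 ≤ s)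
    (hs1 : s ≤ 1) (hs0' : 0 ≤ s') (hs1' : s' ≤ 1) (N M Mb r ρ n : ℕ) (hMb : M + 1 ≤ Mb)
    (hrρ : r ≤ ρ) (hρN : ρ ≤ N) (hn : n * (2 * Mb + 1) ≤ ρ - r) (hq0 : 0 ≤ q0) (hq1 : q0 ≤ 1)
    (hq : ∀ z u v : V d, nm (u - z) ≤ M + 1 → nm (v - z) ≤ M + 1 →
      q0 ≤ (perc d (1 - (1 - p1) * (1 - s))).real {ω | Cn (Bx z Mb) ω u v})
    (x : V d) (hx : nm x ≤ r) (E U F : Set (V d)) :
    ((envM d p1 s).prod (perc d s')).real {q | q ∈ Bad N M r ρ x ∧ q.1 ∈
      {X : Env d | E0 N (lo X) = E ∧ cl N (hi X) x = U ∧ FF N ρ X = F}} ≤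
      (envM d p1 s).real {X : Env d | E0 N (lo X) = E ∧ cl N (hi X) x = U ∧ FF N ρ X = F} *
        (1 - q0 * s' ^ 2) ^ n := by
  have hP1 := isProb_bern h0 h1
  have hPs := isProb_bern hs0 hs1
  have hPs' := isProb_bern hs0' hs1'
  have hpp : IsProbabilityMeasure (perc d s') := by
    unfold perc
    infer_instance
  have hee : IsProbabilityMeasure (envM d p1 s) := isProb_env h0 h1 hs0 hs1
  set D : Set (Env d) := {X : Env d | E0 N (lo X) = E ∧ cl N (hi X) x = U ∧ FF N ρ X = F} with hD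
  have hss : s' ^ 2 ≤ 1 := by nlinarith
  have hδ0 : 0 ≤ 1 - q0 * s' ^ 2 := by nlinarith [sq_nonneg s']
  by_cases hex : ∃ q : Env d × Cfg d, q ∈ Bad N M r ρ x ∧ q.1 ∈ D
  · obtain ⟨q, hqB, hqE, hqU, hqF⟩ := hex
    have hxE : x ∈ E := by
      rw [← hqE]
      exact hqB.2.1
    have hEF : E ⊆ F := by
      rw [← hqE, ← hqF]
      exact Set.subset_union_left
    have hUF : U ⊆ F := by
      rw [← hqU, ← hqF]
      intro v hv
      exact Or.inr ⟨x, hqB.2.1, hx.trans hrρ, hv⟩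
    have hR : ∀ j, j < n → r + Mb + j * (2 * Mb + 1) + Mb ≤ ρ := by
      intro j hj
      have e1 : (j + 1) * (2 * Mb + 1) ≤ n * (2 * Mb + 1) := Nat.mul_le_mul_right _ hj
      have e2 : (j + 1) * (2 * Mb + 1) = j * (2 * Mb + 1) + (2 * Mb + 1) := by ring
      omega
    have hpl : ∀ j, ∃ w u v : V d, j < n → (nm w = r + Mb + j * (2 * Mb + 1) ∧
        u ∈ cl N (hi q.1) x ∧ u ∈ E0 N (lo q.1) ∧ v ∈ E0 N (lo q.1) ∧
        v ∉ cl N (hi q.1) x ∧ nm (u - w) ≤ M + 1 ∧ nm (v - w) ≤ M + 1) := by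
      intro j
      by_cases hj : j < n
      · have h := hR j hj
        obtain ⟨w, u, v, hh⟩ := link_places hd N M r ρ x q hqB hx (r + Mb + j * (2 * Mb + 1))
          (by omega) (by omega)
        exact ⟨w, u, v, fun _ => hh⟩
      · exact ⟨0, 0, 0, fun h => absurd h hj⟩
    choose w u v hwuv using hpl
    set A : ℕ → Set (Env d × Cfg d) := fun j => (Link (Bx (w j) Mb) F U)ᶜ with hA
    have hmA : ∀ i < n, MeasurableSet (A i) := fun i _ => (link_meas _ _ _).compl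
    set Eb : Set (Env d × Cfg d) := {q | ∀ j < n, q ∈ A j} with hEb
    have hmEb : MeasurableSet Eb := by
      have h2 : Eb = ⋂ i, ⋂ (_ : i < n), A i := by
        ext q
        simp [hEb]
      rw [h2]
      exact MeasurableSet.iInter fun i => MeasurableSet.iInter fun hi => hmA i hi
    have hsub : {q | q ∈ Bad N M r ρ x ∧ q.1 ∈ D} ⊆ {q | q.1 ∈ D ∧ q ∈ Eb} := by
      rintro q' ⟨hB', hD'⟩
      refine ⟨hD', ?_⟩
      intro j hj hl
      obtain ⟨-, h2, h3⟩ := hD'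
      obtain ⟨hw, -⟩ := hwuv j hj
      have h := hR j hj
      refine hB'.2.2.2 (link_joins N ρ hρN x q' (Bx (w j) Mb) ?_ ?_)
      · intro y hy
        rw [mem_Bx] at hy
        rw [mem_Bx0]
        have := nm_le_add y (w j)
        omega
      · rw [h2, h3]
        exact hl
    have hind := indep_gen_prod ((bern p1).prod (bern s)) (perc d s') (touch F) D Eb
      (exp_meas N ρ x E U F) hmEb
      (by
        intro X X' h hX
        obtain ⟨e1, e2, e3⟩ := hX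
        obtain ⟨k1, k2, k3⟩ := exp_dep N ρ X X' (by rw [e3]; exact h)
        refine ⟨by rw [k1, e1], ?_, by rw [k3, e3]⟩
        rw [k2 x (by rw [e1]; exact hxE) (hx.trans hrρ), e2])
      (by
        intro η X X' h hX j hj hl
        exact hX j hj (link_dep2 _ _ _ η X' X (fun e he => (h e he).symm) hl))
    have hmany := indep_many (d := d) h0 h1 hs0 hs1 hs0' hs1' n (fun j => ins (Bx (w j) Mb))
      (by
        have key : ∀ i j, i < n → j < n → i < j →
            Disjoint (ins (Bx (w i) Mb)) (ins (Bx (w j) Mb)) := by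
          intro i j hi hj hij
          rw [Set.disjoint_left]
          rintro e ⟨he1, -⟩ ⟨he2, -⟩
          rw [mem_Bx] at he1 he2
          have e1 := (hwuv i hi).1
          have e2 := (hwuv j hj).1
          have t1 := nm_le_add (w j) (w i)
          have t2 := nm_tri (w j) e.1 (w i)
          rw [nm_sub_comm] at he2
          have t3 : (i + 1) * (2 * Mb + 1) ≤ j * (2 * Mb + 1) := Nat.mul_le_mul_right _ hij
          have t4 : (i + 1) * (2 * Mb + 1) = i * (2 * Mb + 1) + (2 * Mb + 1) := by ring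
          omega
        intro i hi j hj hij
        rcases lt_or_gt_of_ne hij with h | h
        · exact key i j hi hj h
        · exact (key j i hj hi h).symm)
      A hmA
      (by
        intro i hi q1 q2 h hA1 hl
        exact hA1 (link_dep1 _ _ _ q2 q1 (fun e he => ⟨(h e he).1.symm, (h e he).2.symm⟩) hl))
      (1 - q0 * s' ^ 2)
      (by
        intro i hi
        obtain ⟨hw, huU, huE, hvE, hvU, huw, hvw⟩ := hwuv i hi
        have hlp := link_prob h0 h1 hs0 hs1 hs0' hs1' (Bx (w i) Mb) F U hUF (u i) (v i)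
          (by rw [← hqU]; exact huU) (by rw [mem_Bx]; omega)
          (hEF (by rw [← hqE]; exact hvE)) (by rw [← hqU]; exact hvU)
          (hq (w i) (u i) (v i) huw hvw)
        have hc : ((envM d p1 s).prod (perc d s')).real (A i) =
            1 - ((envM d p1 s).prod (perc d s')).real (Link (Bx (w i) Mb) F U) :=
          probReal_compl_eq_one_sub (link_meas _ _ _)
        rw [hc]
        linarith)
    have hreal : ((envM d p1 s).prod (perc d s')).real {q | q.1 ∈ D ∧ q ∈ Eb} =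
        (envM d p1 s).real D * ((envM d p1 s).prod (perc d s')).real Eb := by
      rw [Measure.real, Measure.real, Measure.real, ← ENNReal.toReal_mul]
      exact congrArg ENNReal.toReal hind
    calc ((envM d p1 s).prod (perc d s')).real {q | q ∈ Bad N M r ρ x ∧ q.1 ∈ D} ≤
          ((envM d p1 s).prod (perc d s')).real {q | q.1 ∈ D ∧ q ∈ Eb} := measureReal_mono hsub
      _ = (envM d p1 s).real D * ((envM d p1 s).prod (perc d s')).real Eb := hreal
      _ ≤ (envM d p1 s).real D * (1 - q0 * s' ^ 2) ^ n :=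
          mul_le_mul_of_nonneg_left hmany measureReal_nonneg
  · have he : {q | q ∈ Bad N M r ρ x ∧ q.1 ∈ D} = (∅ : Set (Env d × Cfg d)) := by
      ext q
      simp only [Set.mem_setOf_eq, Set.mem_empty_iff_false, iff_false]
      exact fun h => hex ⟨q, h⟩
    rw [he, measureReal_empty]
    exact mul_nonneg measureReal_nonneg (pow_nonneg hδ0 n)

theorem bad_le (hd : 2 ≤ d) {p1 s s' q0 : ℝ} (h0 : 0 ≤ p1) (h1 : p1 ≤ 1) (hs0 : 0 ≤ s)
    (hs1 : s ≤ 1) (hs0' : 0 ≤ s') (hs1' : s' ≤ 1) (N M Mb r ρ n : ℕ) (hMb : M + 1 ≤ Mb)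
    (hrρ : r ≤ ρ) (hρN : ρ ≤ N) (hn : n * (2 * Mb + 1) ≤ ρ - r) (hq0 : 0 ≤ q0) (hq1 : q0 ≤ 1)
    (hq : ∀ z u v : V d, nm (u - z) ≤ M + 1 → nm (v - z) ≤ M + 1 →
      q0 ≤ (perc d (1 - (1 - p1) * (1 - s))).real {ω | Cn (Bx z Mb) ω u v})
    (x : V d) (hx : nm x ≤ r) :
    ((envM d p1 s).prod (perc d s')).real (Bad N M r ρ x) ≤ (1 - q0 * s' ^ 2) ^ n := by
  have hP1 := isProb_bern h0 h1
  have hPs := isProb_bern hs0 hs1
  have hPs' := isProb_bern hs0' hs1'
  have hpp : IsProbabilityMeasure (perc d s') := by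
    unfold perc
    infer_instance
  have hee : IsProbabilityMeasure (envM d p1 s) := isProb_env h0 h1 hs0 hs1
  have hss : s' ^ 2 ≤ 1 := by nlinarith
  have hδ0 : 0 ≤ 1 - q0 * s' ^ 2 := by nlinarith [sq_nonneg s']
  set Tt : Finset (Finset (V d) × Finset (V d) × Finset (V d)) :=
    (Box d N).powerset ×ˢ ((Box d N).powerset ×ˢ (Box d N).powerset) with hTt
  set Dd : Finset (V d) × Finset (V d) × Finset (V d) → Set (Env d) := fun t =>
    {X : Env d | E0 N (lo X) = (t.1 : Set (V d)) ∧ cl N (hi X) x = (t.2.1 : Set (V d)) ∧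
      FF N ρ X = (t.2.2 : Set (V d))} with hDd
  have hfin : ∀ S : Set (V d), (∀ y ∈ S, nm y ≤ N) →
      ∃ S' ∈ (Box d N).powerset, (S' : Set (V d)) = S := by
    classical
    intro S hS
    refine ⟨(Box d N).filter (fun y => y ∈ S), ?_, ?_⟩
    · rw [Finset.mem_powerset]
      exact Finset.filter_subset _ _
    · ext y
      rw [Finset.mem_coe, Finset.mem_filter, mem_Box']
      exact ⟨fun h => h.2, fun h => ⟨hS y h, h⟩⟩
  have hcov : Bad N M r ρ x ⊆ ⋃ t ∈ Tt, {q | q ∈ Bad N M r ρ x ∧ q.1 ∈ Dd t} := by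
    intro q hqB
    obtain ⟨E, hE, hE2⟩ := hfin (E0 N (lo q.1)) (fun y hy => E0_sub hy)
    obtain ⟨U, hU, hU2⟩ := hfin (cl N (hi q.1) x)
      (fun y hy => mem_Bx0.1 (Cn.mem hy (mem_Bx0.2 (by omega))))
    obtain ⟨F, hF, hF2⟩ := hfin (FF N ρ q.1) (fun y hy => FF_sub hy)
    rw [Set.mem_iUnion₂]
    refine ⟨(E, U, F), ?_, hqB, hE2.symm, hU2.symm, hF2.symm⟩
    rw [hTt, Finset.mem_product, Finset.mem_product]
    exact ⟨hE, hU, hF⟩
  have hsum : ∑ t ∈ Tt, (envM d p1 s).real (Dd t) ≤ 1 := by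
    have hdisj : (Tt : Set (Finset (V d) × Finset (V d) × Finset (V d))).PairwiseDisjoint Dd := by
      intro t _ t' _ htt
      change Disjoint (Dd t) (Dd t')
      rw [Set.disjoint_left]
      rintro X ⟨a1, a2, a3⟩ ⟨b1, b2, b3⟩
      apply htt
      have c1 : t.1 = t'.1 := Finset.coe_injective (a1.symm.trans b1)
      have c2 : t.2.1 = t'.2.1 := Finset.coe_injective (a2.symm.trans b2)
      have c3 : t.2.2 = t'.2.2 := Finset.coe_injective (a3.symm.trans b3)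
      exact Prod.ext c1 (Prod.ext c2 c3)
    have h := measureReal_biUnion_finset (μ := envM d p1 s) hdisj
      (fun t _ => exp_meas N ρ x (t.1 : Set (V d)) (t.2.1 : Set (V d)) (t.2.2 : Set (V d)))
    rw [← h]
    exact measureReal_le_one
  calc ((envM d p1 s).prod (perc d s')).real (Bad N M r ρ x) ≤
        ((envM d p1 s).prod (perc d s')).real (⋃ t ∈ Tt, {q | q ∈ Bad N M r ρ x ∧ q.1 ∈ Dd t}) :=
        measureReal_mono hcov (measure_ne_top _ _)
    _ ≤ ∑ t ∈ Tt, ((envM d p1 s).prod (perc d s')).real {q | q ∈ Bad N M r ρ x ∧ q.1 ∈ Dd t} :=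
        measureReal_biUnion_finset_le _ _
    _ ≤ ∑ t ∈ Tt, (envM d p1 s).real (Dd t) * (1 - q0 * s' ^ 2) ^ n :=
        Finset.sum_le_sum fun t _ => RndA_one hd h0 h1 hs0 hs1 hs0' hs1' N M Mb r ρ n hMb hrρ hρN
          hn hq0 hq1 hq x hx _ _ _
    _ = (∑ t ∈ Tt, (envM d p1 s).real (Dd t)) * (1 - q0 * s' ^ 2) ^ n := by rw [Finset.sum_mul]
    _ ≤ 1 * (1 - q0 * s' ^ 2) ^ n := mul_le_mul_of_nonneg_right hsum (pow_nonneg hδ0 n)
    _ = (1 - q0 * s' ^ 2) ^ n := one_mul _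

end H95LBD
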