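import Pool.Agent.H95.LBD.RndDef
import Pool.Agent.H95.LBD.Halve

/-!
PROJECT DL (MP_0d9ad5_pr), JOB DL-RndB. One round halves the number of clusters.
PROOF. If `Ncl N r (lo q.1) (hi (uni ..)) ≥ 2`: for every `x ∈ E0`, `nm x ≤ r`, there is `z ∈ E0`, `nm z ≤ r`, in
another cluster of `hi (uni ..)`, so `z ∉ cl N (hi q.1) x` (`cl_mono`, `hi_le_uni`); as `q ∉ Bad` there is
`y ∈ E0`, `nm y ≤ ρ`, `y ∉ cl N (hi q.1) x`, `y ∈ cl N (hi (uni ..)) x`. Apply `halve` with `A = E0 ∩ Box ρ`,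
`A' = E0 ∩ Box r`, `f = cl N (hi q.1)`, `f' = cl N (hi (uni ..))` (`cl_eq`: `y ∈ cl x ↔ cl y = cl x`).
-/

namespace H95LBD

open H5DF MeasureTheory

variable {d : ℕ}

theorem ncl_halve (N M r ρ : ℕ) (hrρ : r ≤ ρ) (q : Env d × Cfg d) (hNH : NHo N M (lo q.1))
    (hbad : ∀ x ∈ Box d r, q ∉ Bad N M r ρ x) :
    Ncl N r (lo q.1) (hi (uni q.1 q.2)) ≤ 1 ∨
      2 * Ncl N r (lo q.1) (hi (uni q.1 q.2)) ≤ Ncl N ρ (lo q.1) (hi q.1) := by
  classical
  by_cases h1 : Ncl N r (lo q.1) (hi (uni q.1 q.2)) ≤ 1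
  · exact Or.inl h1
  · right
    have h1' : 1 < Ncl N r (lo q.1) (hi (uni q.1 q.2)) := by omega
    unfold Ncl at h1' ⊢
    refine halve _ _ ?_ (fun x => cl N (hi q.1) x) (fun x => cl N (hi (uni q.1 q.2)) x) ?_ ?_
    · intro x hx
      rw [Finset.mem_filter, mem_Box'] at hx ⊢
      exact ⟨hx.1.trans hrρ, hx.2⟩
    · intro x _ y _ hxy
      have hxy' : cl N (hi q.1) x = cl N (hi q.1) y := hxy
      have hy : y ∈ cl N (hi q.1) x := by
        rw [hxy']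
        exact mem_cl_self _ _ _
      exact (cl_eq (cl_mono hy (hi_le_uni q.1 q.2))).symm
    · intro x hx
      rw [Finset.mem_filter] at hx
      obtain ⟨b, hb, hne⟩ := Finset.exists_mem_ne h1' (cl N (hi (uni q.1 q.2)) x)
      rw [Finset.mem_image] at hb
      obtain ⟨z, hz, rfl⟩ := hb
      rw [Finset.mem_filter, mem_Box'] at hz
      have hz' : z ∉ cl N (hi q.1) x := fun h => hne (cl_eq (cl_mono h (hi_le_uni q.1 q.2)))
      have hnb := hbad x hx.1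
      by_contra hcon
      refine hnb ⟨hNH, hx.2, ⟨z, hz.2, hz.1, hz'⟩, ?_⟩
      rintro ⟨y, hy1, hy2, hy3, hy4⟩
      refine hcon ⟨y, ?_, ?_, ?_⟩
      · rw [Finset.mem_filter, mem_Box']
        exact ⟨hy2, hy1⟩
      · intro h
        apply hy3
        have h' : cl N (hi q.1) y = cl N (hi q.1) x := h
        rw [← h']
        exact mem_cl_self _ _ _
      · exact cl_eq hy4

lemma ncl_le (N : ℕ) (ζ ω : Cfg d) : Ncl N N ζ ω ≤ (2 * N + 1) ^ d := by
  classical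
  unfold Ncl
  refine Finset.card_image_le.trans ((Finset.card_filter_le _ _).trans ?_)
  rw [card_Box]

end H95LBD
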