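import Pool.Agent.H95.LBD.RndA
import Pool.Agent.H95.LBD.RndB
import Pool.Agent.H95.LBD.LawB

/-!
PROJECT DL (MP_0d9ad5_pr), JOB DL-RndC. Induction over the rounds.
PROOF. `round_step`: by `map_uni` the left side is the probability under `(envM d p1 s).prod (perc d s')` of
`uni q.1 q.2 ∈ FS N M r (2 k)`; by `ncl_halve` this is contained in `{q.1 ∈ FS N M ρ k} ∪ ⋃_{x ∈ Box d r} Bad x`
(`lo (uni X η) = lo X`; if `Ncl N ρ ≤ 1` then `Ncl N r ... ≤ 1` too: `Ncl N r (union) ≤ Ncl N ρ (hi)`, a larger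
configuration and a smaller ball have fewer clusters). Use `bad_le`, `card_Box`. Measurability of `FS`: depends
on countably many events `Cn`, or use outer measure arguments (`measureReal_mono`, preimage under a measurable
map of a measurable set; `FS` is a finite boolean combination of events `{Cn (Bx 0 N) ω x y}`, `x, y ∈ Box d N`).
`rounds`: induction on `i`, `s_i = 1 - (1-s')^i`, `ρ_i = N - i l`; base: `FS N M N 1 = ∅` (`ncl_le`).
`(2 * r + 1)^d ≤ (2 N + 1)^d`.
-/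

namespace H95LBD

open H5DF MeasureTheory

variable {d : ℕ}

lemma rndC_cut {S : Set (V d)} {ω ω' : Cfg d} (h : ∀ e ∈ ins S, ω e = ω' e) :
    cut S ω = cut S ω' := by
  classical
  funext e
  by_cases he : e ∈ ins S
  · simp only [cut, h e he]
  · have h1 : ¬ (e.1 ∈ S ∧ e.1 + Pi.single e.2 1 ∈ S) := he
    simp only [cut, h1, decide_false, Bool.and_false]

lemma rndC_dep (N M r k : ℕ) {X X' : Env d} (h : ∀ e ∈ ins (Bx (0 : V d) N), X e = X' e)
    (hX : X ∈ FS N M r k) : X' ∈ FS N M r k := by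
  have h1 : cut (Bx (0 : V d) N) (lo X) = cut (Bx (0 : V d) N) (lo X') :=
    rndC_cut fun e he => by simp only [lo, h e he]
  have h2 : cut (Bx (0 : V d) N) (hi X) = cut (Bx (0 : V d) N) (hi X') :=
    rndC_cut fun e he => by simp only [hi, h e he]
  have h3 : E0 N (lo X) = E0 N (lo X') := by
    simp only [E0, Cn, h1]
  have h4 : ∀ x, cl N (hi X) x = cl N (hi X') x := by
    intro x
    simp only [cl, Cn, h2]
  have h5 : NHo N M (lo X) ↔ NHo N M (lo X') := by
    simp only [NHo, h3]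
  have h6 : Ncl N r (lo X) (hi X) = Ncl N r (lo X') (hi X') := by
    unfold Ncl
    rw [h3]
    congr 2
    funext x
    exact h4 x
  simp only [FS, Set.mem_ofPred_eq] at hX ⊢
  rw [← h5, ← h6]
  exact hX

lemma rndC_meas (N M r k : ℕ) : MeasurableSet (FS N M r k : Set (Env d)) := by
  classical
  let π : Env d → ((EF d N) → Bool × Bool) := fun X e => X e.1
  have hπ : Measurable π := measurable_pi_lambda _ fun e => measurable_pi_apply _
  have h : (FS N M r k : Set (Env d)) = π ⁻¹' (π '' FS N M r k) := by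
    apply Set.Subset.antisymm
    · exact Set.subset_preimage_image _ _
    · rintro X ⟨X', hX', hXX⟩
      refine rndC_dep N M r k (fun e he => ?_) hX'
      exact congrFun hXX ⟨e, mem_EF.2 he⟩
  rw [h]
  exact hπ (Set.Finite.measurableSet (Set.toFinite _))

theorem round_step (hd : 2 ≤ d) {p1 s s' q0 : ℝ} (h0 : 0 ≤ p1) (h1 : p1 ≤ 1) (hs0 : 0 ≤ s)
    (hs1 : s ≤ 1) (hs0' : 0 ≤ s') (hs1' : s' ≤ 1) (N M Mb r ρ n k : ℕ) (hMb : M + 1 ≤ Mb)
    (hrρ : r ≤ ρ) (hρN : ρ ≤ N) (hn : n * (2 * Mb + 1) ≤ ρ - r) (hq0 : 0 ≤ q0) (hq1 : q0 ≤ 1)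
    (hq : ∀ z u v : V d, nm (u - z) ≤ M + 1 → nm (v - z) ≤ M + 1 →
      q0 ≤ (perc d (1 - (1 - p1) * (1 - s))).real {ω | Cn (Bx z Mb) ω u v}) :
    (envM d p1 (1 - (1 - s) * (1 - s'))).real (FS N M r (2 * k)) ≤
      (envM d p1 s).real (FS N M ρ k) + (2 * N + 1) ^ d * (1 - q0 * s' ^ 2) ^ n := by
  have hE := isProb_env (d := d) h0 h1 hs0 hs1
  have hb := isProb_bern hs0' hs1'
  have hP : IsProbabilityMeasure (perc d s') := by
    unfold perc
    infer_instance
  set μ := (envM d p1 s).prod (perc d s') with hμ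
  have ht : 0 ≤ 1 - q0 * s' ^ 2 := by
    have h2 : s' ^ 2 ≤ 1 := pow_le_one₀ hs0' hs1'
    have h3 : q0 * s' ^ 2 ≤ 1 := mul_le_one₀ hq1 (sq_nonneg _) h2
    linarith
  have e1 : (envM d p1 (1 - (1 - s) * (1 - s'))).real (FS N M r (2 * k)) =
      μ.real {q | uni q.1 q.2 ∈ FS N M r (2 * k)} := by
    rw [← map_uni h0 h1 hs0 hs1 hs0' hs1', map_measureReal_apply measurable_uni
      (rndC_meas N M r (2 * k))]
    rfl
  have hsub : {q : Env d × Cfg d | uni q.1 q.2 ∈ FS N M r (2 * k)} ⊆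
      (FS N M ρ k ×ˢ Set.univ) ∪ ⋃ x ∈ Box d r, Bad N M r ρ x := by
    intro q hqF
    obtain ⟨hNH, hF⟩ := hqF
    rw [lo_uni] at hNH hF
    by_cases hbad : ∀ x ∈ Box d r, q ∉ Bad N M r ρ x
    · left
      refine ⟨⟨hNH, ?_⟩, Set.mem_univ _⟩
      push Not at hF
      rcases ncl_halve N M r ρ hrρ q hNH hbad with h | h
      · omega
      · push Not
        refine ⟨by omega, hF.2.trans_le ?_⟩
        calc 2 * k * Ncl N r (lo q.1) (hi (uni q.1 q.2)) =
            k * (2 * Ncl N r (lo q.1) (hi (uni q.1 q.2))) := by ring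
          _ ≤ k * Ncl N ρ (lo q.1) (hi q.1) := Nat.mul_le_mul_left _ h
    · right
      push Not at hbad
      obtain ⟨x, hx, hxb⟩ := hbad
      exact Set.mem_biUnion hx hxb
  have e2 : μ.real (FS N M ρ k ×ˢ (Set.univ : Set (Cfg d))) = (envM d p1 s).real (FS N M ρ k) := by
    rw [hμ, measureReal_def, Measure.prod_prod, measure_univ, mul_one, measureReal_def]
  have e3 : μ.real (⋃ x ∈ Box d r, Bad N M r ρ x) ≤ (2 * N + 1) ^ d * (1 - q0 * s' ^ 2) ^ n := by
    calc μ.real (⋃ x ∈ Box d r, Bad N M r ρ x) ≤ ∑ x ∈ Box d r, μ.real (Bad N M r ρ x) :=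
          measureReal_biUnion_finset_le _ _
      _ ≤ ∑ x ∈ Box d r, (1 - q0 * s' ^ 2) ^ n := by
          refine Finset.sum_le_sum fun x hx => ?_
          exact bad_le hd h0 h1 hs0 hs1 hs0' hs1' N M Mb r ρ n hMb hrρ hρN hn hq0 hq1 hq x
            (mem_Box'.1 hx)
      _ = (2 * r + 1) ^ d * (1 - q0 * s' ^ 2) ^ n := by
          rw [Finset.sum_const, nsmul_eq_mul, card_Box]
          push_cast
          ring
      _ ≤ (2 * N + 1) ^ d * (1 - q0 * s' ^ 2) ^ n := by
          refine mul_le_mul_of_nonneg_right ?_ (pow_nonneg ht n)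
          have h2 : (r : ℝ) ≤ N := by exact_mod_cast hrρ.trans hρN
          refine pow_le_pow_left₀ (by positivity) ?_ d
          linarith
  calc (envM d p1 (1 - (1 - s) * (1 - s'))).real (FS N M r (2 * k)) =
      μ.real {q | uni q.1 q.2 ∈ FS N M r (2 * k)} := e1
    _ ≤ μ.real ((FS N M ρ k ×ˢ Set.univ) ∪ ⋃ x ∈ Box d r, Bad N M r ρ x) :=
        measureReal_mono hsub
    _ ≤ μ.real (FS N M ρ k ×ˢ (Set.univ : Set (Cfg d))) +
        μ.real (⋃ x ∈ Box d r, Bad N M r ρ x) := measureReal_union_le _ _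
    _ ≤ _ := by
        rw [e2]
        exact add_le_add_right e3 _

theorem rounds (hd : 2 ≤ d) {p1 s' q0 : ℝ} (h0 : 0 ≤ p1) (h1 : p1 ≤ 1)
    (hs0' : 0 ≤ s') (hs1' : s' ≤ 1) (N M Mb l n : ℕ) (hMb : M + 1 ≤ Mb)
    (hn : n * (2 * Mb + 1) ≤ l) (hq0 : 0 ≤ q0) (hq1 : q0 ≤ 1)
    (hq : ∀ z u v : V d, nm (u - z) ≤ M + 1 → nm (v - z) ≤ M + 1 → ∀ p : ℝ, p1 ≤ p → p ≤ 1 →
      q0 ≤ (perc d p).real {ω | Cn (Bx z Mb) ω u v}) (i : ℕ) (hi : i * l ≤ N) :
    (envM d p1 (1 - (1 - s') ^ i)).real (FS N M (N - i * l) (2 ^ i)) ≤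
      i * ((2 * N + 1) ^ d * (1 - q0 * s' ^ 2) ^ n) := by
  induction i with
  | zero =>
    have h : (FS N M (N - 0 * l) (2 ^ 0) : Set (Env d)) = ∅ := by
      ext X
      simp only [Set.mem_empty_iff_false, iff_false]
      rintro ⟨-, h⟩
      apply h
      right
      rw [zero_mul, Nat.sub_zero, pow_zero, one_mul]
      exact ncl_le _ _ _
    rw [h]
    simp
  | succ i ih =>
    have hl : (i + 1) * l = i * l + l := by ring
    have hi' : i * l ≤ N := by omega
    have ih' := ih hi'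
    have hb0 : 0 ≤ (1 - s') ^ i := pow_nonneg (by linarith) i
    have hb1 : (1 - s') ^ i ≤ 1 := pow_le_one₀ (by linarith) (by linarith)
    have key := round_step (d := d) hd (p1 := p1) (s := 1 - (1 - s') ^ i) (s' := s') (q0 := q0)
      h0 h1 (by linarith) (by linarith) hs0' hs1' N M Mb (N - (i + 1) * l) (N - i * l) n (2 ^ i)
      hMb (by omega) (by omega) (by omega) hq0 hq1
      (fun z u v hu hv => hq z u v hu hv _ (by nlinarith) (by nlinarith))
    have e1 : (1 : ℝ) - (1 - (1 - (1 - s') ^ i)) * (1 - s') = 1 - (1 - s') ^ (i + 1) := by ring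
    have e2 : 2 * 2 ^ i = 2 ^ (i + 1) := by ring
    rw [e1, e2] at key
    refine key.trans ?_
    push_cast
    linarith

end H95LBD
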