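import Pool.Agent.H95.LBD.RndDef
import Pool.Agent.H95.LBD.HoleA

/-!
PROJECT DL (MP_0d9ad5_pr), JOB DL-RndD. Probability that some ball misses `E0`.
PROOF. Union bound over `w ∈ Box d N`. For `nm w + M ≤ N`: if no point of `E0` is within `M` of `w` then
`shift w ζ ∈ Hole M (2 N)`: let `u ∈ Box d M`, `2N ≤ nm y`, `y ∈ cluster (shift w ζ) u`, i.e.
`y + w ∈ cluster ζ (u + w)` (`cluster_shift`), `nm (u+w) ≤ N`, `nm (y+w) ≥ 2N - nm w ≥ N`; `Cn.cross`
(`S = univ`, `Cn_univ`) gives `z`, `nm z = N`, `Cn (Bx 0 N) ζ (u+w) z`, so `u + w ∈ E0`. `perc_shift`.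
-/

namespace H95LBD

open H5DF MeasureTheory

variable {d : ℕ}

lemma RndD_hole (N M : ℕ) (ζ : Cfg d) (w : V d) (hw : nm w + M ≤ N)
    (h : ∀ x ∈ E0 N ζ, ¬ nm (x - w) ≤ M) : shift w ζ ∈ (Hole M (2 * N) : Set (Cfg d)) := by
  intro u hu y hy hyu
  rw [cluster_shift] at hyu
  have hyu' : y + w ∈ cluster ζ (u + w) := hyu
  have hu' := mem_Box'.1 hu
  have h1 : nm (u + w) ≤ N := by
    have := nm_add u w
    omega
  have h2 : N ≤ nm (y + w) := by
    have h3 := nm_sub (y + w) w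
    rw [add_sub_cancel_right] at h3
    omega
  obtain ⟨z, hz, hc⟩ := (Cn_univ.2 hyu').cross N h1 h2
  refine h (u + w) ⟨h1, z, hz, hc.mono Set.inter_subset_right fun _ h => h⟩ ?_
  rw [add_sub_cancel_right]
  exact hu'

theorem nh_fail (p : ℝ) (h0 : 0 ≤ p) (h1 : p ≤ 1) (N M : ℕ) (h : ℝ)
    (hh : (perc d p).real (Hole M (2 * N)) ≤ h) :
    (perc d p).real {ζ : Cfg d | ¬ NHo N M ζ} ≤ (2 * N + 1) ^ d * h := by
  have hP : IsProbabilityMeasure (perc d p) := isProb_perc p h0 h1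
  have hsub : {ζ : Cfg d | ¬ NHo N M ζ} ⊆
      ⋃ w ∈ Box d N, (shift w) ⁻¹' (Hole M (2 * N) : Set (Cfg d)) := by
    intro ζ hζ
    have hζ' : ¬ NHo N M ζ := hζ
    simp only [NHo, not_forall, not_exists, not_and] at hζ'
    obtain ⟨w, hw, hx⟩ := hζ'
    simp only [Set.mem_iUnion, exists_prop]
    refine ⟨w, mem_Box'.2 (by omega), ?_⟩
    exact RndD_hole N M ζ w hw fun x hx' hn => hx x hx' hn
  have hone : ∀ w : V d, (perc d p).real ((shift w) ⁻¹' (Hole M (2 * N) : Set (Cfg d))) =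
      (perc d p).real (Hole M (2 * N)) := by
    intro w
    have hs := perc_shift (d := d) p h0 h1 w
    have hm := Measure.map_apply (μ := perc d p) (measurable_shift w) (meas_hole (d := d) M (2 * N))
    rw [hs] at hm
    simp only [Measure.real, hm]
  calc (perc d p).real {ζ : Cfg d | ¬ NHo N M ζ}
      ≤ (perc d p).real (⋃ w ∈ Box d N, (shift w) ⁻¹' (Hole M (2 * N) : Set (Cfg d))) :=
        measureReal_mono hsub (measure_ne_top _ _)
    _ ≤ ∑ w ∈ Box d N, (perc d p).real ((shift w) ⁻¹' (Hole M (2 * N) : Set (Cfg d))) :=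
        measureReal_biUnion_finset_le _ _
    _ = (2 * N + 1) ^ d * (perc d p).real (Hole M (2 * N)) := by
        rw [Finset.sum_congr rfl fun w _ => hone w, Finset.sum_const, card_Box, nsmul_eq_mul]
        push_cast
        ring
    _ ≤ (2 * N + 1) ^ d * h := by
        have : (0 : ℝ) ≤ (2 * N + 1) ^ d := by positivity
        exact mul_le_mul_of_nonneg_left hh this

end H95LBD
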