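import Pool.Agent.H95.LBD.RndC
import Pool.Agent.H95.LBD.RndD
import Pool.Agent.H95.LBD.LawA

/-!
PROJECT DL (MP_0d9ad5_pr), JOB DL-RndE. Local uniqueness.
PROOF. `N = 2R`, radius `N - I l ≥ R`. `LUF R ⊆ {¬ NHo N M (lo X)} ∪ FS N M (N - I l) (2^I)`: if `NHo` and not `FS`:
either `Ncl ≤ 1`, or `2^I Ncl ≤ (4R+1)^d < 2^I`, so `Ncl = 0`; in both cases two points of `E0` of norm `≤ R` have the
same cluster. `rounds` with `i = I`, `hs'`; `nh_fail` with `map_lo`.
-/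

namespace H95LBD

open H5DF MeasureTheory

variable {d : ℕ}

theorem local_uniq (hd : 2 ≤ d) {p1 s s' q0 h : ℝ} (h0 : 0 ≤ p1) (h1 : p1 ≤ 1)
    (hs0' : 0 ≤ s') (hs1' : s' ≤ 1) (R M Mb I l n : ℕ) (hs' : 1 - (1 - s') ^ I = s)
    (hMb : M + 1 ≤ Mb) (hI : (4 * R + 1) ^ d < 2 ^ I) (hl : I * l ≤ R)
    (hn : n * (2 * Mb + 1) ≤ l) (hq0 : 0 ≤ q0) (hq1 : q0 ≤ 1)
    (hq : ∀ z u v : V d, nm (u - z) ≤ M + 1 → nm (v - z) ≤ M + 1 → ∀ p : ℝ, p1 ≤ p → p ≤ 1 →
      q0 ≤ (perc d p).real {ω | Cn (Bx z Mb) ω u v})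
    (hh : (perc d p1).real (Hole M (4 * R)) ≤ h) :
    (envM d p1 s).real (LUF R) ≤
      (4 * R + 1) ^ d * h + I * ((4 * R + 1) ^ d * (1 - q0 * s' ^ 2) ^ n) := by
  have hb0 : 0 ≤ (1 - s') ^ I := pow_nonneg (by linarith) I
  have hb1 : (1 - s') ^ I ≤ 1 := pow_le_one₀ (by linarith) (by linarith)
  have hs0 : 0 ≤ s := by linarith
  have hs1 : s ≤ 1 := by linarith
  have hE : IsProbabilityMeasure (envM d p1 s) := isProb_env h0 h1 hs0 hs1
  have hpp : IsProbabilityMeasure (perc d p1) := isProb_perc p1 h0 h1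
  have hsub : (LUF R : Set (Env d)) ⊆
      {X : Env d | ¬ NHo (2 * R) M (lo X)} ∪ FS (2 * R) M (2 * R - I * l) (2 ^ I) := by
    rintro X ⟨x, hx, y, hy, hxR, hyR, hxy⟩
    by_cases hN : NHo (2 * R) M (lo X)
    · right
      refine ⟨hN, ?_⟩
      intro hor
      have h1' : Ncl (2 * R) (2 * R - I * l) (lo X) (hi X) ≤ 1 := by
        rcases hor with h' | h'
        · exact h'
        · by_contra hc
          push Not at hc
          have e1 : 2 * (2 * R) + 1 = 4 * R + 1 := by ring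
          rw [e1] at h'
          have h3 : 2 ^ I * 1 ≤ 2 ^ I * Ncl (2 * R) (2 * R - I * l) (lo X) (hi X) :=
            Nat.mul_le_mul_left _ hc.le
          omega
      classical
      have h2 := Finset.card_le_one.1 h1' (cl (2 * R) (hi X) y)
        (Finset.mem_image.2 ⟨y, Finset.mem_filter.2 ⟨mem_Box'.2 (by omega), hy⟩, rfl⟩)
        (cl (2 * R) (hi X) x)
        (Finset.mem_image.2 ⟨x, Finset.mem_filter.2 ⟨mem_Box'.2 (by omega), hx⟩, rfl⟩)
      apply hxy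
      rw [← h2]
      exact mem_cl_self _ _ _
    · left
      exact hN
  have hA : (envM d p1 s).real {X : Env d | ¬ NHo (2 * R) M (lo X)} ≤ (4 * R + 1) ^ d * h := by
    have e2 : 2 * (2 * R) = 4 * R := by ring
    have h3 := nh_fail (d := d) p1 h0 h1 (2 * R) M h (by rw [e2]; exact hh)
    have h4 : (envM d p1 s).real {X : Env d | ¬ NHo (2 * R) M (lo X)} ≤
        (perc d p1).real {ζ : Cfg d | ¬ NHo (2 * R) M ζ} := by
      have h5 := Measure.le_map_apply (μ := envM d p1 s) (measurable_lo (d := d)).aemeasurable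
        {ζ : Cfg d | ¬ NHo (2 * R) M ζ}
      rw [map_lo h0 h1 hs0 hs1] at h5
      exact ENNReal.toReal_mono (measure_ne_top _ _) h5
    refine h4.trans (h3.trans (le_of_eq ?_))
    push_cast
    ring
  have hB : (envM d p1 s).real (FS (2 * R) M (2 * R - I * l) (2 ^ I)) ≤
      I * ((4 * R + 1) ^ d * (1 - q0 * s' ^ 2) ^ n) := by
    have h3 := rounds (d := d) hd h0 h1 hs0' hs1' (2 * R) M Mb l n hMb hn hq0 hq1 hq I (by omega)
    rw [hs'] at h3
    refine h3.trans (le_of_eq ?_)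
    push_cast
    ring
  calc (envM d p1 s).real (LUF R)
      ≤ (envM d p1 s).real ({X : Env d | ¬ NHo (2 * R) M (lo X)} ∪
          FS (2 * R) M (2 * R - I * l) (2 ^ I)) := measureReal_mono hsub (measure_ne_top _ _)
    _ ≤ _ := measureReal_union_le _ _
    _ ≤ _ := add_le_add hA hB

end H95LBD
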