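import Pool.Agent.H95.LBD.Setup

/-!
PROJECT DL (MP_0d9ad5_pr), JOB DL-Russo. Russo's formula for a finite product, all events.
PROOF. `wt p ω = ∏ i, g (ω i) p` with `g true p = p`, `g false p = 1 - p` (`H5DF.wt`, `H5DF.pr`, file
H5/DF/BK.lean; `ind` is the indicator). `HasDerivAt.fun_finset_prod`: the derivative of `wt p ω` is
`∑ i, (∏ j ∈ univ.erase i, g (ω j) p) * (±1)`. For fixed `i`: `∑_ω (±1) ∏_{j ≠ i} g (ω j) p ind (S ω)
= pr p {update true ∈ S} - pr p {update false ∈ S}`: pair `ω` with the configuration flipped at `i` (both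
`update ω i true`, `update ω i false` are the same for the pair, `p + (1-p) = 1`).
-/

namespace H95LBD

open H5DF MeasureTheory

/-- Flip of the coordinate `i`. -/
def russoFlip {ι : Type*} [DecidableEq ι] (i : ι) (ω : ι → Bool) : ι → Bool :=
  Function.update ω i (!ω i)

lemma russo_flip_invol {ι : Type*} [DecidableEq ι] (i : ι) :
    Function.Involutive (russoFlip (ι := ι) i) := by
  intro ω
  unfold russoFlip
  simp

/-- If two functions have the same pair sums under the flip at `i`, they have the same sum. -/
lemma russo_pair {ι : Type*} [Fintype ι] [DecidableEq ι] (i : ι) (F G : (ι → Bool) → ℝ)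
    (h : ∀ ω, F ω + F (russoFlip i ω) = G ω + G (russoFlip i ω)) : ∑ ω, F ω = ∑ ω, G ω := by
  have hs : ∀ K : (ι → Bool) → ℝ, ∑ ω, K (russoFlip i ω) = ∑ ω, K ω := fun K =>
    (russo_flip_invol i).bijective.sum_comp K
  have h1 : ∑ ω, (F ω + F (russoFlip i ω)) = ∑ ω, (G ω + G (russoFlip i ω)) :=
    Finset.sum_congr rfl fun ω _ => h ω
  rw [Finset.sum_add_distrib, Finset.sum_add_distrib, hs F, hs G] at h1
  linarith

/-- The weight without the coordinate `i`. -/
def russoW {ι : Type*} [Fintype ι] [DecidableEq ι] (p : ℝ) (i : ι) (ω : ι → Bool) : ℝ :=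
  ∏ j ∈ Finset.univ.erase i, (if ω j then p else 1 - p)

lemma russo_W_flip {ι : Type*} [Fintype ι] [DecidableEq ι] (p : ℝ) (i : ι) (ω : ι → Bool) :
    russoW p i (russoFlip i ω) = russoW p i ω := by
  unfold russoW russoFlip
  refine Finset.prod_congr rfl fun j hj => ?_
  rw [Function.update_of_ne (Finset.ne_of_mem_erase hj)]

lemma russo_wt {ι : Type*} [Fintype ι] [DecidableEq ι] (p : ℝ) (i : ι) (ω : ι → Bool) :
    wt p ω = (if ω i then p else 1 - p) * russoW p i ω := by
  unfold wt russoW
  exact (Finset.mul_prod_erase Finset.univ (fun j => if ω j then p else 1 - p)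
    (Finset.mem_univ i)).symm

lemma russo_wt_deriv {ι : Type*} [Fintype ι] [DecidableEq ι] (p : ℝ) (ω : ι → Bool) :
    HasDerivAt (fun p => wt p ω) (∑ i, russoW p i ω * (if ω i then 1 else -1)) p := by
  have h := HasDerivAt.fun_finsetProd (u := Finset.univ)
    (f := fun (j : ι) (q : ℝ) => if ω j then q else 1 - q)
    (f' := fun j => if ω j then (1 : ℝ) else -1) (x := p) (fun j _ => by
      rcases hj : ω j with _ | _
      · simpa using (hasDerivAt_id' p).const_sub 1
      · simpa using hasDerivAt_id' p)
  unfold wt russoW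
  simpa [smul_eq_mul] using h

lemma russo_term {ι : Type*} [Fintype ι] [DecidableEq ι] (p : ℝ) (i : ι) (f : (ι → Bool) → ℝ) :
    ∑ ω, russoW p i ω * (if ω i then 1 else -1) * f ω =
      ∑ ω, wt p ω * (f (Function.update ω i true) - f (Function.update ω i false)) := by
  refine russo_pair i _ _ fun ω => ?_
  rw [russo_wt p i ω, russo_wt p i (russoFlip i ω), russo_W_flip]
  have hu : ∀ b, Function.update (russoFlip i ω) i b = Function.update ω i b := fun b => by
    unfold russoFlip
    simp
  rw [hu, hu]
  have hfi : russoFlip i ω i = !ω i := by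
    unfold russoFlip
    simp
  rw [hfi]
  rcases hj : ω i with _ | _
  · have h1 : Function.update ω i false = ω := by
      rw [← hj]; exact Function.update_eq_self i ω
    have h2 : russoFlip i ω = Function.update ω i true := by
      unfold russoFlip; rw [hj]; rfl
    rw [h1, h2]
    simp only [Bool.not_false, if_true]
    norm_num
    ring
  · have h1 : Function.update ω i true = ω := by
      rw [← hj]; exact Function.update_eq_self i ω
    have h2 : russoFlip i ω = Function.update ω i false := by
      unfold russoFlip; rw [hj]; rfl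
    rw [h1, h2]
    simp only [Bool.not_true, if_true]
    norm_num
    ring

theorem russo_fin {ι : Type*} [Fintype ι] [DecidableEq ι] (S : (ι → Bool) → Prop) (p : ℝ) :
    HasDerivAt (fun p => pr p S)
      (∑ i, (pr p (fun ω => S (Function.update ω i true)) -
        pr p (fun ω => S (Function.update ω i false)))) p := by
  have h : HasDerivAt (fun p => pr p S)
      (∑ ω, (∑ i, russoW p i ω * (if ω i then 1 else -1)) * ind (S ω)) p := by
    unfold pr
    exact HasDerivAt.fun_sum fun ω _ => (russo_wt_deriv p ω).mul_const _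
  have e : (∑ ω, (∑ i, russoW p i ω * (if ω i then 1 else -1)) * ind (S ω)) =
      ∑ i, (pr p (fun ω => S (Function.update ω i true)) -
        pr p (fun ω => S (Function.update ω i false))) := by
    simp only [Finset.sum_mul]
    rw [Finset.sum_comm]
    refine Finset.sum_congr rfl fun i _ => ?_
    rw [russo_term p i (fun ω => ind (S ω))]
    unfold pr
    rw [← Finset.sum_sub_distrib]
    exact Finset.sum_congr rfl fun ω _ => by ring
  rw [← e]
  exact h

end H95LBD
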