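import Pool.Agent.H95.LBD.TreeB

/-!
PROJECT DL (MP_0d9ad5_pr), JOB DL-SecMom. Second moment bound.
PROOF. `N(ω) = #{u ∈ Box M : u <-> w} = ∑_u 1_{SCn {u} univ w}`. `E N = ∑_u tau (w-u) ≥ (2M+1)^d b kr(w-u)` and
`kr (w-u) ≥ 2^{-(d-2)} kr w` (`nm (w-u) ≤ 2 nm w`), so `E N ≥ c M^d kr w`.
`E N^2 = ∑_{u,u'} P(both) ≤ C kr w ∑_{u,u'} 1/(1+nm(u-u'))^(d-4) ≤ C kr w M^(d+4)` (`tree_kr`, `pair_sum`).
Cauchy-Schwarz: `(E N)^2 ≤ E N^2 * P(N > 0)`, `{N > 0} = SCn (Box d M) univ w`. So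
`P ≥ c^2 M^(2d) (kr w)^2 / (C kr w M^(d+4)) = c' M^(d-4) kr w`. (Cauchy-Schwarz for a finite sum of
indicators: for `t > 0`, `N ≤ t N^2 /2... ` or `E[N] = E[N 1_{N>0}]` and integrals of real functions,
`(2 t E N - t^2 E N^2) ≤ P(N > 0)` for every `t` because `2tN - t^2N^2 ≤ 1_{N>0}` pointwise; choose
`t = E N / E N^2`: no Cauchy-Schwarz needed.)
-/

namespace H95LBD

open H5DF MeasureTheory

variable {d : ℕ}

lemma secMom_fin {Ω ι : Type*} [MeasurableSpace Ω] (P : Measure Ω) [IsProbabilityMeasure P]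
    (s : Finset ι) (A : ι → Set Ω) (hA : ∀ i, MeasurableSet (A i)) (t : ℝ) :
    2 * t * ∑ i ∈ s, P.real (A i) - t ^ 2 * ∑ i ∈ s, ∑ j ∈ s, P.real (A i ∩ A j) ≤
      P.real (⋃ i ∈ s, A i) := by
  classical
  have hU : MeasurableSet (⋃ i ∈ s, A i) := Finset.measurableSet_biUnion s fun i _ => hA i
  have hint : ∀ B : Set Ω, MeasurableSet B →
      Integrable (fun ω => B.indicator (fun _ => (1 : ℝ)) ω) P := fun B hB =>
    (integrable_const (1 : ℝ)).indicator hB
  have hval : ∀ B : Set Ω, MeasurableSet B →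
      ∫ ω, B.indicator (fun _ => (1 : ℝ)) ω ∂P = P.real B := by
    intro B hB
    rw [integral_indicator hB, setIntegral_const, smul_eq_mul, mul_one]
  have e1 : ∑ i ∈ s, P.real (A i) =
      ∫ ω, ∑ i ∈ s, (A i).indicator (fun _ => (1 : ℝ)) ω ∂P := by
    rw [integral_finsetSum s fun i _ => hint (A i) (hA i)]
    exact Finset.sum_congr rfl fun i _ => (hval (A i) (hA i)).symm
  have e2 : ∑ i ∈ s, ∑ j ∈ s, P.real (A i ∩ A j) =
      ∫ ω, ∑ i ∈ s, ∑ j ∈ s, (A i ∩ A j).indicator (fun _ => (1 : ℝ)) ω ∂P := by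
    rw [integral_finsetSum s fun i _ => integrable_finsetSum s fun j _ =>
      hint (A i ∩ A j) ((hA i).inter (hA j))]
    refine Finset.sum_congr rfl fun i _ => ?_
    rw [integral_finsetSum s fun j _ => hint (A i ∩ A j) ((hA i).inter (hA j))]
    exact Finset.sum_congr rfl fun j _ => (hval _ ((hA i).inter (hA j))).symm
  have i1 : Integrable (fun ω => ∑ i ∈ s, (A i).indicator (fun _ => (1 : ℝ)) ω) P :=
    integrable_finsetSum s fun i _ => hint (A i) (hA i)
  have i2 : Integrable (fun ω => ∑ i ∈ s, ∑ j ∈ s,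
      (A i ∩ A j).indicator (fun _ => (1 : ℝ)) ω) P :=
    integrable_finsetSum s fun i _ => integrable_finsetSum s fun j _ =>
      hint (A i ∩ A j) ((hA i).inter (hA j))
  rw [e1, e2, ← hval _ hU, ← integral_const_mul, ← integral_const_mul,
    ← integral_sub (i1.const_mul _) (i2.const_mul _)]
  refine integral_mono ((i1.const_mul _).sub (i2.const_mul _)) (hint _ hU) fun ω => ?_
  have hsq : ∑ i ∈ s, ∑ j ∈ s, (A i ∩ A j).indicator (fun _ => (1 : ℝ)) ω =
      (∑ i ∈ s, (A i).indicator (fun _ => (1 : ℝ)) ω) ^ 2 := by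
    rw [sq, Finset.sum_mul_sum]
    refine Finset.sum_congr rfl fun i _ => Finset.sum_congr rfl fun j _ => ?_
    rw [← Set.inter_indicator_mul]
    simp
  simp only [hsq]
  by_cases hω : ω ∈ ⋃ i ∈ s, A i
  · rw [Set.indicator_of_mem hω]
    nlinarith [sq_nonneg (t * (∑ i ∈ s, (A i).indicator (fun _ => (1 : ℝ)) ω) - 1)]
  · rw [Set.indicator_of_notMem hω]
    have h0 : ∑ i ∈ s, (A i).indicator (fun _ => (1 : ℝ)) ω = 0 := by
      refine Finset.sum_eq_zero fun i hi => Set.indicator_of_notMem ?_ _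
      intro hi'
      exact hω (Set.mem_biUnion hi hi')
    rw [h0]
    simp

lemma secMom_kr {M : ℕ} {u w : V d} (hu : nm u ≤ M) (hw : 4 * M ≤ nm w) :
    1 / 2 ^ (d - 2) * kr w ≤ kr (w - u) := by
  have h1 := nm_sub w u
  have h2 : ((nm (w - u) : ℕ) : ℝ) ≤ 2 * (nm w : ℝ) := by
    have : nm (w - u) ≤ 2 * nm w := by omega
    exact_mod_cast this
  unfold kr
  rw [one_div_mul_one_div, ← mul_pow]
  apply one_div_le_one_div_of_le (by positivity)
  exact pow_le_pow_left₀ (by positivity) (by linarith) _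

lemma secMom_union (M : ℕ) (w : V d) :
    SCn (Box d M) Set.univ w = ⋃ u ∈ Box d M, SCn {u} Set.univ w := by
  ext ω
  simp [SCn]

theorem second_moment (hd : 5 ≤ d) (p0 b B : ℝ) (h0 : 0 ≤ p0) (h1 : p0 ≤ 1) (hb : 0 < b)
    (hB : 0 < B) (h : KB d p0 b B) : ∃ c : ℝ, 0 < c ∧ ∀ (M : ℕ) (w : V d), 1 ≤ M → 4 * M ≤ nm w →
    c * (M : ℝ) ^ (d - 4) * kr w ≤ (perc d p0).real (SCn (Box d M) Set.univ w) := by
  have hP : IsProbabilityMeasure (perc d p0) := isProb_perc p0 h0 h1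
  obtain ⟨C, hC, htree⟩ := tree_kr hd p0 b B h0 h1 hB h
  obtain ⟨C', hC', hpair⟩ := pair_sum (d := d) hd
  set α : ℝ := b / 2 ^ (d - 2) with hα
  set β : ℝ := C * C' with hβ
  have hα0 : 0 < α := by positivity
  have hβ0 : 0 < β := by positivity
  refine ⟨α ^ 2 / β, by positivity, fun M w hM hw => ?_⟩
  have hM0 : (0 : ℝ) < M := by exact_mod_cast hM
  have hk := kr_pos w
  -- first moment
  have hX : α * (M : ℝ) ^ d * kr w ≤
      ∑ u ∈ Box d M, (perc d p0).real (SCn {u} Set.univ w) := by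
    have hterm : ∀ u ∈ Box d M, α * kr w ≤ (perc d p0).real (SCn {u} Set.univ w) := by
      intro u hu
      rw [mem_Box'] at hu
      have hlow := (h (w - u)).1
      rw [← perc_conn p0 h0 h1 u w] at hlow
      have hr := ENNReal.toReal_mono (measure_ne_top (perc d p0) _) hlow
      rw [ENNReal.toReal_ofReal (by have := kr_pos (w - u); positivity)] at hr
      calc α * kr w = b * (1 / 2 ^ (d - 2) * kr w) := by rw [hα]; ring
        _ ≤ b * kr (w - u) := mul_le_mul_of_nonneg_left (secMom_kr hu hw) hb.le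
        _ ≤ (perc d p0).real (SCn {u} Set.univ w) := hr
    have hcard : (M : ℝ) ^ d ≤ ((Box d M).card : ℝ) := by
      rw [card_Box]
      push_cast
      exact pow_le_pow_left₀ hM0.le (by linarith) _
    calc α * (M : ℝ) ^ d * kr w = (M : ℝ) ^ d * (α * kr w) := by ring
      _ ≤ ((Box d M).card : ℝ) * (α * kr w) :=
          mul_le_mul_of_nonneg_right hcard (by positivity)
      _ = ∑ u ∈ Box d M, α * kr w := by rw [Finset.sum_const, nsmul_eq_mul]
      _ ≤ _ := Finset.sum_le_sum hterm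
  -- second moment
  have hY : ∑ u ∈ Box d M, ∑ u' ∈ Box d M,
      (perc d p0).real (SCn {u} Set.univ w ∩ SCn {u'} Set.univ w) ≤
        β * (M : ℝ) ^ (d + 4) * kr w := by
    calc ∑ u ∈ Box d M, ∑ u' ∈ Box d M,
          (perc d p0).real (SCn {u} Set.univ w ∩ SCn {u'} Set.univ w)
        ≤ ∑ u ∈ Box d M, ∑ u' ∈ Box d M,
          (C * kr w) * (1 / (1 + (nm (u - u') : ℝ)) ^ (d - 4)) := by
          refine Finset.sum_le_sum fun u hu => Finset.sum_le_sum fun u' hu' => ?_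
          rw [mem_Box'] at hu hu'
          refine (htree M u u' w hu hu' hw).trans (le_of_eq ?_)
          ring
      _ = (C * kr w) * ∑ u ∈ Box d M, ∑ u' ∈ Box d M,
          1 / (1 + (nm (u - u') : ℝ)) ^ (d - 4) := by
          rw [Finset.mul_sum]
          refine Finset.sum_congr rfl fun u _ => ?_
          rw [Finset.mul_sum]
      _ ≤ (C * kr w) * (C' * (M : ℝ) ^ (d + 4)) :=
          mul_le_mul_of_nonneg_left (hpair M hM) (by positivity)
      _ = β * (M : ℝ) ^ (d + 4) * kr w := by rw [hβ]; ring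
  set t : ℝ := α / (β * (M : ℝ) ^ 4) with ht
  have ht0 : 0 < t := by positivity
  have key := secMom_fin (perc d p0) (Box d M) (fun u => SCn {u} Set.univ w)
    (fun u => meas_SCn _ _ _) t
  rw [← secMom_union] at key
  refine le_trans ?_ key
  have e1 : 2 * t * (α * (M : ℝ) ^ d * kr w) - t ^ 2 * (β * (M : ℝ) ^ (d + 4) * kr w) =
      α ^ 2 / β * (M : ℝ) ^ (d - 4) * kr w := by
    have e2 : (M : ℝ) ^ d = (M : ℝ) ^ (d - 4) * (M : ℝ) ^ 4 := by
      rw [← pow_add]
      congr 1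
      omega
    have e3 : (M : ℝ) ^ (d + 4) = (M : ℝ) ^ (d - 4) * (M : ℝ) ^ 4 * (M : ℝ) ^ 4 := by
      rw [pow_add, e2]
    rw [e2, e3, ht]
    field_simp
    ring
  rw [← e1]
  have h3 := mul_le_mul_of_nonneg_left hX (by positivity : 0 ≤ 2 * t)
  have h4 := mul_le_mul_of_nonneg_left hY (by positivity : 0 ≤ t ^ 2)
  linarith

end H95LBD
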