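import Pool.Agent.H95.LBD.SumA

/-!
PROJECT DL (MP_0d9ad5_pr), JOB DL-SumB. Tail of `∑ kr^2`.
PROOF. By shells (`card_shell`): `∑_{k > n} C (1+k)^(d-1) / (1+k)^(2d-4) = C ∑_{k>n} (1+k)^(3-d)` and for
`d ≥ 5`: `1/(1+k)^(d-3) ≤ 2 (1/k^(d-4) - 1/(1+k)^(d-4))` or simply
`1/(1+k)^(d-3) ≤ (1/(1+n)^(d-5)) * 1/(1+k)^2 ≤ (1/(1+n)^(d-5)) (1/k - 1/(k+1))`, telescoping to
`1/(1+n)^(d-4)`. A `tsum` in `ENNReal` over `V d` = sup over boxes (or `tsum` over the fibers of `nm`,
`ENNReal.tsum_fiberwise` / `ENNReal.tsum_comm`).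
-/

namespace H95LBD

open H5DF MeasureTheory

variable {d : ℕ}

lemma SumB_tele (n M : ℕ) : ∑ k ∈ Finset.range (M + 1),
    (if n < k then (1 / (k : ℝ) - 1 / ((k : ℝ) + 1)) else 0) =
      if n ≤ M then 1 / ((n : ℝ) + 1) - 1 / ((M : ℝ) + 1) else 0 := by
  induction M with
  | zero =>
    rw [Finset.sum_range_one, if_neg (Nat.not_lt_zero n)]
    split_ifs with h
    · have : n = 0 := by omega
      subst this
      simp
    · rfl
  | succ M ih =>
    rw [Finset.sum_range_succ, ih]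
    rcases Nat.lt_trichotomy n (M + 1) with h | h | h
    · rw [if_pos (by omega), if_pos h, if_pos (by omega)]
      push_cast
      ring
    · rw [if_neg (by omega), if_neg (by omega), if_pos (by omega), h]
      push_cast
      ring
    · rw [if_neg (by omega), if_neg (by omega), if_neg (by omega)]
      ring

lemma SumB_real (hd : 5 ≤ d) {C : ℝ} (hC : 0 < C)
    (h : ∀ n : ℕ, (((Box d n).filter fun v => nm v = n).card : ℝ) ≤ C * (1 + n) ^ (d - 1))
    (n M : ℕ) : ∑ v ∈ Box d M, (if n < nm v then kr v ^ 2 else 0) ≤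
      C / (1 + (n : ℝ)) ^ (d - 4) := by
  classical
  have h1 : ∑ v ∈ Box d M, (if n < nm v then kr v ^ 2 else 0) =
      ∑ k ∈ Finset.range (M + 1), ∑ v ∈ (Box d M).filter (fun v => nm v = k),
        (if n < nm v then kr v ^ 2 else 0) := by
    rw [Finset.sum_fiberwise_of_maps_to]
    intro v hv
    rw [mem_Box'] at hv
    exact Finset.mem_range.2 (by omega)
  have h2 : ∀ k ∈ Finset.range (M + 1), ∑ v ∈ (Box d M).filter (fun v => nm v = k),
      (if n < nm v then kr v ^ 2 else 0) ≤ C / (1 + (n : ℝ)) ^ (d - 5) *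
        (if n < k then (1 / (k : ℝ) - 1 / ((k : ℝ) + 1)) else 0) := by
    intro k hk
    have hkM : k ≤ M := by
      have := Finset.mem_range.1 hk
      omega
    have h3 : (Box d M).filter (fun v => nm v = k) = (Box d k).filter (fun v => nm v = k) := by
      ext v
      simp only [Finset.mem_filter, mem_Box']
      constructor
      · rintro ⟨-, h⟩
        exact ⟨h.le, h⟩
      · rintro ⟨-, h⟩
        exact ⟨by omega, h⟩
    have h4 : ∑ v ∈ (Box d M).filter (fun v => nm v = k), (if n < nm v then kr v ^ 2 else 0) =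
        ((Box d k).filter (fun v => nm v = k)).card •
          (if n < k then (1 / (1 + (k : ℝ)) ^ (d - 2)) ^ 2 else 0) := by
      rw [h3]
      apply Finset.sum_eq_card_nsmul
      intro v hv
      have := (Finset.mem_filter.1 hv).2
      unfold kr
      rw [this]
    rw [h4, nsmul_eq_mul]
    split_ifs with hnk
    · have hk0 : (0 : ℝ) < k := by
        have : 0 < k := by omega
        exact_mod_cast this
      have hnk' : (1 : ℝ) + n ≤ 1 + k := by
        have : (n : ℝ) ≤ k := by exact_mod_cast hnk.le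
        linarith
      have e1 : C * (1 + (k : ℝ)) ^ (d - 1) * (1 / (1 + (k : ℝ)) ^ (d - 2)) ^ 2 =
          C / ((1 + (k : ℝ)) ^ (d - 5) * (1 + (k : ℝ)) ^ 2) := by
        have e2 : d - 1 = (d - 5) + 4 := by omega
        have e3 : d - 2 = (d - 5) + 3 := by omega
        rw [e2, e3]
        field_simp
        ring
      calc (((Box d k).filter (fun v => nm v = k)).card : ℝ) * (1 / (1 + (k : ℝ)) ^ (d - 2)) ^ 2
          ≤ C * (1 + (k : ℝ)) ^ (d - 1) * (1 / (1 + (k : ℝ)) ^ (d - 2)) ^ 2 := by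
            gcongr
            exact h k
        _ = C / ((1 + (k : ℝ)) ^ (d - 5) * (1 + (k : ℝ)) ^ 2) := e1
        _ ≤ C / ((1 + (n : ℝ)) ^ (d - 5) * ((k : ℝ) * (k + 1))) := by
            gcongr
            nlinarith
        _ = C / (1 + (n : ℝ)) ^ (d - 5) * (1 / (k : ℝ) - 1 / ((k : ℝ) + 1)) := by
            field_simp
            ring
    · simp
  rw [h1]
  refine (Finset.sum_le_sum h2).trans ?_
  rw [← Finset.mul_sum, SumB_tele]
  have e4 : C / (1 + (n : ℝ)) ^ (d - 4) = C / (1 + (n : ℝ)) ^ (d - 5) * (1 / ((n : ℝ) + 1)) := by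
    have e5 : d - 4 = (d - 5) + 1 := by omega
    rw [e5, pow_succ]
    field_simp
    ring
  rw [e4]
  gcongr
  split_ifs
  · have : (0 : ℝ) ≤ 1 / ((M : ℝ) + 1) := by positivity
    linarith
  · positivity

theorem sum_tail (hd : 5 ≤ d) : ∃ C : ℝ, 0 < C ∧ ∀ n : ℕ,
    ∑' v : V d, (if n < nm v then ENNReal.ofReal (kr v ^ 2) else 0) ≤
      ENNReal.ofReal (C / (1 + (n : ℝ)) ^ (d - 4)) := by
  obtain ⟨C, hC, h⟩ := card_shell (d := d) (by omega)
  refine ⟨C, hC, fun n => ?_⟩
  rw [ENNReal.tsum_eq_iSup_sum]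
  apply iSup_le
  intro s
  have hs : s ⊆ Box d (s.sup nm) := by
    intro v hv
    rw [mem_Box']
    exact Finset.le_sup (f := nm) hv
  refine (Finset.sum_le_sum_of_subset hs).trans ?_
  have e : ∑ v ∈ Box d (s.sup nm), (if n < nm v then ENNReal.ofReal (kr v ^ 2) else 0) =
      ENNReal.ofReal (∑ v ∈ Box d (s.sup nm), (if n < nm v then kr v ^ 2 else 0)) := by
    rw [ENNReal.ofReal_sum_of_nonneg]
    · apply Finset.sum_congr rfl
      intro v _
      split_ifs
      · rfl
      · simp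
    · intro v _
      split_ifs
      · positivity
      · exact le_rfl
  rw [e]
  exact ENNReal.ofReal_le_ofReal (SumB_real hd hC h n _)

end H95LBD
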