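import Pool.Agent.H95.LBD.SumB

/-!
PROJECT DL (MP_0d9ad5_pr), JOB DL-SumC. Convolution of two kernels.
PROOF. Split according to `nm (v-u) ≤ nm (v-w)` or not; by symmetry let `nm (v-u) ≤ nm (v-w)`, then
`nm (v-w) ≥ nm (u-w)/2`, so `kr (v-w) ≤ 2^(d-2) kr (u-w)`. Terms with `nm (v-u) ≤ nm (u-w)`:
`≤ 2^(d-2) kr(u-w) ∑_{nm(v-u) ≤ n} kr(v-u) ≤ C kr(u-w) (1+n)^2`, `n = nm (u-w)` (`sum_ball`, translated).
Terms with `nm (v-u) > n`: `kr(v-w) ≤ kr(v-u)`, so `≤ ∑_{nm(v-u) > n} kr(v-u)^2` (`sum_tail`).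
-/

namespace H95LBD

open H5DF MeasureTheory

variable {d : ℕ}

lemma SumC_kr_anti {x y : V d} (h : nm x ≤ nm y) : kr y ≤ kr x := by
  unfold kr
  have h1 : (nm x : ℝ) ≤ nm y := by exact_mod_cast h
  have h0 : (0 : ℝ) ≤ nm x := Nat.cast_nonneg _
  gcongr

lemma SumC_kr_half {x y : V d} (h : nm x ≤ 2 * nm y) : kr y ≤ 2 ^ (d - 2) * kr x := by
  unfold kr
  have h1 : (nm x : ℝ) ≤ 2 * nm y := by exact_mod_cast h
  have h0 : (0 : ℝ) ≤ nm x := Nat.cast_nonneg _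
  have h2 : (0 : ℝ) ≤ nm y := Nat.cast_nonneg _
  have h3 : (1 + (nm x : ℝ)) ^ (d - 2) ≤ 2 ^ (d - 2) * (1 + (nm y : ℝ)) ^ (d - 2) := by
    rw [← mul_pow]
    exact pow_le_pow_left₀ (by linarith) (by linarith) _
  rw [mul_one_div, div_le_div_iff₀ (by positivity) (by positivity), one_mul]
  exact h3

lemma SumC_near (C : ℝ)
    (h : ∀ n : ℕ, ∑ v ∈ Box d n, kr v ≤ C * (1 + (n : ℝ)) ^ 2) (n : ℕ) (c : ℝ) (hc : 0 ≤ c) :
    ∑' v : V d, (if nm v ≤ n then ENNReal.ofReal (c * kr v) else 0) ≤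
      ENNReal.ofReal (c * (C * (1 + (n : ℝ)) ^ 2)) := by
  classical
  rw [tsum_eq_sum (s := Box d n)]
  · have e : ∑ v ∈ Box d n, (if nm v ≤ n then ENNReal.ofReal (c * kr v) else 0) =
        ENNReal.ofReal (∑ v ∈ Box d n, c * kr v) := by
      rw [ENNReal.ofReal_sum_of_nonneg]
      · apply Finset.sum_congr rfl
        intro v hv
        rw [mem_Box'] at hv
        rw [if_pos hv]
      · intro v _
        exact mul_nonneg hc (kr_pos v).le
    rw [e, ← Finset.mul_sum]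
    exact ENNReal.ofReal_le_ofReal (mul_le_mul_of_nonneg_left (h n) hc)
  · intro v hv
    rw [mem_Box'] at hv
    rw [if_neg hv]

lemma SumC_half (hd : 5 ≤ d) (C₁ C₂ : ℝ) (hC₁ : 0 < C₁) (hC₂ : 0 < C₂)
    (h₁ : ∀ n : ℕ, ∑ v ∈ Box d n, kr v ≤ C₁ * (1 + (n : ℝ)) ^ 2)
    (h₂ : ∀ n : ℕ, ∑' v : V d, (if n < nm v then ENNReal.ofReal (kr v ^ 2) else 0) ≤
      ENNReal.ofReal (C₂ / (1 + (n : ℝ)) ^ (d - 4))) (a b : V d) :
    ∑' v : V d, (if nm (v - a) ≤ nm (v - b) then ENNReal.ofReal (kr (v - a) * kr (v - b)) else 0) ≤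
      ENNReal.ofReal ((2 ^ (d - 2) * C₁ + C₂) / (1 + (nm (a - b) : ℝ)) ^ (d - 4)) := by
  classical
  have key : ∀ v : V d, (if nm (v - a) ≤ nm (v - b) then
        ENNReal.ofReal (kr (v - a) * kr (v - b)) else 0) ≤
      (if nm (v - a) ≤ nm (a - b) then
        ENNReal.ofReal (2 ^ (d - 2) * kr (a - b) * kr (v - a)) else 0) +
      (if nm (a - b) < nm (v - a) then ENNReal.ofReal (kr (v - a) ^ 2) else 0) := by
    intro v
    split_ifs with h1 h2 h3 h3
    · omega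
    · rw [add_zero]
      apply ENNReal.ofReal_le_ofReal
      have h4 : nm (a - b) ≤ 2 * nm (v - b) := by
        have h5 := nm_tri a v b
        rw [nm_sub_comm a v] at h5
        omega
      have h5 := SumC_kr_half h4
      have h6 := (kr_pos (v - a)).le
      calc kr (v - a) * kr (v - b) ≤ kr (v - a) * (2 ^ (d - 2) * kr (a - b)) :=
            mul_le_mul_of_nonneg_left h5 h6
        _ = 2 ^ (d - 2) * kr (a - b) * kr (v - a) := by ring
    · rw [zero_add]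
      apply ENNReal.ofReal_le_ofReal
      rw [pow_two]
      exact mul_le_mul_of_nonneg_left (SumC_kr_anti h1) (kr_pos _).le
    · omega
    · exact zero_le
    · exact zero_le
    · exact zero_le
    · exact zero_le
  refine (ENNReal.tsum_le_tsum key).trans ?_
  rw [ENNReal.tsum_add]
  have t1 := (Equiv.subRight a).tsum_eq (fun v : V d => (if nm v ≤ nm (a - b) then
        ENNReal.ofReal (2 ^ (d - 2) * kr (a - b) * kr v) else 0))
  have t2 := (Equiv.subRight a).tsum_eq (fun v : V d => (if nm (a - b) < nm v then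
        ENNReal.ofReal (kr v ^ 2) else 0))
  simp only [Equiv.subRight_apply] at t1 t2
  rw [t1, t2]
  have hpos : (0 : ℝ) ≤ 2 ^ (d - 2) * kr (a - b) := mul_nonneg (by positivity) (kr_pos _).le
  refine (add_le_add (SumC_near C₁ h₁ (nm (a - b)) _ hpos) (h₂ (nm (a - b)))).trans ?_
  rw [← ENNReal.ofReal_add]
  · apply ENNReal.ofReal_le_ofReal
    apply le_of_eq
    have e : d - 2 = (d - 4) + 2 := by omega
    have e1 : kr (a - b) = 1 / ((1 + (nm (a - b) : ℝ)) ^ (d - 4) * (1 + (nm (a - b) : ℝ)) ^ 2) := by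
      unfold kr
      rw [e, pow_add]
    rw [e1]
    have h0 : (0 : ℝ) < 1 + (nm (a - b) : ℝ) := by positivity
    have h3 : (1 + (nm (a - b) : ℝ)) ^ 2 ≠ 0 := by positivity
    have h4 : (1 + (nm (a - b) : ℝ)) ^ (d - 4) ≠ 0 := by positivity
    field_simp
  · exact mul_nonneg hpos (by positivity)
  · positivity

theorem conv2 (hd : 5 ≤ d) : ∃ C : ℝ, 0 < C ∧ ∀ u w : V d,
    ∑' v : V d, ENNReal.ofReal (kr (v - u) * kr (v - w)) ≤
      ENNReal.ofReal (C / (1 + (nm (u - w) : ℝ)) ^ (d - 4)) := by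
  classical
  obtain ⟨C₁, hC₁, h₁⟩ := sum_ball (d := d) hd
  obtain ⟨C₂, hC₂, h₂⟩ := sum_tail (d := d) hd
  refine ⟨(2 ^ (d - 2) * C₁ + C₂) + (2 ^ (d - 2) * C₁ + C₂), by positivity, fun u w => ?_⟩
  have key : ∀ v : V d, ENNReal.ofReal (kr (v - u) * kr (v - w)) ≤
      (if nm (v - u) ≤ nm (v - w) then ENNReal.ofReal (kr (v - u) * kr (v - w)) else 0) +
      (if nm (v - w) ≤ nm (v - u) then ENNReal.ofReal (kr (v - w) * kr (v - u)) else 0) := by
    intro v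
    rcases le_total (nm (v - u)) (nm (v - w)) with h | h
    · rw [if_pos h]
      exact le_self_add
    · rw [if_pos (c := nm (v - w) ≤ nm (v - u)) h, mul_comm (kr (v - w))]
      exact le_add_self
  refine (ENNReal.tsum_le_tsum key).trans ?_
  rw [ENNReal.tsum_add]
  have hA := SumC_half hd C₁ C₂ hC₁ hC₂ h₁ h₂ u w
  have hB := SumC_half hd C₁ C₂ hC₁ hC₂ h₁ h₂ w u
  rw [nm_sub_comm w u] at hB
  refine (add_le_add hA hB).trans ?_
  rw [← ENNReal.ofReal_add (by positivity) (by positivity), ← add_div]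

end H95LBD
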