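import Pool.Agent.H95.LBD.PhiLow
import Pool.Agent.H95.LBD.HoleB
import Pool.Agent.H95.LBD.BoxConn
import Pool.Agent.H95.LBD.RndE
import Pool.Agent.H95.LBD.NumB
import Pool.Agent.H95.LBD.NumC

/-!
PROJECT DL (MP_0d9ad5_pr), JOB DL-TailA. Local uniqueness at scale `m^(2d-3)`.
PROOF. Constants: `cφ` from `phi_lower`, `c1, M1` from `box_conn`. `p1 = p0 + ε/2`, `s = (ε/2)/(1-p1)` (so
`s ≥ ε/2`, `s ≤ 1` for `ε < δ0`, `1 - (1-p1)(1-s) = p0 + ε`). `M = m`, `Mb = m^2`, `R = m^(2d-3)`, `I = II m`,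
`l = R / I`, `n = l / (2 m^2 + 1)`, `q0 = c1 / m^(d-2)` (`≤ 1` since it is below a probability). `s'` from `num_s`.
`hole_bound` with `κ = cφ m^(d-4)`: `P_{p1}(Hole m (4R)) ≤ exp(-cφ m^(d-4) ε/2) ≤ exp(-(cφ/2) sqrt m)`, because
`1 ≤ ε^2 m^(d-4)` gives `ε m^(d-4) ≥ sqrt (m^(d-4)) ≥ sqrt m`. `local_uniq`: the bound is
`(4R+1)^d exp(-(cφ/2) sqrt m) + I (4R+1)^d (1 - q0 s'^2)^n`, `(1-x)^n ≤ exp(-n x)`, `num_n`, `I ≤ m`,
`(4R+1)^d ≤ 5^d m^(d(2d-3))`, `num_exp`. Second clause: `no_inf`.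
-/

namespace H95LBD

open H5DF MeasureTheory

variable {d : ℕ}

/-- The gain in the exponent. -/
lemma TailA_sqrt (hd : 5 ≤ d) (ε : ℝ) (hε : 0 < ε) (m : ℕ) (hm : 1 ≤ m)
    (h : 1 ≤ ε ^ 2 * (m : ℝ) ^ (d - 4)) : Real.sqrt m ≤ ε * (m : ℝ) ^ (d - 4) := by
  have hm1 : (1 : ℝ) ≤ m := by exact_mod_cast hm
  rw [Real.sqrt_le_iff]
  refine ⟨by positivity, ?_⟩
  have h1 : (m : ℝ) ≤ (m : ℝ) ^ (d - 4) := by
    calc (m : ℝ) = (m : ℝ) ^ 1 := (pow_one _).symm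
      _ ≤ (m : ℝ) ^ (d - 4) := pow_le_pow_right₀ hm1 (by omega)
  have h2 : (0 : ℝ) ≤ (m : ℝ) ^ (d - 4) := by positivity
  calc (m : ℝ) ≤ 1 * (m : ℝ) ^ (d - 4) := by rw [one_mul]; exact h1
    _ ≤ (ε ^ 2 * (m : ℝ) ^ (d - 4)) * (m : ℝ) ^ (d - 4) := mul_le_mul_of_nonneg_right h h2
    _ = (ε * (m : ℝ) ^ (d - 4)) ^ 2 := by ring

/-- The prefactor. -/
lemma TailA_pre (R I m K : ℕ) (d : ℕ) (hm : 1 ≤ m) (hR : R = m ^ K) (hI : I ≤ m) (x y E : ℝ)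
    (hx : x ≤ E) (hy : y ≤ E) (hE : 0 ≤ E) :
    (4 * (R : ℝ) + 1) ^ d * x + I * ((4 * (R : ℝ) + 1) ^ d * y) ≤
      (2 * 5 ^ d) * (m : ℝ) ^ (d * K + 1) * E := by
  have hm1 : (1 : ℝ) ≤ m := by exact_mod_cast hm
  have hIm : (I : ℝ) ≤ m := by exact_mod_cast hI
  have hRr : (R : ℝ) = (m : ℝ) ^ K := by
    rw [hR]
    push_cast
    rfl
  have hmK : (1 : ℝ) ≤ (m : ℝ) ^ K := one_le_pow₀ hm1
  have h1 : (4 * (R : ℝ) + 1) ^ d ≤ 5 ^ d * (m : ℝ) ^ (d * K) := by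
    calc (4 * (R : ℝ) + 1) ^ d ≤ (5 * (m : ℝ) ^ K) ^ d := by
          refine pow_le_pow_left₀ (by positivity) ?_ d
          rw [hRr]
          linarith
      _ = 5 ^ d * (m : ℝ) ^ (d * K) := by
          rw [mul_pow, ← pow_mul, mul_comm K d]
  have h0 : (0 : ℝ) ≤ (4 * (R : ℝ) + 1) ^ d := by positivity
  have hI0 : (0 : ℝ) ≤ I := Nat.cast_nonneg _
  calc (4 * (R : ℝ) + 1) ^ d * x + I * ((4 * (R : ℝ) + 1) ^ d * y)
      ≤ (4 * (R : ℝ) + 1) ^ d * E + I * ((4 * (R : ℝ) + 1) ^ d * E) :=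
        add_le_add (mul_le_mul_of_nonneg_left hx h0)
          (mul_le_mul_of_nonneg_left (mul_le_mul_of_nonneg_left hy h0) hI0)
    _ = (4 * (R : ℝ) + 1) ^ d * ((1 + I) * E) := by ring
    _ ≤ (5 ^ d * (m : ℝ) ^ (d * K)) * ((2 * m) * E) := by
        refine mul_le_mul h1 ?_ (by positivity) (by positivity)
        exact mul_le_mul_of_nonneg_right (by linarith) hE
    _ = (2 * 5 ^ d) * (m : ℝ) ^ (d * K + 1) * E := by ring

theorem tail_lu (hd : 5 ≤ d) (p0 b B : ℝ) (h0 : 0 < p0) (h1 : p0 < 1) (hb : 0 < b) (hB : 0 < B)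
    (h : KB d p0 b B) : ∃ (c : ℝ) (m0 : ℕ) (δ0 : ℝ), 0 < c ∧ 2 ≤ m0 ∧ 0 < δ0 ∧ δ0 ≤ 1 ∧
    p0 + δ0 < 1 ∧ ∀ ε : ℝ, 0 < ε → ε < δ0 → ∀ m : ℕ, m0 ≤ m → 1 ≤ ε ^ 2 * (m : ℝ) ^ (d - 4) →
      (envM d (p0 + ε / 2) ((ε / 2) / (1 - (p0 + ε / 2)))).real (LUF (m ^ (2 * d - 3))) ≤
        Real.exp (-(c * Real.sqrt m)) ∧
      (perc d (p0 + ε / 2)).real {ζ | ∀ u ∈ Box d m, (cluster ζ u).Finite} ≤
        Real.exp (-(c * Real.sqrt m)) := by
  obtain ⟨cφ, hcφ, hφ⟩ := phi_lower hd p0 b B h0.le h1.le hb hB h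
  obtain ⟨c1, M1, hc1, hM1, hbox⟩ := box_conn hd p0 b B h0.le h1.le hb hB h
  obtain ⟨mI, hmI, hnI⟩ := num_I d
  obtain ⟨cn, mN, hcn, hmN, hnn⟩ := num_n d hd c1 hc1
  obtain ⟨c', hc'def⟩ : ∃ c' : ℝ, c' = min (cφ / 2) cn := ⟨_, rfl⟩
  have hc' : 0 < c' := by
    rw [hc'def]
    exact lt_min (by positivity) hcn
  have hc'1 : c' ≤ cφ / 2 := by
    rw [hc'def]
    exact min_le_left _ _
  have hc'2 : c' ≤ cn := by
    rw [hc'def]
    exact min_le_right _ _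
  obtain ⟨mE, hmE⟩ := num_exp (2 * 5 ^ d) c' (d * (2 * d - 3) + 1) (by positivity) hc'
  refine ⟨c' / 2, max (max mI mN) (max M1 mE), (1 - p0) / 2, by positivity, ?_, by linarith,
    by linarith, by linarith, ?_⟩
  · exact hmI.trans ((le_max_left _ _).trans (le_max_left _ _))
  intro ε hε hεδ m hm hεm
  have hmI' : mI ≤ m := ((le_max_left _ _).trans (le_max_left _ _)).trans hm
  have hmN' : mN ≤ m := ((le_max_right _ _).trans (le_max_left _ _)).trans hm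
  have hmM' : M1 ≤ m := ((le_max_left _ _).trans (le_max_right _ _)).trans hm
  have hmE' : mE ≤ m := ((le_max_right _ _).trans (le_max_right _ _)).trans hm
  have hm2 : 2 ≤ m := hmI.trans hmI'
  obtain ⟨hI1, hI2, hI3⟩ := hnI m hmI'
  have hIm : II m ≤ m := (Nat.le_self_pow (by norm_num) _).trans hI3
  have hε1 : ε ≤ 1 := by linarith
  have hsq := TailA_sqrt hd ε hε m (by omega) hεm
  have hsq0 : 0 ≤ Real.sqrt m := Real.sqrt_nonneg _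
  -- the parameters
  have hp1 : p0 ≤ p0 + ε / 2 := by linarith
  have hp1' : p0 + ε / 2 < 1 := by linarith
  have hden : 0 < 1 - (p0 + ε / 2) := by linarith
  obtain ⟨s, hs⟩ : ∃ s : ℝ, s = (ε / 2) / (1 - (p0 + ε / 2)) := ⟨_, rfl⟩
  rw [← hs]
  have hs0 : 0 ≤ s := by
    rw [hs]
    positivity
  have hs1 : s ≤ 1 := by
    rw [hs, div_le_one hden]
    linarith
  have hsε : ε / 2 ≤ s := by
    rw [hs, le_div_iff₀ hden]
    have : 0 ≤ ε / 2 := by linarith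
    nlinarith
  obtain ⟨s', hs0', hs1', hss, hsI⟩ := num_s s (II m) hs0 hs1 hI2
  have hIR : (0 : ℝ) < II m := by exact_mod_cast hI2
  have hsε' : ε / (2 * II m) ≤ s' := by
    calc ε / (2 * II m) = (ε / 2) / II m := by rw [div_div]
      _ ≤ s / II m := div_le_div_of_nonneg_right hsε hIR.le
      _ ≤ s' := hsI
  -- the exponents
  have hκ : ∀ q : ℝ, p0 ≤ q → q ≤ 1 → ∀ S : Finset (V d), Box d m ⊆ S →
      cφ * (m : ℝ) ^ (d - 4) ≤ phi q m S :=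
    fun q hq0 hq1 S hS => hφ m S (by omega) hS q hq0 hq1
  have hexp : Real.exp (-(cφ * (m : ℝ) ^ (d - 4) * (p0 + ε / 2 - p0))) ≤
      Real.exp (-(c' * Real.sqrt m)) := by
    rw [Real.exp_le_exp]
    have h3 : c' * Real.sqrt m ≤ cφ / 2 * (ε * (m : ℝ) ^ (d - 4)) :=
      mul_le_mul hc'1 hsq hsq0 (by positivity)
    have h4 : cφ * (m : ℝ) ^ (d - 4) * (p0 + ε / 2 - p0) = cφ / 2 * (ε * (m : ℝ) ^ (d - 4)) := by
      ring
    rw [h4]
    linarith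
  have hE0 : 0 ≤ Real.exp (-(c' * Real.sqrt m)) := (Real.exp_pos _).le
  constructor
  · -- local uniqueness
    obtain ⟨R, hR⟩ : ∃ R : ℕ, R = m ^ (2 * d - 3) := ⟨_, rfl⟩
    have hmR : m ≤ R := by
      rw [hR]
      exact Nat.le_self_pow (by omega) m
    have hM0 : (0 : ℝ) < (m : ℝ) ^ (d - 2) := by
      have : (0 : ℝ) < m := by exact_mod_cast (by omega : 0 < m)
      positivity
    have hq : ∀ z u v : V d, nm (u - z) ≤ m + 1 → nm (v - z) ≤ m + 1 → ∀ p : ℝ,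
        p0 + ε / 2 ≤ p → p ≤ 1 →
        c1 / (m : ℝ) ^ (d - 2) ≤ (perc d p).real {ω | Cn (Bx z (m ^ 2)) ω u v} :=
      fun z u v hu hv p hp hp' => hbox m hmM' z u v hu hv p (hp1.trans hp) hp'
    have hq1 : c1 / (m : ℝ) ^ (d - 2) ≤ 1 := by
      have hP : IsProbabilityMeasure (perc d (p0 + ε / 2)) :=
        isProb_perc _ (by linarith) hp1'.le
      exact (hq 0 0 0 (by simp [nm_zero]) (by simp [nm_zero]) (p0 + ε / 2) le_rfl hp1'.le).trans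
        measureReal_le_one
    have hh : (perc d (p0 + ε / 2)).real (Hole m (4 * R)) ≤ Real.exp (-(c' * Real.sqrt m)) :=
      (hole_bound (d := d) p0 h0 m (4 * R) (by omega) _ hκ (p0 + ε / 2) hp1 hp1').trans hexp
    have hlu := local_uniq (d := d) (by omega) (p1 := p0 + ε / 2) (s := s) (s' := s')
      (q0 := c1 / (m : ℝ) ^ (d - 2)) (h := Real.exp (-(c' * Real.sqrt m))) (by linarith) hp1'.le
      hs0' hs1' R m (m ^ 2) (II m) (R / II m) (R / II m / (2 * m ^ 2 + 1)) hss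
      (by nlinarith) (by rw [hR]; exact hI1) (Nat.mul_div_le _ _) (Nat.div_mul_le_self _ _)
      (by positivity) hq1 hq hh
    rw [← hR]
    refine hlu.trans ?_
    have hx0 : 0 ≤ c1 / (m : ℝ) ^ (d - 2) * s' ^ 2 := by positivity
    have hx1 : c1 / (m : ℝ) ^ (d - 2) * s' ^ 2 ≤ 1 :=
      mul_le_one₀ hq1 (sq_nonneg _) (pow_le_one₀ hs0' hs1')
    have hpow : (1 - c1 / (m : ℝ) ^ (d - 2) * s' ^ 2) ^ (R / II m / (2 * m ^ 2 + 1)) ≤
        Real.exp (-(c' * Real.sqrt m)) := by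
      calc (1 - c1 / (m : ℝ) ^ (d - 2) * s' ^ 2) ^ (R / II m / (2 * m ^ 2 + 1)) ≤
          Real.exp (-(c1 / (m : ℝ) ^ (d - 2) * s' ^ 2)) ^ (R / II m / (2 * m ^ 2 + 1)) :=
            pow_le_pow_left₀ (by linarith) (Real.one_sub_le_exp_neg _) _
        _ = Real.exp (((R / II m / (2 * m ^ 2 + 1) : ℕ) : ℝ) *
              (-(c1 / (m : ℝ) ^ (d - 2) * s' ^ 2))) := (Real.exp_nat_mul _ _).symm
        _ ≤ Real.exp (-(c' * Real.sqrt m)) := by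
            rw [Real.exp_le_exp]
            have h3 := hnn m hmN' ε s' hε hε1 hεm hsε'
            rw [← hR] at h3
            have h4 : c' * Real.sqrt m ≤ cn * Real.sqrt m := mul_le_mul_of_nonneg_right hc'2 hsq0
            linarith
    refine (TailA_pre R (II m) m (2 * d - 3) d (by omega) hR hIm _ _ _ le_rfl hpow hE0).trans ?_
    have h5 := hmE m hmE'
    exact h5
  · -- no infinite cluster
    have h3 := no_inf (d := d) p0 h0 m _ hκ (p0 + ε / 2) hp1 hp1'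
    refine (h3.trans hexp).trans ?_
    rw [Real.exp_le_exp]
    have : c' / 2 * Real.sqrt m ≤ c' * Real.sqrt m := mul_le_mul_of_nonneg_right (by linarith) hsq0
    linarith

end H95LBD
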